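import Pool.Agent.H9.FC.Defs

/-!
# Project FC9, module FormS

The symmetric group `S₃` acts on a product of linear forms.

PROOF. Write `f_{u,v}(x, y) = ∏ (x u_i + y v_i)`.  (1): `f_{u,v}(x, y) = f_{u,v}(y, x)` is `h1`. Since
`w_i = -u_i - v_i`, `f_{v,w}(x, y) = f_{u,v}(-y, x - y)`, and `h2` gives
`f_{u,v}(-y, x-y) = f_{u,v}(-x, y-x)` for all `x, y`, i.e. with `f = f_{u,v}`, `f(s, t) = f(s - t, -t)` (2)
(put `s = -y`, `t = x - y`).
Now `f_{v,w}(x,y) = f(-y, x-y) = f(x-y, -y) = f(x, y)` by (1), (2); `f_{w,v}(x,y) = f_{v,w}(y,x) =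
f(y,x) = f(x,y)`; `f_{w,u}(x,y) = ∏ (-x u - x v + y u) = f(y - x, -x) = f(y, x) = f(x, y)` by (2),
(1); `f_{u,w}(x,y) = f_{w,u}(y,x) = f(x,y)`.
`sum_antisymm`: differentiate `h1` at `(1, 1)`... precisely: for all `t`,
`∏ (u_i + t v_i) = ∏ (v_i + t u_i)` (`x = 1, y = t`), both sides are polynomials in `t` (`Ω` infinite), so the
derivatives at `t = 1` agree; divide by the common value `∏ (u_i + v_i) = ∏ (-w_i) ≠ 0`:
`∑ v_i/(u_i + v_i) = ∑ u_i/(u_i + v_i)`.
-/

namespace H9FC

theorem forms_eq {Ω : Type*} [Field Ω] {ι : Type*} [Fintype ι] (u v w : ι → Ω)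
    (huvw : ∀ i, u i + v i + w i = 0)
    (h1 : ∀ x y : Ω, ∏ i, (x * v i + y * u i) = ∏ i, (x * u i + y * v i))
    (h2 : ∀ x y : Ω, ∏ i, (x * w i + y * v i) = ∏ i, (x * v i + y * w i)) (x y : Ω) :
    (∏ i, (x * v i + y * w i) = ∏ i, (x * u i + y * v i)) ∧
    (∏ i, (x * w i + y * v i) = ∏ i, (x * u i + y * v i)) ∧
    (∏ i, (x * w i + y * u i) = ∏ i, (x * u i + y * v i)) ∧
    (∏ i, (x * u i + y * w i) = ∏ i, (x * u i + y * v i)) := by
  obtain ⟨f, hf⟩ : ∃ f : Ω → Ω → Ω, f = fun x y => ∏ i, (x * u i + y * v i) := ⟨_, rfl⟩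
  have hs : ∀ x y, f x y = f y x := by
    intro x y
    rw [hf]
    change ∏ i, (x * u i + y * v i) = ∏ i, (y * u i + x * v i)
    rw [← h1 x y]
    exact Finset.prod_congr rfl fun i _ => add_comm _ _
  have hvw : ∀ x y, ∏ i, (x * v i + y * w i) = f (-y) (x - y) := by
    intro x y
    rw [hf]
    refine Finset.prod_congr rfl fun i _ => ?_
    have hw : w i = -u i - v i := by linear_combination huvw i
    rw [hw]
    ring
  have hwv : ∀ x y, ∏ i, (x * w i + y * v i) = f (-x) (y - x) := by
    intro x y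
    rw [hf]
    refine Finset.prod_congr rfl fun i _ => ?_
    have hw : w i = -u i - v i := by linear_combination huvw i
    rw [hw]
    ring
  have h2' : ∀ s t, f s t = f (s - t) (-t) := by
    intro s t
    have h3 := h2 (t - s) (-s)
    rw [hvw, hwv] at h3
    have e1 : -(-s) = s := by ring
    have e2 : t - s - -s = t := by ring
    have e3 : -(t - s) = s - t := by ring
    have e4 : -s - (t - s) = -t := by ring
    rw [e1, e2, e3, e4] at h3
    exact h3.symm
  have hA : ∀ x y, ∏ i, (x * v i + y * w i) = f x y := by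
    intro x y
    rw [hvw, hs, h2', show x - y - -y = x by ring, show -(-y) = y by ring]
  have hwu : ∀ x y, ∏ i, (x * w i + y * u i) = f (y - x) (-x) := by
    intro x y
    rw [hf]
    refine Finset.prod_congr rfl fun i _ => ?_
    have hw : w i = -u i - v i := by linear_combination huvw i
    rw [hw]
    ring
  have hC : ∀ x y, ∏ i, (x * w i + y * u i) = f x y := by
    intro x y
    rw [hwu, ← h2', hs]
  have hf' : ∏ i, (x * u i + y * v i) = f x y := by rw [hf]
  rw [hf']
  refine ⟨hA x y, ?_, hC x y, ?_⟩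
  · rw [h2 x y]
    exact hA x y
  · rw [hs, ← hC y x]
    exact Finset.prod_congr rfl fun i _ => add_comm _ _


theorem sum_antisymm {Ω : Type*} [Field Ω] [Infinite Ω] {ι : Type*} [Fintype ι] (u v w : ι → Ω)
    (hw : ∀ i, w i ≠ 0) (huvw : ∀ i, u i + v i + w i = 0)
    (h1 : ∀ x y : Ω, ∏ i, (x * v i + y * u i) = ∏ i, (x * u i + y * v i)) :
    ∑ i, (u i - v i) / w i = 0 := by
  classical
  have hP : ∏ i, (Polynomial.C (u i) + Polynomial.X * Polynomial.C (v i)) =
      ∏ i, (Polynomial.C (v i) + Polynomial.X * Polynomial.C (u i)) := by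
    apply Polynomial.funext
    intro t
    rw [Polynomial.eval_prod, Polynomial.eval_prod]
    have h3 := h1 1 t
    simp only [one_mul] at h3
    simp only [Polynomial.eval_add, Polynomial.eval_mul, Polynomial.eval_C, Polynomial.eval_X]
    exact h3.symm
  have hd : Polynomial.eval 1 (Polynomial.derivative
      (∏ i, (Polynomial.C (u i) + Polynomial.X * Polynomial.C (v i)))) =
      Polynomial.eval 1 (Polynomial.derivative
      (∏ i, (Polynomial.C (v i) + Polynomial.X * Polynomial.C (u i)))) := by rw [hP]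
  rw [Polynomial.derivative_prod_finset, Polynomial.derivative_prod_finset] at hd
  simp only [Polynomial.eval_finsetSum, Polynomial.eval_mul,
    Polynomial.eval_prod, Polynomial.eval_add, Polynomial.eval_C, Polynomial.eval_X,
    Polynomial.derivative_add, Polynomial.derivative_C, Polynomial.derivative_mul,
    Polynomial.derivative_X, one_mul, mul_zero, add_zero, zero_add] at hd
  have hw' : ∀ i, u i + v i = -w i := fun i => by linear_combination huvw i
  have hw'' : ∀ i, v i + u i = -w i := fun i => by linear_combination huvw i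
  simp only [hw', hw''] at hd
  have hprod : (∏ i, -w i) ≠ 0 := Finset.prod_ne_zero_iff.2 fun i _ => neg_ne_zero.2 (hw i)
  have he : ∀ i, (∏ j ∈ Finset.univ.erase i, -w j) = (∏ j, -w j) * (-(1 / w i)) := by
    intro i
    rw [← Finset.mul_prod_erase Finset.univ (fun j => -w j) (Finset.mem_univ i)]
    have := hw i
    field_simp
  have h4 : (∏ j, -w j) * ∑ i, (u i - v i) / w i = 0 := by
    rw [Finset.mul_sum]
    have h5 : ∀ i, (∏ j, -w j) * ((u i - v i) / w i) =
        (∏ j ∈ Finset.univ.erase i, -w j) * v i - (∏ j ∈ Finset.univ.erase i, -w j) * u i := by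
      intro i
      rw [he i]
      ring
    rw [Finset.sum_congr rfl fun i _ => h5 i, Finset.sum_sub_distrib, hd, sub_self]
  exact (mul_eq_zero.1 h4).resolve_left hprod


end H9FC
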