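import Pool.Agent.H9.FC.Red

/-!
# Project FC9, module LocDeg

The number of members of a reduced family which kill `x` is the sum `mm K q x` of the local degrees
of the primes above `q` containing `x`.

PROOF. It is enough to show that for every prime `P ∋ q` of `𝓞 K` the number `n_P` of the `i` with
`ker ψ_i = P` is `e f`, `e` the ramification index and `f` the inertia degree of `P` (then sum over the
`P` with `x ∈ P`: `ψ_i x = 0` iff `x ∈ ker ψ_i`, and `ker ψ_i` is a prime containing `q`).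
Choose `y ∈ P` which lies in no other prime containing `q`. By `redFam_eval` (for `nf K y (-1)`,
or `nf K y 1`) the polynomial `N(y + X)` modulo `q` is `∏ (ψ_i y + X)`, so `X` divides it exactly
`n_P` times (`ψ_i y = 0` iff `ker ψ_i = P`). On the other hand it is up to sign of `X` the
characteristic polynomial of the multiplication by `-y` on the `𝔽_q`-vector space
`V = 𝓞 K / (q)`, and the multiplicity of its zero `0` is the dimension of the generalised kernel of
`y` (Mathlib: `LinearMap.finrank_maxGenEigenspace_zero_eq`, `Module.End`...), which is the dimension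
of `𝓞 K / P^e`, because `V = ∏_{P'} 𝓞 K / P'^{e(P')}`, `y` is nilpotent on the factor of `P` and
invertible on the others; `|𝓞 K / P^e| = |𝓞 K / P|^e = q^(e f)`.
(Alternative proof with the Galois closure `N`: for the family of `exists_redFam` count the
elements of the Galois group `G` of `N`; and show that `n_P` does not depend on the family,
being the multiplicity of `X` in `N(y + X)` modulo `q`.
Another proof: `n_P ≥ e f` for all `P` and `∑ n_P = d = ∑ e f` (`Ideal.sum_ramification_inertia`).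
For `n_P ≥ e f` it is enough that `q^(e f)`..., e.g. take `y` with exponent exactly `1` at `P` and
`0` at the other primes above `q`, and consider `|𝓞 K / (y^n, q)|`.)
-/

namespace H9FC

open Polynomial NumberField

section mult

variable {K : Type*} [Field K] [NumberField K]

/-- the matrix of the multiplication by `x`, modulo `q` -/
private noncomputable def LocDeg_A (K : Type*) [Field K] [NumberField K] (q : ℕ) (x : 𝓞 K) :
    Matrix (Module.Free.ChooseBasisIndex ℤ (𝓞 K)) (Module.Free.ChooseBasisIndex ℤ (𝓞 K)) (ZMod q) :=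
  (Algebra.leftMulMatrix (RingOfIntegers.basis K) x).map (Int.castRingHom (ZMod q))

private theorem LocDeg_nf (x : 𝓞 K) :
    nf K (-x) 1 = (Algebra.leftMulMatrix (RingOfIntegers.basis K) x).charpoly := by
  unfold nf Matrix.charpoly Matrix.charmatrix
  congr 1
  rw [map_neg, map_one]
  ext i j
  simp [Matrix.scalar_apply, Matrix.diagonal, Matrix.one_apply]
  by_cases hij : i = j
  · simp [hij, add_comm, sub_eq_add_neg]
  · simp [hij]

private theorem LocDeg_card (q : ℕ) [Fact q.Prime] {Ω : Type*} [Field Ω] [CharP Ω q]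
    {ψ : Fin (Module.finrank ℚ K) → (𝓞 K →+* Ω)} (hψ : IsRedFam ψ) (x : 𝓞 K) :
    Nat.card {i // ψ i x = 0} = (LocDeg_A K q x).charpoly.rootMultiplicity 0 := by
  classical
  let f : ZMod q →+* Ω := ZMod.castHom (dvd_refl q) Ω
  have hf : Function.Injective f := f.injective
  have h1 : (LocDeg_A K q x).charpoly.map f = ∏ i, (X - C (ψ i x)) := by
    unfold LocDeg_A
    rw [Matrix.charpoly_map, ← LocDeg_nf, Polynomial.map_map]
    have h2 : f.comp (Int.castRingHom (ZMod q)) = Int.castRingHom Ω := RingHom.ext_int _ _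
    rw [h2, hψ (-x) 1]
    refine Finset.prod_congr rfl fun i _ => ?_
    rw [map_neg, map_one, C_neg, C_1, mul_one]
    ring
  rw [eq_rootMultiplicity_map hf, map_zero, h1, ← count_roots]
  have h3 : (∏ i, (X - C (ψ i x))).roots = (Finset.univ.val.map (fun i => ψ i x)) := by
    rw [← roots_multiset_prod_X_sub_C (Finset.univ.val.map (fun i => ψ i x)), Multiset.map_map]
    rfl
  rw [h3, Multiset.count_map, Nat.card_eq_fintype_card, Fintype.card_subtype]
  rw [Finset.card_def, Finset.filter_val]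
  congr 1
  refine Multiset.filter_congr fun i _ => ?_
  exact eq_comm

end mult

section coker

variable {K : Type*} [Field K] [NumberField K]

/-- coordinates modulo `q` -/
private noncomputable def LocDeg_pi (K : Type*) [Field K] [NumberField K] (q : ℕ) :
    𝓞 K →+ (Module.Free.ChooseBasisIndex ℤ (𝓞 K) → ZMod q) where
  toFun v := fun j => (((RingOfIntegers.basis K).repr v j : ℤ) : ZMod q)
  map_zero' := by
    ext j
    simp
  map_add' v w := by
    ext j
    simp

private theorem LocDeg_pi_apply (q : ℕ) (v : 𝓞 K) (j : Module.Free.ChooseBasisIndex ℤ (𝓞 K)) :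
    LocDeg_pi K q v j = (((RingOfIntegers.basis K).repr v j : ℤ) : ZMod q) := rfl

private theorem LocDeg_vec (w : Module.Free.ChooseBasisIndex ℤ (𝓞 K) → ℤ) :
    ∃ v : 𝓞 K, ∀ j, (RingOfIntegers.basis K).repr v j = w j := by
  refine ⟨(RingOfIntegers.basis K).equivFun.symm w, fun j => ?_⟩
  rw [← Module.Basis.equivFun_apply, LinearEquiv.apply_symm_apply]

private theorem LocDeg_pi_surj (q : ℕ) [NeZero q] : Function.Surjective (LocDeg_pi K q) := by
  intro w
  obtain ⟨v, hv⟩ := LocDeg_vec (K := K) (fun j => ((w j).val : ℤ))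
  refine ⟨v, ?_⟩
  ext j
  rw [LocDeg_pi_apply, hv]
  push_cast
  exact ZMod.natCast_zmod_val _

private theorem LocDeg_pi_zero (q : ℕ) (v : 𝓞 K) : LocDeg_pi K q v = 0 ↔ ∃ u : 𝓞 K, v = (q : 𝓞 K) * u := by
  have hq : ∀ u : 𝓞 K, (q : 𝓞 K) * u = (q : ℤ) • u := by
    intro u
    rw [zsmul_eq_mul]
    push_cast
    rfl
  constructor
  · intro h
    have h1 : ∀ j, ∃ k : ℤ, (RingOfIntegers.basis K).repr v j = q * k := by
      intro j
      have h2 := congrFun h j
      rw [LocDeg_pi_apply] at h2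
      exact (ZMod.intCast_zmod_eq_zero_iff_dvd _ _).1 h2
    choose k hk using h1
    obtain ⟨u, hu⟩ := LocDeg_vec (K := K) k
    refine ⟨u, ?_⟩
    apply (RingOfIntegers.basis K).repr.injective
    ext j
    rw [hk, hq, map_zsmul, Finsupp.smul_apply, hu, smul_eq_mul]
  · rintro ⟨u, rfl⟩
    ext j
    rw [LocDeg_pi_apply, hq, map_zsmul, Finsupp.smul_apply, smul_eq_mul]
    push_cast
    rw [ZMod.natCast_self, zero_mul]
    rfl

private theorem LocDeg_pi_mul (q : ℕ) (x v : 𝓞 K) :
    LocDeg_pi K q (x * v) = (LocDeg_A K q x).mulVec (LocDeg_pi K q v) := by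
  ext j
  rw [LocDeg_pi_apply, ← Algebra.leftMulMatrix_mulVec_repr]
  unfold LocDeg_A Matrix.mulVec dotProduct
  push_cast
  rfl

private theorem LocDeg_pi_pow (q : ℕ) [NeZero q] (x v : 𝓞 K) (n : ℕ) :
    LocDeg_pi K q (x ^ n * v) = ((Matrix.toLin' (LocDeg_A K q x)) ^ n) (LocDeg_pi K q v) := by
  induction n with
  | zero => simp
  | succ n ih =>
    rw [pow_succ', mul_assoc, LocDeg_pi_mul, ih, pow_succ', Module.End.mul_apply, Matrix.toLin'_apply]

/-- the ideal `(x ^ n, q)` -/
private theorem LocDeg_norm (q : ℕ) [Fact q.Prime] (x : 𝓞 K) (n : ℕ) :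
    Ideal.absNorm (Ideal.span {x ^ n} ⊔ Ideal.span {(q : 𝓞 K)}) =
      q ^ Module.finrank (ZMod q) (LinearMap.ker ((Matrix.toLin' (LocDeg_A K q x)) ^ n)) := by
  classical
  have : NeZero q := ⟨(Fact.out : q.Prime).ne_zero⟩
  set φ := (Matrix.toLin' (LocDeg_A K q x)) ^ n with hφ
  let N := LinearMap.range φ
  let g : 𝓞 K →+ ((Module.Free.ChooseBasisIndex ℤ (𝓞 K) → ZMod q) ⧸ N) :=
    (N.mkQ.toAddMonoidHom).comp (LocDeg_pi K q)
  have hg : Function.Surjective g := (Submodule.mkQ_surjective N).comp (LocDeg_pi_surj q)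
  have hker : g.ker = (Ideal.span {x ^ n} ⊔ Ideal.span {(q : 𝓞 K)} : Ideal (𝓞 K)).toAddSubgroup := by
    ext v
    rw [AddMonoidHom.mem_ker, Submodule.mem_toAddSubgroup]
    have e1 : g v = 0 ↔ LocDeg_pi K q v ∈ N := by
      show N.mkQ (LocDeg_pi K q v) = 0 ↔ _
      rw [Submodule.mkQ_apply, Submodule.Quotient.mk_eq_zero]
    rw [e1]
    constructor
    · rintro ⟨w, hw⟩
      obtain ⟨u, rfl⟩ := LocDeg_pi_surj q w
      rw [hφ, ← LocDeg_pi_pow] at hw
      have h1 : LocDeg_pi K q (v - x ^ n * u) = 0 := by rw [map_sub, hw, sub_self]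
      obtain ⟨t, ht⟩ := (LocDeg_pi_zero q _).1 h1
      have h2 : v = x ^ n * u + (q : 𝓞 K) * t := by rw [← ht]; ring
      rw [h2]
      exact Ideal.add_mem _ (Ideal.mem_sup_left (Ideal.mul_mem_right _ _ (Ideal.mem_span_singleton_self _)))
        (Ideal.mem_sup_right (Ideal.mul_mem_right _ _ (Ideal.mem_span_singleton_self _)))
    · intro hv
      rw [Submodule.mem_sup] at hv
      obtain ⟨y, hy, z, hz, rfl⟩ := hv
      obtain ⟨u, rfl⟩ := Ideal.mem_span_singleton'.1 hy
      obtain ⟨t, rfl⟩ := Ideal.mem_span_singleton'.1 hz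
      refine ⟨LocDeg_pi K q u, ?_⟩
      rw [hφ, ← LocDeg_pi_pow, map_add, (LocDeg_pi_zero q (t * (q : 𝓞 K))).2 ⟨t, mul_comm _ _⟩, add_zero, mul_comm]
  have h1 : Ideal.absNorm (Ideal.span {x ^ n} ⊔ Ideal.span {(q : 𝓞 K)}) = g.ker.index := by
    rw [hker]
    rfl
  rw [h1, AddSubgroup.index_ker]
  have h2 : Nat.card g.range = Nat.card ((Module.Free.ChooseBasisIndex ℤ (𝓞 K) → ZMod q) ⧸ N) := by
    rw [AddMonoidHom.range_eq_top.2 hg]
    exact Nat.card_congr (AddSubgroup.topEquiv).toEquiv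
  rw [h2, Module.natCard_eq_pow_finrank (K := ZMod q), Nat.card_zmod]
  congr 1
  have h3 : Module.finrank (ZMod q) ((Module.Free.ChooseBasisIndex ℤ (𝓞 K) → ZMod q) ⧸ N) +
      Module.finrank (ZMod q) (LinearMap.range φ) =
      Module.finrank (ZMod q) (Module.Free.ChooseBasisIndex ℤ (𝓞 K) → ZMod q) :=
    Submodule.finrank_quotient_add_finrank N
  have h4 := LinearMap.finrank_range_add_finrank_ker φ
  omega

private theorem LocDeg_gen (q : ℕ) [Fact q.Prime] (x : 𝓞 K) (n : ℕ)
    (hn : Fintype.card (Module.Free.ChooseBasisIndex ℤ (𝓞 K)) ≤ n) :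
    Module.finrank (ZMod q) (LinearMap.ker ((Matrix.toLin' (LocDeg_A K q x)) ^ n)) =
      (LocDeg_A K q x).charpoly.rootMultiplicity 0 := by
  set φ := Matrix.toLin' (LocDeg_A K q x) with hφ
  have h1 : (LocDeg_A K q x).charpoly = φ.charpoly := by
    rw [hφ, Matrix.charpoly_toLin']
  have h2 : Module.End.maxGenEigenspace φ 0 = Module.End.genEigenspace φ 0 (n : ℕ∞) := by
    apply le_antisymm
    · rw [Module.End.maxGenEigenspace_eq_genEigenspace_finrank]
      apply (Module.End.genEigenspace φ 0).monotone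
      rw [Module.finrank_pi]
      exact_mod_cast hn
    · exact (Module.End.genEigenspace φ 0).monotone le_top
  rw [h1, rootMultiplicity_eq_natTrailingDegree', ← LinearMap.finrank_maxGenEigenspace_zero_eq, h2,
    Module.End.genEigenspace_nat, zero_smul, sub_zero]

end coker

section ideals

variable {K : Type*} [Field K] [NumberField K]

private theorem LocDeg_J (q : ℕ) [Fact q.Prime] (x : 𝓞 K) : ∃ n0 : ℕ, ∀ n : ℕ, n0 ≤ n →
    Ideal.absNorm (Ideal.span {x ^ n} ⊔ Ideal.span {(q : 𝓞 K)}) = q ^ mm K q x := by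
  classical
  have hqp : q.Prime := Fact.out
  let p : Ideal ℤ := Ideal.span {(q : ℤ)}
  have hpmax : p.IsMaximal := Int.ideal_span_isMaximal_of_prime q
  have hp0 : p ≠ 0 := by
    show Ideal.span {(q : ℤ)} ≠ ⊥
    rw [Ne, Ideal.span_singleton_eq_bot]
    exact_mod_cast hqp.ne_zero
  have hmap : Ideal.map (algebraMap ℤ (𝓞 K)) p = Ideal.span {(q : 𝓞 K)} := by
    show Ideal.map (algebraMap ℤ (𝓞 K)) (Ideal.span {(q : ℤ)}) = _
    rw [Ideal.map_span, Set.image_singleton, map_natCast]
  have hfac := Ideal.map_algebraMap_eq_finsetProd_pow (S := ℤ) (R := 𝓞 K) hp0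
  rw [hmap] at hfac
  set T : Finset (Ideal (𝓞 K)) := (p.primesOver (𝓞 K)).toFinset with hT
  have hTmem : ∀ P, P ∈ T ↔ P ∈ p.primesOver (𝓞 K) := fun P => Set.mem_toFinset
  have hTmax : ∀ P ∈ T, P.IsMaximal := by
    intro P hP
    have h1 := (hTmem P).1 hP
    have h2 : P.IsPrime := h1.1
    have h3 : P.LiesOver p := h1.2
    exact Ideal.IsMaximal.of_liesOver_isMaximal P p
  set e : Ideal (𝓞 K) → ℕ := fun P => P.ramificationIdx ℤ with he
  set S1 := T.filter (fun P => x ∈ P) with hS1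
  set S2 := T.filter (fun P => ¬ x ∈ P) with hS2
  have hsplit : Ideal.span {(q : 𝓞 K)} = (∏ P ∈ S1, P ^ e P) * ∏ P ∈ S2, P ^ e P := by
    rw [hfac, hS1, hS2, Finset.prod_filter_mul_prod_filter_not]
  set I1 := ∏ P ∈ S1, P ^ e P with hI1
  set I2 := ∏ P ∈ S2, P ^ e P with hI2
  refine ⟨∑ P ∈ T, e P, ?_⟩
  intro n hn
  have hcop : ∀ P ∈ T, ∀ Q ∈ T, P ≠ Q → IsCoprime P Q := by
    intro P hP Q hQ hne
    rw [Ideal.isCoprime_iff_sup_eq]
    exact Ideal.IsMaximal.coprime_of_ne (hTmax P hP) (hTmax Q hQ) hne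
  have h1 : Ideal.span {x ^ n} ≤ I1 := by
    rw [← Ideal.dvd_iff_le, hI1]
    apply Finset.prod_dvd_of_coprime
    · intro P hP Q hQ hne
      have hP' : P ∈ T := (Finset.mem_filter.1 (Finset.mem_coe.1 hP)).1
      have hQ' : Q ∈ T := (Finset.mem_filter.1 (Finset.mem_coe.1 hQ)).1
      exact (hcop P hP' Q hQ' hne).pow
    · intro P hP
      have hP' := Finset.mem_filter.1 hP
      have h2 : e P ≤ n := (Finset.single_le_sum (f := e) (fun _ _ => Nat.zero_le _) hP'.1).trans hn
      have h3 : P ∣ Ideal.span {x} := Ideal.dvd_span_singleton.2 hP'.2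
      rw [← Ideal.span_singleton_pow]
      exact (pow_dvd_pow P h2).trans (pow_dvd_pow_of_dvd h3 n)
  have h2 : IsCoprime (Ideal.span {x ^ n}) I2 := by
    rw [hI2, ← Ideal.span_singleton_pow]
    apply IsCoprime.prod_right
    intro P hP
    have hP' := Finset.mem_filter.1 hP
    apply IsCoprime.pow
    rw [Ideal.isCoprime_iff_sup_eq]
    have hmax := hTmax P hP'.1
    by_contra hne
    have h3 : P ≤ Ideal.span {x} ⊔ P := le_sup_right
    have h4 := hmax.eq_of_le hne h3
    apply hP'.2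
    rw [h4]
    exact Ideal.mem_sup_left (Ideal.mem_span_singleton_self x)
  have h3 : Ideal.span {x ^ n} ⊔ Ideal.span {(q : 𝓞 K)} = I1 := by
    rw [hsplit]
    apply le_antisymm
    · exact sup_le h1 Ideal.mul_le_left
    · rw [Ideal.isCoprime_iff_sup_eq] at h2
      calc I1 = I1 * (Ideal.span {x ^ n} ⊔ I2) := by rw [h2, Ideal.mul_top]
        _ = I1 * Ideal.span {x ^ n} ⊔ I1 * I2 := Ideal.mul_sup _ _ _
        _ ≤ Ideal.span {x ^ n} ⊔ I1 * I2 := sup_le_sup_right Ideal.mul_le_right _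
  rw [h3, hI1, map_prod]
  have h4 : ∀ P ∈ S1, Ideal.absNorm (P ^ e P) = q ^ (P.ramificationIdx ℤ * P.inertiaDeg ℤ) := by
    intro P hP
    have hP' := (hTmem P).1 (Finset.mem_filter.1 hP).1
    have h5 : P.IsPrime := hP'.1
    have h6 : P.LiesOver (Ideal.span {(q : ℤ)}) := hP'.2
    rw [map_pow, ← Ideal.pow_inertiaDeg q P, ← pow_mul, mul_comm]
  rw [Finset.prod_congr rfl h4, Finset.prod_pow_eq_pow_sum]
  have hfin : ({P : Ideal (𝓞 K) | P ∈ Ideal.primesOver (Ideal.span {(q : ℤ)}) (𝓞 K) ∧ x ∈ P}).Finite := by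
    apply Set.Finite.subset T.finite_toSet
    intro P hP
    exact (hTmem P).2 hP.1
  congr 1
  unfold mm
  rw [finsum_mem_eq_finite_toFinset_sum _ hfin]
  apply Finset.sum_congr _ (fun _ _ => rfl)
  ext P
  rw [hS1, Finset.mem_filter, hTmem, Set.Finite.mem_toFinset]
  exact Iff.rfl

end ideals

theorem card_zero_eq_mm {K : Type*} [Field K] [NumberField K] (q : ℕ) [Fact q.Prime]
    {Ω : Type*} [Field Ω] [CharP Ω q] {ψ : Fin (Module.finrank ℚ K) → (𝓞 K →+* Ω)}
    (hψ : IsRedFam ψ) (x : 𝓞 K) : Nat.card {i // ψ i x = 0} = mm K q x := by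
  obtain ⟨n0, hn0⟩ := LocDeg_J (K := K) q x
  have h1 := hn0 (n0 + Fintype.card (Module.Free.ChooseBasisIndex ℤ (𝓞 K))) (by omega)
  rw [LocDeg_norm, LocDeg_gen q x _ (by omega), ← LocDeg_card q hψ x] at h1
  exact Nat.pow_right_injective (Fact.out : q.Prime).two_le h1

end H9FC
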