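import Pool.Agent.H9.FC.Defs

/-!
# Project FC9, module CountS

Counting with the `S₃`-symmetric norm form.

PROOF. Let `d = #ι`, and `n(t)` the number of the `i` with `v_i = t u_i` (`t ∈ Ω`).  The polynomial
`g(T) = ∏ (T u_i - v_i)` has the zero `t` with multiplicity `n(t)` (all `u_i ≠ 0`), and by `h1`
(with `x = T`, `y = -1`, for infinitely many, hence as polynomials) it is equal to
`∏ (T v_i - u_i)`, for which `t ≠ 0` is a zero of multiplicity `#{i : u_i = t v_i} = n(1/t)`. So
`n(t) = n(1/t)` for `t ≠ 0`.  Similarly by `h2` it is `∏ (T u_i - w_i) = ∏ ((T + 1) u_i + v_i)`, with the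
zero `t` of multiplicity `#{i : v_i = (-1-t) u_i} = n(-1-t)`. `n(0) = 0` and so `n(-1) = 0`
(`w_i ≠ 0`).
(A) Let `d` be odd.  The involution `t ↦ 1/t` of the finite set of the `t` with `n(t) > 0` preserves `n`,
and its only fixed points are `t = ± 1`, so `d = ∑ n(t) ≡ n(1) + n(-1) = n(1)` modulo `2`
(`p ≠ 2`), so `n(1) > 0`; hence `n(-2) = n(-1-1) = n(1) > 0` and `n(-1/2) = n(1/(-2)) = n(-2) > 0`. `t = 1`
means `u_i = v_i`; `t = -2` means `v_i = -2 u_i`, i.e. `w_i = u_i`; `t = -1/2` means
`u_i = -2 v_i`, i.e. `w_i = v_i`.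
(B) Let `3 ∤ d`.  The map `ρ : t ↦ -1 - 1/t` (`t ≠ 0, -1`) satisfies `ρ³ = id`, preserves `n`, and its
fixed points are the zeros of `t² + t + 1`, say `ω` and `1/ω = -1-ω`, with `n(ω) = n(1/ω)`. So
`d ≡ n(ω) + n(1/ω) = 2 n(ω)` modulo `3` (`ω ≠ 1/ω` as `p ≠ 3`), so `n(ω) > 0`.
-/

namespace H9FC

/-- an involution without fixed points -/
private theorem CountS_two {Ω : Type*} (σ : Ω → Ω) : ∀ (n : ℕ) (M : Multiset Ω),
    Multiset.card M = n → M.map σ = M → (∀ t ∈ M, σ t ≠ t) → (∀ t ∈ M, σ (σ t) = t) →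
    2 ∣ Multiset.card M := by
  classical
  intro n
  induction n using Nat.strong_induction_on with
  | _ n ih =>
    intro M hn hM h1 h2
    rcases Multiset.empty_or_exists_mem M with rfl | ⟨t, ht⟩
    · simp
    · have hmem : ∀ x ∈ M, σ x ∈ M := fun x hx => by
        have := Multiset.mem_map_of_mem σ hx
        rwa [hM] at this
      have hle : ({t, σ t} : Multiset Ω) ≤ M := by
        rw [Multiset.le_iff_subset]
        · intro x hx
          rw [Multiset.insert_eq_cons, Multiset.mem_cons, Multiset.mem_singleton] at hx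
          rcases hx with rfl | rfl
          · exact ht
          · exact hmem _ ht
        · rw [Multiset.insert_eq_cons, Multiset.nodup_cons, Multiset.mem_singleton]
          exact ⟨(h1 t ht).symm, Multiset.nodup_singleton _⟩
      obtain ⟨M', rfl⟩ := Multiset.le_iff_exists_add.1 hle
      have hcard : Multiset.card ({t, σ t} : Multiset Ω) = 2 := by simp
      rw [Multiset.card_add, hcard] at hn ⊢
      have hmap : ({t, σ t} : Multiset Ω).map σ = {t, σ t} := by
        rw [Multiset.insert_eq_cons, Multiset.map_cons, Multiset.map_singleton, h2 t ht]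
        exact Multiset.cons_swap _ _ _
      rw [Multiset.map_add, hmap, add_right_inj] at hM
      have := ih (Multiset.card M') (by omega) M' rfl hM
        (fun x hx => h1 x (Multiset.mem_add.2 (Or.inr hx)))
        (fun x hx => h2 x (Multiset.mem_add.2 (Or.inr hx)))
      omega

/-- a map of order three without fixed points -/
private theorem CountS_three {Ω : Type*} (σ : Ω → Ω) : ∀ (n : ℕ) (M : Multiset Ω),
    Multiset.card M = n → M.map σ = M → (∀ t ∈ M, σ t ≠ t) → (∀ t ∈ M, σ (σ (σ t)) = t) →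
    3 ∣ Multiset.card M := by
  classical
  intro n
  induction n using Nat.strong_induction_on with
  | _ n ih =>
    intro M hn hM h1 h2
    rcases Multiset.empty_or_exists_mem M with rfl | ⟨t, ht⟩
    · simp
    · have hmem : ∀ x ∈ M, σ x ∈ M := fun x hx => by
        have := Multiset.mem_map_of_mem σ hx
        rwa [hM] at this
      have n1 := h1 t ht
      have n2 := h1 _ (hmem t ht)
      have n3 : σ (σ t) ≠ t := by
        intro h
        apply n1
        have := h2 t ht
        rwa [h] at this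
      have hle : ({t, σ t, σ (σ t)} : Multiset Ω) ≤ M := by
        rw [Multiset.le_iff_subset]
        · intro x hx
          simp only [Multiset.insert_eq_cons, Multiset.mem_cons, Multiset.mem_singleton] at hx
          rcases hx with rfl | rfl | rfl
          · exact ht
          · exact hmem _ ht
          · exact hmem _ (hmem _ ht)
        · simp only [Multiset.insert_eq_cons, Multiset.nodup_cons, Multiset.mem_cons,
            Multiset.mem_singleton, not_or]
          exact ⟨⟨n1.symm, n3.symm⟩, n2.symm, Multiset.nodup_singleton _⟩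
      obtain ⟨M', rfl⟩ := Multiset.le_iff_exists_add.1 hle
      have hcard : Multiset.card ({t, σ t, σ (σ t)} : Multiset Ω) = 3 := by simp
      rw [Multiset.card_add, hcard] at hn ⊢
      have hmap : ({t, σ t, σ (σ t)} : Multiset Ω).map σ = {t, σ t, σ (σ t)} := by
        simp only [Multiset.insert_eq_cons, Multiset.map_cons, Multiset.map_singleton, h2 t ht]
        rw [← Multiset.singleton_add (σ t), ← Multiset.singleton_add (σ (σ t)),
          ← Multiset.singleton_add t, ← Multiset.singleton_add (σ t)]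
        abel
      rw [Multiset.map_add, hmap, add_right_inj] at hM
      have := ih (Multiset.card M') (by omega) M' rfl hM
        (fun x hx => h1 x (Multiset.mem_add.2 (Or.inr hx)))
        (fun x hx => h2 x (Multiset.mem_add.2 (Or.inr hx)))
      omega

/-- the roots of a product of linear polynomials -/
private theorem CountS_roots {Ω : Type*} [Field Ω] {ι : Type*} [Fintype ι] (a b : ι → Ω)
    (ha : ∀ i, a i ≠ 0) :
    (∏ i, (Polynomial.C (a i) * Polynomial.X - Polynomial.C (b i))).roots =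
      Finset.univ.val.map fun i => b i / a i := by
  have h1 : ∀ i, Polynomial.C (a i) * Polynomial.X - Polynomial.C (b i) =
      Polynomial.C (a i) * (Polynomial.X - Polynomial.C (b i / a i)) := by
    intro i
    rw [mul_sub, ← Polynomial.C_mul, mul_div_cancel₀ _ (ha i)]
  rw [Finset.prod_congr rfl fun i _ => h1 i, Finset.prod_mul_distrib, ← map_prod,
    Polynomial.roots_C_mul _ (Finset.prod_ne_zero_iff.2 fun i _ => ha i)]
  have h2 : ∏ i, (Polynomial.X - Polynomial.C (b i / a i)) =
      ((Finset.univ.val.map fun i => b i / a i).map fun x =>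
        Polynomial.X - Polynomial.C x).prod := by
    rw [Multiset.map_map]
    rfl
  rw [h2, Polynomial.roots_multiset_prod_X_sub_C]

private theorem CountS_eq {Ω : Type*} [Field Ω] [Infinite Ω] {ι : Type*} [Fintype ι]
    (a b c d : ι → Ω) (ha : ∀ i, a i ≠ 0) (hc : ∀ i, c i ≠ 0)
    (h : ∀ T : Ω, ∏ i, (a i * T - b i) = ∏ i, (c i * T - d i)) :
    (Finset.univ.val.map fun i => b i / a i) = Finset.univ.val.map fun i => d i / c i := by
  rw [← CountS_roots a b ha, ← CountS_roots c d hc]
  congr 1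
  apply Polynomial.funext
  intro T
  rw [Polynomial.eval_prod, Polynomial.eval_prod]
  simpa using h T

/-- the two symmetries -/
private theorem CountS_symm {Ω : Type*} [Field Ω] [Infinite Ω] {ι : Type*}
    [Fintype ι] (u v w : ι → Ω) (hu : ∀ i, u i ≠ 0) (hv : ∀ i, v i ≠ 0)
    (huvw : ∀ i, u i + v i + w i = 0)
    (h1 : ∀ x y : Ω, ∏ i, (x * v i + y * u i) = ∏ i, (x * u i + y * v i))
    (h2 : ∀ x y : Ω, ∏ i, (x * u i + y * w i) = ∏ i, (x * u i + y * v i)) :
    ((Finset.univ.val.map fun i => v i / u i).map fun t => t⁻¹) =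
        (Finset.univ.val.map fun i => v i / u i) ∧
      ((Finset.univ.val.map fun i => v i / u i).map fun t => -1 - t) =
        (Finset.univ.val.map fun i => v i / u i) := by
  constructor
  · rw [Multiset.map_map]
    have h := CountS_eq v u u v hv hu (fun T => by
      have := h1 T (-1)
      calc ∏ i, (v i * T - u i) = ∏ i, (T * v i + -1 * u i) :=
            Finset.prod_congr rfl fun i _ => by ring
        _ = ∏ i, (T * u i + -1 * v i) := this
        _ = _ := Finset.prod_congr rfl fun i _ => by ring)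
    rw [← h]
    refine Multiset.map_congr rfl fun i _ => ?_
    rw [Function.comp_apply, inv_div]
  · rw [Multiset.map_map]
    have h := CountS_eq u w u v hu hu (fun T => by
      have := h2 T (-1)
      calc ∏ i, (u i * T - w i) = ∏ i, (T * u i + -1 * w i) :=
            Finset.prod_congr rfl fun i _ => by ring
        _ = ∏ i, (T * u i + -1 * v i) := this
        _ = _ := Finset.prod_congr rfl fun i _ => by ring)
    rw [← h]
    refine Multiset.map_congr rfl fun i _ => ?_
    rw [Function.comp_apply, eq_div_iff (hu i), sub_mul, div_mul_cancel₀ _ (hu i)]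
    linear_combination -(huvw i)

private theorem CountS_mem {Ω : Type*} [Field Ω] {ι : Type*} [Fintype ι] (u v : ι → Ω)
    (hu : ∀ i, u i ≠ 0) (t : Ω) :
    t ∈ (Finset.univ.val.map fun i => v i / u i) ↔ ∃ i, v i = t * u i := by
  rw [Multiset.mem_map]
  constructor
  · rintro ⟨i, _, hi⟩
    exact ⟨i, by rw [← hi, div_mul_cancel₀ _ (hu i)]⟩
  · rintro ⟨i, hi⟩
    exact ⟨i, Finset.mem_univ_val i, by rw [hi, mul_div_cancel_right₀ _ (hu i)]⟩

theorem count_odd {Ω : Type*} [Field Ω] [Infinite Ω] (h2Ω : (2 : Ω) ≠ 0) {ι : Type*}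
    [Fintype ι] (u v w : ι → Ω) (hu : ∀ i, u i ≠ 0) (hv : ∀ i, v i ≠ 0) (hw : ∀ i, w i ≠ 0)
    (huvw : ∀ i, u i + v i + w i = 0)
    (h1 : ∀ x y : Ω, ∏ i, (x * v i + y * u i) = ∏ i, (x * u i + y * v i))
    (h2 : ∀ x y : Ω, ∏ i, (x * u i + y * w i) = ∏ i, (x * u i + y * v i))
    (hd : Odd (Fintype.card ι)) :
    (∃ i, u i = v i) ∧ (∃ i, v i = w i) ∧ (∃ i, w i = u i) := by
  classical
  obtain ⟨s1, s2⟩ := CountS_symm u v w hu hv huvw h1 h2
  have hmem := CountS_mem u v hu
  set M : Multiset Ω := Finset.univ.val.map fun i => v i / u i with hMd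
  have hcard : Multiset.card M = Fintype.card ι := by
    rw [hMd, Multiset.card_map]
    rfl
  have hM0 : ∀ t ∈ M, t ≠ 0 := by
    rintro t ht rfl
    obtain ⟨i, hi⟩ := (hmem 0).1 ht
    exact hv i (by rw [hi, zero_mul])
  have hM1 : ∀ t ∈ M, t ≠ -1 := by
    rintro t ht rfl
    obtain ⟨i, hi⟩ := (hmem (-1)).1 ht
    apply hw i
    linear_combination huvw i - hi
  have m1 : ∀ t ∈ M, t⁻¹ ∈ M := fun t ht => by
    have := Multiset.mem_map_of_mem (fun t => t⁻¹) ht
    rwa [s1] at this
  have m2 : ∀ t ∈ M, -1 - t ∈ M := fun t ht => by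
    have := Multiset.mem_map_of_mem (fun t => -1 - t) ht
    rwa [s2] at this
  have hone : (1 : Ω) ∈ M := by
    by_contra hcon
    have h := CountS_two (fun t : Ω => t⁻¹) _ M rfl s1 (fun t ht hfix => by
      have h0 := hM0 t ht
      have h3 : (t - 1) * (t + 1) = 0 := by
        have h4 : t * t = 1 := by
          have h5 : t⁻¹ = t := hfix
          calc t * t = t * t⁻¹ := by rw [h5]
            _ = 1 := mul_inv_cancel₀ h0
        linear_combination h4
      rcases mul_eq_zero.1 h3 with h4 | h4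
      · exact hcon (by rw [← sub_eq_zero.1 h4]; exact ht)
      · exact hM1 t ht (eq_neg_of_add_eq_zero_left h4)) (fun t _ => inv_inv t)
    rw [hcard] at h
    exact (Nat.not_even_iff_odd.2 hd) (even_iff_two_dvd.2 h)
  refine ⟨?_, ?_, ?_⟩
  · obtain ⟨i, hi⟩ := (hmem 1).1 hone
    exact ⟨i, by rw [hi, one_mul]⟩
  · have h3 := m1 _ (m2 _ hone)
    obtain ⟨i, hi⟩ := (hmem _).1 h3
    refine ⟨i, ?_⟩
    have h4 : (-1 - 1 : Ω) ≠ 0 := hM0 _ (m2 _ hone)
    have h5 : (-1 - 1) * v i = u i := by
      rw [hi, ← mul_assoc, mul_inv_cancel₀ h4, one_mul]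
    linear_combination -h5 - huvw i
  · obtain ⟨i, hi⟩ := (hmem _).1 (m2 _ hone)
    refine ⟨i, ?_⟩
    linear_combination huvw i - hi

theorem count_three {Ω : Type*} [Field Ω] [Infinite Ω] (h3Ω : (3 : Ω) ≠ 0) {ι : Type*}
    [Fintype ι] (u v w : ι → Ω) (hu : ∀ i, u i ≠ 0) (hv : ∀ i, v i ≠ 0) (hw : ∀ i, w i ≠ 0)
    (huvw : ∀ i, u i + v i + w i = 0)
    (h1 : ∀ x y : Ω, ∏ i, (x * v i + y * u i) = ∏ i, (x * u i + y * v i))
    (h2 : ∀ x y : Ω, ∏ i, (x * u i + y * w i) = ∏ i, (x * u i + y * v i))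
    (hd : ¬ 3 ∣ Fintype.card ι) (ω : Ω) (hω : ω ^ 2 + ω + 1 = 0) :
    ∃ i, v i = ω * u i := by
  classical
  obtain ⟨s1, s2⟩ := CountS_symm u v w hu hv huvw h1 h2
  have hmem := CountS_mem u v hu
  set M : Multiset Ω := Finset.univ.val.map fun i => v i / u i with hMd
  have hcard : Multiset.card M = Fintype.card ι := by
    rw [hMd, Multiset.card_map]
    rfl
  have hM0 : ∀ t ∈ M, t ≠ 0 := by
    rintro t ht rfl
    obtain ⟨i, hi⟩ := (hmem 0).1 ht
    exact hv i (by rw [hi, zero_mul])
  have hM1 : ∀ t ∈ M, t ≠ -1 := by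
    rintro t ht rfl
    obtain ⟨i, hi⟩ := (hmem (-1)).1 ht
    apply hw i
    linear_combination huvw i - hi
  have m2 : ∀ t ∈ M, -1 - t ∈ M := fun t ht => by
    have := Multiset.mem_map_of_mem (fun t => -1 - t) ht
    rwa [s2] at this
  rw [← hmem]
  by_contra hcon
  have s3 : (M.map fun t => -1 - t⁻¹) = M := by
    calc (M.map fun t => -1 - t⁻¹) = (M.map fun t => t⁻¹).map fun t => -1 - t :=
          (Multiset.map_map _ _ _).symm
      _ = M := by rw [s1, s2]
  have h := CountS_three (fun t : Ω => -1 - t⁻¹) _ M rfl s3 (fun t ht hfix => by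
    have h0 := hM0 t ht
    have h3 : -1 - t⁻¹ = t := hfix
    have h4 : t ^ 2 + t + 1 = 0 := by
      have h5 : t * (-1 - t⁻¹) = t * t := by rw [h3]
      rw [mul_sub, mul_inv_cancel₀ h0] at h5
      linear_combination -h5
    have h5 : (t - ω) * (t - (-1 - ω)) = 0 := by linear_combination h4 - hω
    rcases mul_eq_zero.1 h5 with h6 | h6
    · exact hcon (by rw [← sub_eq_zero.1 h6]; exact ht)
    · have h7 := m2 t ht
      rw [sub_eq_zero.1 h6, sub_sub_cancel] at h7
      exact hcon h7) (fun t ht => by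
    have h0 := hM0 t ht
    have h1' := hM1 t ht
    have h2' : t + 1 ≠ 0 := fun h => h1' (eq_neg_of_add_eq_zero_left h)
    have h3 : -1 - t⁻¹ = -(t + 1) / t := by
      field_simp
      ring
    have h4 : -1 - (-(t + 1) / t)⁻¹ = -1 / (t + 1) := by
      rw [inv_div]
      field_simp
      ring
    show -1 - (-1 - (-1 - t⁻¹)⁻¹)⁻¹ = t
    rw [h3, h4, inv_div]
    field_simp
    ring)
  rw [hcard] at h
  exact hd h

end H9FC
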