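import Pool.Agent.H9.FC.NfEmb

/-!
# Project FC9, module Red

Reductions of the family of all embeddings of `K` modulo a prime number `q`.

PROOF of `exists_redFam`. Let `N` be a number field containing all conjugates of `K` (for instance
the splitting field over `ℚ` of the minimal polynomial of a primitive element of `K`, or the
normal closure of `K`; there are exactly `d = [K:ℚ]` homomorphisms `σ : K → N`), `𝔓` a prime of
`𝓞 N` with `q ∈ 𝔓`. `𝓞 N ⧸ 𝔓` is a finite field of characteristic `q`, so it embeds into the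
algebraically closed field `Ω` (`IsAlgClosed.lift`; `ZMod q`-algebras). Enumerate the `σ` by
`Fin d` and let `ψ_i` be the composition `𝓞 K → 𝓞 N → 𝓞 N ⧸ 𝔓 → Ω`
(`RingOfIntegers.mapRingHom σ`). By `nf_map_prod` in `N[X]`, hence in `𝓞 N[X]` (injectivity), the
norm form is `∏ (σ a + X σ b)`; apply the homomorphism `𝓞 N → Ω`.
PROOFS of the others. `redFam_norm`: coefficient `0` of the norm form (`nf_coeff_zero`), or its value
at `0`. `redFam_trace`: coefficient of `X` in `nf K 1 x` (`nf_one_coeff_one`). `redFam_eval`: evaluate.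
`fsol_hom`: `0 = a^p + b^p + c^p`, so `(ψ a + ψ b + ψ c)^p = 0` (`add_pow_char`).
`cop_hom`: the kernel of `ψ : 𝓞 K → Ω` is a prime ideal containing `q`; if two of the three values
vanish, so does the third one (`a^p + b^p + c^p = 0`).
`exists_redFam_ker`: every prime `P ∋ q` is the kernel of some `ψ_i`: let `y ∈ P` be such that
`y ∉ P'` for all other primes `P' ∋ q` (there are finitely many; `Ideal.subset_union_prime` or CRT);
`N(y) ≡ 0` modulo `q` as `N(y) ∈ P ∩ ℤ`, so some `ψ_i y = 0` by `redFam_norm`, and `ker ψ_i` is a prime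
containing `q` and `y`, so `ker ψ_i = P`.
-/

namespace H9FC

open Polynomial NumberField

private theorem Red_hom (N : Type*) [Field N] [NumberField N] (q : ℕ) [Fact q.Prime]
    (Ω : Type*) [Field Ω] [IsAlgClosed Ω] [CharP Ω q] : Nonempty (𝓞 N →+* Ω) := by
  have hqp : q.Prime := Fact.out
  have hprime : (Ideal.span {(q : ℤ)}).IsPrime := by
    rw [Ideal.span_singleton_prime (by exact_mod_cast hqp.ne_zero)]
    exact Nat.prime_iff_prime_int.1 hqp
  obtain ⟨P, hP, hPl⟩ := (Ideal.span {(q : ℤ)}).nonempty_primesOver (S := 𝓞 N)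
  have hqP : (q : 𝓞 N) ∈ P := by
    have h1 : (q : ℤ) ∈ P.under ℤ := by
      rw [← hPl.over]
      exact Ideal.mem_span_singleton_self _
    have h2 : algebraMap ℤ (𝓞 N) (q : ℤ) ∈ P := h1
    simpa using h2
  have hP0 : P ≠ ⊥ := by
    intro h
    rw [h, Ideal.mem_bot] at hqP
    have : q = 0 := by exact_mod_cast hqP
    exact hqp.ne_zero this
  have hmax : P.IsMaximal := hP.isMaximal hP0
  let _ : Field (𝓞 N ⧸ P) := Ideal.Quotient.field P
  have hchar : CharP (𝓞 N ⧸ P) q := by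
    have h1 : ((q : ℕ) : 𝓞 N ⧸ P) = 0 := by
      have : ((q : ℕ) : 𝓞 N ⧸ P) = Ideal.Quotient.mk P (q : 𝓞 N) := by simp
      rw [this, Ideal.Quotient.eq_zero_iff_mem]
      exact hqP
    obtain ⟨r, hr⟩ := CharP.exists (𝓞 N ⧸ P)
    have h2 : r ∣ q := (CharP.cast_eq_zero_iff (𝓞 N ⧸ P) r q).1 h1
    rcases (Nat.dvd_prime hqp).1 h2 with h3 | h3
    · exfalso
      rw [h3] at hr
      exact CharP.ringChar_ne_one (R := 𝓞 N ⧸ P) (CharP.eq _ (ringChar.charP _) hr)
    · rw [← h3]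
      exact hr
  let _ : Algebra (ZMod q) (𝓞 N ⧸ P) := ZMod.algebra _ q
  let _ : Algebra (ZMod q) Ω := ZMod.algebra _ q
  have hfin : Finite (𝓞 N ⧸ P) := Ideal.finiteQuotientOfFreeOfNeBot P hP0
  have halg : Algebra.IsAlgebraic (ZMod q) (𝓞 N ⧸ P) := by
    have : Module.Finite (ZMod q) (𝓞 N ⧸ P) := Module.Finite.of_finite
    infer_instance
  exact ⟨((IsAlgClosed.lift : (𝓞 N ⧸ P) →ₐ[ZMod q] Ω) : (𝓞 N ⧸ P) →+* Ω).comp (Ideal.Quotient.mk P)⟩

theorem exists_redFam (K : Type*) [Field K] [NumberField K] (q : ℕ) [Fact q.Prime]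
    (Ω : Type*) [Field Ω] [IsAlgClosed Ω] [CharP Ω q] :
    ∃ ψ : Fin (Module.finrank ℚ K) → (𝓞 K →+* Ω), IsRedFam ψ := by
  let N := IntermediateField.normalClosure ℚ K ℂ
  have hNf : NumberField N := { to_charZero := inferInstance, to_finiteDimensional := inferInstance }
  have hcard : Fintype.card (K →ₐ[ℚ] N) = Module.finrank ℚ K :=
    (Fintype.card_congr (normalClosure.algHomEquiv ℚ K ℂ)).trans (AlgHom.card ℚ K ℂ)
  obtain ⟨χ⟩ := Red_hom N q Ω
  let e : Fin (Module.finrank ℚ K) ≃ (K →ₐ[ℚ] N) := (Fintype.equivFinOfCardEq hcard).symm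
  refine ⟨fun i => χ.comp (RingOfIntegers.mapRingHom (e i : K →+* N)), fun a b => ?_⟩
  have h1 : (nf K a b).map (Int.castRingHom (𝓞 N)) = ∏ σ : K →ₐ[ℚ] N,
      (C (RingOfIntegers.mapRingHom (σ : K →+* N) a) + X * C (RingOfIntegers.mapRingHom (σ : K →+* N) b)) := by
    apply map_injective (algebraMap (𝓞 N) N) RingOfIntegers.coe_injective
    rw [map_map]
    have h2 : (algebraMap (𝓞 N) N).comp (Int.castRingHom (𝓞 N)) = Int.castRingHom N := RingHom.ext_int _ _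
    rw [h2, nf_map_prod K N hcard, Polynomial.map_prod]
    refine Finset.prod_congr rfl fun σ _ => ?_
    rw [Polynomial.map_add, Polynomial.map_mul, map_C, map_C, map_X]
    rfl
  have h3 : (Int.castRingHom Ω) = χ.comp (Int.castRingHom (𝓞 N)) := (RingHom.ext_int _ _)
  rw [h3, ← map_map, h1, Polynomial.map_prod]
  rw [← Equiv.prod_comp e]
  refine Finset.prod_congr rfl fun i _ => ?_
  rw [Polynomial.map_add, Polynomial.map_mul, map_C, map_C, map_X]
  rfl

section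
variable {K : Type*} [Field K] [NumberField K] {Ω : Type*} [Field Ω]
  {ψ : Fin (Module.finrank ℚ K) → (𝓞 K →+* Ω)}

theorem redFam_eval (hψ : IsRedFam ψ) (a b : 𝓞 K) (z : Ω) :
    ((nf K a b).map (Int.castRingHom Ω)).eval z = ∏ i, (ψ i a + z * ψ i b) := by
  rw [hψ a b, eval_prod]
  refine Finset.prod_congr rfl fun i _ => ?_
  simp only [eval_add, eval_mul, eval_C, eval_X]

theorem redFam_norm (hψ : IsRedFam ψ) (x : 𝓞 K) :
    ((Algebra.norm ℤ x : ℤ) : Ω) = ∏ i, ψ i x := by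
  have h := congrArg (fun f => coeff f 0) (hψ x 0)
  simp only [coeff_map, nf_coeff_zero, coeff_zero_prod] at h
  rw [show ((Algebra.norm ℤ x : ℤ) : Ω) = (Int.castRingHom Ω) (Algebra.norm ℤ x) from rfl, h]
  refine Finset.prod_congr rfl fun i _ => ?_
  simp

private theorem Red_coeff {ι : Type*} (s : Finset ι) (u : ι → Ω) :
    (∏ i ∈ s, (1 + X * C (u i))).coeff 0 = 1 ∧ (∏ i ∈ s, (1 + X * C (u i))).coeff 1 = ∑ i ∈ s, u i := by
  classical
  induction s using Finset.induction_on with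
  | empty => simp [coeff_one]
  | insert i s hi ih =>
    rw [Finset.prod_insert hi, Finset.sum_insert hi]
    obtain ⟨h1, h2⟩ := ih
    constructor
    · rw [mul_coeff_zero, h1]
      simp
    · rw [add_mul, coeff_add, one_mul, h2, mul_assoc, coeff_X_mul, coeff_C_mul, h1]
      ring

theorem redFam_trace (hψ : IsRedFam ψ) (x : 𝓞 K) :
    ((Algebra.trace ℤ (𝓞 K) x : ℤ) : Ω) = ∑ i, ψ i x := by
  have h := congrArg (fun f => coeff f 1) (hψ 1 x)
  simp only [coeff_map, nf_one_coeff_one, map_one] at h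
  have h2 := (Red_coeff Finset.univ (fun i => ψ i x)).2
  rw [← h2]
  exact h

omit [NumberField K] in
private theorem Red_qmem {q : ℕ} [CharP Ω q] (φ : 𝓞 K →+* Ω) : (q : 𝓞 K) ∈ RingHom.ker φ := by
  rw [RingHom.mem_ker, map_natCast, CharP.cast_eq_zero]

private theorem Red_max {q : ℕ} (hq : q ≠ 0) (P : Ideal (𝓞 K)) (hP : P.IsPrime) (hqP : (q : 𝓞 K) ∈ P) :
    P.IsMaximal := by
  refine hP.isMaximal fun h => ?_
  rw [h, Ideal.mem_bot] at hqP
  exact hq (by exact_mod_cast hqP)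

theorem exists_redFam_ker (hψ : IsRedFam ψ) (q : ℕ) [Fact q.Prime] [CharP Ω q]
    (P : Ideal (𝓞 K)) (hP : P.IsPrime) (hq : (q : 𝓞 K) ∈ P) : ∃ i, RingHom.ker (ψ i) = P := by
  have hqp : q.Prime := Fact.out
  by_contra hcon
  push Not at hcon
  have hne : ¬ ∃ i ∈ (Finset.univ : Finset (Fin (Module.finrank ℚ K))), P ≤ RingHom.ker (ψ i) := by
    rintro ⟨i, _, hi⟩
    have hmax := Red_max hqp.ne_zero P hP hq
    exact hcon i (hmax.eq_of_le (RingHom.ker_isPrime (ψ i)).ne_top hi).symm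
  have hd : 0 < Module.finrank ℚ K := Module.finrank_pos
  rw [← Ideal.subset_union_prime ⟨0, hd⟩ ⟨0, hd⟩ (fun i _ _ _ => RingHom.ker_isPrime (ψ i)), Set.not_subset] at hne
  obtain ⟨y, hyP, hy⟩ := hne
  have h1 : ((Ideal.absNorm (Ideal.span {y}) : ℕ) : 𝓞 K) ∈ P :=
    ((Ideal.span_singleton_le_iff_mem _).2 hyP) (Ideal.absNorm_mem _)
  have h2 : q ∣ Ideal.absNorm (Ideal.span {y}) := by
    by_contra h3
    have h4 : Nat.Coprime q (Ideal.absNorm (Ideal.span {y})) := (Nat.Prime.coprime_iff_not_dvd hqp).2 h3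
    have h5 : IsCoprime (q : ℤ) (Ideal.absNorm (Ideal.span {y}) : ℤ) := Nat.isCoprime_iff_coprime.2 h4
    obtain ⟨u, v, huv⟩ := h5
    apply hP.ne_top
    rw [Ideal.eq_top_iff_one]
    have h6 : ((u * q + v * (Ideal.absNorm (Ideal.span {y}) : ℤ) : ℤ) : 𝓞 K) = 1 := by
      rw [huv]
      simp
    rw [← h6]
    push_cast
    exact P.add_mem (P.mul_mem_left _ hq) (P.mul_mem_left _ h1)
  rw [Ideal.absNorm_span_singleton, ← Int.natCast_dvd] at h2
  have h3 : ((Algebra.norm ℤ y : ℤ) : Ω) = 0 := (CharP.intCast_eq_zero_iff Ω q _).2 h2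
  rw [redFam_norm hψ, Finset.prod_eq_zero_iff] at h3
  obtain ⟨i, _, hi⟩ := h3
  apply hy
  rw [Set.mem_iUnion₂]
  exact ⟨i, Finset.mem_coe.2 (Finset.mem_univ i), (RingHom.mem_ker).2 hi⟩

end

theorem fsol_hom {K : Type*} [Field K] [NumberField K] {p : ℕ} [Fact p.Prime] {a b c : 𝓞 K}
    (h : FSol K p a b c) {Ω : Type*} [Field Ω] [CharP Ω p] (ψ : 𝓞 K →+* Ω) :
    ψ a + ψ b + ψ c = 0 := by
  have h1 : (ψ a + ψ b + ψ c) ^ p = 0 := by
    rw [add_pow_char, add_pow_char, ← map_pow, ← map_pow, ← map_pow, ← map_add, ← map_add, h.2.2.2, map_zero]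
  exact pow_eq_zero_iff (Fact.out : p.Prime).ne_zero |>.1 h1

private theorem Red_third {K : Type*} [Field K] [NumberField K] {p : ℕ} [Fact p.Prime] {a b c : 𝓞 K}
    (h : FSol K p a b c) {Ω : Type*} [Field Ω] (ψ : 𝓞 K →+* Ω) (ha : ψ a = 0) (hb : ψ b = 0) : ψ c = 0 := by
  have hp := (Fact.out : p.Prime).ne_zero
  have h1 : ψ (a ^ p + b ^ p + c ^ p) = 0 := by rw [h.2.2.2, map_zero]
  rw [map_add, map_add, map_pow, map_pow, map_pow, ha, hb, zero_pow hp, zero_add, zero_add] at h1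
  exact pow_eq_zero_iff hp |>.1 h1

/-- the roles of `a, b, c` are symmetric -/
theorem FSol.rot {K : Type*} [Field K] [NumberField K] {p : ℕ} {a b c : 𝓞 K}
    (h : FSol K p a b c) : FSol K p b c a :=
  ⟨h.2.1, h.2.2.1, h.1, by
    have h1 := h.2.2.2
    linear_combination h1⟩

theorem FSol.swap {K : Type*} [Field K] [NumberField K] {p : ℕ} {a b c : 𝓞 K}
    (h : FSol K p a b c) : FSol K p b a c :=
  ⟨h.2.1, h.1, h.2.2.1, by
    have h1 := h.2.2.2
    linear_combination h1⟩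

theorem cop_hom {K : Type*} [Field K] [NumberField K] {p : ℕ} [Fact p.Prime] {a b c : 𝓞 K}
    (h : FSol K p a b c) {q : ℕ} [Fact q.Prime] (hc : CopAt K q a b c) {Ω : Type*} [Field Ω]
    [CharP Ω q] (ψ : 𝓞 K →+* Ω) :
    ¬ (ψ a = 0 ∧ ψ b = 0) ∧ ¬ (ψ b = 0 ∧ ψ c = 0) ∧ ¬ (ψ c = 0 ∧ ψ a = 0) := by
  have h0 : ¬ (ψ a = 0 ∧ ψ b = 0 ∧ ψ c = 0) := by
    rintro ⟨h1, h2, h3⟩
    exact hc (RingHom.ker ψ) (RingHom.ker_isPrime ψ) (Red_qmem ψ)
      ⟨(RingHom.mem_ker).2 h1, (RingHom.mem_ker).2 h2, (RingHom.mem_ker).2 h3⟩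
  refine ⟨?_, ?_, ?_⟩
  · rintro ⟨h1, h2⟩
    exact h0 ⟨h1, h2, Red_third h ψ h1 h2⟩
  · rintro ⟨h1, h2⟩
    exact h0 ⟨Red_third h.rot ψ h1 h2, h1, h2⟩
  · rintro ⟨h1, h2⟩
    exact h0 ⟨h2, Red_third h.rot.rot ψ h1 h2, h1⟩

theorem CopAt.rot {K : Type*} [Field K] [NumberField K] {q : ℕ} {a b c : 𝓞 K}
    (h : CopAt K q a b c) : CopAt K q b c a :=
  fun P hP hq hh => h P hP hq ⟨hh.2.2, hh.1, hh.2.1⟩

theorem CopAt.swap {K : Type*} [Field K] [NumberField K] {q : ℕ} {a b c : 𝓞 K}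
    (h : CopAt K q a b c) : CopAt K q b a c :=
  fun P hP hq hh => h P hP hq ⟨hh.2.1, hh.1, hh.2.2⟩

end H9FC
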