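import Pool.Agent.H9.FC.Defs

/-!
# Project FC9, module PolMult

Multiplicities of the zeros of two polynomials with the same logarithmic derivative, in
characteristic `p`, and multiplicities of `P(X^i)`.

PROOF of `pol_mult`. Write `A = (X - z)^m A₁`, `B = (X - z)^n B₁` with `A₁(z), B₁(z) ≠ 0`. If
`m = n = 0` nothing is to be proved. Otherwise
`A' B - A B' = (X - z)^(m+n-1) ((m - n) A₁ B₁ + (X - z)(A₁' B₁ - A₁ B₁'))`,
so the second factor is `0`; evaluate it at `z`: `(m - n) A₁(z) B₁(z) = 0`, so `m ≡ n` modulo `p`.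
PROOF of `rootMultiplicity_comp_pow`. Write `P = (X - z^i)^m P₁` with `P₁(z^i) ≠ 0`; then
`P(X^i) = (X^i - z^i)^m P₁(X^i)`, and `z` is a simple zero of `X^i - z^i` (its derivative
`i X^(i-1)` does not vanish at `z`), and `P₁(z^i) ≠ 0`.
-/

namespace H9FC

open Polynomial

private theorem PolMult_der {k : Type*} [Field k] (A : k[X]) (z : k) (m : ℕ) :
    (X - C z) * derivative ((X - C z) ^ m * A)
      = (X - C z) ^ m * (C (m : k) * A + (X - C z) * derivative A) := by
  rw [derivative_mul, derivative_pow]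
  rcases m with _ | m
  · simp
  · simp only [Nat.add_sub_cancel, derivative_sub, derivative_X, derivative_C, sub_zero, mul_one]
    rw [pow_succ]
    ring

theorem pol_mult {k : Type*} [Field k] (p : ℕ) [Fact p.Prime] [CharP k p] (A B : k[X])
    (hA : A ≠ 0) (hB : B ≠ 0) (h : derivative A * B = A * derivative B) (z : k) :
    (A.rootMultiplicity z : ℤ) ≡ (B.rootMultiplicity z : ℤ) [ZMOD (p : ℤ)] := by
  obtain ⟨A₁, hA1, hA1z⟩ := exists_eq_pow_rootMultiplicity_mul_and_not_dvd A hA z
  obtain ⟨B₁, hB1, hB1z⟩ := exists_eq_pow_rootMultiplicity_mul_and_not_dvd B hB z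
  set m := A.rootMultiplicity z with hm
  set n := B.rootMultiplicity z with hn
  have hX : (X - C z : k[X]) ≠ 0 := X_sub_C_ne_zero z
  have h1 : (X - C z) ^ (m + n) * ((C (m : k) * A₁ + (X - C z) * derivative A₁) * B₁)
      = (X - C z) ^ (m + n) * ((C (n : k) * B₁ + (X - C z) * derivative B₁) * A₁) := by
    have e1 := PolMult_der A₁ z m
    have e2 := PolMult_der B₁ z n
    rw [← hA1] at e1
    rw [← hB1] at e2
    calc (X - C z) ^ (m + n) * ((C (m : k) * A₁ + (X - C z) * derivative A₁) * B₁)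
        = ((X - C z) ^ m * (C (m : k) * A₁ + (X - C z) * derivative A₁))
            * ((X - C z) ^ n * B₁) := by rw [pow_add]; ring
      _ = (X - C z) * derivative A * B := by rw [← e1, ← hB1]
      _ = (X - C z) * (derivative A * B) := by ring
      _ = (X - C z) * (A * derivative B) := by rw [h]
      _ = ((X - C z) * derivative B) * A := by ring
      _ = ((X - C z) ^ n * (C (n : k) * B₁ + (X - C z) * derivative B₁))
            * ((X - C z) ^ m * A₁) := by rw [e2, ← hA1]
      _ = (X - C z) ^ (m + n) * ((C (n : k) * B₁ + (X - C z) * derivative B₁) * A₁) := by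
          rw [pow_add]; ring
  have h2 := mul_left_cancel₀ (pow_ne_zero _ hX) h1
  have h3 := congrArg (eval z) h2
  simp only [eval_mul, eval_add, eval_C, eval_sub, eval_X, sub_self, zero_mul, add_zero] at h3
  have hA0 : A₁.eval z ≠ 0 := fun h0 => hA1z (dvd_iff_isRoot.mpr h0)
  have hB0 : B₁.eval z ≠ 0 := fun h0 => hB1z (dvd_iff_isRoot.mpr h0)
  have h4 : ((m : ℕ) : k) = ((n : ℕ) : k) := by
    have : ((m : k) - (n : k)) * (A₁.eval z * B₁.eval z) = 0 := by linear_combination h3
    rcases mul_eq_zero.mp this with h5 | h5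
    · exact sub_eq_zero.mp h5
    · exact absurd h5 (mul_ne_zero hA0 hB0)
  have h5 : (((m : ℤ)) : k) = (((n : ℤ)) : k) := by exact_mod_cast h4
  exact (CharP.intCast_eq_intCast k p).1 h5

private theorem PolMult_pow {k : Type*} [Field k] (f : k[X]) (hf : f ≠ 0) (n : ℕ) (z : k) :
    (f ^ n).rootMultiplicity z = n * f.rootMultiplicity z := by
  induction n with
  | zero =>
    rw [pow_zero, zero_mul]
    exact rootMultiplicity_eq_zero (by simp)
  | succ n ih =>
    rw [pow_succ, rootMultiplicity_mul (mul_ne_zero (pow_ne_zero _ hf) hf), ih]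
    ring

theorem rootMultiplicity_comp_pow {k : Type*} [Field k] (P : k[X]) (hP : P ≠ 0) (i : ℕ)
    (hi : (i : k) ≠ 0) (z : k) (hz : z ≠ 0) :
    (P.comp (X ^ i)).rootMultiplicity z = P.rootMultiplicity (z ^ i) := by
  have hi0 : i ≠ 0 := by
    rintro rfl
    simp at hi
  obtain ⟨P₁, hP1, hP1z⟩ := exists_eq_pow_rootMultiplicity_mul_and_not_dvd P hP (z ^ i)
  set m := P.rootMultiplicity (z ^ i) with hm
  have hR0 : (X ^ i - C (z ^ i) : k[X]) ≠ 0 := X_pow_sub_C_ne_zero (Nat.pos_of_ne_zero hi0) _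
  have hR1 : (X ^ i - C (z ^ i) : k[X]).rootMultiplicity z = 1 := by
    have hroot : (X ^ i - C (z ^ i) : k[X]).IsRoot z := by simp [IsRoot.def]
    have hpos := (rootMultiplicity_pos hR0).2 hroot
    have hnot : ¬ 1 < (X ^ i - C (z ^ i) : k[X]).rootMultiplicity z := by
      rw [one_lt_rootMultiplicity_iff_isRoot hR0]
      rintro ⟨-, h2⟩
      rw [IsRoot.def, derivative_sub, derivative_C, sub_zero, derivative_X_pow, eval_mul, eval_C,
        eval_pow, eval_X] at h2
      exact mul_ne_zero hi (pow_ne_zero _ hz) h2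
    omega
  have hcomp : P.comp (X ^ i) = (X ^ i - C (z ^ i)) ^ m * P₁.comp (X ^ i) := by
    conv_lhs => rw [hP1]
    rw [mul_comp, pow_comp, sub_comp, X_comp, C_comp]
  have hP1ev : P₁.eval (z ^ i) ≠ 0 := fun h0 => hP1z (dvd_iff_isRoot.mpr h0)
  have hPc : ¬ (P₁.comp (X ^ i)).IsRoot z := by
    rw [IsRoot.def, eval_comp, eval_pow, eval_X]
    exact hP1ev
  have hPc0 : P₁.comp (X ^ i) ≠ 0 := by
    intro h0
    apply hPc
    rw [h0]
    simp
  rw [hcomp, rootMultiplicity_mul (mul_ne_zero (pow_ne_zero _ hR0) hPc0),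
    rootMultiplicity_eq_zero hPc, add_zero, PolMult_pow _ hR0, hR1, mul_one]

theorem rootMultiplicity_prod_pow {k : Type*} [Field k] {ι : Type*} (s : Finset ι) (f : ι → k[X])
    (n : ι → ℕ) (hf : ∀ i ∈ s, f i ≠ 0) (z : k) :
    (∏ i ∈ s, f i ^ n i).rootMultiplicity z = ∑ i ∈ s, n i * (f i).rootMultiplicity z := by
  classical
  induction s using Finset.induction_on with
  | empty =>
    rw [Finset.prod_empty, Finset.sum_empty]
    exact rootMultiplicity_eq_zero (by simp)
  | insert a s ha ih =>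
    have hfa : f a ≠ 0 := hf a (Finset.mem_insert_self a s)
    have hfs : ∀ i ∈ s, f i ≠ 0 := fun i hi => hf i (Finset.mem_insert_of_mem hi)
    rw [Finset.prod_insert ha, Finset.sum_insert ha, rootMultiplicity_mul
      (mul_ne_zero (pow_ne_zero _ hfa)
        (Finset.prod_ne_zero_iff.2 (fun i hi => pow_ne_zero _ (hfs i hi)))), ih hfs,
      PolMult_pow _ hfa]

end H9FC
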