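import Pool.Agent.H9.FC.Defs

/-!
# Project FC9, module PolOrd

The argument with orders of roots of unity in `Ω`, an algebraic closure of `𝔽_p`.

PROOF. Suppose that `n : Ω → ℤ` has finite support, `n 0 = 0`, `|n z| < p`, and let `e_i < p`, not
all `0`, with `∑_i e_i n (z^(i+1)) ≡ 0` modulo `p` for all `z ≠ 0`. We show `n = 0`.  Suppose not.
All `z ≠ 0` in `Ω` have finite multiplicative order prime to `p`.  Choose `z` in the
support of `n` of maximal order `N`, and let `j = i₀ + 1`, `i₀` the largest index with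
`e_{i₀} ≠ 0`; `0 < j < p`.
There is `w ∈ Ω` with `w^j = z` and order `N j`: let `ρ` be a primitive root of unity of order `N j`
in `Ω` (exists since `p ∤ N j`); `ρ^j` has order `N`, so `z = ρ^(j u)` with `u` prime to `N`
(a primitive root `z` of order `N` is a power of `ρ^j` with exponent prime to `N`); replace `u` by
`u' ≡ u` modulo `N` prime to `N j` (`ZMod.unitsMap_surjective`, or Dirichlet-free: take
`u' = u + N ∏ {ℓ prime : ℓ ∣ N j, ℓ ∤ u}`) and put `w = ρ^u'`.  For `i < i₀` the order of `w^(i+1)` is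
`N j / gcd (i + 1, N j) ≥ N j / (i + 1) > N`, so `n (w^(i+1)) = 0` by maximality.  For `i > i₀` we
have `e_i = 0`. So `e_{i₀} n(z) ≡ 0` modulo `p`, but `0 < e_{i₀} < p` and `0 < |n z| < p`:
contradiction.
-/

namespace H9FC

private theorem PolOrd_fin (p : ℕ) [Fact p.Prime] (z : AlgebraicClosure (ZMod p)) (hz : z ≠ 0) :
    0 < orderOf z := by
  have hint : IsIntegral (ZMod p) z := (Algebra.IsAlgebraic.isAlgebraic z).isIntegral
  have : FiniteDimensional (ZMod p) (IntermediateField.adjoin (ZMod p) {z}) :=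
    IntermediateField.adjoin.finiteDimensional hint
  have : Finite (IntermediateField.adjoin (ZMod p) {z}) :=
    Module.finite_of_finite (ZMod p)
  set y : IntermediateField.adjoin (ZMod p) {z} :=
    ⟨z, IntermediateField.mem_adjoin_simple_self (ZMod p) z⟩ with hy
  have hy0 : y ≠ 0 := by
    intro h
    apply hz
    have := congrArg Subtype.val h
    simpa [hy] using this
  have hfin : IsOfFinOrder (Units.mk0 y hy0) := isOfFinOrder_of_finite _
  obtain ⟨n, hn, hpow⟩ := (isOfFinOrder_iff_pow_eq_one).1 hfin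
  have h1 : y ^ n = 1 := by
    have := congrArg Units.val hpow
    simpa using this
  have h2 : z ^ n = 1 := by
    have := congrArg Subtype.val h1
    simpa [hy] using this
  exact orderOf_pos_iff.2 ((isOfFinOrder_iff_pow_eq_one).2 ⟨n, hn, h2⟩)

private theorem PolOrd_root (p : ℕ) [Fact p.Prime] (z : AlgebraicClosure (ZMod p)) (hz : z ≠ 0)
    (j : ℕ) (hj : 0 < j) (hjp : j < p) :
    ∃ w : AlgebraicClosure (ZMod p), w ^ j = z ∧ orderOf w = orderOf z * j := by
  have hN : 0 < orderOf z := PolOrd_fin p z hz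
  set N := orderOf z with hNd
  have hprim : IsPrimitiveRoot z N := IsPrimitiveRoot.orderOf z
  have : NeZero N := ⟨hN.ne'⟩
  have hNe : NeZero ((N : ℕ) : AlgebraicClosure (ZMod p)) := hprim.neZero'
  have hjne : ((j : ℕ) : AlgebraicClosure (ZMod p)) ≠ 0 := by
    intro h
    rw [CharP.cast_eq_zero_iff (AlgebraicClosure (ZMod p)) p] at h
    exact absurd (Nat.le_of_dvd hj h) (by omega)
  have : NeZero (((N * j : ℕ)) : AlgebraicClosure (ZMod p)) :=
    ⟨by rw [Nat.cast_mul]; exact mul_ne_zero hNe.out hjne⟩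
  have : NeZero (N * j) := ⟨(Nat.mul_pos hN hj).ne'⟩
  obtain ⟨ρ, hρ⟩ := HasEnoughRootsOfUnity.exists_primitiveRoot (AlgebraicClosure (ZMod p)) (N * j)
  have hρj : IsPrimitiveRoot (ρ ^ j) N :=
    hρ.pow (Nat.mul_pos hN hj) (mul_comm N j)
  obtain ⟨u, _, hu, hz'⟩ := (hρj.isPrimitiveRoot_iff (ξ := z)).1 hprim
  obtain ⟨v, hv⟩ := ZMod.unitsMap_surjective (n := N) (m := N * j) (Dvd.intro j rfl)
    (ZMod.unitOfCoprime u hu)
  have hvc : Nat.Coprime (v : ZMod (N * j)).val (N * j) := ZMod.val_coe_unit_coprime v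
  set u' := (v : ZMod (N * j)).val with hu'
  have hmod : u' ≡ u [MOD N] := by
    have h1 := congrArg Units.val hv
    rw [ZMod.unitsMap_val, ZMod.coe_unitOfCoprime] at h1
    rw [← ZMod.natCast_eq_natCast_iff]
    rw [← h1, hu']
    rw [ZMod.cast_eq_val]
  refine ⟨ρ ^ u', ?_, ?_⟩
  · rw [← pow_mul, mul_comm, pow_mul, ← hz']
    rw [← pow_mod_orderOf (ρ ^ j) u', ← pow_mod_orderOf (ρ ^ j) u, ← hρj.eq_orderOf]
    exact congrArg _ hmod
  · rw [← (hρ.pow_of_coprime u' hvc).eq_orderOf]

theorem pol_ord (p : ℕ) [Fact p.Prime] (r : ℕ) (hr : r + 1 < p)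
    (n : AlgebraicClosure (ZMod p) → ℤ) (hfin : (Function.support n).Finite) (h0 : n 0 = 0)
    (hn : ∀ z, |n z| < p) (e : Fin (r + 1) → ℕ) (he : ∀ i, e i < p) (he0 : ∃ i, e i ≠ 0)
    (h : ∀ z : AlgebraicClosure (ZMod p), z ≠ 0 →
      ∑ i, (e i : ℤ) * n (z ^ (i.val + 1)) ≡ 0 [ZMOD (p : ℤ)]) :
    ∀ z, n z = 0 := by
  classical
  by_contra hcon
  push Not at hcon
  obtain ⟨z₀, hz₀⟩ := hcon
  have hne : hfin.toFinset.Nonempty := ⟨z₀, by simpa using hz₀⟩
  obtain ⟨z, hz, hmax⟩ := Finset.exists_max_image hfin.toFinset orderOf hne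
  have hnz : n z ≠ 0 := by simpa using hz
  have hz0 : z ≠ 0 := by
    rintro rfl
    exact hnz h0
  have hmax' : ∀ w, orderOf z < orderOf w → n w = 0 := by
    intro w hw
    by_contra hne2
    have := hmax w (by simpa using hne2)
    omega
  -- the largest index with e ≠ 0
  have hne3 : (Finset.univ.filter (fun i : Fin (r + 1) => e i ≠ 0)).Nonempty := by
    obtain ⟨i, hi⟩ := he0
    exact ⟨i, by simpa using hi⟩
  obtain ⟨i₀, hi₀, hi₀max⟩ := Finset.exists_max_image _ (fun i : Fin (r + 1) => i.val) hne3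
  have hei₀ : e i₀ ≠ 0 := by simpa using hi₀
  have hbig : ∀ i : Fin (r + 1), i₀.val < i.val → e i = 0 := by
    intro i hi
    by_contra hne4
    have := hi₀max i (by simpa using hne4)
    omega
  have hi₀r : i₀.val < r + 1 := i₀.isLt
  obtain ⟨w, hw, hword⟩ := PolOrd_root p z hz0 (i₀.val + 1) (Nat.succ_pos _) (by omega)
  have hN : 0 < orderOf z := PolOrd_fin p z hz0
  have hw0 : w ≠ 0 := by
    rintro rfl
    rw [zero_pow (Nat.succ_ne_zero _)] at hw
    exact hz0 hw.symm
  have hsum := h w hw0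
  rw [Finset.sum_eq_single i₀] at hsum
  · rw [hw] at hsum
    have hdvd : (p : ℤ) ∣ (e i₀ : ℤ) * n z := Int.modEq_zero_iff_dvd.1 hsum
    have hp : Prime (p : ℤ) := Nat.prime_iff_prime_int.1 (Fact.out : p.Prime)
    rcases hp.dvd_or_dvd hdvd with h1 | h1
    · have h2 : p ∣ e i₀ := by exact_mod_cast h1
      have := Nat.le_of_dvd (Nat.pos_of_ne_zero hei₀) h2
      have := he i₀
      omega
    · have h2 := Int.eq_zero_of_abs_lt_dvd h1 (hn z)
      exact hnz h2
  · intro i _ hi
    rcases lt_or_gt_of_ne (fun h' : i.val = i₀.val => hi (Fin.ext h')) with hlt | hgt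
    · have hcase : n (w ^ (i.val + 1)) = 0 := by
        apply hmax'
        rw [orderOf_pow' w (Nat.succ_ne_zero i.val), hword]
        set N := orderOf z with hNdef
        set g := Nat.gcd (N * (i₀.val + 1)) (i.val + 1) with hg
        have hgle : g ≤ i.val + 1 := Nat.gcd_le_right _ (Nat.succ_pos _)
        have hgpos : 0 < g := Nat.gcd_pos_of_pos_right _ (Nat.succ_pos _)
        obtain ⟨q, hq⟩ := Nat.gcd_dvd_left (N * (i₀.val + 1)) (i.val + 1)
        rw [← hg] at hq
        rw [hq, Nat.mul_div_cancel_left q hgpos]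
        by_contra hle
        push Not at hle
        have h3 : g * q ≤ (i.val + 1) * N := Nat.mul_le_mul hgle hle
        rw [← hq] at h3
        nlinarith
      rw [hcase, mul_zero]
    · rw [hbig i hgt]
      simp
  · intro hni
    exact absurd (Finset.mem_univ i₀) hni

end H9FC
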