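import Pool.Agent.H9.FC.PolE
import Pool.Agent.H9.FC.PolMult
import Pool.Agent.H9.FC.PolOrd

/-!
# Project FC9, module PolCore

The polynomial core of Eichler's method: `P` and `Q` have the same zeros `≠ 0`.

PROOF. Base change to `Ω = AlgebraicClosure (ZMod p)` (`Polynomial.map`).  By `pol_E` the
polynomials `A = ∏ P(X^(i+1))^(2 e_i)`, `B = X^s ∏ Q(X^(i+1))^(2 e_i)` satisfy `A' B = A B'`, so for
`z ≠ 0` in `Ω` by `PolMult` (the multiplicity of `z` as zero of `X^s` is `0`)
`∑ 2 e_i m_P(z^(i+1)) ≡ ∑ 2 e_i m_Q(z^(i+1))` modulo `p`, `m` = multiplicity of zeros.  `p` is odd,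
so 2 can be cancelled.  Apply `pol_ord` to `n z = m_P(z) - m_Q(z)` for `z ≠ 0`, `n 0 = 0`;
`|n z| ≤ d < p`.  So `P` and `Q` have the same zeros `≠ 0` with multiplicities in `Ω`, and
`X^(m_Q(0)) P = c X^(m_P(0)) Q` with a constant `c` (both sides are constants times the same product
of linear factors); `P(1) = Q(1) ≠ 0` gives `c = 1`.
(If `d = 0`, both are constants. If `d > 0`, then `r + 1 < p` and `d < p` follow from `hdr`, `hN`.)
-/

namespace H9FC

open Polynomial

theorem pol_core (p : ℕ) [Fact p.Prime] (hp : 3 ≤ p) (P Q : (ZMod p)[X]) (d r N : ℕ)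
    (hP : P.natDegree ≤ d) (hQ : Q.natDegree ≤ d) (hP1 : P.eval 1 ≠ 0) (hPQ : P.eval 1 = Q.eval 1)
    (hdr : d * (r + 1) * (r + 2) < N) (hN : N ≤ p)
    (e : Fin (r + 1) → ℕ) (he : ∀ i, e i < p) (he0 : ∃ i, e i ≠ 0) (c : ZMod p) (s : ℕ)
    (hdiv : (X - 1) ^ (N + 1) ∣ ∏ i, (P.comp (X ^ (i.val + 1))) ^ (2 * e i)
      - C c * (X ^ s * ∏ i, (Q.comp (X ^ (i.val + 1))) ^ (2 * e i))) :
    X ^ (Q.rootMultiplicity 0) * P = X ^ (P.rootMultiplicity 0) * Q := by
  classical
  have hQ1 : Q.eval 1 ≠ 0 := by rwa [← hPQ]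
  have hP0 : P ≠ 0 := by
    rintro rfl
    simp at hP1
  have hQ0 : Q ≠ 0 := by
    rintro rfl
    simp at hQ1
  rcases Nat.eq_zero_or_pos d with hd | hd
  · subst hd
    obtain ⟨a, ha⟩ := natDegree_eq_zero.1 (Nat.le_zero.1 hP)
    obtain ⟨b, hb⟩ := natDegree_eq_zero.1 (Nat.le_zero.1 hQ)
    rw [← ha, ← hb, eval_C, eval_C] at hPQ
    rw [← ha, ← hb, hPQ]
  -- sizes
  have hbig : (r + 1) * (r + 2) < p := by
    have h1 : (r + 1) * (r + 2) ≤ d * (r + 1) * (r + 2) := by
      rw [mul_assoc]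
      exact Nat.le_mul_of_pos_left _ hd
    omega
  have hrp : r + 1 < p := by nlinarith
  have hdp : d < p := by
    have h1 : d ≤ d * (r + 1) * (r + 2) := by
      rw [mul_assoc]
      exact Nat.le_mul_of_pos_right _ (by positivity)
    omega
  have hE := pol_E P Q d r N hP hQ hP1 hQ1 hdr e c s hdiv
  -- base change
  set Om := AlgebraicClosure (ZMod p) with hOm
  set f : ZMod p →+* Om := algebraMap (ZMod p) Om with hf
  have hinj : Function.Injective f := f.injective
  have hcharOm : CharP Om p := inferInstance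
  set P' : Om[X] := P.map f with hP'
  set Q' : Om[X] := Q.map f with hQ'
  have hP'0 : P' ≠ 0 := (Polynomial.map_ne_zero_iff hinj).2 hP0
  have hQ'0 : Q' ≠ 0 := (Polynomial.map_ne_zero_iff hinj).2 hQ0
  have hmapA : ∀ R : (ZMod p)[X],
      (∏ i : Fin (r + 1), (R.comp (X ^ (i.val + 1))) ^ (2 * e i)).map f
        = ∏ i : Fin (r + 1), ((R.map f).comp (X ^ (i.val + 1))) ^ (2 * e i) := by
    intro R
    rw [Polynomial.map_prod]
    refine Finset.prod_congr rfl (fun i _ => ?_)
    rw [Polynomial.map_pow, Polynomial.map_comp, Polynomial.map_pow, map_X]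
  set A : Om[X] := ∏ i : Fin (r + 1), (P'.comp (X ^ (i.val + 1))) ^ (2 * e i) with hA
  set B₀ : Om[X] := ∏ i : Fin (r + 1), (Q'.comp (X ^ (i.val + 1))) ^ (2 * e i) with hB₀
  have hE' : derivative A * (X ^ s * B₀) = A * derivative (X ^ s * B₀) := by
    have h1 := congrArg (Polynomial.map f) hE
    simp only [Polynomial.map_mul, ← derivative_map, Polynomial.map_pow, map_X, hmapA] at h1
    exact h1
  have hcast : ∀ i : Fin (r + 1), (((i.val + 1 : ℕ)) : Om) ≠ 0 := by
    intro i h
    rw [CharP.cast_eq_zero_iff Om p] at h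
    have h1 := Nat.le_of_dvd (Nat.succ_pos _) h
    have h2 := i.isLt
    omega
  have hcomp0 : ∀ R : Om[X], R ≠ 0 → ∀ i : Fin (r + 1), R.comp (X ^ (i.val + 1)) ≠ 0 := by
    intro R hR i h
    rw [comp_eq_zero_iff] at h
    rcases h with h | ⟨_, h⟩
    · exact hR h
    · have h1 := congrArg natDegree h
      rw [natDegree_X_pow, natDegree_C] at h1
      omega
  have hA0 : A ≠ 0 := Finset.prod_ne_zero_iff.2 (fun i _ => pow_ne_zero _ (hcomp0 P' hP'0 i))
  have hB₀0 : B₀ ≠ 0 := Finset.prod_ne_zero_iff.2 (fun i _ => pow_ne_zero _ (hcomp0 Q' hQ'0 i))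
  have hXs0 : (X : Om[X]) ^ s ≠ 0 := pow_ne_zero _ X_ne_zero
  have hkey : ∀ z : Om, z ≠ 0 →
      ∑ i : Fin (r + 1), (e i : ℤ) * (if z ^ (i.val + 1) = 0 then (0 : ℤ) else
        ((P'.rootMultiplicity (z ^ (i.val + 1)) : ℤ) - (Q'.rootMultiplicity (z ^ (i.val + 1)) : ℤ)))
        ≡ 0 [ZMOD (p : ℤ)] := by
    intro z hz
    have h1 := pol_mult p A (X ^ s * B₀) hA0 (mul_ne_zero hXs0 hB₀0) hE' z
    have hm : ∀ R : Om[X], R ≠ 0 →
        (∏ i : Fin (r + 1), (R.comp (X ^ (i.val + 1))) ^ (2 * e i)).rootMultiplicity z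
          = ∑ i : Fin (r + 1), 2 * e i * R.rootMultiplicity (z ^ (i.val + 1)) := by
      intro R hR
      rw [rootMultiplicity_prod_pow Finset.univ (fun i : Fin (r + 1) => R.comp (X ^ (i.val + 1)))
        (fun i => 2 * e i) (fun i _ => hcomp0 R hR i) z]
      refine Finset.sum_congr rfl (fun i _ => ?_)
      rw [rootMultiplicity_comp_pow R hR (i.val + 1) (hcast i) z hz]
    have hXm : ((X : Om[X]) ^ s).rootMultiplicity z = 0 := by
      apply rootMultiplicity_eq_zero
      rw [IsRoot.def, eval_pow, eval_X]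
      exact pow_ne_zero _ hz
    rw [rootMultiplicity_mul (mul_ne_zero hXs0 hB₀0), hXm, zero_add, hm P' hP'0, hm Q' hQ'0] at h1
    have h2 := Int.modEq_iff_dvd.1 h1.symm
    have h3 : ((∑ i : Fin (r + 1), 2 * e i * P'.rootMultiplicity (z ^ (i.val + 1)) : ℕ) : ℤ)
        - ((∑ i : Fin (r + 1), 2 * e i * Q'.rootMultiplicity (z ^ (i.val + 1)) : ℕ) : ℤ)
        = 2 * ∑ i : Fin (r + 1), (e i : ℤ) * (if z ^ (i.val + 1) = 0 then (0 : ℤ) else
        ((P'.rootMultiplicity (z ^ (i.val + 1)) : ℤ)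
          - (Q'.rootMultiplicity (z ^ (i.val + 1)) : ℤ))) := by
      push_cast
      rw [← Finset.sum_sub_distrib, Finset.mul_sum]
      refine Finset.sum_congr rfl (fun i _ => ?_)
      rw [if_neg (pow_ne_zero _ hz)]
      ring
    rw [h3] at h2
    have hpp : Prime (p : ℤ) := Nat.prime_iff_prime_int.1 (Fact.out : p.Prime)
    rcases hpp.dvd_or_dvd h2 with h4 | h4
    · exfalso
      have h5 : p ∣ 2 := by exact_mod_cast h4
      have := Nat.le_of_dvd (by norm_num) h5
      omega
    · exact Int.modEq_zero_iff_dvd.2 h4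
  have hdeg' : ∀ R : (ZMod p)[X], R.natDegree ≤ d → R ≠ 0 → ∀ z : Om,
      (R.map f).rootMultiplicity z ≤ d := by
    intro R hR hR0 z
    have h1 : (R.map f).rootMultiplicity z ≤ (R.map f).natDegree := by
      rw [← count_roots]
      exact (Multiset.count_le_card _ _).trans (card_roots' _)
    rw [natDegree_map_eq_of_injective hinj] at h1
    exact h1.trans hR
  have hall := pol_ord p r hrp (fun z : Om => if z = 0 then (0 : ℤ) else
      ((P'.rootMultiplicity z : ℤ) - (Q'.rootMultiplicity z : ℤ))) ?_ (by simp) ?_ e he he0 hkey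
  · -- conclusion
    set i0 := P.rootMultiplicity 0 with hi0
    set j0 := Q.rootMultiplicity 0 with hj0
    have hi0' : P'.rootMultiplicity 0 = i0 := by
      have := eq_rootMultiplicity_map (p := P) hinj 0
      rw [map_zero] at this
      exact this.symm
    have hj0' : Q'.rootMultiplicity 0 = j0 := by
      have := eq_rootMultiplicity_map (p := Q) hinj 0
      rw [map_zero] at this
      exact this.symm
    have hXz : ∀ (n : ℕ) (z : Om), ((X : Om[X]) ^ n).rootMultiplicity z = if z = 0 then n else 0 := by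
      intro n z
      split_ifs with h
      · subst h
        have := rootMultiplicity_X_sub_C_pow (0 : Om) n
        rwa [C_0, sub_zero] at this
      · apply rootMultiplicity_eq_zero
        rw [IsRoot.def, eval_pow, eval_X]
        exact pow_ne_zero _ h
    have hP2 : (X : Om[X]) ^ j0 * P' ≠ 0 := mul_ne_zero (pow_ne_zero _ X_ne_zero) hP'0
    have hQ2 : (X : Om[X]) ^ i0 * Q' ≠ 0 := mul_ne_zero (pow_ne_zero _ X_ne_zero) hQ'0
    have hroots : ((X : Om[X]) ^ j0 * P').roots = ((X : Om[X]) ^ i0 * Q').roots := by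
      ext z
      rw [count_roots, count_roots, rootMultiplicity_mul hP2, rootMultiplicity_mul hQ2, hXz, hXz]
      by_cases hz : z = 0
      · subst hz
        rw [if_pos rfl, if_pos rfl, hi0', hj0']
        ring
      · rw [if_neg hz, if_neg hz]
        have h1 := hall z
        simp only [if_neg hz] at h1
        omega
    have hs1 := (IsAlgClosed.splits ((X : Om[X]) ^ j0 * P')).eq_prod_roots
    have hs2 := (IsAlgClosed.splits ((X : Om[X]) ^ i0 * Q')).eq_prod_roots
    rw [← hroots] at hs2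
    set R := (Multiset.map (fun a => X - C a) ((X : Om[X]) ^ j0 * P').roots).prod with hR
    have hev1 : ((X : Om[X]) ^ j0 * P').eval 1 = ((X : Om[X]) ^ i0 * Q').eval 1 := by
      rw [eval_mul, eval_mul, eval_pow, eval_pow, eval_X, one_pow, one_pow, one_mul, one_mul,
        hP', hQ']
      have : (1 : Om) = f 1 := (map_one f).symm
      rw [this, eval_map_apply, eval_map_apply, hPQ]
    have hev2 : ((X : Om[X]) ^ j0 * P').eval 1 ≠ 0 := by
      rw [eval_mul, eval_pow, eval_X, one_pow, one_mul, hP']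
      have : (1 : Om) = f 1 := (map_one f).symm
      rw [this, eval_map_apply]
      exact (map_ne_zero_iff f hinj).2 hP1
    have hlc : ((X : Om[X]) ^ j0 * P').leadingCoeff = ((X : Om[X]) ^ i0 * Q').leadingCoeff := by
      have h1 := hev1
      have h2 := hev2
      rw [hs1] at h1 h2
      rw [hs2] at h1
      rw [eval_mul, eval_C] at h1 h2
      rw [eval_mul, eval_C] at h1
      exact mul_right_cancel₀ (right_ne_zero_of_mul h2) h1
    have hfin : (X : Om[X]) ^ j0 * P' = (X : Om[X]) ^ i0 * Q' := by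
      rw [hs1, hs2, hlc]
    have hmi := Polynomial.map_injective f hinj
    apply hmi
    rw [Polynomial.map_mul, Polynomial.map_mul, Polynomial.map_pow, Polynomial.map_pow, map_X]
    exact hfin
  · -- finite support
    refine Set.Finite.subset ((P'.roots.toFinset ∪ Q'.roots.toFinset).finite_toSet) ?_
    intro z hz
    rw [Function.mem_support] at hz
    by_contra hcon
    apply hz
    rw [Finset.mem_coe, Finset.mem_union, Multiset.mem_toFinset, Multiset.mem_toFinset,
      mem_roots hP'0, mem_roots hQ'0] at hcon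
    push Not at hcon
    rw [rootMultiplicity_eq_zero hcon.1, rootMultiplicity_eq_zero hcon.2]
    simp
  · intro z
    split_ifs with h
    · simp
      omega
    · have h1 := hdeg' P hP hP0 z
      have h2 := hdeg' Q hQ hQ0 z
      rw [← hP'] at h1
      rw [← hQ'] at h2
      rw [abs_lt]
      constructor <;> omega

end H9FC
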