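import Pool.Agent.H9.FC.EichCong
import Pool.Agent.H9.FC.PolCore

/-!
# Project FC9, module Eich

Eichler's method for a general polynomial `F`: `F` is quasi-palindromic modulo `p`.

PROOF. Let `F̄ = F mod p ≠ 0`, `F̄ = (X-1)^μ P̄`, `P̄(1) ≠ 0`, `μ ≤ d`; `P̄` has degree `≤ d - μ`; lift it to
`P ∈ ℤ[X]` of the same degree (`Polynomial.map_surjective`, `Polynomial.lifts`, keep the degree `≤ d-μ`).
If `d = 0`, `F̄` is a nonzero constant and both sides agree. Let `d ≥ 1`, so `r + 1 < p` and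
`μ + 2 < p` by `hdr`. Apply `eich_cong` with
`D = d - μ`, and `pol_core` with degree bound `d - μ` and `N = p - 2 - μ` to `P̄` and
`Q̄ = (P.reflect (d-μ)) mod p`: `Q̄(1) = P̄(1)`; `(d - μ)(r+1)(r+2) < p - 2 - μ` because
`(d-μ)(r+1)(r+2) + μ ≤ d (r+1)(r+2)`.  So `X^j P̄ = X^i Q̄` with `i, j` the multiplicities of `0` in `P̄, Q̄`.
Since `(X-1)^μ` reflects (degree `μ`) to `(1-X)^μ = (-1)^μ (X-1)^μ`, the reflection `F̄*` of `F̄` is
`(-1)^μ (X-1)^μ Q̄` (`Polynomial.reflect_mul`), and the multiplicities of `0` in `F̄`, `F̄*` are `i, j`.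
-/

namespace H9FC

open Polynomial NumberField

private theorem Eich_reflect_pow (p : ℕ) [Fact p.Prime] (μ : ℕ) :
    ((X - 1 : (ZMod p)[X]) ^ μ).natDegree ≤ μ ∧
      ((X - 1 : (ZMod p)[X]) ^ μ).reflect μ = C ((-1) ^ μ) * (X - 1) ^ μ := by
  have hX : (X - 1 : (ZMod p)[X]).natDegree ≤ 1 := by
    rw [← C_1]
    exact (natDegree_X_sub_C_le _)
  induction μ with
  | zero => simp
  | succ n ih =>
    refine ⟨?_, ?_⟩
    · exact natDegree_pow_le_of_le _ hX |>.trans (by omega)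
    · rw [pow_succ, reflect_mul _ _ ih.1 hX, ih.2, reflect_sub, reflect_one_X, reflect_one, pow_one,
        pow_succ (-1 : ZMod p), C_mul, C_neg, C_1]
      ring

private theorem Eich_mult (p : ℕ) [Fact p.Prime] (μ : ℕ) {c : ZMod p} (hc : c ≠ 0)
    {Q : (ZMod p)[X]} (hQ : Q ≠ 0) :
    (C c * (X - 1) ^ μ * Q).rootMultiplicity 0 = Q.rootMultiplicity 0 := by
  have h1 : ((X - 1 : (ZMod p)[X]) ^ μ).eval 0 ≠ 0 := by
    rw [eval_pow, eval_sub, eval_X, eval_one, zero_sub]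
    exact pow_ne_zero _ (neg_ne_zero.2 one_ne_zero)
  have h2 : ¬ IsRoot (C c * (X - 1 : (ZMod p)[X]) ^ μ) 0 := by
    rw [IsRoot.def, eval_mul, eval_C]
    exact mul_ne_zero hc h1
  have h3 : (C c * (X - 1 : (ZMod p)[X]) ^ μ) ≠ 0 := fun h => h2 (by rw [h]; exact eval_zero)
  rw [rootMultiplicity_mul (mul_ne_zero h3 hQ), rootMultiplicity_eq_zero h2, zero_add]

theorem eich (p : ℕ) [Fact p.Prime] (hp : 5 ≤ p) (M : Type*) [Field M] [NumberField M]
    [IsCyclotomicExtension {p} ℚ M] (r : ℕ)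
    (hcl : Nat.card {x : ClassGroup (𝓞 M) // x ^ p = 1} ≤ p ^ r) (F : ℤ[X]) (d : ℕ)
    (hd : F.natDegree ≤ d) (hdr : d * (r + 1) * (r + 2) < p - 2)
    (hF : F.map (Int.castRingHom (ZMod p)) ≠ 0)
    (hI : ∀ ζ : 𝓞 M, IsPrimitiveRoot ζ p → ∃ I : Ideal (𝓞 M),
      I ^ p = Ideal.span {aeval ζ F * (aeval (ζ ^ (p - 1)) F) ^ (p - 1)}) :
    X ^ (((F.reflect d).map (Int.castRingHom (ZMod p))).rootMultiplicity 0)
        * F.map (Int.castRingHom (ZMod p))
      = C ((-1) ^ ((F.map (Int.castRingHom (ZMod p))).rootMultiplicity 1))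
        * X ^ ((F.map (Int.castRingHom (ZMod p))).rootMultiplicity 0)
        * (F.reflect d).map (Int.castRingHom (ZMod p)) := by
  have hdeg : (F.map (Int.castRingHom (ZMod p))).natDegree ≤ d := natDegree_map_le.trans hd
  rw [← reflect_map]
  rcases Nat.eq_zero_or_pos d with hd0 | hd0
  · obtain ⟨a, ha⟩ := natDegree_eq_zero.1 (Nat.le_zero.1 (hd0 ▸ hdeg))
    rw [← ha, hd0, reflect_C, rootMultiplicity_C, rootMultiplicity_C, pow_zero, mul_one,
      rootMultiplicity_C, pow_zero, pow_zero, C_1, one_mul, one_mul, one_mul]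
  obtain ⟨P', hFP, hP'⟩ :=
    exists_eq_pow_rootMultiplicity_mul_and_not_dvd (F.map (Int.castRingHom (ZMod p))) hF 1
  generalize hμ : (F.map (Int.castRingHom (ZMod p))).rootMultiplicity 1 = μ at hFP
  rw [C_1] at hFP
  have hP1 : P'.eval 1 ≠ 0 := fun h => hP' (dvd_iff_isRoot.2 h)
  have hP0 : P' ≠ 0 := fun h => hP1 (by rw [h, eval_zero])
  have hX0 : (X - 1 : (ZMod p)[X]) ^ μ ≠ 0 := by
    rw [← C_1]
    exact pow_ne_zero _ (X_sub_C_ne_zero _)
  have hXdeg : ((X - 1 : (ZMod p)[X]) ^ μ).natDegree = μ := by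
    rw [← C_1, natDegree_pow, natDegree_X_sub_C, mul_one]
  have hdeg2 : μ + P'.natDegree ≤ d := by
    rw [hFP, natDegree_mul hX0 hP0, hXdeg] at hdeg
    exact hdeg
  have hsurj : Function.Surjective (Int.castRingHom (ZMod p)) := ZMod.intCast_surjective
  obtain ⟨P, hPP, hPdeg⟩ := exists_natDegree_eq_of_mem_lifts (mem_lifts_of_surjective hsurj P')
  have hK : 2 ≤ (r + 1) * (r + 2) := by nlinarith
  have hr : r + 1 < p := by
    have h1 : r + 1 ≤ d * (r + 1) * (r + 2) := by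
      calc r + 1 = 1 * (r + 1) * 1 := by ring
        _ ≤ d * (r + 1) * (r + 2) := Nat.mul_le_mul (Nat.mul_le_mul_right _ hd0) (by omega)
    omega
  have hdiff : (d - μ) * (r + 1) * (r + 2) + μ ≤ d * (r + 1) * (r + 2) := by
    obtain ⟨m, hm⟩ : ∃ m, d = m + μ := ⟨d - μ, by omega⟩
    rw [hm, Nat.add_sub_cancel, mul_assoc, mul_assoc, Nat.add_mul m μ]
    have : μ ≤ μ * ((r + 1) * (r + 2)) := Nat.le_mul_of_pos_right _ (by omega)
    omega
  have hμp : μ + 2 < p := by omega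
  obtain ⟨e, c, s, he, he0, hdiv⟩ := eich_cong p (by omega) M r hr hcl F P μ (by omega)
    (by rw [hPP]; exact hFP) (by
      intro h
      apply hP1
      rw [← hPP, eval_one_map]
      exact (ZMod.intCast_zmod_eq_zero_iff_dvd _ p).2 h) (d - μ) (by omega) hI
  rw [← reflect_map, hPP] at hdiv
  have hQ1 : (P'.reflect (d - μ)).eval 1 = P'.eval 1 := by
    let : Invertible (1 : ZMod p) := invertibleOne
    have h1 := eval₂_reflect_mul_pow (RingHom.id (ZMod p)) (1 : ZMod p) (d - μ) P' (by omega)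
    rw [invOf_one, one_pow, mul_one] at h1
    exact h1
  have hcore := pol_core p (by omega) P' (P'.reflect (d - μ)) (d - μ) r (p - 2 - μ) (by omega)
    (natDegree_reflect_le.trans (by omega)) hP1 hQ1.symm (by omega) (by omega) e he he0 c s (by
      have h1 : p - 2 - μ + 1 = p - 1 - μ := by omega
      rw [h1]
      exact hdiv)
  have hQ0 : P'.reflect (d - μ) ≠ 0 := fun h => hP0 (reflect_eq_zero_iff.1 h)
  have hrefl : (F.map (Int.castRingHom (ZMod p))).reflect d =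
      C ((-1) ^ μ) * (X - 1) ^ μ * P'.reflect (d - μ) := by
    rw [hFP]
    have h1 := reflect_mul ((X - 1 : (ZMod p)[X]) ^ μ) P' (Eich_reflect_pow p μ).1
      (by omega : P'.natDegree ≤ d - μ)
    rw [(Eich_reflect_pow p μ).2] at h1
    have h2 : μ + (d - μ) = d := by omega
    rw [h2] at h1
    exact h1
  have hm1 : (F.map (Int.castRingHom (ZMod p))).rootMultiplicity 0 = P'.rootMultiplicity 0 := by
    rw [hFP]
    have h1 := Eich_mult p μ (one_ne_zero : (1 : ZMod p) ≠ 0) hP0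
    rwa [C_1, one_mul] at h1
  have hc : ((-1 : ZMod p) ^ μ) ≠ 0 := pow_ne_zero _ (neg_ne_zero.2 one_ne_zero)
  have hm2 : ((F.map (Int.castRingHom (ZMod p))).reflect d).rootMultiplicity 0 =
      (P'.reflect (d - μ)).rootMultiplicity 0 := by
    rw [hrefl]
    exact Eich_mult p μ hc hQ0
  rw [hm1, hm2, hrefl, hFP]
  have hsq : (C ((-1 : ZMod p) ^ μ)) * (C ((-1) ^ μ)) = 1 := by
    rw [← C_mul, ← mul_pow, neg_mul_neg, one_mul, one_pow, C_1]
  calc X ^ (P'.reflect (d - μ)).rootMultiplicity 0 * ((X - 1) ^ μ * P')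
      = (X - 1) ^ μ * (X ^ (P'.reflect (d - μ)).rootMultiplicity 0 * P') := by ring
    _ = (X - 1) ^ μ * (X ^ P'.rootMultiplicity 0 * P'.reflect (d - μ)) := by rw [hcore]
    _ = (C ((-1 : ZMod p) ^ μ) * C ((-1) ^ μ)) * ((X - 1) ^ μ *
          (X ^ P'.rootMultiplicity 0 * P'.reflect (d - μ))) := by rw [hsq, one_mul]
    _ = _ := by ring

end H9FC
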