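import Pool.Agent.H9.FC.Red

/-!
# Project FC9, module LocCM

Local condition at a prime above `p`: the Cauchy-Mirimanoff polynomial `E`,
`p E(X) = (X + 1)^p - X^p - 1`, vanishes at the residue of `b/a`.

PROOF. Let `P = ker ψ`, a prime of `𝓞 K` containing `p`, `e` its ramification index, so
`ordI P (p) = e ≤ d < p`.  `δ = a + b + c ∈ P` (`fsol_hom`), and `c = -(a+b) + δ`, so
`c^p ≡ -(a+b)^p` modulo `P^(e+1)`: in the binomial expansion the terms `C(p,k) (-(a+b))^(p-k) δ^k`,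
`0 < k < p`, are in `(p) P ≤ P^(e+1)`, and `δ^p ∈ P^p ≤ P^(e+1)`.  So
`0 = a^p + b^p + c^p ≡ a^p + b^p - (a+b)^p = - p W` modulo `P^(e+1)`, where
`W = ∑ e_k a^(p-k) b^k`, `E = ∑ e_k X^k` (degree `≤ p - 1`; the identity
`(a+b)^p - a^p - b^p = p W` follows from `hE` by homogenising). So `p W ∈ P^(e+1)`, `W ∈ P`, and
`0 = ψ W = ψ(a)^p E(ψ b/ψ a)`.
`cm_one`: if `ψ a = ψ b` then `E(1) = (2^p - 2)/p` vanishes in `Ω`, so `p² ∣ 2^p - 2`. Similarly for the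
other two: apply it to `(b, c, a)`, `(c, a, b)`.
-/

namespace H9FC

open Polynomial NumberField

private theorem LocCM_ord {K : Type*} [Field K] [NumberField K] {p : ℕ} [Fact p.Prime]
    (hd : Module.finrank ℚ K < p) (P : Ideal (𝓞 K)) (hP : P.IsPrime) (hpP : (p : 𝓞 K) ∈ P)
    {x δ : 𝓞 K} (hδ : δ ∈ P) (h : (p : 𝓞 K) * x = δ ^ p) : x ∈ P := by
  by_contra hx
  have hpp : p.Prime := Fact.out
  have hp0 : (p : 𝓞 K) ≠ 0 := by exact_mod_cast hpp.ne_zero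
  have hP0 : P ≠ ⊥ := by
    intro h0
    rw [h0, Ideal.mem_bot] at hpP
    exact hp0 hpP
  have hPp : Prime P := Ideal.prime_of_isPrime hP0 hP
  have h1 : P ^ p ∣ Ideal.span {(p : 𝓞 K)} * Ideal.span {x} := by
    rw [Ideal.span_singleton_mul_span_singleton, h, Ideal.dvd_iff_le,
      Ideal.span_singleton_le_iff_mem]
    exact Ideal.pow_mem_pow hδ p
  have h2 : ¬ P ∣ Ideal.span {x} := by
    rw [Ideal.dvd_iff_le, Ideal.span_singleton_le_iff_mem]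
    exact hx
  have h3 : P ^ p ∣ Ideal.span {(p : 𝓞 K)} := hPp.pow_dvd_of_dvd_mul_right p h2 h1
  have h4 := Ideal.absNorm_dvd_absNorm_of_le (Ideal.dvd_iff_le.1 h3)
  have h5 : Ideal.absNorm (Ideal.span {(p : 𝓞 K)}) = p ^ Module.finrank ℚ K := by
    rw [Ideal.absNorm_span_singleton]
    have e1 : ((p : ℕ) : 𝓞 K) = algebraMap ℤ (𝓞 K) (p : ℤ) := by simp
    rw [e1, Algebra.norm_algebraMap, RingOfIntegers.rank, Int.natAbs_pow, Int.natAbs_natCast]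
  rw [map_pow, h5] at h4
  have h6 : Ideal.absNorm P ∣ p ^ Module.finrank ℚ K :=
    (dvd_pow_self _ hpp.ne_zero).trans h4
  obtain ⟨f, -, hf⟩ := (Nat.dvd_prime_pow hpp).1 h6
  have hf0 : f ≠ 0 := by
    intro h0
    rw [h0, pow_zero] at hf
    exact hP.ne_top (Ideal.absNorm_eq_one_iff.1 hf)
  rw [hf, ← pow_mul, Nat.pow_dvd_pow_iff_le_right hpp.one_lt] at h4
  have h7 : 1 * p ≤ f * p := Nat.mul_le_mul_right p (Nat.one_le_iff_ne_zero.2 hf0)
  omega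

private theorem LocCM_binom {R : Type*} [CommRing R] {p : ℕ} (hp : p.Prime) (x y : R) :
    (x + y) ^ p = x ^ p + y ^ p +
      p * ∑ k ∈ Finset.Ioo 0 p, x ^ k * y ^ (p - k) * ((p.choose k / p : ℕ) : R) := by
  rw [add_pow_prime_eq hp x y, mul_assoc (p : R) x y, mul_assoc (p : R), Finset.mul_sum]
  congr 2
  refine Finset.sum_congr rfl fun k hk => ?_
  rw [Finset.mem_Ioo] at hk
  obtain ⟨j, rfl⟩ : ∃ j, k = j + 1 := ⟨k - 1, by omega⟩
  obtain ⟨i, hi⟩ : ∃ i, p - (j + 1) = i + 1 := ⟨p - (j + 1) - 1, by omega⟩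
  rw [hi, Nat.add_sub_cancel, Nat.add_sub_cancel, pow_succ, pow_succ]
  ring

/-- the coefficients of the Cauchy-Mirimanoff polynomial -/
private theorem LocCM_E {p : ℕ} [Fact p.Prime] (E : ℤ[X])
    (hE : C (p : ℤ) * E = (X + 1) ^ p - X ^ p - 1) :
    E = ∑ k ∈ Finset.Ioo 0 p, X ^ k * 1 ^ (p - k) * ((p.choose k / p : ℕ) : ℤ[X]) := by
  have hpp : p.Prime := Fact.out
  have h1 := LocCM_binom hpp (X : ℤ[X]) 1
  have h2 : (p : ℤ[X]) ≠ 0 := by exact_mod_cast hpp.ne_zero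
  apply mul_left_cancel₀ h2
  have h3 : C (p : ℤ) = (p : ℤ[X]) := by simp
  rw [← h3, hE, h1, h3]
  ring

theorem loc_cm {K : Type*} [Field K] [NumberField K] {p : ℕ} [Fact p.Prime] (hp2 : p ≠ 2)
    (hd : Module.finrank ℚ K < p) {a b c : 𝓞 K} (h : FSol K p a b c) {Ω : Type*} [Field Ω]
    [CharP Ω p] (ψ : 𝓞 K →+* Ω) (ha : ψ a ≠ 0) (E : ℤ[X])
    (hE : C (p : ℤ) * E = (X + 1) ^ p - X ^ p - 1) :
    aeval (ψ b / ψ a) E = 0 := by
  have hpp : p.Prime := Fact.out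
  have hodd : Odd p := hpp.odd_of_ne_two hp2
  set P : Ideal (𝓞 K) := RingHom.ker ψ with hP
  have hPp : P.IsPrime := RingHom.ker_isPrime ψ
  have hpP : (p : 𝓞 K) ∈ P := by
    rw [hP, RingHom.mem_ker, map_natCast, CharP.cast_eq_zero]
  set δ := a + b + c with hδ
  have hδP : δ ∈ P := by
    rw [hP, RingHom.mem_ker, hδ, map_add, map_add]
    exact fsol_hom h ψ
  set W : 𝓞 K := ∑ k ∈ Finset.Ioo 0 p, b ^ k * a ^ (p - k) * ((p.choose k / p : ℕ) : 𝓞 K) with hW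
  set S : 𝓞 K := ∑ k ∈ Finset.Ioo 0 p, δ ^ k * (-(a + b)) ^ (p - k) *
    ((p.choose k / p : ℕ) : 𝓞 K) with hS
  have e1 := LocCM_binom hpp b a
  rw [← hW] at e1
  have e2 := LocCM_binom hpp δ (-(a + b))
  rw [← hS] at e2
  have e3 : δ + -(a + b) = c := by rw [hδ]; ring
  rw [e3, hodd.neg_pow] at e2
  have e4 := h.2.2.2
  have e5 : (p : 𝓞 K) * (W - S) = δ ^ p := by
    have e6 : (a + b) ^ p = (b + a) ^ p := by rw [add_comm]
    rw [e2, e6, e1] at e4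
    linear_combination -e4
  have h1 : W - S ∈ P := LocCM_ord hd P hPp hpP hδP e5
  have h2 : S ∈ P := by
    rw [hS]
    refine P.sum_mem fun k hk => ?_
    rw [Finset.mem_Ioo] at hk
    refine P.mul_mem_right _ (P.mul_mem_right _ ?_)
    exact P.pow_mem_of_mem hδP k hk.1
  have h3 : W ∈ P := by
    have := P.add_mem h1 h2
    rwa [sub_add_cancel] at this
  have h4 : ψ W = 0 := h3
  have h5 : ψ a ^ p * aeval (ψ b / ψ a) E = ψ W := by
    rw [LocCM_E E hE, hW, map_sum, map_sum, Finset.mul_sum]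
    refine Finset.sum_congr rfl fun k hk => ?_
    rw [Finset.mem_Ioo] at hk
    rw [map_mul, map_mul, map_pow, map_pow, map_mul, map_mul, map_pow, map_pow, aeval_X, map_one,
      one_pow, mul_one, map_natCast, map_natCast, div_pow]
    have h6 : ψ a ^ p = ψ a ^ (p - k) * ψ a ^ k := by
      rw [← pow_add, Nat.sub_add_cancel hk.2.le]
    rw [h6]
    have h7 : ψ a ^ k ≠ 0 := pow_ne_zero _ ha
    field_simp
  rw [h4] at h5
  rcases mul_eq_zero.1 h5 with h6 | h6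
  · exact absurd h6 (pow_ne_zero _ ha)
  · exact h6

theorem cm_one {K : Type*} [Field K] [NumberField K] {p : ℕ} [Fact p.Prime] (hp2 : p ≠ 2)
    (hd : Module.finrank ℚ K < p) {a b c : 𝓞 K} (h : FSol K p a b c)
    (hW : ¬ p ^ 2 ∣ 2 ^ (p - 1) - 1) {Ω : Type*} [Field Ω] [CharP Ω p] (ψ : 𝓞 K →+* Ω)
    (ha : ψ a ≠ 0) : ψ a ≠ ψ b := by
  have hpp : p.Prime := Fact.out
  intro hab
  set E : ℤ[X] := ∑ k ∈ Finset.Ioo 0 p, X ^ k * 1 ^ (p - k) * ((p.choose k / p : ℕ) : ℤ[X])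
    with hEdef
  have hE : C (p : ℤ) * E = (X + 1) ^ p - X ^ p - 1 := by
    have h1 := LocCM_binom hpp (X : ℤ[X]) 1
    have h3 : C (p : ℤ) = (p : ℤ[X]) := by simp
    rw [h1, h3, one_pow]
    ring
  have h1 := loc_cm hp2 hd h ψ ha E hE
  rw [← hab, div_self ha] at h1
  have h2 : aeval (1 : Ω) E = ((E.eval 1 : ℤ) : Ω) := by
    have := aeval_algebraMap_apply Ω (1 : ℤ) E
    rw [map_one] at this
    rw [this]
    simp
  rw [h2, CharP.intCast_eq_zero_iff Ω p] at h1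
  have h3 := congrArg (eval 1) hE
  rw [eval_mul, eval_C, eval_sub, eval_sub, eval_pow, eval_add, eval_X, eval_one, eval_pow, eval_X,
    one_pow] at h3
  have h4 : (p : ℤ) ^ 2 ∣ 2 * (2 ^ (p - 1) - 1) := by
    obtain ⟨t, ht⟩ := h1
    refine ⟨t, ?_⟩
    have h5 : (2 : ℤ) ^ p = 2 * 2 ^ (p - 1) := by
      rw [← pow_succ', Nat.sub_add_cancel hpp.one_le]
    rw [ht] at h3
    have h6 : (1 + 1 : ℤ) ^ p = 2 ^ p := by norm_num
    rw [h6, h5] at h3
    linear_combination -h3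
  have h5 : IsCoprime ((p : ℤ) ^ 2) 2 := by
    apply IsCoprime.pow_left
    have h6 : IsCoprime ((p : ℕ) : ℤ) ((2 : ℕ) : ℤ) :=
      Nat.isCoprime_iff_coprime.2 ((Nat.coprime_primes hpp Nat.prime_two).2 hp2)
    exact_mod_cast h6
  have h6 : (p : ℤ) ^ 2 ∣ 2 ^ (p - 1) - 1 := h5.dvd_of_dvd_mul_left h4
  apply hW
  have h7 : ((2 ^ (p - 1) - 1 : ℕ) : ℤ) = 2 ^ (p - 1) - 1 := by
    rw [Nat.cast_sub Nat.one_le_two_pow]
    push_cast
    ring
  rw [← h7] at h6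
  exact_mod_cast h6

end H9FC
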