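import Pool.Agent.H9.FC.Scale

/-!
# Project FC9, module QuadC

The local degree sums `mm K q x` for first case solutions.

PROOFS. `∑_{P ∋ q} e(P) f(P) = [K:ℚ]` (Mathlib: `Ideal.sum_ramification_inertia` or
`Ideal.ncard_primesOver...`; all primes above `q` are nonzero, finitely many).
`mm_eq_top`/`mm_eq_zero`: `x` lies in all / in none of the primes above `q`.
`mm_le`: at most the sum over all primes above `q`; `mm_add_le`: if no prime above `q` contains two of
`a, b, c`; `mm_add_eq`: if every prime above `q` contains exactly one of them.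
`one_prime`: if there is exactly one prime `P` above `q` then `mm K q x` is `[K:ℚ]` if `x ∈ P` and `0`
otherwise.
Quadratic fields (`[K:ℚ] = 2`), `q` prime: if `P² = (q)` for some ideal `P`, then `P` is prime and it is
the only prime above `q`, with residue field of `q` elements; if `(q)` is a prime ideal it is the only
prime above `q`, with residue field of `q²` elements; otherwise there are two primes above `q`, both
with `e = f = 1` and residue field of `q` elements (take norms: `absNorm (q) = q²`, and count the prime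
factors of `(q)`).
`quad_split`: `(q)` is not prime and `P² ≠ (q)` for all `P`; then every prime above `q` contributes
`1` to `mm`, and there are two of them.
-/

namespace H9FC

open NumberField

private theorem QuadC_mem (K : Type*) [Field K] [NumberField K] (q : ℕ) [Fact q.Prime]
    (P : Ideal (𝓞 K)) : P ∈ Ideal.primesOver (Ideal.span {(q : ℤ)}) (𝓞 K) ↔
      P.IsPrime ∧ (q : 𝓞 K) ∈ P := by
  have hq : q.Prime := Fact.out
  constructor
  · rintro ⟨h1, h2⟩
    refine ⟨h1, ?_⟩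
    have h3 := (Ideal.mem_of_liesOver P (Ideal.span {(q : ℤ)}) (q : ℤ)).1
      (Ideal.mem_span_singleton_self _)
    simpa using h3
  · rintro ⟨h1, h2⟩
    refine ⟨h1, ⟨?_⟩⟩
    haveI hmax : (Ideal.span {(q : ℤ)}).IsMaximal :=
      PrincipalIdealRing.isMaximal_of_irreducible (Nat.prime_iff_prime_int.1 hq).irreducible
    refine hmax.eq_of_le ?_ ?_
    · haveI := h1
      exact (Ideal.IsPrime.under ℤ P).ne_top
    · rw [Ideal.span_singleton_le_iff_mem, Ideal.under_def, Ideal.mem_comap]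
      simpa using h2

private noncomputable def QuadC_f (K : Type*) [Field K] [NumberField K] (P : Ideal (𝓞 K)) : ℕ :=
  P.ramificationIdx ℤ * P.inertiaDeg ℤ

private noncomputable def QuadC_S (K : Type*) [Field K] [NumberField K] (q : ℕ) :
    Finset (Ideal (𝓞 K)) :=
  (Algebra.QuasiFinite.finite_primesOver (S := 𝓞 K) (Ideal.span {(q : ℤ)})).toFinset

private theorem QuadC_memS (K : Type*) [Field K] [NumberField K] (q : ℕ) [Fact q.Prime]
    (P : Ideal (𝓞 K)) : P ∈ QuadC_S K q ↔ P.IsPrime ∧ (q : 𝓞 K) ∈ P := by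
  unfold QuadC_S
  rw [Set.Finite.mem_toFinset, QuadC_mem]

private theorem QuadC_f_pos (K : Type*) [Field K] [NumberField K] (P : Ideal (𝓞 K))
    (hP : P.IsPrime) : 0 < QuadC_f K P := by
  haveI := hP
  exact Nat.mul_pos (Ideal.ramificationIdx_pos P ℤ) (Ideal.inertiaDeg_pos P ℤ)

private theorem QuadC_sum (K : Type*) [Field K] [NumberField K] (q : ℕ) [Fact q.Prime] :
    ∑ P ∈ QuadC_S K q, QuadC_f K P = Module.finrank ℚ K := by
  classical
  have hq : q.Prime := Fact.out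
  haveI hpr : (Ideal.span {(q : ℤ)}).IsPrime :=
    (Ideal.span_singleton_prime (by exact_mod_cast hq.ne_zero)).2 (Nat.prime_iff_prime_int.1 hq)
  have hfin : (Ideal.primesOver (Ideal.span {(q : ℤ)}) (𝓞 K)).Finite :=
    Algebra.QuasiFinite.finite_primesOver (S := 𝓞 K) (Ideal.span {(q : ℤ)})
  letI : Fintype (Ideal.primesOver (Ideal.span {(q : ℤ)}) (𝓞 K)) := hfin.fintype
  have h := Ideal.sum_ramification_inertia_eq_finrank (Ideal.span {(q : ℤ)}) (𝓞 K)
  rw [RingOfIntegers.rank] at h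
  rw [← h]
  have hs : ∀ x, x ∈ QuadC_S K q ↔ x ∈ Ideal.primesOver (Ideal.span {(q : ℤ)}) (𝓞 K) := by
    intro x
    unfold QuadC_S
    rw [Set.Finite.mem_toFinset]
  exact Finset.sum_subtype (QuadC_S K q) hs (QuadC_f K)

open scoped Classical in
private theorem QuadC_mm (K : Type*) [Field K] [NumberField K] (q : ℕ) [Fact q.Prime]
    (x : 𝓞 K) : mm K q x = ∑ P ∈ (QuadC_S K q).filter (fun P => x ∈ P), QuadC_f K P := by
  unfold mm
  refine finsum_mem_eq_sum_of_inter_support_eq _ ?_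
  congr 1
  ext P
  simp only [Set.mem_ofPred_eq, Finset.coe_filter]
  rw [QuadC_mem, QuadC_memS]

theorem mm_le (K : Type*) [Field K] [NumberField K] (q : ℕ) [Fact q.Prime] (x : 𝓞 K) :
    mm K q x ≤ Module.finrank ℚ K := by
  classical
  rw [QuadC_mm, ← QuadC_sum K q]
  exact Finset.sum_le_sum_of_subset (Finset.filter_subset _ _)

theorem mm_eq_top (K : Type*) [Field K] [NumberField K] (q : ℕ) [Fact q.Prime] (x : 𝓞 K)
    (h : ∀ P : Ideal (𝓞 K), P.IsPrime → (q : 𝓞 K) ∈ P → x ∈ P) :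
    mm K q x = Module.finrank ℚ K := by
  classical
  rw [QuadC_mm, ← QuadC_sum K q]
  congr 1
  refine Finset.filter_true_of_mem fun P hP => ?_
  rw [QuadC_memS] at hP
  exact h P hP.1 hP.2

theorem mm_eq_zero (K : Type*) [Field K] [NumberField K] (q : ℕ) [Fact q.Prime] (x : 𝓞 K)
    (h : ∀ P : Ideal (𝓞 K), P.IsPrime → (q : 𝓞 K) ∈ P → x ∉ P) : mm K q x = 0 := by
  classical
  rw [QuadC_mm]
  rw [Finset.filter_false_of_mem, Finset.sum_empty]
  intro P hP
  rw [QuadC_memS] at hP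
  exact h P hP.1 hP.2

theorem mm_add_eq (K : Type*) [Field K] [NumberField K] (q : ℕ) [Fact q.Prime] (a b c : 𝓞 K)
    (h : ∀ P : Ideal (𝓞 K), P.IsPrime → (q : 𝓞 K) ∈ P →
      (¬ (a ∈ P ∧ b ∈ P) ∧ ¬ (b ∈ P ∧ c ∈ P) ∧ ¬ (c ∈ P ∧ a ∈ P)) ∧ (a ∈ P ∨ b ∈ P ∨ c ∈ P)) :
    mm K q a + mm K q b + mm K q c = Module.finrank ℚ K := by
  classical
  rw [QuadC_mm, QuadC_mm, QuadC_mm, ← QuadC_sum K q, Finset.sum_filter, Finset.sum_filter,
    Finset.sum_filter, ← Finset.sum_add_distrib, ← Finset.sum_add_distrib]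
  refine Finset.sum_congr rfl fun P hP => ?_
  rw [QuadC_memS] at hP
  obtain ⟨⟨h1, h2, h3⟩, h4⟩ := h P hP.1 hP.2
  by_cases ha : a ∈ P
  · have hb : b ∉ P := fun hb => h1 ⟨ha, hb⟩
    have hc : c ∉ P := fun hc => h3 ⟨hc, ha⟩
    simp [ha, hb, hc]
  · by_cases hb : b ∈ P
    · have hc : c ∉ P := fun hc => h2 ⟨hb, hc⟩
      simp [ha, hb, hc]
    · have hc : c ∈ P := by tauto
      simp [ha, hb, hc]

theorem exists_mem_of_mm_pos (K : Type*) [Field K] [NumberField K] (q : ℕ) [Fact q.Prime]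
    (x : 𝓞 K) (h : 0 < mm K q x) :
    ∃ P ∈ Ideal.primesOver (Ideal.span {(q : ℤ)}) (𝓞 K), x ∈ P := by
  classical
  by_contra hcon
  push Not at hcon
  have h1 := mm_eq_zero K q x fun P hP hq => hcon P ((QuadC_mem K q P).2 ⟨hP, hq⟩)
  omega

private theorem QuadC_norm (K : Type*) [Field K] [NumberField K] (h2 : Module.finrank ℚ K = 2)
    (q : ℕ) : Ideal.absNorm (Ideal.span {(q : 𝓞 K)}) = q ^ 2 := by
  rw [Ideal.absNorm_span_natCast, RingOfIntegers.rank, h2]

private theorem QuadC_card (K : Type*) [Field K] [NumberField K] (P : Ideal (𝓞 K)) :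
    Nat.card (𝓞 K ⧸ P) = Ideal.absNorm P := rfl

/-- residue fields above `q` of a quadratic field have at most `q ^ 2` elements -/
theorem quad_card (K : Type*) [Field K] [NumberField K] (h2 : Module.finrank ℚ K = 2) (q : ℕ)
    [Fact q.Prime] (P : Ideal (𝓞 K)) (hP : P.IsPrime) (hq : (q : 𝓞 K) ∈ P) :
    Nat.card (𝓞 K ⧸ P) ≤ q ^ 2 := by
  have hqp : q.Prime := Fact.out
  rw [QuadC_card, ← QuadC_norm K h2 q]
  refine Nat.le_of_dvd ?_ (Ideal.absNorm_dvd_absNorm_of_le
    ((Ideal.span_singleton_le_iff_mem _).2 hq))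
  rw [QuadC_norm K h2 q]
  have := hqp.pos
  positivity

private theorem QuadC_max (K : Type*) [Field K] [NumberField K] (q : ℕ) [Fact q.Prime]
    (P : Ideal (𝓞 K)) (hP : P.IsPrime) (hq : (q : 𝓞 K) ∈ P) : P.IsMaximal := by
  have hqp : q.Prime := Fact.out
  refine hP.isMaximal ?_
  rintro rfl
  rw [Ideal.mem_bot] at hq
  exact hqp.ne_zero (by exact_mod_cast hq)

/-- ramified primes -/
theorem quad_ram (K : Type*) [Field K] [NumberField K] (h2 : Module.finrank ℚ K = 2) (q : ℕ)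
    [Fact q.Prime] (hr : ∃ P : Ideal (𝓞 K), P ^ 2 = Ideal.span {(q : 𝓞 K)}) :
    ∃ P : Ideal (𝓞 K), P.IsPrime ∧ (q : 𝓞 K) ∈ P ∧ Nat.card (𝓞 K ⧸ P) = q ∧
      ∀ P' : Ideal (𝓞 K), P'.IsPrime → (q : 𝓞 K) ∈ P' → P' = P := by
  have hqp : q.Prime := Fact.out
  obtain ⟨P, hP2⟩ := hr
  have h1 : Ideal.absNorm P = q := by
    have h3 : (Ideal.absNorm P) ^ 2 = q ^ 2 := by
      rw [← map_pow, hP2, QuadC_norm K h2 q]
    exact Nat.pow_left_injective two_ne_zero h3
  have hP : P.IsPrime := by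
    refine Ideal.isPrime_of_irreducible_absNorm ?_
    rw [h1]
    exact hqp
  have hqP : (q : 𝓞 K) ∈ P := by
    refine Ideal.pow_le_self two_ne_zero ?_
    rw [hP2]
    exact Ideal.mem_span_singleton_self _
  refine ⟨P, hP, hqP, by rw [QuadC_card, h1], ?_⟩
  intro P' hP' hq'
  have hle : P ≤ P' := by
    haveI := hP'
    refine Ideal.IsPrime.le_of_pow_le (n := 2) ?_
    rw [hP2]
    exact (Ideal.span_singleton_le_iff_mem _).2 hq'
  exact ((QuadC_max K q P hP hqP).eq_of_le hP'.ne_top hle).symm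

/-- inert primes -/
theorem quad_inert (K : Type*) [Field K] [NumberField K] (q : ℕ)
    [Fact q.Prime] (hi : (Ideal.span {(q : 𝓞 K)}).IsPrime) :
    ∀ P' : Ideal (𝓞 K), P'.IsPrime → (q : 𝓞 K) ∈ P' → P' = Ideal.span {(q : 𝓞 K)} := by
  intro P' hP' hq'
  exact ((QuadC_max K q _ hi (Ideal.mem_span_singleton_self _)).eq_of_le hP'.ne_top
    ((Ideal.span_singleton_le_iff_mem _).2 hq')).symm

/-- split primes -/
theorem quad_split (K : Type*) [Field K] [NumberField K] (h2 : Module.finrank ℚ K = 2) (q : ℕ)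
    [Fact q.Prime] (hr : ¬ ∃ P : Ideal (𝓞 K), P ^ 2 = Ideal.span {(q : 𝓞 K)})
    (hi : ¬ (Ideal.span {(q : 𝓞 K)}).IsPrime) :
    ∃ P P' : Ideal (𝓞 K), P.IsPrime ∧ P'.IsPrime ∧ (q : 𝓞 K) ∈ P ∧ (q : 𝓞 K) ∈ P' ∧ P ≠ P' ∧
      Nat.card (𝓞 K ⧸ P) = q ∧ Nat.card (𝓞 K ⧸ P') = q ∧
      (∀ P'' : Ideal (𝓞 K), P''.IsPrime → (q : 𝓞 K) ∈ P'' → P'' = P ∨ P'' = P') ∧
      ∀ x : 𝓞 K, (x ∈ P → x ∉ P' → mm K q x = 1) ∧ (x ∉ P → x ∈ P' → mm K q x = 1) := by
  classical
  have hqp : q.Prime := Fact.out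
  have hnorm := QuadC_norm K h2 q
  have hne : Ideal.span {(q : 𝓞 K)} ≠ ⊤ := by
    intro h
    rw [h, Ideal.absNorm_top] at hnorm
    have h3 := hqp.two_le
    nlinarith
  obtain ⟨P, hPm, hle⟩ := Ideal.exists_le_maximal _ hne
  have hP := hPm.isPrime
  obtain ⟨P', hPP'⟩ := Ideal.dvd_iff_le.2 hle
  have hPn : Ideal.absNorm P ≠ 1 := fun h => hP.ne_top (Ideal.absNorm_eq_one_iff.1 h)
  have hPn' : Ideal.absNorm P' ≠ 1 := by
    intro h
    rw [Ideal.absNorm_eq_one_iff] at h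
    rw [h, Ideal.mul_top] at hPP'
    exact hi (hPP' ▸ hP)
  have hmul : Ideal.absNorm P * Ideal.absNorm P' = q ^ 2 := by
    rw [← map_mul, ← hPP', hnorm]
  obtain ⟨hN, hN'⟩ := (hqp.mul_eq_prime_sq_iff hPn hPn').1 hmul
  have hP' : P'.IsPrime := by
    refine Ideal.isPrime_of_irreducible_absNorm ?_
    rw [hN']
    exact hqp
  have hqP : (q : 𝓞 K) ∈ P := hle (Ideal.mem_span_singleton_self _)
  have hqP' : (q : 𝓞 K) ∈ P' := by
    have h3 : (q : 𝓞 K) ∈ P * P' := by
      rw [← hPP']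
      exact Ideal.mem_span_singleton_self _
    exact Ideal.mul_le_right h3
  have hneq : P ≠ P' := by
    intro h
    apply hr
    refine ⟨P, ?_⟩
    rw [hPP', ← h, pow_two]
  have hall : ∀ P'' : Ideal (𝓞 K), P''.IsPrime → (q : 𝓞 K) ∈ P'' → P'' = P ∨ P'' = P' := by
    intro P'' hP'' hq''
    have h3 : P * P' ≤ P'' := by
      rw [← hPP']
      exact (Ideal.span_singleton_le_iff_mem _).2 hq''
    rcases (Ideal.IsPrime.mul_le hP'').1 h3 with h4 | h4
    · exact Or.inl (((QuadC_max K q P hP hqP).eq_of_le hP''.ne_top h4).symm)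
    · exact Or.inr (((QuadC_max K q P' hP' hqP').eq_of_le hP''.ne_top h4).symm)
  have hS : QuadC_S K q = {P, P'} := by
    ext R
    rw [QuadC_memS, Finset.mem_insert, Finset.mem_singleton]
    constructor
    · rintro ⟨h3, h4⟩
      exact hall R h3 h4
    · rintro (h | h)
      · rw [h]; exact ⟨hP, hqP⟩
      · rw [h]; exact ⟨hP', hqP'⟩
  have hsum := QuadC_sum K q
  rw [hS, Finset.sum_pair hneq, h2] at hsum
  have hf := QuadC_f_pos K P hP
  have hf' := QuadC_f_pos K P' hP'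
  refine ⟨P, P', hP, hP', hqP, hqP', hneq, by rw [QuadC_card, hN], by rw [QuadC_card, hN'],
    hall, ?_⟩
  intro x
  constructor
  · intro h3 h4
    rw [QuadC_mm, hS]
    have h5 : ({P, P'} : Finset (Ideal (𝓞 K))).filter (fun P => x ∈ P) = {P} := by
      rw [Finset.filter_insert, if_pos h3, Finset.filter_singleton, if_neg h4]
      rfl
    rw [h5, Finset.sum_singleton]
    omega
  · intro h3 h4
    rw [QuadC_mm, hS]
    have h5 : ({P, P'} : Finset (Ideal (𝓞 K))).filter (fun P => x ∈ P) = {P'} := by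
      rw [Finset.filter_insert, if_neg h3, Finset.filter_singleton, if_pos h4]
    rw [h5, Finset.sum_singleton]
    omega

end H9FC
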