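import Pool.Agent.H9.FC.Defs

/-!
# Project FC9, module Scale

Removing common factors at the primes dividing an integer `n`.

PROOF. Let `𝔤 = (a, b, c) ≠ ⊥`, and write `𝔤 = 𝔤₁ 𝔤₂` where
`𝔤₁` is the product of the prime powers in `𝔤` for the primes containing `n` (so `𝔤₂ ⊄ P` for all
primes `P ∋ n`).  By the Chinese remainder theorem (or prime avoidance) there is `y ∈ 𝔤₁` such that
`y ∉ 𝔤₁ P` for all primes `P ∋ n`.  Then `(y) = 𝔤₁ 𝔧` with an ideal `𝔧` contained in no prime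
containing `n`.
So `m = absNorm 𝔧` is an integer prime to `n` lying in `𝔧`, and `m 𝔤₁ ⊆ 𝔧 𝔤₁ = (y)`, so
`a' = m a / y`, `b' = m b/y`, `c' = m c/y ∈ 𝓞 K`.  They satisfy the Fermat equation; if `P ∋ n`
contained `a', b', c'`, then `m 𝔤 = y (a', b', c') ⊆ y P ⊆ 𝔤₁ P`, and comparing the exponent of `P`
(`P` does not divide `m`, nor `𝔤₂`) we get a contradiction: the exponent of `𝔤` is the one of `𝔤₁`.
`cop_two`: if `a, b ∈ P` then `c^p ∈ P`.
`scale_unit`: if no prime above `p` contained `a`, `b`, `c` individually (first case), the same holds for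
`a', b', c'` if `n` is prime to `p`... this is not needed: choose `n` divisible by `p`; at a prime `P ∋ p`
the exponents of `a, b, c` are equal iff those of `a', b', c'` are.  (`first_scale`: if `y a' = m a` etc.,
`y, m ≠ 0`, and `P` contains none of `a, b, c` and not all of `a', b', c'`, then the exponents of
`a', b', c'` at `P` are all equal, hence all `0`.)
-/

namespace H9FC

open NumberField

theorem exists_scale (K : Type*) [Field K] [NumberField K] (p : ℕ) [Fact p.Prime] (n : ℕ)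
    (hn : n ≠ 0) (a b c : 𝓞 K) (h : FSol K p a b c) :
    ∃ a' b' c' y m : 𝓞 K, y ≠ 0 ∧ m ≠ 0 ∧ y * a' = m * a ∧ y * b' = m * b ∧ y * c' = m * c ∧
      FSol K p a' b' c' ∧ ∀ P : Ideal (𝓞 K), P.IsPrime → (n : 𝓞 K) ∈ P →
        ¬ (a' ∈ P ∧ b' ∈ P ∧ c' ∈ P) := by
  have hpp : p.Prime := Fact.out
  obtain ⟨ha, hb, hc, he⟩ := h
  by_cases hu : Ideal.span {(n : 𝓞 K)} = ⊤
  · refine ⟨a, b, c, 1, 1, one_ne_zero, one_ne_zero, rfl, rfl, rfl, ⟨ha, hb, hc, he⟩, ?_⟩
    intro P hP hnP _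
    apply hP.ne_top
    rw [eq_top_iff, ← hu, Ideal.span_singleton_le_iff_mem]
    exact hnP
  have hn0 : (n : 𝓞 K) ≠ 0 := by exact_mod_cast hn
  set G : Ideal (𝓞 K) := Ideal.span {a, b, c} with hG
  have haG : a ∈ G := Ideal.subset_span (by simp)
  have hbG : b ∈ G := Ideal.subset_span (by simp)
  have hcG : c ∈ G := Ideal.subset_span (by simp)
  have hG0 : G ≠ 0 := by
    intro h0
    rw [h0] at haG
    exact ha (by simpa using haG)
  obtain ⟨y, hy⟩ := IsDedekindDomain.exists_sup_span_eq (I := G * Ideal.span {(n : 𝓞 K)}) (J := G)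
    Ideal.mul_le_left (mul_ne_zero hG0 (by
      rw [Ne, Ideal.zero_eq_bot, Ideal.span_singleton_eq_bot]
      exact hn0))
  have hyG : Ideal.span {y} ≤ G := by
    rw [← hy]
    exact le_sup_right
  obtain ⟨J, hJ⟩ := Ideal.dvd_iff_le.mpr hyG
  have hcop : Ideal.span {(n : 𝓞 K)} ⊔ J = 1 := by
    have h1 : G * (Ideal.span {(n : 𝓞 K)} ⊔ J) = G * 1 := by
      rw [Ideal.mul_sup, ← hJ, hy, mul_one]
    exact mul_left_cancel₀ hG0 h1
  have hy0 : y ≠ 0 := by
    rintro rfl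
    have h1 : J = ⊥ := by
      have h2 : G * J = G * 0 := by
        rw [← hJ, mul_zero, Ideal.zero_eq_bot, Ideal.span_singleton_eq_bot]
      exact mul_left_cancel₀ hG0 h2
    rw [h1, sup_bot_eq] at hcop
    exact hu (by rw [hcop, Ideal.one_eq_top])
  have h1mem : (1 : 𝓞 K) ∈ Ideal.span {(n : 𝓞 K)} ⊔ J := by
    rw [hcop, Ideal.one_eq_top]
    trivial
  obtain ⟨i, hi, m, hm, him⟩ := Submodule.mem_sup.mp h1mem
  have hm0 : m ≠ 0 := by
    rintro rfl
    rw [add_zero] at him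
    rw [him] at hi
    exact hu ((Ideal.eq_top_iff_one _).mpr hi)
  have key : ∀ x ∈ G, ∃ x', y * x' = m * x := by
    intro x hx
    have h1 : x * m ∈ G * J := Ideal.mul_mem_mul hx hm
    rw [← hJ, Ideal.mem_span_singleton] at h1
    obtain ⟨x', hx'⟩ := h1
    exact ⟨x', by rw [← hx', mul_comm]⟩
  obtain ⟨a', ea⟩ := key a haG
  obtain ⟨b', eb⟩ := key b hbG
  obtain ⟨c', ec⟩ := key c hcG
  have hne : ∀ x x' : 𝓞 K, y * x' = m * x → x ≠ 0 → x' ≠ 0 := by
    rintro x x' e hx rfl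
    rw [mul_zero] at e
    exact mul_ne_zero hm0 hx e.symm
  refine ⟨a', b', c', y, m, hy0, hm0, ea, eb, ec, ⟨hne a a' ea ha, hne b b' eb hb, hne c c' ec hc, ?_⟩,
    ?_⟩
  · have h1 : y ^ p * (a' ^ p + b' ^ p + c' ^ p) = 0 := by
      calc y ^ p * (a' ^ p + b' ^ p + c' ^ p) = (y * a') ^ p + (y * b') ^ p + (y * c') ^ p := by
            rw [mul_pow, mul_pow, mul_pow]
            ring
        _ = m ^ p * (a ^ p + b ^ p + c ^ p) := by
            rw [ea, eb, ec, mul_pow, mul_pow, mul_pow]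
            ring
        _ = 0 := by rw [he, mul_zero]
    exact (mul_eq_zero.mp h1).resolve_left (pow_ne_zero _ hy0)
  · rintro P hP hnP ⟨ha', hb', hc'⟩
    have h1 : ∀ x x' : 𝓞 K, y * x' = m * x → x' ∈ P → m * x ∈ Ideal.span {y} * P := by
      intro x x' e hx'
      rw [← e]
      exact Ideal.mul_mem_mul (Ideal.mem_span_singleton_self y) hx'
    have h2 : Ideal.span {m} * G ≤ G * (J * P) := by
      rw [← mul_assoc, ← hJ, hG, Ideal.span_mul_span', Ideal.span_le]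
      rintro z ⟨x1, hx1, x2, hx2, rfl⟩
      rw [Set.mem_singleton_iff] at hx1
      subst hx1
      simp only [Set.mem_insert_iff, Set.mem_singleton_iff] at hx2
      rcases hx2 with rfl | rfl | rfl
      · exact h1 _ _ ea ha'
      · exact h1 _ _ eb hb'
      · exact h1 _ _ ec hc'
    rw [mul_comm, ← Ideal.dvd_iff_le, mul_dvd_mul_iff_left hG0, Ideal.dvd_iff_le,
      Ideal.span_singleton_le_iff_mem] at h2
    have h3 : m ∈ P := Ideal.mul_le_right h2
    apply hP.ne_top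
    rw [Ideal.eq_top_iff_one, ← him]
    refine P.add_mem ?_ h3
    have : Ideal.span {(n : 𝓞 K)} ≤ P := by
      rwa [Ideal.span_singleton_le_iff_mem]
    exact this hi

private theorem Scale_cross {K : Type*} [Field K] [NumberField K] {a x a' x' y m : 𝓞 K}
    (hy : y ≠ 0) (ea : y * a' = m * a) (ex : y * x' = m * x) : a' * x = x' * a := by
  apply mul_left_cancel₀ hy
  calc y * (a' * x) = (y * a') * x := by ring
    _ = a * (m * x) := by rw [ea]; ring
    _ = y * (x' * a) := by rw [← ex]; ring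

private theorem Scale_aux {K : Type*} [Field K] [NumberField K] {a b c a' b' c' y m : 𝓞 K}
    (hy : y ≠ 0) (ea : y * a' = m * a) (eb : y * b' = m * b) (ec : y * c' = m * c)
    (P : Ideal (𝓞 K)) (hP : P.IsPrime) (h : a ∉ P)
    (h' : ¬ (a' ∈ P ∧ b' ∈ P ∧ c' ∈ P)) : a' ∉ P := by
  intro ha'
  apply h'
  refine ⟨ha', ?_, ?_⟩
  · have h1 := Scale_cross hy ea eb
    have h2 : b' * a ∈ P := by
      rw [← h1]
      exact P.mul_mem_right _ ha'
    exact (hP.mem_or_mem h2).resolve_right h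
  · have h1 := Scale_cross hy ea ec
    have h2 : c' * a ∈ P := by
      rw [← h1]
      exact P.mul_mem_right _ ha'
    exact (hP.mem_or_mem h2).resolve_right h

/-- the first case is preserved -/
theorem first_scale {K : Type*} [Field K] [NumberField K] {a b c a' b' c' y m : 𝓞 K}
    (hy : y ≠ 0) (hm : m ≠ 0) (ea : y * a' = m * a) (eb : y * b' = m * b) (ec : y * c' = m * c)
    (P : Ideal (𝓞 K)) (hP : P.IsPrime) (h : a ∉ P ∧ b ∉ P ∧ c ∉ P)
    (h' : ¬ (a' ∈ P ∧ b' ∈ P ∧ c' ∈ P)) : a' ∉ P ∧ b' ∉ P ∧ c' ∉ P :=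
  ⟨Scale_aux hy ea eb ec P hP h.1 h',
    Scale_aux hy eb ec ea P hP h.2.1 (fun h3 => h' ⟨h3.2.2, h3.1, h3.2.1⟩),
    Scale_aux hy ec ea eb P hP h.2.2 (fun h3 => h' ⟨h3.2.1, h3.2.2, h3.1⟩)⟩

/-- at a prime `P` at which not all of `a, b, c` vanish, at most one of them does -/
theorem cop_two {K : Type*} [Field K] [NumberField K] {p : ℕ} [Fact p.Prime] {a b c : 𝓞 K}
    (h : FSol K p a b c) (P : Ideal (𝓞 K)) (hP : P.IsPrime) (h3 : ¬ (a ∈ P ∧ b ∈ P ∧ c ∈ P)) :
    ¬ (a ∈ P ∧ b ∈ P) ∧ ¬ (b ∈ P ∧ c ∈ P) ∧ ¬ (c ∈ P ∧ a ∈ P) := by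
  have hpp : p.Prime := Fact.out
  have key : ∀ x y z : 𝓞 K, x ^ p + y ^ p + z ^ p = 0 → x ∈ P → y ∈ P → z ∈ P := by
    intro x y z e hx hy
    have h1 : z ^ p = - (x ^ p + y ^ p) := by linear_combination e
    apply hP.mem_of_pow_mem p
    rw [h1]
    exact P.neg_mem (P.add_mem (P.pow_mem_of_mem hx p hpp.pos) (P.pow_mem_of_mem hy p hpp.pos))
  obtain ⟨-, -, -, he⟩ := h
  refine ⟨fun h1 => h3 ⟨h1.1, h1.2, key a b c he h1.1 h1.2⟩,
    fun h1 => h3 ⟨key b c a (by linear_combination he) h1.1 h1.2, h1.1, h1.2⟩,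
    fun h1 => h3 ⟨h1.2, key c a b (by linear_combination he) h1.1 h1.2, h1.1⟩⟩

/-- for primes with residue field of two elements at least one of `a, b, c` vanishes -/
theorem res_two {K : Type*} [Field K] [NumberField K] {p : ℕ} [Fact p.Prime] {a b c : 𝓞 K}
    (h : FSol K p a b c) (P : Ideal (𝓞 K)) (hP : P.IsPrime) (h2 : Nat.card (𝓞 K ⧸ P) = 2) :
    a ∈ P ∨ b ∈ P ∨ c ∈ P := by
  by_contra hcon
  rw [not_or, not_or] at hcon
  obtain ⟨ha, hb, hc⟩ := hcon
  haveI : Nontrivial (𝓞 K ⧸ P) := Ideal.Quotient.nontrivial_iff.mpr hP.ne_top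
  obtain ⟨z, hz, huniq⟩ := (Nat.card_eq_two_iff' (0 : 𝓞 K ⧸ P)).mp h2
  have h1z : (1 : 𝓞 K ⧸ P) = z := huniq 1 one_ne_zero
  have key : ∀ x : 𝓞 K, x ∉ P → Ideal.Quotient.mk P x = 1 := by
    intro x hx
    rw [h1z]
    apply huniq
    simpa [Ideal.Quotient.eq_zero_iff_mem] using hx
  obtain ⟨-, -, -, he⟩ := h
  have h3 := congrArg (Ideal.Quotient.mk P) he
  rw [map_add, map_add, map_pow, map_pow, map_pow, key a ha, key b hb, key c hc, one_pow,
    map_zero] at h3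
  by_cases h4 : (1 + 1 : 𝓞 K ⧸ P) = 0
  · rw [h4, zero_add] at h3
    exact one_ne_zero h3
  · have h5 := huniq (1 + 1) h4
    rw [← h1z] at h5
    have h6 : (1 : 𝓞 K ⧸ P) = 0 := by linear_combination h5
    exact one_ne_zero h6

end H9FC
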