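import Pool.Agent.H9.FC.Red

/-!
# Project FC9, module TraceQ

From traces in characteristic `p` to traces of elements of `K`.

PROOF. Let `n = N(c) ∈ ℤ` (`Algebra.norm ℤ c`); `n = c c'` with `c' ∈ 𝓞 K` (the norm of `c` is a multiple
of `c` in `𝓞 K`: `Algebra.dvd_norm` or the constant coefficient of the characteristic
polynomial; or `Ideal.absNorm_mem`).  So `n * Tr(x/c) = Tr(x c')` is an integer `T`
(`Algebra.trace ℤ (𝓞 K)` and `Algebra.trace ℚ K` are compatible:
`Algebra.trace_localization`/`Algebra.coe_trace_int`), and modulo `p`, i.e. in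
`Ω = AlgebraicClosure (ZMod p)`, with a reduced family `ψ` at `p` (`exists_redFam`):
`T = ∑ ψ_i(x) ψ_i(c') = n ∑ ψ_i x / ψ_i c = n m` by hypothesis. `n ≠ 0` in `Ω` (`redFam_norm`; all
`ψ_i c ≠ 0`).  So `p ∣ T - n m` in `ℤ`, `T - n m = p u`, `v = n`.
-/

namespace H9FC

open Polynomial NumberField

theorem trace_of_redFam (K : Type*) [Field K] [NumberField K] (p : ℕ) [Fact p.Prime]
    (x c : 𝓞 K) (hc : ∀ P : Ideal (𝓞 K), P.IsPrime → (p : 𝓞 K) ∈ P → c ∉ P) (m : ℤ)
    (h : ∀ ψ : Fin (Module.finrank ℚ K) → (𝓞 K →+* AlgebraicClosure (ZMod p)), IsRedFam ψ →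
      ∑ i, ψ i x / ψ i c = (m : AlgebraicClosure (ZMod p))) :
    ∃ u v : ℤ, ¬ (p : ℤ) ∣ v ∧
      (v : ℚ) * (Algebra.trace ℚ K ((x : K) / (c : K)) - (m : ℚ)) = (p : ℚ) * (u : ℚ) := by
  have hpp : p.Prime := Fact.out
  obtain ⟨ψ, hψ⟩ := exists_redFam K p (AlgebraicClosure (ZMod p))
  -- all `ψ i c ≠ 0`
  have hψc : ∀ i, ψ i c ≠ 0 := by
    intro i h0
    refine hc (RingHom.ker (ψ i)) (RingHom.ker_isPrime _) ?_ h0
    rw [RingHom.mem_ker, map_natCast]
    exact CharP.cast_eq_zero _ p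
  have hc0 : c ≠ 0 := by
    rintro rfl
    have hd : 0 < Module.finrank ℚ K := Module.finrank_pos
    exact hψc ⟨0, hd⟩ (map_zero _)
  have hcK : (c : K) ≠ 0 := by
    simpa using hc0
  -- the norm
  obtain ⟨c', hc'⟩ : c ∣ ((Algebra.norm ℤ c : ℤ) : 𝓞 K) := by
    have h1 : ((Ideal.absNorm (Ideal.span {c}) : ℕ) : 𝓞 K) ∈ Ideal.span {c} :=
      Ideal.absNorm_mem _
    rw [Ideal.absNorm_span_singleton, Ideal.mem_span_singleton] at h1
    have h2 : (((Algebra.norm ℤ c).natAbs : ℕ) : 𝓞 K) ∣ ((Algebra.norm ℤ c : ℤ) : 𝓞 K) := by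
      have h3 : (((Algebra.norm ℤ c).natAbs : ℕ) : ℤ) ∣ Algebra.norm ℤ c :=
        Int.natAbs_dvd.mpr dvd_rfl
      have h4 := map_dvd (Int.castRingHom (𝓞 K)) h3
      simpa using h4
    exact h1.trans h2
  set n : ℤ := Algebra.norm ℤ c with hn
  have hn1 : (n : AlgebraicClosure (ZMod p)) ≠ 0 := by
    rw [hn, redFam_norm hψ c]
    exact Finset.prod_ne_zero_iff.mpr fun i _ => hψc i
  set T : ℤ := Algebra.trace ℤ (𝓞 K) (x * c') with hT
  have hTΩ : (T : AlgebraicClosure (ZMod p)) = n * m := by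
    rw [hT, redFam_trace hψ, ← h ψ hψ, Finset.mul_sum]
    refine Finset.sum_congr rfl fun i _ => ?_
    have h1 := congrArg (ψ i) hc'
    rw [map_intCast, map_mul] at h1
    rw [h1, map_mul]
    field_simp [hψc i]
  have hdvd : (p : ℤ) ∣ T - n * m := by
    rw [← CharP.intCast_eq_zero_iff (AlgebraicClosure (ZMod p)) p]
    push_cast
    rw [hTΩ, sub_self]
  obtain ⟨u, hu⟩ := hdvd
  refine ⟨u, n, ?_, ?_⟩
  · intro h1
    exact hn1 ((CharP.intCast_eq_zero_iff (AlgebraicClosure (ZMod p)) p n).mpr h1)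
  · have h1 : (n : ℚ) * Algebra.trace ℚ K ((x : K) / (c : K)) = (T : ℚ) := by
      have h2 : ((T : ℤ) : ℚ) = Algebra.trace ℚ K ((x * c' : 𝓞 K) : K) := by
        rw [hT]
        exact Algebra.coe_trace_int _
      have h3 : ((x * c' : 𝓞 K) : K) = (n : ℚ) • ((x : K) / (c : K)) := by
        have h4 : (n : K) = (c : K) * (c' : K) := by
          have := congrArg (algebraMap (𝓞 K) K) hc'
          rw [map_intCast, map_mul] at this
          exact this
        rw [Algebra.smul_def, map_intCast, h4]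
        push_cast
        field_simp
      rw [h2, h3, map_smul, smul_eq_mul]
    have h2 := congrArg (Int.cast : ℤ → ℚ) hu
    push_cast at h2
    rw [mul_sub, h1, h2]

end H9FC
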