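import Pool.Agent.H9.FC.WiefFC
import Pool.Agent.H9.FC.TraceQ
import Pool.Agent.H9.FC.Scale
import Pool.Agent.H9.FC.QuadC

/-!
# Project FC9, module WCond

Trace relations for nontrivial solutions: forms of Wieferich, Mirimanoff and Furtwängler.

PROOF. `wief_cond`: `wief_fc` for the residue fields of `q = 2` (at most 4 elements) or `q = 3` (at most
`3` elements): for `a, b ∉ P` we have `a² - b² ∈ P` if `𝓞 K ⧸ P` has `2` or `3` elements (all nonzero
squares are 1), `a³ - b³ ∈ P` if it has `4` elements (`𝓞 K ⧸ P` is a field containing `ZMod q`, so it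
has `2` or `4` elements, resp. `3`), `q + 1 = 3` for `q = 2`; `p ≥ 5` does not divide
`2 (q + 1) ∈ {6, 8}`.
`furt_cond`: if all primes above `q` contain `b` (and so do not contain `a`: `cop_two`), then
`mm K q b = d` (`mm_eq_top`), `mm K q a = 0` (`mm_eq_zero`), and `wief_fc` gives the assertion.
`wief_trace`: `trace_of_redFam` (with `x = a - b`), apply `wief_cond` to all reduced families.
`furt_trace`: if no prime above `p` contains `c`, then `∑ (ψ_i a + ψ_i b)/ψ_i c = - d` (`fsol_hom`), so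
`furt_cond` gives `2 ∑ ψ_i b/ψ_i c = 0`; `trace_of_redFam` with `x = b`, `m = 0`.
-/

namespace H9FC

open Polynomial NumberField

private theorem WCond_res {K : Type*} [Field K] [NumberField K] (q : ℕ) [Fact q.Prime]
    (P : Ideal (𝓞 K)) (hP : P.IsPrime) (hq : (q : 𝓞 K) ∈ P) :
    ∃ n : ℕ, 0 < n ∧ Nat.card (𝓞 K ⧸ P) = q ^ n ∧ ∀ x : 𝓞 K, x ∉ P → x ^ (q ^ n - 1) - 1 ∈ P := by
  classical
  have hqq : q.Prime := Fact.out
  have hP0 : P ≠ ⊥ := by
    rintro rfl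
    rw [Ideal.mem_bot] at hq
    exact hqq.ne_zero (by exact_mod_cast hq)
  haveI hmax : P.IsMaximal := hP.isMaximal hP0
  letI := Ideal.Quotient.field P
  haveI : Finite (𝓞 K ⧸ P) := Ideal.finiteQuotientOfFreeOfNeBot P hP0
  letI : Fintype (𝓞 K ⧸ P) := Fintype.ofFinite _
  have hq0 : ((q : ℕ) : 𝓞 K ⧸ P) = 0 := by
    have := Ideal.Quotient.eq_zero_iff_mem.mpr hq
    simpa using this
  haveI : CharP (𝓞 K ⧸ P) q := by
    obtain ⟨q', hq'⟩ := CharP.exists (𝓞 K ⧸ P)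
    have h1 : q' ∣ q := (CharP.cast_eq_zero_iff (𝓞 K ⧸ P) q' q).mp hq0
    rcases (Nat.dvd_prime hqq).mp h1 with h | h
    · exfalso
      subst h
      exact CharP.char_ne_one (𝓞 K ⧸ P) 1 rfl
    · rwa [h] at hq'
  obtain ⟨n, -, hn⟩ := FiniteField.card (𝓞 K ⧸ P) q
  refine ⟨n, n.pos, by rw [Nat.card_eq_fintype_card, hn], fun x hx => ?_⟩
  have hx0 : (Ideal.Quotient.mk P x) ≠ 0 := by
    rwa [Ne, Ideal.Quotient.eq_zero_iff_mem]
  have h1 := FiniteField.pow_card_sub_one_eq_one (Ideal.Quotient.mk P x) hx0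
  rw [hn] at h1
  rw [← Ideal.Quotient.eq_zero_iff_mem, map_sub, map_pow, h1, map_one, sub_self]

theorem wief_cond (K : Type*) [Field K] [NumberField K] (p : ℕ) [Fact p.Prime] (hp : 5 ≤ p)
    (hd : Module.finrank ℚ K + 2 < p) (q : ℕ) [Fact q.Prime]
    (hWq : ¬ p ^ 2 ∣ q ^ (p - 1) - 1)
    (hq : (q = 2 ∧ ∀ P : Ideal (𝓞 K), P.IsPrime → (q : 𝓞 K) ∈ P → Nat.card (𝓞 K ⧸ P) ≤ 4) ∨
      (q = 3 ∧ ∀ P : Ideal (𝓞 K), P.IsPrime → (q : 𝓞 K) ∈ P → Nat.card (𝓞 K ⧸ P) ≤ 3))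
    (a b c : 𝓞 K) (h : FSol K p a b c) (hcp : CopAt K p a b c) (hcq : CopAt K q a b c)
    {Ω : Type*} [Field Ω] [CharP Ω p] {ψ : Fin (Module.finrank ℚ K) → (𝓞 K →+* Ω)}
    (hψ : IsRedFam ψ) :
    ∑ i, (ψ i a - ψ i b) / ψ i c = (mm K q a : Ω) - (mm K q b : Ω) := by
  have hpp : p.Prime := Fact.out
  have hqp : q ≠ p := by
    rcases hq with ⟨h1, -⟩ | ⟨h1, -⟩ <;> omega
  refine wief_fc K p (by omega) hd q hqp hWq a b c h hcp hcq (fun P hP hqP => ?_) hψ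
  by_cases ha : a ∈ P
  · exact Or.inl ha
  by_cases hb : b ∈ P
  · exact Or.inr (Or.inl hb)
  obtain ⟨n, hn, hcard, hpow⟩ := WCond_res q P hP hqP
  have key : ∀ k : ℕ, (q ^ n - 1) ∣ k → a ^ k - b ^ k ∈ P := by
    rintro k ⟨j, rfl⟩
    have h1 : ∀ x : 𝓞 K, x ∉ P → x ^ ((q ^ n - 1) * j) - 1 ∈ P := by
      intro x hx
      rw [pow_mul]
      have h2 := sub_one_dvd_pow_sub_one (x ^ (q ^ n - 1)) j
      exact P.mem_of_dvd h2 (hpow x hx)
    have h2 := P.sub_mem (h1 a ha) (h1 b hb)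
    simpa using h2
  refine Or.inr (Or.inr ?_)
  rcases hq with ⟨rfl, hq4⟩ | ⟨rfl, hq3⟩
  · refine ⟨?_, Or.inr (key _ ?_)⟩
    · intro hdvd
      have h1 : p ∣ 2 * 3 := by simpa using hdvd
      rcases (Nat.Prime.dvd_mul hpp).mp h1 with h2 | h2
      · have := Nat.le_of_dvd (by norm_num) h2
        omega
      · have := Nat.le_of_dvd (by norm_num) h2
        omega
    · have h4 := hq4 P hP hqP
      rw [hcard] at h4
      have hn2 : n < 3 := by
        by_contra h3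
        have := Nat.pow_le_pow_right (n := 2) (by norm_num) (not_lt.mp h3)
        omega
      interval_cases n <;> norm_num
  · refine ⟨?_, Or.inl (key _ ?_)⟩
    · intro hdvd
      have h1 : p ∣ 2 ^ 3 := by simpa using hdvd
      have h2 := hpp.dvd_of_dvd_pow h1
      have := Nat.le_of_dvd (by norm_num) h2
      omega
    · have h4 := hq3 P hP hqP
      rw [hcard] at h4
      have hn2 : n < 2 := by
        by_contra h3
        have := Nat.pow_le_pow_right (n := 3) (by norm_num) (not_lt.mp h3)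
        omega
      interval_cases n
      norm_num

theorem furt_cond (K : Type*) [Field K] [NumberField K] (p : ℕ) [Fact p.Prime] (hp2 : p ≠ 2)
    (hd : Module.finrank ℚ K + 2 < p) (q : ℕ) [Fact q.Prime]
    (hqp : q ≠ p) (hWq : ¬ p ^ 2 ∣ q ^ (p - 1) - 1) (a b c : 𝓞 K) (h : FSol K p a b c)
    (hcp : CopAt K p a b c) (hcq : CopAt K q a b c)
    (hb : ∀ P : Ideal (𝓞 K), P.IsPrime → (q : 𝓞 K) ∈ P → b ∈ P)
    {Ω : Type*} [Field Ω] [CharP Ω p] {ψ : Fin (Module.finrank ℚ K) → (𝓞 K →+* Ω)}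
    (hψ : IsRedFam ψ) :
    ∑ i, (ψ i a - ψ i b) / ψ i c = - (Module.finrank ℚ K : Ω) := by
  have h1 := wief_fc K p hp2 hd q hqp hWq a b c h hcp hcq
    (fun P hP hqP => Or.inr (Or.inl (hb P hP hqP))) hψ
  rw [h1, mm_eq_top K q b hb, mm_eq_zero K q a (fun P hP hqP ha =>
    (cop_two h P hP (hcq P hP hqP)).1 ⟨ha, hb P hP hqP⟩)]
  simp

private theorem WCond_ker {K : Type*} [Field K] [NumberField K] {p : ℕ} [Fact p.Prime]
    {c : 𝓞 K} (hc : ∀ P : Ideal (𝓞 K), P.IsPrime → (p : 𝓞 K) ∈ P → c ∉ P)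
    {Ω : Type*} [Field Ω] [CharP Ω p] (ψ : 𝓞 K →+* Ω) : ψ c ≠ 0 := by
  intro h0
  refine hc (RingHom.ker ψ) (RingHom.ker_isPrime ψ) ?_ h0
  rw [RingHom.mem_ker, map_natCast]
  exact CharP.cast_eq_zero Ω p

theorem wief_trace (K : Type*) [Field K] [NumberField K] (p : ℕ) [Fact p.Prime] (hp : 5 ≤ p)
    (hd : Module.finrank ℚ K + 2 < p) (q : ℕ) [Fact q.Prime]
    (hWq : ¬ p ^ 2 ∣ q ^ (p - 1) - 1)
    (hq : (q = 2 ∧ ∀ P : Ideal (𝓞 K), P.IsPrime → (q : 𝓞 K) ∈ P → Nat.card (𝓞 K ⧸ P) ≤ 4) ∨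
      (q = 3 ∧ ∀ P : Ideal (𝓞 K), P.IsPrime → (q : 𝓞 K) ∈ P → Nat.card (𝓞 K ⧸ P) ≤ 3))
    (a b c : 𝓞 K) (h : FSol K p a b c) (hcq : CopAt K q a b c)
    (hc : ∀ P : Ideal (𝓞 K), P.IsPrime → (p : 𝓞 K) ∈ P → c ∉ P) :
    ∃ u v : ℤ, ¬ (p : ℤ) ∣ v ∧
      (v : ℚ) * (Algebra.trace ℚ K (((a : K) - (b : K)) / (c : K))
        - ((mm K q a : ℚ) - (mm K q b : ℚ))) = (p : ℚ) * (u : ℚ) := by
  have hcp : CopAt K p a b c := fun P hP hpP h3 => hc P hP hpP h3.2.2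
  obtain ⟨u, v, hv, huv⟩ := trace_of_redFam K p (a - b) c hc ((mm K q a : ℤ) - (mm K q b : ℤ))
    (fun ψ hψ => by
      have h1 := wief_cond K p hp hd q hWq hq a b c h hcp hcq hψ
      simp only [map_sub]
      rw [h1]
      push_cast
      rfl)
  refine ⟨u, v, hv, ?_⟩
  rw [← huv]
  push_cast
  rfl

theorem furt_trace (K : Type*) [Field K] [NumberField K] (p : ℕ) [Fact p.Prime] (hp2 : p ≠ 2)
    (hd : Module.finrank ℚ K + 2 < p) (q : ℕ) [Fact q.Prime]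
    (hqp : q ≠ p) (hWq : ¬ p ^ 2 ∣ q ^ (p - 1) - 1) (a b c : 𝓞 K) (h : FSol K p a b c)
    (hcq : CopAt K q a b c)
    (hb : ∀ P : Ideal (𝓞 K), P.IsPrime → (q : 𝓞 K) ∈ P → b ∈ P)
    (hc : ∀ P : Ideal (𝓞 K), P.IsPrime → (p : 𝓞 K) ∈ P → c ∉ P) :
    ∃ u v : ℤ, ¬ (p : ℤ) ∣ v ∧
      (v : ℚ) * Algebra.trace ℚ K ((b : K) / (c : K)) = (p : ℚ) * (u : ℚ) := by
  have hpp : p.Prime := Fact.out
  have hcp : CopAt K p a b c := fun P hP hpP h3 => hc P hP hpP h3.2.2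
  obtain ⟨u, v, hv, huv⟩ := trace_of_redFam K p b c hc 0
    (fun ψ hψ => by
      have h1 := furt_cond K p hp2 hd q hqp hWq a b c h hcp hcq hb hψ
      have h2 : ∀ i, (ψ i a - ψ i b) / ψ i c = - 2 * (ψ i b / ψ i c) - 1 := by
        intro i
        have hc0 := WCond_ker hc (ψ i)
        have hs := fsol_hom h (ψ i)
        have ha : ψ i a = - ψ i b - ψ i c := by linear_combination hs
        rw [ha]
        field_simp
        ring
      rw [Finset.sum_congr rfl (fun i _ => h2 i), Finset.sum_sub_distrib, ← Finset.mul_sum] at h1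
      have h3 : (2 : AlgebraicClosure (ZMod p)) * ∑ i, ψ i b / ψ i c = 0 := by
        simp only [Finset.sum_const, Finset.card_univ, Fintype.card_fin, nsmul_eq_mul,
          mul_one] at h1
        linear_combination -h1
      have h2' : (2 : AlgebraicClosure (ZMod p)) ≠ 0 := by
        intro h0
        have h4 : ((2 : ℕ) : AlgebraicClosure (ZMod p)) = 0 := by exact_mod_cast h0
        rw [CharP.cast_eq_zero_iff (AlgebraicClosure (ZMod p)) p] at h4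
        exact hp2 ((Nat.prime_dvd_prime_iff_eq hpp Nat.prime_two).mp h4)
      rcases mul_eq_zero.mp h3 with h | h
      · exact absurd h h2'
      · rw [h]
        simp)
  refine ⟨u, v, hv, ?_⟩
  rw [← huv]
  push_cast
  rw [sub_zero]

end H9FC
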