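import Pool.Agent.H9.FC.Defs

/-!
# Project FC9, module Conj

Complex conjugation on `M = ℚ(ζ_p)` and units.

PROOFS. `cj p M` corresponds to `-1` under `galEquivZMod`, so `cj • ζ = ζ^(p-1) = ζ⁻¹`
(`IsCyclotomicExtension.Rat.galEquivZMod_smul_of_pow_eq`; `(-1 : ZMod p).val = p - 1`). For
`φ : M → ℂ` the maps `φ ∘ cj` and `conj ∘ φ` agree on `ζ` (a complex root of unity `z` has
`conj z = z⁻¹`), and `ζ` generates `M` over `ℚ`, so they are equal.
`unit_of_mul_cj_eq_one`: if `u * cj u = 1` for `u ∈ 𝓞 M` then `|φ u| = 1` for all `φ : M → ℂ`, so `u`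
is a root of unity by Kronecker (`NumberField.Embeddings.pow_eq_one_of_norm_eq_one`), so
`u = ± ζ^k` (`IsPrimitiveRoot.exists_neg_pow_of_isOfFinOrder`,
`IsPrimitiveRoot.exists_pow_or_neg_mul_pow_of_isOfFinOrder` for odd `p`).
`unit_eq_cj`: apply this to `u / cj u` (`cj` is an involution).
-/

namespace H9FC

open NumberField

private theorem Conj_equiv (p : ℕ) [Fact p.Prime] (M : Type*) [Field M] [NumberField M]
    [IsCyclotomicExtension {p} ℚ M] : IsCyclotomicExtension.Rat.galEquivZMod p M (cj p M) = -1 := by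
  unfold cj
  rw [MulEquiv.apply_symm_apply]

private theorem Conj_val (p : ℕ) [Fact p.Prime] : ((-1 : (ZMod p)ˣ) : ZMod p).val = p - 1 := by
  have hp : 0 < p := (Fact.out : p.Prime).pos
  rw [Units.val_neg, Units.val_one]
  obtain ⟨n, rfl⟩ : ∃ n, p = n + 1 := ⟨p - 1, by omega⟩
  exact ZMod.val_neg_one n

private theorem Conj_coe (M : Type*) [Field M] [NumberField M] (σ : M ≃ₐ[ℚ] M) (x : 𝓞 M) :
    ((σ • x : 𝓞 M) : M) = σ (x : M) := rfl

theorem cj_smul_zeta (p : ℕ) [Fact p.Prime] (M : Type*) [Field M] [NumberField M]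
    [IsCyclotomicExtension {p} ℚ M] {ζ : 𝓞 M} (hζ : ζ ^ p = 1) : cj p M • ζ = ζ ^ (p - 1) := by
  rw [IsCyclotomicExtension.Rat.galEquivZMod_smul_of_pow_eq p M _ hζ, Conj_equiv, Conj_val]

theorem cj_smul_cj_smul (p : ℕ) [Fact p.Prime] (M : Type*) [Field M] [NumberField M]
    [IsCyclotomicExtension {p} ℚ M] (x : 𝓞 M) : cj p M • (cj p M • x) = x := by
  rw [smul_smul]
  have h : cj p M * cj p M = 1 := by
    apply (IsCyclotomicExtension.Rat.galEquivZMod p M).injective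
    rw [map_mul, Conj_equiv, map_one, neg_mul_neg, mul_one]
  rw [h, one_smul]

theorem cj_comm (p : ℕ) [Fact p.Prime] (M : Type*) [Field M] [NumberField M]
    [IsCyclotomicExtension {p} ℚ M] (σ : M ≃ₐ[ℚ] M) (x : 𝓞 M) :
    σ • (cj p M • x) = cj p M • (σ • x) := by
  rw [smul_smul, smul_smul]
  have h : σ * cj p M = cj p M * σ := by
    apply (IsCyclotomicExtension.Rat.galEquivZMod p M).injective
    rw [map_mul, map_mul, mul_comm]
  rw [h]

theorem map_cj_eq_conj (p : ℕ) [Fact p.Prime] (M : Type*) [Field M] [NumberField M]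
    [IsCyclotomicExtension {p} ℚ M] (φ : M →+* ℂ) (x : M) :
    φ (cj p M x) = (starRingEnd ℂ) (φ x) := by
  have hp : p.Prime := Fact.out
  have hζ := IsCyclotomicExtension.zeta_spec p ℚ M
  let f : M →ₐ[ℚ] ℂ := (φ.comp ((cj p M : M ≃+* M) : M →+* M)).toRatAlgHom
  let g : M →ₐ[ℚ] ℂ := ((starRingEnd ℂ).comp φ).toRatAlgHom
  have hfg : f = g := by
    refine (hζ.powerBasis ℚ).algHom_ext ?_
    rw [hζ.powerBasis_gen ℚ]
    show φ (cj p M (IsCyclotomicExtension.zeta p ℚ M)) = (starRingEnd ℂ) (φ (IsCyclotomicExtension.zeta p ℚ M))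
    rw [IsCyclotomicExtension.Rat.galEquivZMod_apply_of_pow_eq p M _ hζ.pow_eq_one, Conj_equiv, Conj_val, map_pow]
    have h1 : φ (IsCyclotomicExtension.zeta p ℚ M) ^ p = 1 := by
      rw [← map_pow, hζ.pow_eq_one, map_one]
    have h2 : ‖φ (IsCyclotomicExtension.zeta p ℚ M)‖ = 1 := Complex.norm_eq_one_of_pow_eq_one h1 hp.ne_zero
    rw [← Complex.inv_eq_conj h2]
    exact (inv_eq_of_mul_eq_one_right (by rw [← pow_succ', Nat.sub_add_cancel hp.one_le, h1])).symm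
  exact DFunLike.congr_fun hfg x

theorem unit_of_mul_cj_eq_one (p : ℕ) [Fact p.Prime] (hp : p ≠ 2) (M : Type*) [Field M]
    [NumberField M] [IsCyclotomicExtension {p} ℚ M] {ζ : 𝓞 M} (hζ : IsPrimitiveRoot ζ p)
    (u : 𝓞 M) (hu : u * (cj p M • u) = 1) :
    ∃ (s : ℤˣ) (k : ℕ), u = ((s : ℤ) : 𝓞 M) * ζ ^ k := by
  have hpp : p.Prime := Fact.out
  have h1 : ∀ φ : M →+* ℂ, ‖φ (u : M)‖ = 1 := by
    intro φ
    have h2 : φ (u : M) * (starRingEnd ℂ) (φ (u : M)) = 1 := by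
      rw [← map_cj_eq_conj p M φ, ← Conj_coe, ← map_mul]
      have h3 : (u : M) * ((cj p M • u : 𝓞 M) : M) = 1 := by
        have h4 := congrArg (fun z : 𝓞 M => (z : M)) hu
        simpa using h4
      rw [h3, map_one]
    rw [Complex.mul_conj, Complex.normSq_eq_norm_sq] at h2
    have h3 : ‖φ (u : M)‖ ^ 2 = 1 := by exact_mod_cast h2
    nlinarith [norm_nonneg (φ (u : M))]
  obtain ⟨n, hn, hx⟩ := NumberField.Embeddings.pow_eq_one_of_norm_eq_one M ℂ u.isIntegral_coe h1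
  have h2 : IsOfFinOrder (u : M) := isOfFinOrder_iff_pow_eq_one.2 ⟨n, hn, hx⟩
  have hζ' : IsPrimitiveRoot (ζ : M) p := hζ.map_of_injective RingOfIntegers.coe_injective
  obtain ⟨r, _, hr | hr⟩ := hζ'.exists_pow_or_neg_mul_pow_of_isOfFinOrder (hpp.odd_of_ne_two hp) h2
  · refine ⟨1, r, ?_⟩
    apply RingOfIntegers.coe_injective
    refine hr.trans ?_
    simp
  · refine ⟨-1, r, ?_⟩
    apply RingOfIntegers.coe_injective
    refine hr.trans ?_
    simp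

theorem unit_eq_cj (p : ℕ) [Fact p.Prime] (hp : p ≠ 2) (M : Type*) [Field M]
    [NumberField M] [IsCyclotomicExtension {p} ℚ M] {ζ : 𝓞 M} (hζ : IsPrimitiveRoot ζ p)
    (u : (𝓞 M)ˣ) :
    ∃ (s : ℤˣ) (k : ℕ), (u : 𝓞 M) = ((s : ℤ) : 𝓞 M) * ζ ^ k * (cj p M • (u : 𝓞 M)) := by
  have h1 : (cj p M • (u : 𝓞 M)) * (cj p M • ((u⁻¹ : (𝓞 M)ˣ) : 𝓞 M)) = 1 := by
    rw [← smul_mul', Units.mul_inv, smul_one]
  have h2 : (u : 𝓞 M) * ((u⁻¹ : (𝓞 M)ˣ) : 𝓞 M) = 1 := Units.mul_inv u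
  obtain ⟨s, k, hsk⟩ := unit_of_mul_cj_eq_one p hp M hζ ((u : 𝓞 M) * (cj p M • ((u⁻¹ : (𝓞 M)ˣ) : 𝓞 M))) (by
    rw [smul_mul', cj_smul_cj_smul]
    linear_combination ((u : 𝓞 M) * ((u⁻¹ : (𝓞 M)ˣ) : 𝓞 M)) * h1 + h2)
  refine ⟨s, k, ?_⟩
  rw [← hsk]
  linear_combination (-(u : 𝓞 M)) * h1

end H9FC
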