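import Pool.Agent.H9.FC.Defs

/-!
# Project FC9, module CycMod

Congruences modulo powers of `ζ - 1` in `𝓞 M = ℤ[ζ]`, `M = ℚ(ζ_p)`, and polynomials modulo `p`.

PROOFS. `associated_p`: Mathlib `associated_zeta_sub_one_pow_prime` and friends
(Mathlib.NumberTheory.NumberField.Cyclotomic.Ideal, or Mathlib.NumberTheory.Cyclotomic...), for an
arbitrary primitive root `ζ ∈ 𝓞 M`. `prime_eq`: a prime ideal containing `p` contains `ζ - 1`, and
`(ζ - 1)` is maximal. `int_dvd`: an integer in the prime ideal `(ζ - 1)` is divisible by `p`.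
`pow_p_mod`: `δ = g(ζ)` with `g ∈ ℤ[X]` (Mathlib: the ring of integers of `ℚ(ζ_p)` is
`ℤ[ζ]`, `IsCyclotomicExtension.Rat.isIntegralClosure_adjoin_singleton_of_prime` or
`IsPrimitiveRoot.integralPowerBasis`), and modulo `p` we have
`g(ζ)^p ≡ ∑ g_i^p ζ^{ip} = ∑ g_i^p` (`add_pow_char`, `expand_char`). If `n ≡ 0` modulo `p` then `p` divides
`δ^p`, so every prime containing `p` contains `δ` (there is one).
`pow_dvd_aeval`: if `A(ζ) = (ζ-1)^j B(ζ)` with `B ∈ ℤ[X]` then the minimal polynomial `Φ_p` of `ζ`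
(`Polynomial.cyclotomic p ℤ`, monic) divides `A - (X-1)^j B`, and `Φ_p ≡ (X - 1)^(p-1)` modulo `p`
(from `(X - 1) Φ_p = X^p - 1 ≡ (X - 1)^p`); `j ≤ p - 1`.
-/

namespace H9FC

open Polynomial NumberField

private theorem CycMod_coe {p : ℕ} {M : Type*} [Field M] [NumberField M] {ζ : 𝓞 M}
    (hζ : IsPrimitiveRoot ζ p) : IsPrimitiveRoot (ζ : M) p :=
  hζ.map_of_injective RingOfIntegers.coe_injective

theorem associated_p (p : ℕ) [Fact p.Prime] (M : Type*) [Field M] [NumberField M]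
    [IsCyclotomicExtension {p} ℚ M] {ζ : 𝓞 M} (hζ : IsPrimitiveRoot ζ p) :
    Associated (p : 𝓞 M) ((ζ - 1) ^ (p - 1)) := by
  have h := IsCyclotomicExtension.Rat.associated_zeta_sub_one_pow_prime p (CycMod_coe hζ)
  rw [IsPrimitiveRoot.toInteger_coe] at h
  exact h.symm

theorem prime_zeta_sub_one (p : ℕ) [Fact p.Prime] (M : Type*) [Field M] [NumberField M]
    [IsCyclotomicExtension {p} ℚ M] {ζ : 𝓞 M} (hζ : IsPrimitiveRoot ζ p) :
    (Ideal.span {ζ - 1}).IsPrime ∧ Ideal.span {ζ - 1} ≠ ⊥ ∧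
      ∀ P : Ideal (𝓞 M), P.IsPrime → (p : 𝓞 M) ∈ P → P = Ideal.span {ζ - 1} := by
  have h1 : (Ideal.span {ζ - 1}).IsPrime := by
    have h := IsCyclotomicExtension.Rat.isPrime_span_zeta_sub_one' p (CycMod_coe hζ)
    rw [IsPrimitiveRoot.toInteger_coe] at h
    exact h
  have h2 : Ideal.span {ζ - 1} ≠ ⊥ := by
    intro h
    rw [Ideal.span_singleton_eq_bot, sub_eq_zero] at h
    exact hζ.ne_one (Fact.out : p.Prime).one_lt h
  refine ⟨h1, h2, fun P hP hp => ?_⟩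
  have h3 : (ζ - 1) ^ (p - 1) ∈ P := by
    obtain ⟨u, hu⟩ := associated_p p M hζ
    rw [← hu]
    exact Ideal.mul_mem_right _ _ hp
  have h4 : ζ - 1 ∈ P := hP.mem_of_pow_mem _ h3
  have h5 : Ideal.span {ζ - 1} ≤ P := (Ideal.span_singleton_le_iff_mem _).mpr h4
  exact ((h1.isMaximal h2).eq_of_le hP.ne_top h5).symm

theorem int_dvd (p : ℕ) [Fact p.Prime] (M : Type*) [Field M] [NumberField M]
    [IsCyclotomicExtension {p} ℚ M] {ζ : 𝓞 M} (hζ : IsPrimitiveRoot ζ p) (n : ℤ)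
    (h : ζ - 1 ∣ (n : 𝓞 M)) : (p : ℤ) ∣ n := by
  have h1 := (IsCyclotomicExtension.Rat.zeta_sub_one_dvd_intCast_iff' p (CycMod_coe hζ)
    (n := n)).mp
  rw [IsPrimitiveRoot.toInteger_coe] at h1
  exact h1 h

private theorem CycMod_aeval (p : ℕ) [Fact p.Prime] (M : Type*) [Field M] [NumberField M]
    [IsCyclotomicExtension {p} ℚ M] {ζ : 𝓞 M} (hζ : IsPrimitiveRoot ζ p) (δ : 𝓞 M) :
    ∃ g : ℤ[X], aeval ζ g = δ := by
  have h := IsCyclotomicExtension.Rat.adjoin_singleton_eq_top (CycMod_coe hζ)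
  rw [IsPrimitiveRoot.toInteger_coe] at h
  have h1 : δ ∈ Algebra.adjoin ℤ {ζ} := by rw [h]; exact Algebra.mem_top
  rw [Algebra.adjoin_singleton_eq_range_aeval] at h1
  exact h1

private theorem CycMod_exists {R : Type*} [CommRing R] (p : ℕ) [Fact p.Prime] {ζ : R}
    (hζ : ζ ^ p = 1) (g : ℤ[X]) : ∃ n : ℤ, (p : R) ∣ (aeval ζ g) ^ p - n := by
  induction g using Polynomial.induction_on' with
  | add a b ha hb =>
    obtain ⟨n, hn⟩ := ha
    obtain ⟨k, hk⟩ := hb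
    refine ⟨n + k, ?_⟩
    obtain ⟨r, hr⟩ := exists_add_pow_prime_eq (Fact.out : p.Prime) (aeval ζ a) (aeval ζ b)
    rw [map_add, hr]
    have h1 : (aeval ζ a) ^ p + (aeval ζ b) ^ p + (p : R) * aeval ζ a * aeval ζ b * r -
        ((n + k : ℤ) : R) = ((aeval ζ a) ^ p - n) + ((aeval ζ b) ^ p - k) +
        (p : R) * (aeval ζ a * aeval ζ b * r) := by
      push_cast; ring
    rw [h1]
    exact dvd_add (dvd_add hn hk) (dvd_mul_right _ _)
  | monomial k a =>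
    refine ⟨a ^ p, ?_⟩
    rw [aeval_monomial, mul_pow, ← pow_mul, mul_comm k p, pow_mul, hζ, one_pow, mul_one]
    simp

theorem pow_p_mod (p : ℕ) [Fact p.Prime] (M : Type*) [Field M] [NumberField M]
    [IsCyclotomicExtension {p} ℚ M] (δ : 𝓞 M) :
    ∃ n : ℤ, (p : 𝓞 M) ∣ δ ^ p - n ∧
      ((∀ P : Ideal (𝓞 M), P.IsPrime → (p : 𝓞 M) ∈ P → δ ∉ P) → ¬ (p : ℤ) ∣ n) := by
  classical
  have hζ0 : IsPrimitiveRoot (IsCyclotomicExtension.zeta p ℚ M) p :=
    IsCyclotomicExtension.zeta_spec p ℚ M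
  have hζ : IsPrimitiveRoot hζ0.toInteger p := hζ0.toInteger_isPrimitiveRoot
  obtain ⟨g, rfl⟩ := CycMod_aeval p M hζ δ
  obtain ⟨n, hn⟩ := CycMod_exists p hζ.pow_eq_one g
  refine ⟨n, hn, fun hP hpn => ?_⟩
  obtain ⟨h1, h2, h3⟩ := prime_zeta_sub_one p M hζ
  have hpP : (p : 𝓞 M) ∈ Ideal.span {hζ0.toInteger - 1} := by
    obtain ⟨u, hu⟩ := (associated_p p M hζ).symm
    rw [← hu]
    refine Ideal.mul_mem_right _ _ (Ideal.pow_mem_of_mem _
      (Ideal.mem_span_singleton_self _) _ ?_)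
    exact Nat.sub_pos_of_lt (Fact.out : p.Prime).one_lt
  have h4 : (p : 𝓞 M) ∣ (n : 𝓞 M) := by
    obtain ⟨k, hk⟩ := hpn
    exact ⟨(k : 𝓞 M), by rw [hk]; push_cast; rfl⟩
  have h5 : (p : 𝓞 M) ∣ (aeval hζ0.toInteger g) ^ p := by
    have h6 := dvd_add hn h4
    rwa [sub_add_cancel] at h6
  have h6 : (aeval hζ0.toInteger g) ^ p ∈ Ideal.span {hζ0.toInteger - 1} :=
    Ideal.mem_of_dvd _ h5 hpP
  exact hP _ h1 hpP (h1.mem_of_pow_mem _ h6)

theorem pow_dvd_aeval (p : ℕ) [Fact p.Prime] (M : Type*) [Field M] [NumberField M]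
    [IsCyclotomicExtension {p} ℚ M] {ζ : 𝓞 M} (hζ : IsPrimitiveRoot ζ p) (A : ℤ[X]) (j : ℕ)
    (hj : j ≤ p - 1) (h : (ζ - 1) ^ j ∣ aeval ζ A) :
    (X - 1) ^ j ∣ A.map (Int.castRingHom (ZMod p)) := by
  obtain ⟨β, hβ⟩ := h
  obtain ⟨B, rfl⟩ := CycMod_aeval p M hζ β
  have hpos : 0 < p := (Fact.out : p.Prime).pos
  have h0 : aeval ζ (A - (X - 1) ^ j * B) = 0 := by
    rw [map_sub, map_mul, map_pow, map_sub, aeval_X, map_one, hβ, sub_self]
  have h1 : aeval (ζ : M) (A - (X - 1) ^ j * B) = 0 := by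
    have h2 := congrArg (algebraMap (𝓞 M) M) h0
    rw [map_zero, ← Polynomial.aeval_algebraMap_apply] at h2
    exact h2
  have h2 : cyclotomic p ℤ ∣ A - (X - 1) ^ j * B := by
    rw [cyclotomic_eq_minpoly (CycMod_coe hζ) hpos]
    exact minpoly.isIntegrallyClosed_dvd ((CycMod_coe hζ).isIntegral hpos) h1
  obtain ⟨D, hD⟩ := h2
  have h3 : A = (X - 1) ^ j * B + cyclotomic p ℤ * D := by rw [← hD]; ring
  have h4 : (cyclotomic p ℤ).map (Int.castRingHom (ZMod p)) = (X - 1) ^ (p - 1) := by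
    rw [map_cyclotomic]
    have h5 := cyclotomic_mul_prime_eq_pow_of_not_dvd (ZMod p) (p := p) (n := 1)
      (Fact.out : p.Prime).not_dvd_one
    rw [one_mul, cyclotomic_one] at h5
    exact h5
  rw [h3, Polynomial.map_add, Polynomial.map_mul, Polynomial.map_mul, h4, Polynomial.map_pow,
    Polynomial.map_sub, Polynomial.map_X, Polynomial.map_one]
  exact dvd_add (dvd_mul_right _ _) ((pow_dvd_pow _ hj).mul_right _)

end H9FC
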