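import Pool.Agent.H9.FC.Defs

/-!
# Project FC9, module Desc

Descent of `p`-th powers of ideals in an extension of degree prime to `p`.

PROOF. Put `n = [N : M]`.  If `I = ⊥` take `I' = ⊥`.  Otherwise take relative norms
(`Ideal.relNorm`, Mathlib.RingTheory.Ideal.Norm.RelNorm): the norm of `I 𝓞_N` is `I^n`
(`Ideal.relNorm_algebraMap`), and the norm of `J^p` is `(N J)^p`.  So `I^n = 𝔠^p` with `n` prime to `p`;
comparing exponents of prime ideals (`n v(I) = p v(𝔠)`) every exponent of `I` is divisible by `p`, so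
`I` is a `p`-th power.
-/

namespace H9FC

open NumberField

private theorem Desc_aux {R : Type*} [CommRing R] [IsDedekindDomain R] {n p : ℕ} (hp : 1 < p)
    (hnp : Nat.Coprime n p) {I C : Ideal R} (h : I ^ n = C ^ p) : ∃ I' : Ideal R, I' ^ p = I := by
  rcases eq_or_ne I 0 with hI | hI
  · exact ⟨0, by rw [hI, zero_pow (by omega)]⟩
  obtain ⟨a, -, ha⟩ := Nat.exists_mul_mod_eq_one_of_coprime hnp hp
  obtain ⟨b, hna⟩ : ∃ b, n * a = p * b + 1 := ⟨n * a / p, by
    have := Nat.div_add_mod (n * a) p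
    omega⟩
  have h1 : (C ^ a) ^ p = (I ^ b) ^ p * I := by
    rw [← pow_mul, mul_comm a p, pow_mul, ← h, ← pow_mul, hna, pow_succ, mul_comm p, pow_mul]
  have hdvd : I ^ b ∣ C ^ a :=
    (UniqueFactorizationMonoid.pow_dvd_pow_iff_dvd (by omega : p ≠ 0)).1 ⟨I, h1⟩
  obtain ⟨J', hJ'⟩ := hdvd
  refine ⟨J', ?_⟩
  rw [hJ', mul_pow] at h1
  exact mul_left_cancel₀ (pow_ne_zero _ (pow_ne_zero _ hI)) h1

theorem descend (M : Type*) [Field M] [NumberField M] (N : Type*) [Field N] [NumberField N]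
    [Algebra M N] (p : ℕ) [Fact p.Prime] (h : ¬ p ∣ Module.finrank M N) (I : Ideal (𝓞 M))
    (J : Ideal (𝓞 N)) (hJ : J ^ p = I.map (algebraMap (𝓞 M) (𝓞 N))) :
    ∃ I' : Ideal (𝓞 M), I' ^ p = I := by
  have hp : p.Prime := Fact.out
  have h1 := congrArg (Ideal.relNorm (𝓞 M)) hJ
  rw [Ideal.relNorm_algebraMap, map_pow] at h1
  have h2 : Module.finrank (𝓞 M) (𝓞 N) = Module.finrank M N :=
    (IsFractionRing.finrank_eq (𝓞 M) M (𝓞 N) N).symm
  rw [h2] at h1
  exact Desc_aux hp.one_lt ((Nat.Prime.coprime_iff_not_dvd hp).2 h).symm h1.symm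

end H9FC
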