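import Pool.Agent.H9.FC.Defs

/-!
# Project FC9, module Env

A number field `N ⊇ M` containing all conjugates of `K` and with `p ∤ [N : M]` (`p > [K : ℚ]`).

PROOF. Let `θ` be a primitive element of `K/ℚ`, `f` its minimal polynomial over `ℚ`, of degree
`d = [K:ℚ]`, and let `N` be the splitting field of `f` over `M`
(`(f.map (algebraMap ℚ M)).SplittingField`; it is a finite extension of `M`, hence a number field).
`f` is separable, so `N/M` is Galois and `[N : M]` is the order of the Galois group
(`Polynomial.Gal.card_of_separable`), which embeds into the group of permutations of the roots of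
`f` (`Polynomial.Gal.galActionHom_injective`); so `[N:M]` divides `d!`, which is prime to `p` since
`d < p`.  Since `f` splits in `N` with `d` different roots and `K = ℚ(θ)`, there are exactly `d`
homomorphisms `K → N` (for instance `PowerBasis.card_algHom...` / `AlgHom.card_of_powerBasis`,
`IntermediateField.card_algHom_adjoin_integral`, or any other way).
-/

namespace H9FC

open Polynomial NumberField

universe u v

private theorem Env_main (K : Type u) [Field K] [NumberField K] (p : ℕ) [Fact p.Prime]
    (hd : Module.finrank ℚ K < p) (M : Type v) [Field M] [NumberField M] (f : ℚ[X])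
    (pb : PowerBasis ℚ K) (hf : f = minpoly ℚ pb.gen)
    (N : Type v) [Field N] [NumberField N] [Algebra M N]
    [Polynomial.IsSplittingField M N (f.map (algebraMap ℚ M))] :
    ¬ p ∣ Module.finrank M N ∧ Fintype.card (K →ₐ[ℚ] N) = Module.finrank ℚ K := by
  classical
  set g := f.map (algebraMap ℚ M) with hg
  have hfirr : Irreducible f := by rw [hf]; exact minpoly.irreducible (Algebra.IsIntegral.isIntegral _)
  have hfsep : f.Separable := hfirr.separable
  have hgsep : g.Separable := hfsep.map
  have hspl : (g.map (algebraMap M N)).Splits := Polynomial.IsSplittingField.splits N g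
  have hdeg : g.natDegree = Module.finrank ℚ K := by
    rw [hg, natDegree_map, hf, pb.natDegree_minpoly, pb.finrank]
  constructor
  · have h1 : Module.finrank M N = Nat.card g.Gal := by
      rw [Polynomial.Gal.card_of_separable hgsep]
      exact (Polynomial.IsSplittingField.algEquiv N g).toLinearEquiv.finrank_eq
    have hfact : Fact ((g.map (algebraMap M N)).Splits) := ⟨hspl⟩
    have h2 : Nat.card g.Gal ∣ Nat.card (Equiv.Perm (g.rootSet N)) :=
      Subgroup.card_dvd_of_injective (Polynomial.Gal.galActionHom g N)
        (Polynomial.Gal.galActionHom_injective g N)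
    have h3 : Nat.card (Equiv.Perm (g.rootSet N)) = (Fintype.card (g.rootSet N)).factorial := by
      rw [Nat.card_eq_fintype_card, Fintype.card_perm]
    have h4 : Fintype.card (g.rootSet N) = Module.finrank ℚ K := by
      rw [← hdeg]
      exact card_rootSet_eq_natDegree hgsep hspl
    intro hp
    rw [h1] at hp
    have h5 := hp.trans h2
    rw [h3, h4, (Fact.out : p.Prime).dvd_factorial] at h5
    omega
  · have h6 : ((minpoly ℚ pb.gen).map (algebraMap ℚ N)).Splits := by
      have h7 : (minpoly ℚ pb.gen).map (algebraMap ℚ N) = g.map (algebraMap M N) := by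
        rw [← hf, hg, Polynomial.map_map]
        congr 1
        exact Subsingleton.elim _ _
      rw [h7]
      exact hspl
    rw [Fintype.card_eq_nat_card, AlgHom.natCard_of_powerBasis pb
      (by rw [IsSeparable, ← hf]; exact hfsep) h6, pb.finrank]

theorem exists_env (K : Type u) [Field K] [NumberField K] (p : ℕ) [Fact p.Prime]
    (hd : Module.finrank ℚ K < p) (M : Type v) [Field M] [NumberField M] :
    ∃ (N : Type v) (_ : Field N) (_ : NumberField N) (_ : Algebra M N),
      ¬ p ∣ Module.finrank M N ∧ Fintype.card (K →ₐ[ℚ] N) = Module.finrank ℚ K := by
  classical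
  let pb := Field.powerBasisOfFiniteOfSeparable ℚ K
  let f := minpoly ℚ pb.gen
  let N := (f.map (algebraMap ℚ M)).SplittingField
  have : CharZero N := charZero_of_injective_algebraMap (algebraMap M N).injective
  have : Module.Finite M N := Polynomial.IsSplittingField.finiteDimensional N (f.map (algebraMap ℚ M))
  have hN : NumberField N := by
    refine { to_charZero := inferInstance, to_finiteDimensional := ?_ }
    have : IsScalarTower ℚ M N := by
      refine IsScalarTower.of_algebraMap_eq' ?_
      exact Subsingleton.elim _ _
    exact Module.Finite.trans M N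
  have h := Env_main K p hd M f pb rfl N
  exact ⟨N, inferInstance, hN, inferInstance, h⟩

end H9FC
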