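import Pool.Agent.H9.FC.OrdA

/-!
# Project FC9, module OrdX

Exponents of primes in an extension `E / M` of number fields.

PROOF. Let `𝔩 = L ∩ 𝓞 M`. Write `I = 𝔩^n I'` with `I'` not contained in `𝔩` (`n = ordI 𝔩 I`).
Then `I 𝓞_E = (𝔩 𝓞_E)^n (I' 𝓞_E)` and `I' 𝓞_E` is not contained in `L` (there is `x ∈ I' \ 𝔩`, and
`x ∉ L` because `L ∩ 𝓞 M = 𝔩`), so `ordI L (I' 𝓞_E) = 0`.  Finally `𝔩 𝓞_E ≤ L`, so the exponent of
`L` in it is positive. (`𝔩 ≠ ⊥` because `L ≠ ⊥`; `Ideal.map` of a nonzero ideal is nonzero because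
`𝓞 M → 𝓞 E` is injective.)
-/

namespace H9FC

open NumberField

private theorem OrdX_inj (M : Type*) [Field M] [NumberField M] (E : Type*) [Field E]
    [NumberField E] [Algebra M E] : Function.Injective (algebraMap (𝓞 M) (𝓞 E)) :=
  FaithfulSMul.algebraMap_injective _ _

private theorem OrdX_ne {M : Type*} [Field M] [NumberField M] (E : Type*) [Field E]
    [NumberField E] [Algebra M E] {I : Ideal (𝓞 M)} (hI : I ≠ ⊥) :
    I.map (algebraMap (𝓞 M) (𝓞 E)) ≠ ⊥ := by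
  rwa [Ne, Ideal.map_eq_bot_iff_of_injective (OrdX_inj M E)]

private theorem OrdX_comap_ne (M : Type*) [Field M] [NumberField M] {E : Type*} [Field E]
    [NumberField E] [Algebra M E] {L : Ideal (𝓞 E)} (hL0 : L ≠ ⊥) :
    L.comap (algebraMap (𝓞 M) (𝓞 E)) ≠ ⊥ := by
  intro h0
  have h1 : ((Ideal.absNorm L : ℕ) : 𝓞 M) ∈ L.comap (algebraMap (𝓞 M) (𝓞 E)) := by
    rw [Ideal.mem_comap, map_natCast]
    exact Ideal.absNorm_mem L
  rw [h0, Submodule.mem_bot, Nat.cast_eq_zero, Ideal.absNorm_eq_zero_iff] at h1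
  exact hL0 h1

theorem ordI_algebraMap (M : Type*) [Field M] [NumberField M] (E : Type*) [Field E]
    [NumberField E] [Algebra M E] (L : Ideal (𝓞 E)) (hL : L.IsPrime) (hL0 : L ≠ ⊥)
    (I : Ideal (𝓞 M)) (hI : I ≠ ⊥) :
    ordI L (I.map (algebraMap (𝓞 M) (𝓞 E)))
      = ordI L ((L.comap (algebraMap (𝓞 M) (𝓞 E))).map (algebraMap (𝓞 M) (𝓞 E)))
        * ordI (L.comap (algebraMap (𝓞 M) (𝓞 E))) I := by
  set l : Ideal (𝓞 M) := L.comap (algebraMap (𝓞 M) (𝓞 E)) with hl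
  have hlp : l.IsPrime := Ideal.comap_isPrime _ _
  have hl0 : l ≠ ⊥ := OrdX_comap_ne M hL0
  have h1 : I ≤ l ^ (ordI l I) := (le_ordI_iff l I hlp hl0 hI _).1 le_rfl
  obtain ⟨I', hI'⟩ := Ideal.dvd_iff_le.2 h1
  have hI'0 : I' ≠ ⊥ := by
    intro h0
    rw [h0, Ideal.mul_bot] at hI'
    exact hI hI'
  have hI'l : ¬ I' ≤ l := by
    intro h2
    obtain ⟨J, hJ⟩ := Ideal.dvd_iff_le.2 h2
    have h3 : I ≤ l ^ (ordI l I + 1) := by
      rw [← Ideal.dvd_iff_le]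
      refine ⟨J, ?_⟩
      rw [pow_succ, mul_assoc, ← hJ]
      exact hI'
    have := (le_ordI_iff l I hlp hl0 hI _).2 h3
    omega
  have h4 : ordI L (I'.map (algebraMap (𝓞 M) (𝓞 E))) = 0 := by
    by_contra h5
    have h6 := (le_ordI_iff L _ hL hL0 (OrdX_ne E hI'0) 1).1 (Nat.one_le_iff_ne_zero.2 h5)
    rw [pow_one, Ideal.map_le_iff_le_comap] at h6
    exact hI'l h6
  have h7 : I.map (algebraMap (𝓞 M) (𝓞 E)) =
      (l.map (algebraMap (𝓞 M) (𝓞 E))) ^ (ordI l I) * I'.map (algebraMap (𝓞 M) (𝓞 E)) := by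
    rw [← Ideal.map_pow, ← Ideal.map_mul, ← hI']
  rw [h7, ordI_mul L _ _ (pow_ne_zero _ (OrdX_ne E hl0)) (OrdX_ne E hI'0), h4, add_zero,
    ordI_pow, mul_comm]

theorem ordI_comap_map_pos (M : Type*) [Field M] [NumberField M] (E : Type*) [Field E]
    [NumberField E] [Algebra M E] (L : Ideal (𝓞 E)) (hL : L.IsPrime) (hL0 : L ≠ ⊥) :
    0 < ordI L ((L.comap (algebraMap (𝓞 M) (𝓞 E))).map (algebraMap (𝓞 M) (𝓞 E))) := by
  rw [← Nat.one_le_iff_ne_zero.trans Nat.pos_iff_ne_zero.symm,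
    le_ordI_iff L _ hL hL0 (OrdX_ne E (OrdX_comap_ne M hL0)), pow_one]
  exact Ideal.map_comap_le

end H9FC
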