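import Pool.Agent.H9.FC.OrdA

/-!
# Project FC9, module PowN

The exponents of a prime `P`, `p ∉ P`, in `(α + ζ β)(α + ζ⁻¹ β)^(p-1)` if `α^p + β^p = γ^p`.

PROOF. Let `v(x) = ordI P (span {x})` for nonzero `x` (`v(x y) = v(x) + v(y)`, `n ≤ v(x)` iff `x ∈ P^n`:
module OrdA). Put `x_i = α + ζ^i β`, `0 ≤ i < p`; since `p` is odd, `∏ x_i = α^p + β^p = γ^p`, so all
`x_i` are nonzero.  For `i ≠ j` the element `ζ^i - ζ^j` is not in `P` (it divides a power of `p`, since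
`∏_{0<k<p} (1 - ζ^k) = p ∉ P`).  Put `m = min (v(α), v(β))` (`v(0) = ∞`; not both are zero), so
`α, β ∈ P^m` but not both in `P^(m+1)`.  Then `v(x_i) ≥ m` for all `i`, and for `i ≠ j` from
`x_i - x_j = (ζ^i - ζ^j) β` and `ζ^j x_i - ζ^i x_j = (ζ^j - ζ^i) α` we get `min (v(x_i), v(x_j)) ≤ m`
(if both were in `P^(m+1)` then so were `α` and `β`; note `s x ∈ P^(m+1)`, `s ∉ P` implies
`x ∈ P^(m+1)`); so at most one `v(x_i)` is different from `m`.  As
`∑ v(x_i) = p v(γ)`, we get `v(x_i) ≡ m` modulo `p` for all `i`.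
Hence `v(x_1) + (p-1) v(x_{p-1}) ≡ 0` modulo `p`.
-/

namespace H9FC

private theorem PowN_ne {R : Type*} [CommRing R] [IsDomain R] (p : ℕ) [Fact p.Prime]
    (hp : p ≠ 2) {ζ : R} (hζ : ζ ^ p = 1) {α β γ : R} (h : α ^ p + β ^ p = γ ^ p)
    (hγ0 : γ ≠ 0) : α + ζ * β ≠ 0 := by
  intro h0
  have hodd : Odd p := Nat.Prime.odd_of_ne_two Fact.out hp
  have hα : α = -(ζ * β) := eq_neg_of_add_eq_zero_left h0
  rw [hα, hodd.neg_pow, mul_pow, hζ, one_mul, neg_add_cancel] at h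
  exact hγ0 ((pow_eq_zero_iff (Nat.Prime.ne_zero Fact.out)).1 h.symm)

private theorem PowN_root {R : Type*} [CommRing R] (p : ℕ) [Fact p.Prime] {μ ν : R}
    (hμ : μ ^ p = 1) (hν : ν ^ p = 1) (P : Ideal R) (hP : P.IsPrime) (hpP : (p : R) ∉ P)
    [IsDomain R] (hne : μ ≠ ν) : μ - ν ∉ P := by
  intro hmem
  have hp0 : p ≠ 0 := Nat.Prime.ne_zero Fact.out
  have h1 : (∑ i ∈ Finset.range p, μ ^ i * ν ^ (p - 1 - i)) = 0 := by
    have h2 := geom_sum₂_mul μ ν p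
    rw [hμ, hν, sub_self] at h2
    exact (mul_eq_zero.1 h2).resolve_right (sub_ne_zero.2 hne)
  have h3 : Ideal.Quotient.mk P μ = Ideal.Quotient.mk P ν := Ideal.Quotient.eq.2 hmem
  have h4 := congrArg (Ideal.Quotient.mk P) h1
  rw [map_sum, map_zero] at h4
  have h5 : ∑ i ∈ Finset.range p, Ideal.Quotient.mk P (μ ^ i * ν ^ (p - 1 - i)) =
      ∑ i ∈ Finset.range p, Ideal.Quotient.mk P ν ^ (p - 1) := by
    refine Finset.sum_congr rfl fun i hi => ?_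
    have hi' : i < p := Finset.mem_range.1 hi
    rw [map_mul, map_pow, map_pow, h3, ← pow_add]
    congr 1
    omega
  rw [h5, Finset.sum_const, Finset.card_range, nsmul_eq_mul] at h4
  have h6 : (Ideal.Quotient.mk P) ((p : R) * ν ^ (p - 1)) = 0 := by
    rw [map_mul, map_natCast, map_pow]
    exact h4
  rw [Ideal.Quotient.eq_zero_iff_mem] at h6
  rcases hP.mem_or_mem h6 with h7 | h7
  · exact hpP h7
  · have h8 : ν ∈ P := hP.mem_of_pow_mem _ h7
    have h9 : ν ^ p ∈ P := Ideal.pow_mem_of_mem P h8 p (Nat.pos_of_ne_zero hp0)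
    rw [hν] at h9
    exact hP.ne_top ((Ideal.eq_top_iff_one P).2 h9)

private theorem PowN_ord {R : Type*} [CommRing R] [IsDedekindDomain R] (p : ℕ) [Fact p.Prime]
    (hp : p ≠ 2) {ζ : R} (hζ : IsPrimitiveRoot ζ p) {α β γ : R} (h : α ^ p + β ^ p = γ ^ p)
    (hγ0 : γ ≠ 0) (P : Ideal R) (hP : P.IsPrime) (hP0 : P ≠ ⊥) (hpP : (p : R) ∉ P) :
    ∃ m : ℕ, ∀ μ : R, μ ^ p = 1 → ((ordI P (Ideal.span {α + μ * β}) : ℕ) : ZMod p) = m := by
  have hodd : Odd p := Nat.Prime.odd_of_ne_two Fact.out hp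
  have hpos : 0 < p := Nat.Prime.pos Fact.out
  set v : R → ℕ := fun x => ordI P (Ideal.span {x}) with hv
  have hx0 : ∀ μ : R, μ ^ p = 1 → α + μ * β ≠ 0 := fun μ hμ => PowN_ne p hp hμ h hγ0
  have hvle : ∀ x : R, x ≠ 0 → ∀ n : ℕ, n ≤ v x ↔ x ∈ P ^ n := by
    intro x hx n
    rw [hv]
    show n ≤ ordI P (Ideal.span {x}) ↔ x ∈ P ^ n
    rw [le_ordI_iff P _ hP hP0 (by rwa [Ne, Ideal.span_singleton_eq_bot]),
      Ideal.span_singleton_le_iff_mem]
  set I : Ideal R := Ideal.span {α} ⊔ Ideal.span {β} with hI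
  have hI0 : I ≠ ⊥ := by
    intro h0
    rw [hI, sup_eq_bot_iff, Ideal.span_singleton_eq_bot, Ideal.span_singleton_eq_bot] at h0
    rw [h0.1, h0.2, zero_pow hpos.ne', zero_add] at h
    exact hγ0 ((pow_eq_zero_iff hpos.ne').1 h.symm)
  set m : ℕ := ordI P I with hm
  have hmle : ∀ n : ℕ, n ≤ m ↔ (α ∈ P ^ n ∧ β ∈ P ^ n) := by
    intro n
    rw [hm, le_ordI_iff P I hP hP0 hI0, hI, sup_le_iff, Ideal.span_singleton_le_iff_mem,
      Ideal.span_singleton_le_iff_mem]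
  have hge : ∀ μ : R, μ ^ p = 1 → m ≤ v (α + μ * β) := by
    intro μ hμ
    rw [hvle _ (hx0 μ hμ)]
    obtain ⟨h1, h2⟩ := (hmle m).1 le_rfl
    exact Ideal.add_mem _ h1 (Ideal.mul_mem_left _ _ h2)
  have hone : ∀ μ ν : R, μ ^ p = 1 → ν ^ p = 1 → μ ≠ ν → m < v (α + μ * β) →
      v (α + ν * β) = m := by
    intro μ ν hμ hν hne hlt
    by_contra hc
    have hlt' : m < v (α + ν * β) := lt_of_le_of_ne (hge ν hν) (Ne.symm hc)
    have h1 : α + μ * β ∈ P ^ (m + 1) := (hvle _ (hx0 μ hμ) _).1 hlt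
    have h2 : α + ν * β ∈ P ^ (m + 1) := (hvle _ (hx0 ν hν) _).1 hlt'
    have hr := PowN_root p hμ hν P hP hpP hne
    have h3 : (μ - ν) * β ∈ P ^ (m + 1) := by
      have e : (μ - ν) * β = (α + μ * β) - (α + ν * β) := by ring
      rw [e]
      exact Ideal.sub_mem _ h1 h2
    have h4 : (μ - ν) * α ∈ P ^ (m + 1) := by
      have e : (μ - ν) * α = μ * (α + ν * β) - ν * (α + μ * β) := by ring
      rw [e]
      exact Ideal.sub_mem _ (Ideal.mul_mem_left _ _ h2) (Ideal.mul_mem_left _ _ h1)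
    have h5 : m + 1 ≤ m := (hmle _).2
      ⟨(hP.mul_mem_pow _ h4).resolve_left hr, (hP.mul_mem_pow _ h3).resolve_left hr⟩
    omega
  refine ⟨m, fun μ hμ => ?_⟩
  show ((v (α + μ * β) : ℕ) : ZMod p) = m
  by_cases hlt : m < v (α + μ * β)
  · have hprod := hζ.pow_add_pow_eq_prod_add_mul α β hodd
    rw [h] at hprod
    have hmemr : ∀ ν : R, ν ∈ Polynomial.nthRootsFinset p (1 : R) ↔ ν ^ p = 1 := fun ν => by
      rw [Polynomial.mem_nthRootsFinset hpos]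
    have hsum : p * v γ = ∑ ν ∈ Polynomial.nthRootsFinset p (1 : R), v (α + ν * β) := by
      have h1 : v (γ ^ p) = p * v γ := by
        rw [hv]
        show ordI P (Ideal.span {γ ^ p}) = p * ordI P (Ideal.span {γ})
        rw [← Ideal.span_singleton_pow, ordI_pow]
      rw [← h1, hprod, hv]
      show ordI P (Ideal.span {∏ ν ∈ Polynomial.nthRootsFinset p (1 : R), (α + ν * β)}) = _
      rw [← Ideal.prod_span_singleton, ordI_prod]
      intro ν hν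
      rw [Ne, Ideal.span_singleton_eq_bot]
      exact hx0 ν ((hmemr ν).1 hν)
    classical
    have hμm := (hmemr μ).2 hμ
    rw [← Finset.add_sum_erase _ _ hμm] at hsum
    have h2 : ∑ ν ∈ (Polynomial.nthRootsFinset p (1 : R)).erase μ, v (α + ν * β) =
        (p - 1) * m := by
      rw [Finset.sum_congr rfl (fun ν hν => hone μ ν hμ
        ((hmemr ν).1 (Finset.mem_of_mem_erase hν)) (Finset.ne_of_mem_erase hν).symm hlt),
        Finset.sum_const, Finset.card_erase_of_mem hμm, hζ.card_nthRootsFinset, smul_eq_mul]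
    rw [h2] at hsum
    have h3 := congrArg (fun n : ℕ => (n : ZMod p)) hsum
    simp only [Nat.cast_mul, Nat.cast_add, CharP.cast_eq_zero, zero_mul] at h3
    rw [Nat.cast_sub (show 1 ≤ p from hpos), ZMod.natCast_self, Nat.cast_one] at h3
    linear_combination -h3
  · have h1 := hge μ hμ
    have h2 : v (α + μ * β) = m := by omega
    rw [h2]

theorem ord_dedekind {R : Type*} [CommRing R] [IsDedekindDomain R] (p : ℕ) [Fact p.Prime]
    (hp : p ≠ 2) {ζ : R} (hζ : IsPrimitiveRoot ζ p) {α β γ : R} (h : α ^ p + β ^ p = γ ^ p)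
    (hγ0 : γ ≠ 0) (P : Ideal R) (hP : P.IsPrime) (hP0 : P ≠ ⊥) (hpP : (p : R) ∉ P) :
    p ∣ ordI P (Ideal.span {(α + ζ * β) * (α + ζ ^ (p - 1) * β) ^ (p - 1)}) := by
  obtain ⟨m, hm⟩ := PowN_ord p hp hζ h hγ0 P hP hP0 hpP
  have hpos : 0 < p := Nat.Prime.pos Fact.out
  have hz1 : ζ ^ p = 1 := hζ.pow_eq_one
  have hz2 : (ζ ^ (p - 1)) ^ p = 1 := by rw [← pow_mul, mul_comm, pow_mul, hz1, one_pow]
  have hb : ∀ μ : R, μ ^ p = 1 → Ideal.span {α + μ * β} ≠ ⊥ := by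
    intro μ hμ
    rw [Ne, Ideal.span_singleton_eq_bot]
    exact PowN_ne p hp hμ h hγ0
  rw [← Ideal.span_singleton_mul_span_singleton, ← Ideal.span_singleton_pow,
    ordI_mul P _ _ (hb ζ hz1) (pow_ne_zero _ (hb _ hz2)), ordI_pow,
    ← ZMod.natCast_eq_zero_iff, Nat.cast_add, Nat.cast_mul, hm ζ hz1, hm _ hz2,
    Nat.cast_sub (show 1 ≤ p from hpos), ZMod.natCast_self, Nat.cast_one]
  ring

/-- none of the factors is `0` -/
theorem factor_ne_zero {R : Type*} [CommRing R] [IsDomain R] (p : ℕ) [Fact p.Prime]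
    (hp : p ≠ 2) {ζ : R} (hζ : ζ ^ p = 1) {α β γ : R} (h : α ^ p + β ^ p = γ ^ p)
    (hγ0 : γ ≠ 0) : α + ζ * β ≠ 0 := PowN_ne p hp hζ h hγ0

end H9FC
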