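import Pool.Agent.H9.FC.NfEmb
import Pool.Agent.H9.FC.Env
import Pool.Agent.H9.FC.PowN
import Pool.Agent.H9.FC.Desc
import Pool.Agent.H9.FC.OrdX
import Pool.Agent.H9.FC.Conj
import Pool.Agent.H9.FC.CycMod

/-!
# Project FC9, module PartI

The norm trick: for a nontrivial solution `(a, b, c)` over `K`, `F = nf K a b` and a primitive
`p`-th root of unity `ζ ∈ M = ℚ(ζ_p)`, the ideal of `F(ζ) F(ζ⁻¹)^(p-1)` is a `p`-th power.

PROOF. Take `N ⊇ M` from `exists_env`.  For every `σ : K → N` the elements `α = σ a`, `β = σ b`,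
`γ = - σ c` of `𝓞 N` (`RingOfIntegers.mapRingHom`) satisfy `α^p + β^p = γ^p`, `γ ≠ 0`.  By
`nf_map_prod` the image of `F(ζ)` in `N` is the product of the `α + ζ β` over all `σ`, so
`F(ζ) ≠ 0` (`factor_ne_zero`), similarly `F(ζ⁻¹) ≠ 0`; put `x = F(ζ) F(ζ^(p-1))^(p-1)`.  By
`ord_dedekind`, `p ∣ ordI 𝔔 (x)` for every prime `𝔔 ≠ ⊥` of `𝓞 N` with `p ∉ 𝔔` (multiply over `σ`).
Let `π = (ζ - 1)`, the only prime of `𝓞 M` containing `p`.  It is mapped to itself by `c = cj p M`, and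
`c F(ζ) = F(ζ⁻¹)`, so `ordI π (x) = p k`, `k = ordI π (F(ζ))` (`ordI_smul`).  Write
`(x) = π^(p k) 𝔟` with `𝔟` not contained in `π` (`π^(pk)` divides `(x)`).  All exponents of `𝔟 𝓞_N` are
divisible by `p`: for `p ∉ 𝔔` they are those of `x` (the ideal `π 𝓞_N` is not contained in `𝔔`
because `p` is a unit times `(ζ-1)^(p-1)`), and for `p ∈ 𝔔` they are `0`.  So `𝔟 𝓞_N` is a `p`-th power
(`exists_pow_of_dvd_ordI`), so `𝔟` is (`descend`), and `(x) = (π^k 𝔟')^p`.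
-/

namespace H9FC

open Polynomial NumberField

open scoped Pointwise in
private lemma PartI_smul_span {R G : Type*} [CommRing R] [Group G] [MulSemiringAction G R]
    (g : G) (y : R) : g • Ideal.span {y} = Ideal.span {g • y} := by
  rw [Ideal.pointwise_smul_def, Ideal.map_span, Set.image_singleton]
  rfl

private lemma PartI_smul_aeval {R G : Type*} [CommRing R] [Group G] [MulSemiringAction G R]
    (g : G) (y : R) (F : ℤ[X]) : g • aeval y F = aeval (g • y) F :=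
  (Polynomial.aeval_algHom_apply (MulSemiringAction.toRingHom G R g).toIntAlgHom y F).symm

open scoped Pointwise in
private lemma PartI_ord (p : ℕ) [Fact p.Prime] (M : Type*) [Field M] [NumberField M]
    [IsCyclotomicExtension {p} ℚ M] {ζ : 𝓞 M} (hζ : IsPrimitiveRoot ζ p) (π : Ideal (𝓞 M))
    (hπ : π.IsPrime) (hπ0 : π ≠ ⊥)
    (hπu : ∀ P : Ideal (𝓞 M), P.IsPrime → (p : 𝓞 M) ∈ P → P = π) (hpπ : (p : 𝓞 M) ∈ π)
    (F : ℤ[X]) :
    ordI π (Ideal.span {aeval (ζ ^ (p - 1)) F}) = ordI π (Ideal.span {aeval ζ F}) := by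
  have hcjπ : cj p M • π = π := by
    refine hπu _ (Ideal.IsPrime.smul (H := hπ) (cj p M)) ?_
    have h1 := Ideal.smul_mem_pointwise_smul (cj p M) (p : 𝓞 M) π hpπ
    have h2 : cj p M • (p : 𝓞 M) = (p : 𝓞 M) :=
      map_natCast (MulSemiringAction.toRingHom (M ≃ₐ[ℚ] M) (𝓞 M) (cj p M)) p
    rwa [h2] at h1
  have h1 := ordI_smul (cj p M) π (Ideal.span {aeval ζ F}) hπ hπ0
  rw [hcjπ, PartI_smul_span, PartI_smul_aeval, cj_smul_zeta p M hζ.pow_eq_one] at h1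
  exact h1

/-- the norm form over the field `N` -/
private lemma PartI_prod (K : Type*) [Field K] [NumberField K] (N : Type*) [Field N]
    [NumberField N] (hcard : Fintype.card (K →ₐ[ℚ] N) = Module.finrank ℚ K) (a b : 𝓞 K)
    (z : 𝓞 N) :
    aeval z (nf K a b) = ∏ σ : K →ₐ[ℚ] N,
      (RingOfIntegers.mapRingHom (σ : K →+* N) a + z * RingOfIntegers.mapRingHom (σ : K →+* N) b) := by
  apply RingOfIntegers.coe_injective
  have h1 : algebraMap (𝓞 N) N (aeval z (nf K a b)) = aeval (algebraMap (𝓞 N) N z) (nf K a b) :=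
    (Polynomial.aeval_algebraMap_apply N z (nf K a b)).symm
  rw [h1, Polynomial.aeval_def, Polynomial.eval₂_eq_eval_map]
  have h2 : (algebraMap ℤ N) = Int.castRingHom N := rfl
  rw [h2, nf_map_prod K N hcard, Polynomial.eval_prod, map_prod]
  refine Finset.prod_congr rfl fun σ _ => ?_
  rw [Polynomial.eval_add, Polynomial.eval_mul, Polynomial.eval_C, Polynomial.eval_X,
    Polynomial.eval_C, map_add, map_mul]
  rfl

theorem exists_pow_ideal (K : Type*) [Field K] [NumberField K] (p : ℕ) [Fact p.Prime]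
    (hp : p ≠ 2) (hd : Module.finrank ℚ K < p) (a b c : 𝓞 K) (h : FSol K p a b c)
    (M : Type*) [Field M] [NumberField M] [IsCyclotomicExtension {p} ℚ M] {ζ : 𝓞 M}
    (hζ : IsPrimitiveRoot ζ p) :
    aeval ζ (nf K a b) ≠ 0 ∧ ∃ I : Ideal (𝓞 M),
      I ^ p = Ideal.span {aeval ζ (nf K a b) * (aeval (ζ ^ (p - 1)) (nf K a b)) ^ (p - 1)} := by
  classical
  have hpp : p.Prime := Fact.out
  have hodd : Odd p := hpp.odd_of_ne_two hp
  obtain ⟨N, _, _, _, hN, hcard⟩ := exists_env K p hd M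
  obtain ⟨ha, hb, hc, habc⟩ := h
  set F : ℤ[X] := nf K a b with hF
  set Z : 𝓞 N := algebraMap (𝓞 M) (𝓞 N) ζ with hZ
  have hinj : Function.Injective (algebraMap (𝓞 M) (𝓞 N)) :=
    FaithfulSMul.algebraMap_injective (𝓞 M) (𝓞 N)
  have hZp : IsPrimitiveRoot Z p := hζ.map_of_injective hinj
  set α : (K →ₐ[ℚ] N) → 𝓞 N := fun σ => RingOfIntegers.mapRingHom (σ : K →+* N) a with hα
  set β : (K →ₐ[ℚ] N) → 𝓞 N := fun σ => RingOfIntegers.mapRingHom (σ : K →+* N) b with hβ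
  set γ : (K →ₐ[ℚ] N) → 𝓞 N := fun σ => - RingOfIntegers.mapRingHom (σ : K →+* N) c with hγ
  have hfer : ∀ σ, α σ ^ p + β σ ^ p = γ σ ^ p := by
    intro σ
    have h1 := congrArg (RingOfIntegers.mapRingHom (σ : K →+* N)) habc
    rw [map_add, map_add, map_pow, map_pow, map_pow, map_zero] at h1
    rw [hγ]
    change α σ ^ p + β σ ^ p = (- RingOfIntegers.mapRingHom (σ : K →+* N) c) ^ p
    rw [hodd.neg_pow]
    exact eq_neg_of_add_eq_zero_left h1
  have hγ0 : ∀ σ, γ σ ≠ 0 := by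
    intro σ h1
    have h2 : RingOfIntegers.mapRingHom (σ : K →+* N) c = 0 := neg_eq_zero.1 h1
    have h3 : (σ : K →+* N) (c : K) = 0 := by
      have := congrArg (fun t : 𝓞 N => (t : N)) h2
      exact this
    have h4 : (c : K) = 0 := (map_eq_zero _).1 h3
    exact hc (RingOfIntegers.coe_injective (h4.trans (map_zero (algebraMap (𝓞 K) K)).symm))
  have hev : ∀ i : ℕ, algebraMap (𝓞 M) (𝓞 N) (aeval (ζ ^ i) F) = ∏ σ, (α σ + Z ^ i * β σ) := by
    intro i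
    rw [← Polynomial.aeval_algebraMap_apply, map_pow, hF, PartI_prod K N hcard]
  have hev1 : algebraMap (𝓞 M) (𝓞 N) (aeval ζ F) = ∏ σ, (α σ + Z * β σ) := by
    have := hev 1
    rwa [pow_one, pow_one] at this
  have hne1 : aeval ζ F ≠ 0 := by
    intro h0
    rw [h0, map_zero] at hev1
    obtain ⟨σ, -, hσ⟩ := Finset.prod_eq_zero_iff.1 hev1.symm
    exact factor_ne_zero p hp hZp.pow_eq_one (hfer σ) (hγ0 σ) hσ
  have hne2 : aeval (ζ ^ (p - 1)) F ≠ 0 := by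
    intro h0
    have h1 := hev (p - 1)
    rw [h0, map_zero] at h1
    obtain ⟨σ, -, hσ⟩ := Finset.prod_eq_zero_iff.1 h1.symm
    refine factor_ne_zero p hp (ζ := Z ^ (p - 1)) ?_ (hfer σ) (hγ0 σ) hσ
    rw [← pow_mul, mul_comm, pow_mul, hZp.pow_eq_one, one_pow]
  refine ⟨hne1, ?_⟩
  set x : 𝓞 M := aeval ζ F * (aeval (ζ ^ (p - 1)) F) ^ (p - 1) with hx
  have hx0 : x ≠ 0 := mul_ne_zero hne1 (pow_ne_zero _ hne2)
  have hxN : algebraMap (𝓞 M) (𝓞 N) x =
      ∏ σ, ((α σ + Z * β σ) * (α σ + Z ^ (p - 1) * β σ) ^ (p - 1)) := by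
    rw [hx, map_mul, map_pow, hev1, hev, Finset.prod_mul_distrib, Finset.prod_pow]
  have hfac1 : ∀ σ, (α σ + Z * β σ) * (α σ + Z ^ (p - 1) * β σ) ^ (p - 1) ≠ 0 := by
    intro σ h1
    have h2 : algebraMap (𝓞 M) (𝓞 N) x = 0 := by
      rw [hxN]
      exact Finset.prod_eq_zero (Finset.mem_univ σ) h1
    exact hx0 ((map_eq_zero_iff _ hinj).1 h2)
  -- exponents away from `p`
  have haway : ∀ Q : Ideal (𝓞 N), Q.IsPrime → Q ≠ ⊥ → (p : 𝓞 N) ∉ Q →
      p ∣ ordI Q (Ideal.span {algebraMap (𝓞 M) (𝓞 N) x}) := by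
    intro Q hQ hQ0 hpQ
    rw [hxN, ← Ideal.prod_span_singleton, ordI_prod]
    · refine Finset.dvd_sum fun σ _ => ?_
      exact ord_dedekind p hp hZp (hfer σ) (hγ0 σ) Q hQ hQ0 hpQ
    · intro σ _ h1
      exact hfac1 σ (Ideal.span_singleton_eq_bot.1 h1)
  -- the prime above `p`
  obtain ⟨hπ, hπ0, hπu⟩ := prime_zeta_sub_one p M hζ
  set π : Ideal (𝓞 M) := Ideal.span {ζ - 1} with hπdef
  have hpπ : (p : 𝓞 M) ∈ π := by
    rw [hπdef, Ideal.mem_span_singleton]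
    have h1 := (associated_p p M hζ).symm.dvd
    exact (dvd_pow_self _ (by have := hpp.two_le; omega)).trans h1
  set k : ℕ := ordI π (Ideal.span {aeval ζ F}) with hk
  have hk2 : ordI π (Ideal.span {aeval (ζ ^ (p - 1)) F}) = k := by
    rw [hk]
    exact PartI_ord p M hζ π hπ hπ0 hπu hpπ F
  have hxord : ordI π (Ideal.span {x}) = p * k := by
    rw [hx, ← Ideal.span_singleton_mul_span_singleton, ordI_mul, ← Ideal.span_singleton_pow,
      ordI_pow, hk2, ← hk]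
    · have := hpp.one_le
      obtain ⟨q, rfl⟩ := Nat.exists_eq_add_of_le this
      rw [Nat.add_sub_cancel_left]
      ring
    · exact fun h1 => hne1 (Ideal.span_singleton_eq_bot.1 h1)
    · exact fun h1 => (pow_ne_zero _ hne2) (Ideal.span_singleton_eq_bot.1 h1)
  have hxb : Ideal.span {x} ≠ ⊥ := fun h1 => hx0 (Ideal.span_singleton_eq_bot.1 h1)
  obtain ⟨B, hB⟩ : π ^ (p * k) ∣ Ideal.span {x} :=
    Ideal.dvd_iff_le.2 ((le_ordI_iff π _ hπ hπ0 hxb _).1 hxord.ge)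
  have hB0 : B ≠ ⊥ := by
    rintro rfl
    rw [Ideal.mul_bot] at hB
    exact hxb hB
  have hπk0 : π ^ (p * k) ≠ ⊥ := by
    intro h1
    rw [h1, Ideal.bot_mul] at hB
    exact hxb hB
  have hBord : ordI π B = 0 := by
    rw [hB, ordI_mul _ _ _ hπk0 hB0, ordI_pow, ordI_self π hπ hπ0] at hxord
    omega
  have hmap : Ideal.span {algebraMap (𝓞 M) (𝓞 N) x} =
      (π.map (algebraMap (𝓞 M) (𝓞 N))) ^ (p * k) * B.map (algebraMap (𝓞 M) (𝓞 N)) := by
    rw [← Ideal.map_pow, ← Ideal.map_mul, ← hB, Ideal.map_span, Set.image_singleton]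
  have hxN0 : Ideal.span {algebraMap (𝓞 M) (𝓞 N) x} ≠ ⊥ := fun h1 =>
    hx0 ((map_eq_zero_iff _ hinj).1 (Ideal.span_singleton_eq_bot.1 h1))
  have hBN0 : B.map (algebraMap (𝓞 M) (𝓞 N)) ≠ ⊥ := by
    intro h1
    rw [h1, Ideal.mul_bot] at hmap
    exact hxN0 hmap
  have hπN0 : (π.map (algebraMap (𝓞 M) (𝓞 N))) ^ (p * k) ≠ ⊥ := by
    intro h1
    rw [h1, Ideal.bot_mul] at hmap
    exact hxN0 hmap
  have hall : ∀ Q : Ideal (𝓞 N), Q.IsPrime → Q ≠ ⊥ →
      p ∣ ordI Q (B.map (algebraMap (𝓞 M) (𝓞 N))) := by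
    intro Q hQ hQ0
    by_cases hpQ : (p : 𝓞 N) ∈ Q
    · have h1 : Q.comap (algebraMap (𝓞 M) (𝓞 N)) = π := by
        refine hπu _ (Ideal.comap_isPrime _ _) ?_
        rw [Ideal.mem_comap, map_natCast]
        exact hpQ
      rw [ordI_algebraMap M N Q hQ hQ0 B hB0, h1, hBord, mul_zero]
      exact dvd_zero _
    · have h1 := haway Q hQ hQ0 hpQ
      rw [hmap, ordI_mul _ _ _ hπN0 hBN0, ordI_pow, mul_assoc] at h1
      exact (Nat.dvd_add_right (dvd_mul_right p _)).1 h1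
  obtain ⟨J, hJ⟩ := exists_pow_of_dvd_ordI p hpp.ne_zero _ hBN0 hall
  obtain ⟨I', hI'⟩ := descend M N p hN B J hJ
  refine ⟨π ^ k * I', ?_⟩
  rw [mul_pow, hI', hB, ← pow_mul, mul_comm k p]

end H9FC
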