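import Pool.Agent.H9.FC.OrdA
import Pool.Agent.H9.FC.Conj
import Pool.Agent.H9.FC.CycMod

/-!
# Project FC9, module APart

The prime-to-`p` part `A(ζ) = F(ζ)/(ζ - 1)^μ` of `F(ζ)`, where `F ≡ (X - 1)^μ P₁` modulo `p`,
`P₁(1) ≠ 0`, `μ < p - 1`.

PROOF. Lift `P₁` to `P̃ ∈ ℤ[X]`; `F = (X-1)^μ P̃ + p R`, `R ∈ ℤ[X]`. Let `η` be any primitive `p`-th root of
unity in `𝓞 M`. `p = u (η-1)^(p-1)` with a unit `u` (`associated_p`), so
`F(η) = (η-1)^μ A`, `A = P̃(η) + u (η-1)^(p-1-μ) R(η)`: (1), (2).  (3): modulo `η - 1`,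
`A ≡ P̃(1)`, which is prime to `p`; a prime containing `p` is `(η - 1)` (`prime_zeta_sub_one`,
`int_dvd`).
(4): `c = cj p M` maps `η` to `η^(p-1)`; `A` is determined by `(η-1)^μ A = F(η)` (`η ≠ 1`).
(5): `F(η) F(η^(p-1))^(p-1) = ((η-1)^μ A) ((η^(p-1)-1)^μ A')^(p-1)`, and `η^(p-1) - 1` is a unit times
`η - 1` (`= -η^(p-1)(η-1)`), so `I^p = (η-1)^(p μ) (A A'^(p-1))` as ideals; comparing exponents (`ordI`)
of all primes, every exponent of `(A A'^(p-1))` is divisible by `p`, so it is a `p`-th power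
(`exists_pow_of_dvd_ordI`), `A, A' ≠ 0` by (3).
(6): `A ≡ P̃(η)` modulo `(η-1)^(p-1-μ)`. If `μ + 2 < p`, then modulo `(η-1)²`:
`A = ∑_j c_j (η-1)^(j-μ)`, `F = ∑ c_j (X-1)^j`, where `p ∣ c_j` for `j < μ`; so
`A ≡ c_μ + c_(μ+1) (η-1)`.  In terms of `P̃`: `A ≡ P̃(η) ≡ P̃(1) + P̃'(1)(η-1)` as `p-1-μ ≥ 2`.
-/

namespace H9FC

open Polynomial NumberField

/-- `A` is the prime-to-`p` part of `F(η)` -/
def IsAPart {M : Type*} [Field M] [NumberField M] (F : ℤ[X]) (μ : ℕ) (η A : 𝓞 M) : Prop :=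
  aeval η F = (η - 1) ^ μ * A

private theorem APart_lift (p : ℕ) (G : ℤ[X]) (h : G.map (Int.castRingHom (ZMod p)) = 0) :
    ∃ R : ℤ[X], G = C (p : ℤ) * R := by
  have h1 : C (p : ℤ) ∣ G := by
    rw [Polynomial.C_dvd_iff_dvd_coeff]
    intro i
    have h2 := congrArg (fun f : (ZMod p)[X] => f.coeff i) h
    simp only [coeff_map, coeff_zero, eq_intCast] at h2
    exact (ZMod.intCast_zmod_eq_zero_iff_dvd _ _).1 h2
  exact h1

private theorem APart_aeval {R : Type*} [CommRing R] (P : ℤ[X]) (x : R) :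
    aeval x P = (P.map (Int.castRingHom R)).eval x := by
  rw [eval_map, aeval_def]
  rfl

private theorem APart_one {R : Type*} [CommRing R] (P : ℤ[X]) :
    (P.map (Int.castRingHom R)).eval 1 = ((P.eval 1 : ℤ) : R) := by
  simp

private theorem APart_taylor {R : Type*} [CommRing R] (P : ℤ[X]) (x : R) :
    (x - 1) ^ 2 ∣ aeval x P - ((P.eval 1 : ℤ) : R) -
      (((derivative P).eval 1 : ℤ) : R) * (x - 1) := by
  obtain ⟨k, hk⟩ := Polynomial.binomExpansion (P.map (Int.castRingHom R)) 1 (x - 1)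
  rw [add_sub_cancel, derivative_map, APart_one, APart_one, ← APart_aeval] at hk
  rw [hk]
  exact ⟨k, by ring⟩

private theorem APart_sub {R : Type*} [CommRing R] (P : ℤ[X]) (x : R) :
    (x - 1) ∣ aeval x P - ((P.eval 1 : ℤ) : R) := by
  have := Polynomial.sub_dvd_eval_sub x 1 (P.map (Int.castRingHom R))
  rwa [APart_one, ← APart_aeval] at this

theorem exists_apart (p : ℕ) [Fact p.Prime] (M : Type*) [Field M] [NumberField M]
    [IsCyclotomicExtension {p} ℚ M] {η : 𝓞 M} (hη : IsPrimitiveRoot η p) (F P : ℤ[X]) (μ : ℕ)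
    (hμ : μ + 1 < p) (hF : F.map (Int.castRingHom (ZMod p))
      = (X - 1) ^ μ * P.map (Int.castRingHom (ZMod p))) :
    ∃ A : 𝓞 M, IsAPart F μ η A ∧ (η - 1) ^ (p - 1 - μ) ∣ A - aeval η P ∧
      (¬ (p : ℤ) ∣ P.eval 1 → ∀ Q : Ideal (𝓞 M), Q.IsPrime → (p : 𝓞 M) ∈ Q → A ∉ Q) ∧
      (μ + 2 < p → (η - 1) ^ 2 ∣ A - ((P.eval 1 : ℤ) : 𝓞 M)
        - (((derivative P).eval 1 : ℤ) : 𝓞 M) * (η - 1)) := by
  obtain ⟨R, hR⟩ := APart_lift p (F - (X - 1) ^ μ * P) (by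
    rw [Polynomial.map_sub, hF, Polynomial.map_mul, Polynomial.map_pow, Polynomial.map_sub,
      Polynomial.map_X, Polynomial.map_one, sub_self])
  obtain ⟨u, hu⟩ := associated_p p M hη
  have hpu : (p : 𝓞 M) = (η - 1) ^ (p - 1) * (↑u⁻¹ : 𝓞 M) := by
    rw [← hu, mul_assoc, Units.mul_inv, mul_one]
  have hFe : aeval η F = (η - 1) ^ μ * aeval η P + (p : 𝓞 M) * aeval η R := by
    have h1 : F = (X - 1) ^ μ * P + C (p : ℤ) * R := by
      rw [← hR]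
      ring
    rw [h1]
    simp
  have hd2 : (η - 1) ^ (p - 1 - μ) ∣
      (aeval η P + (η - 1) ^ (p - 1 - μ) * ((↑u⁻¹ : 𝓞 M) * aeval η R)) - aeval η P := by
    rw [add_sub_cancel_left]
    exact dvd_mul_right _ _
  refine ⟨aeval η P + (η - 1) ^ (p - 1 - μ) * ((↑u⁻¹ : 𝓞 M) * aeval η R), ?_, hd2, ?_, ?_⟩
  · unfold IsAPart
    have h2 : (η - 1) ^ (p - 1) = (η - 1) ^ μ * (η - 1) ^ (p - 1 - μ) := by
      rw [← pow_add]
      congr 1
      omega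
    rw [hFe, hpu, h2]
    ring
  · intro hP1 Q hQ hpQ hAQ
    rw [(prime_zeta_sub_one p M hη).2.2 Q hQ hpQ, Ideal.mem_span_singleton] at hAQ
    apply hP1
    apply int_dvd p M hη
    have h3 : (η - 1) ∣ (aeval η P + (η - 1) ^ (p - 1 - μ) * ((↑u⁻¹ : 𝓞 M) * aeval η R)) -
        aeval η P := (dvd_pow_self _ (by omega)).trans hd2
    have h4 : (η - 1) ∣ aeval η P := by
      have := dvd_sub hAQ h3
      rwa [sub_sub_cancel] at this
    have h5 := dvd_sub h4 (APart_sub P η)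
    rwa [sub_sub_cancel] at h5
  · intro hμ2
    have h6 : (η - 1) ^ 2 ∣ (aeval η P + (η - 1) ^ (p - 1 - μ) * ((↑u⁻¹ : 𝓞 M) * aeval η R)) -
        aeval η P := (pow_dvd_pow _ (by omega)).trans hd2
    have h7 := dvd_add h6 (APart_taylor P η)
    have e : (aeval η P + (η - 1) ^ (p - 1 - μ) * ((↑u⁻¹ : 𝓞 M) * aeval η R)) -
        ((P.eval 1 : ℤ) : 𝓞 M) - (((derivative P).eval 1 : ℤ) : 𝓞 M) * (η - 1) =
        ((aeval η P + (η - 1) ^ (p - 1 - μ) * ((↑u⁻¹ : 𝓞 M) * aeval η R)) - aeval η P) +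
        (aeval η P - ((P.eval 1 : ℤ) : 𝓞 M) -
          (((derivative P).eval 1 : ℤ) : 𝓞 M) * (η - 1)) := by ring
    rw [e]
    exact h7

theorem IsAPart.unique {p : ℕ} [Fact p.Prime] {M : Type*} [Field M] [NumberField M]
    {η : 𝓞 M} (hη : IsPrimitiveRoot η p) {F : ℤ[X]} {μ : ℕ} {A A' : 𝓞 M}
    (h : IsAPart F μ η A) (h' : IsAPart F μ η A') : A = A' := by
  unfold IsAPart at h h'
  have h1 : η - 1 ≠ 0 := sub_ne_zero.2 (hη.ne_one (Nat.Prime.one_lt Fact.out))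
  exact mul_left_cancel₀ (pow_ne_zero μ h1) (h.symm.trans h')

theorem IsAPart.smul {p : ℕ} [Fact p.Prime] {M : Type*} [Field M] [NumberField M]
    {η : 𝓞 M} {F : ℤ[X]} {μ : ℕ} {A : 𝓞 M} (h : IsAPart F μ η A) (σ : M ≃ₐ[ℚ] M) :
    IsAPart F μ (σ • η) (σ • A) := by
  unfold IsAPart at h ⊢
  have h1 : aeval (σ • η) F = σ • aeval η F :=
    Polynomial.aeval_algHom_apply
      (MulSemiringAction.toRingHom (M ≃ₐ[ℚ] M) (𝓞 M) σ).toIntAlgHom η F
  rw [h1, h, smul_mul', smul_pow', smul_sub, smul_one]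

theorem apart_pow_ideal (p : ℕ) [Fact p.Prime] (hp2 : p ≠ 2) (M : Type*) [Field M] [NumberField M]
    [IsCyclotomicExtension {p} ℚ M] {η : 𝓞 M} (hη : IsPrimitiveRoot η p) (F : ℤ[X]) (μ : ℕ)
    (A A' : 𝓞 M) (hA : IsAPart F μ η A) (hA' : IsAPart F μ (η ^ (p - 1)) A')
    (hI : ∃ I : Ideal (𝓞 M),
      I ^ p = Ideal.span {aeval η F * (aeval (η ^ (p - 1)) F) ^ (p - 1)})
    (h0 : A ≠ 0) (h0' : A' ≠ 0) :
    ∃ I : Ideal (𝓞 M), I ^ p = Ideal.span {A * A' ^ (p - 1)} := by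
  obtain ⟨I, hI⟩ := hI
  unfold IsAPart at hA hA'
  have hp0 : p ≠ 0 := Nat.Prime.ne_zero Fact.out
  have hp1 : (p - 1) + 1 = p := Nat.sub_add_cancel (Nat.Prime.pos Fact.out)
  have hηp : η ^ p = 1 := hη.pow_eq_one
  have hηu : IsUnit η := IsUnit.of_pow_eq_one hηp hp0
  have h1 : η - 1 ≠ 0 := sub_ne_zero.2 (hη.ne_one (Nat.Prime.one_lt Fact.out))
  have e1 : η ^ (p - 1) - 1 = (-η ^ (p - 1)) * (η - 1) := by
    have h2 : η ^ (p - 1) * η = 1 := by rw [← pow_succ, hp1, hηp]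
    linear_combination h2
  have e2 : aeval η F * (aeval (η ^ (p - 1)) F) ^ (p - 1) =
      ((η - 1) ^ (p * μ) * (A * A' ^ (p - 1))) * ((-η ^ (p - 1)) ^ μ) ^ (p - 1) := by
    rw [hA, hA', e1, mul_pow (-η ^ (p - 1)) (η - 1) μ]
    have h3 : (η - 1) ^ (p * μ) = (η - 1) ^ μ * ((η - 1) ^ μ) ^ (p - 1) := by
      rw [← pow_succ', hp1, ← pow_mul, mul_comm]
    rw [h3]
    ring
  have hu : IsUnit (((-η ^ (p - 1)) ^ μ) ^ (p - 1)) := ((hηu.pow _).neg.pow _).pow _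
  have hAA : Ideal.span {A * A' ^ (p - 1)} ≠ ⊥ := by
    rw [Ne, Ideal.span_singleton_eq_bot]
    exact mul_ne_zero h0 (pow_ne_zero _ h0')
  have hs1 : Ideal.span {(η - 1) ^ (p * μ)} ≠ ⊥ := by
    rw [Ne, Ideal.span_singleton_eq_bot]
    exact pow_ne_zero _ h1
  rw [e2, Ideal.span_singleton_mul_right_unit hu, ← Ideal.span_singleton_mul_span_singleton] at hI
  apply exists_pow_of_dvd_ordI p hp0 _ hAA
  intro P hP hP0
  have h4 := congrArg (ordI P) hI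
  rw [ordI_pow, ordI_mul P _ _ hs1 hAA, ← Ideal.span_singleton_pow, ordI_pow] at h4
  have h5 : p ∣ p * μ * ordI P (Ideal.span {η - 1}) := by
    rw [mul_assoc]
    exact dvd_mul_right _ _
  exact (Nat.dvd_add_right h5).1 (h4 ▸ dvd_mul_right _ _)

end H9FC
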