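import Pool.Agent.H9.FC.JIdeal
import Pool.Agent.H9.FC.Conj
import Pool.Agent.H9.FC.CycMod

/-!
# Project FC9, module StickEl

A semi-primary element `A` whose ideal is a `p`-th power: `∏_{σ ∈ TS p M b} σ⁻¹ A = ± J^p`.

PROOF. `A ≠ 0` by `hA0` (there is a prime containing `p`), so `𝔞 ≠ ⊥`, and `𝔞` is contained in no
prime `P ∋ p` (otherwise `A ∈ P`). Take `J` from `exists_stick` for `𝔞` and put
`B = ∏_{σ ∈ TS} σ⁻¹ • A`. Then `(B) = (∏ σ⁻¹ • 𝔞)^p = (J^p)`, so `B = u J^p` with a unit `u`.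
`c = cj p M` commutes with all `σ`; for `0 < t < p` exactly one of `t, p - t` satisfies
`p < t + (b t mod p)` (for `p - t` the sum is `2 p` minus the sum for `t`, and the sum is not `p`
because `b + 1` is prime to `p`), so `TS` and `c TS` partition the Galois group and
`B (c B) = ∏_{σ} σ A = N(A)`, the norm from `M` to `ℚ` (`Algebra.norm_eq_prod_automorphisms`), and
`N(A) = |φ(B)|^2 > 0` for any `φ : M → ℂ` (`map_cj_eq_conj`).  `(J (c J))^p = absNorm(𝔞)^p =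
absNorm (A) = |N(A)| = N(A)`.  So `u (c u) = 1`, and `u = s ζ^k`, `s = ± 1` by
`unit_of_mul_cj_eq_one`.
Let `λ = ζ - 1`.  Every `σ` maps `λ` to a multiple of `λ` (`σ ζ = ζ^t`), so `σ⁻¹ A ≡ n` modulo `λ²`,
`B ≡ n^#TS`, `J^p ≡ n'^p` modulo `λ²`. So `n₁ ≡ n₂ ζ^k` modulo `λ²` with integers
`n₁ = n^#TS`, `n₂ = s n'^p` which are prime to `p` (`A` is in no prime above `p`).
`ζ^k ≡ 1 + k λ` modulo `λ²`. Modulo `λ`: `λ ∣ n₁ - n₂`, so `p ∣ n₁ - n₂` (`int_dvd`), hence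
`λ² ∣ n₁ - n₂` (`p ≥ 3`, `associated_p`), so `λ² ∣ n₂ k λ`, `λ ∣ n₂ k`,
`p ∣ k`, `ζ^k = 1`.
-/

namespace H9FC

open NumberField
open scoped Pointwise

private theorem StickEl_TS (p : ℕ) [Fact p.Prime] (M : Type*) [Field M] [NumberField M]
    [IsCyclotomicExtension {p} ℚ M] (b : ℕ) (hb : 1 ≤ b) (hb' : b + 2 ≤ p) (σ : M ≃ₐ[ℚ] M) :
    cj p M * σ ∈ TS p M b ↔ σ ∉ TS p M b := by
  classical
  have hpp : p.Prime := Fact.out
  set g := IsCyclotomicExtension.Rat.galEquivZMod p M with hg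
  have hTS : ∀ σ : M ≃ₐ[ℚ] M, σ ∈ TS p M b ↔
      p < (g σ).val.val + (b * (g σ).val.val) % p := by
    intro σ
    unfold TS
    rw [Finset.mem_filter]
    simp only [Finset.mem_univ, true_and]
    rfl
  rw [hTS, hTS]
  have h1 : g (cj p M * σ) = -(g σ) := by
    rw [map_mul]
    unfold cj
    rw [← hg, MulEquiv.apply_symm_apply, neg_one_mul]
  rw [h1, Units.val_neg]
  set t : ℕ := (g σ).val.val with ht
  have ht0 : 0 < t := by
    refine Nat.pos_of_ne_zero fun h => ?_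
    rw [ht, ZMod.val_eq_zero] at h
    exact (Units.ne_zero _) h
  have htp : t < p := ZMod.val_lt _
  have h2 : (-((g σ : (ZMod p)ˣ) : ZMod p)).val = p - t := by
    rw [ZMod.neg_val, if_neg (Units.ne_zero _)]
  rw [h2]
  have hnd : ∀ c : ℕ, 0 < c → c < p → ¬ p ∣ c * t := by
    intro c hc hc' h
    rcases (Nat.Prime.dvd_mul hpp).1 h with h3 | h3
    · exact absurd (Nat.le_of_dvd hc h3) (by omega)
    · exact absurd (Nat.le_of_dvd ht0 h3) (by omega)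
  set r : ℕ := (b * t) % p with hr
  have hr0 : r ≠ 0 := fun h => hnd b (by omega) (by omega) (Nat.dvd_of_mod_eq_zero h)
  have hrp : r < p := Nat.mod_lt _ hpp.pos
  have h3 : (b * (p - t)) % p = p - r := by
    have h4 : b * (p - t) + b * t = b * p := by
      rw [← mul_add, Nat.sub_add_cancel htp.le]
    have h5 : (b * (p - t) + r) % p = 0 := by
      rw [hr, Nat.add_mod_mod, h4]
      exact Nat.mul_mod_left _ _
    have h6 : ((b * (p - t)) % p + r) % p = 0 := by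
      rw [Nat.mod_add_mod]
      exact h5
    have h7 : (b * (p - t)) % p < p := Nat.mod_lt _ hpp.pos
    obtain ⟨c, hc⟩ := Nat.dvd_of_mod_eq_zero h6
    have hc1 : c = 1 := by
      have : p * c < p * 2 := by omega
      have h8 : c < 2 := Nat.lt_of_mul_lt_mul_left this
      rcases Nat.eq_zero_or_pos c with h9 | h9
      · rw [h9, mul_zero] at hc
        omega
      · omega
    rw [hc1, mul_one] at hc
    omega
  rw [h3]
  have h4 : t + r ≠ p := by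
    intro h
    apply hnd (b + 1) (by omega) (by omega)
    have h5 : (t + r) % p = ((b + 1) * t) % p := by
      rw [hr, Nat.add_mod_mod]
      congr 1
      ring
    rw [h, Nat.mod_self] at h5
    exact Nat.dvd_of_mod_eq_zero h5.symm
  omega

private theorem StickEl_smul_span {R G : Type*} [CommRing R] [Group G] [MulSemiringAction G R]
    (σ : G) (x : R) : σ • Ideal.span {x} = Ideal.span {σ • x} := by
  rw [Ideal.pointwise_smul_def, Ideal.map_span, Set.image_singleton]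
  rfl

private theorem StickEl_smul_intCast {R G : Type*} [CommRing R] [Group G] [MulSemiringAction G R]
    (σ : G) (n : ℤ) : σ • (n : R) = (n : R) := by
  have h := map_intCast (MulSemiringAction.toRingHom G R σ) n
  exact h

private theorem StickEl_natCast_mem {R G : Type*} [CommRing R] [Group G] [MulSemiringAction G R]
    (σ : G) (I : Ideal R) (n : ℕ) : (n : R) ∈ σ • I ↔ (n : R) ∈ I := by
  have h : σ • (n : R) = (n : R) := by
    have h := StickEl_smul_intCast (R := R) σ (n : ℤ)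
    simpa using h
  conv_lhs => rw [← h]
  exact Ideal.smul_mem_pointwise_smul_iff

private theorem StickEl_norm (M : Type*) [Field M] [NumberField M] [IsGalois ℚ M] (A : 𝓞 M) :
    ∏ σ : M ≃ₐ[ℚ] M, σ • A = ((Algebra.norm ℤ A : ℤ) : 𝓞 M) := by
  apply FaithfulSMul.algebraMap_injective (𝓞 M) M
  rw [map_prod, map_intCast]
  have h1 := Algebra.norm_eq_prod_automorphisms ℚ (algebraMap (𝓞 M) M A)
  have h2 := Algebra.coe_norm_int A
  have h3 : ((Algebra.norm ℤ A : ℤ) : M) = algebraMap ℚ M ((Algebra.norm ℤ A : ℤ) : ℚ) := by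
    rw [map_intCast]
  rw [h3, h2]
  exact h1.symm

private theorem StickEl_prod (p : ℕ) [Fact p.Prime] (M : Type*) [Field M] [NumberField M]
    [IsCyclotomicExtension {p} ℚ M] (b : ℕ) (hb : 1 ≤ b) (hb' : b + 2 ≤ p) (A : 𝓞 M) :
    (∏ σ ∈ TS p M b, σ⁻¹ • A) * (cj p M • ∏ σ ∈ TS p M b, σ⁻¹ • A) =
      ((Algebra.norm ℤ A : ℤ) : 𝓞 M) := by
  classical
  haveI : IsGalois ℚ M := IsCyclotomicExtension.isGalois {p} ℚ M
  rw [← StickEl_norm M A]
  have h1 : ∏ σ : M ≃ₐ[ℚ] M, σ • A = ∏ σ : M ≃ₐ[ℚ] M, σ⁻¹ • A :=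
    Fintype.prod_equiv (Equiv.inv _) _ _ fun σ => by simp
  rw [h1, ← Finset.prod_mul_prod_compl (TS p M b), Finset.smul_prod']
  congr 1
  refine Finset.prod_bij (fun σ _ => cj p M * σ) ?_ ?_ ?_ ?_
  · intro σ hσ
    rw [Finset.mem_compl]
    intro h
    exact (StickEl_TS p M b hb hb' σ).1 h hσ
  · intro σ _ τ _ h
    exact mul_left_cancel h
  · intro σ hσ
    rw [Finset.mem_compl] at hσ
    have hcc : cj p M * cj p M = 1 := by
      unfold cj
      rw [← map_mul, neg_mul_neg, one_mul, map_one]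
    refine ⟨cj p M * σ, (StickEl_TS p M b hb hb' σ).2 hσ, ?_⟩
    rw [← mul_assoc, hcc, one_mul]
  · intro σ _
    have h2 : (cj p M)⁻¹ • A = cj p M • A := by
      conv_lhs => rw [← cj_smul_cj_smul p M A]
      rw [inv_smul_smul]
    rw [mul_inv_rev, mul_smul, h2, cj_comm]

private theorem StickEl_pow {R : Type*} [CommRing R] (ζ : R) (k : ℕ) :
    (ζ - 1) ^ 2 ∣ ζ ^ k - (1 + k * (ζ - 1)) := by
  induction k with
  | zero => simp
  | succ k ih =>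
    have h : ζ ^ (k + 1) - (1 + ((k + 1 : ℕ) : R) * (ζ - 1)) =
        ζ * (ζ ^ k - (1 + k * (ζ - 1))) + (ζ - 1) ^ 2 * k := by
      push_cast
      ring
    rw [h]
    exact dvd_add (ih.mul_left _) (dvd_mul_right _ _)

private theorem StickEl_semi {R ι : Type*} [CommRing R] (d : R) (s : Finset ι) (f : ι → R)
    (h : ∀ i ∈ s, ∃ n : ℤ, d ∣ f i - n) : ∃ n : ℤ, d ∣ ∏ i ∈ s, f i - n := by
  classical
  induction s using Finset.induction_on with
  | empty => exact ⟨1, by simp⟩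
  | insert a s ha ih =>
    obtain ⟨m, hm⟩ := ih fun i hi => h i (Finset.mem_insert_of_mem hi)
    obtain ⟨n, hn⟩ := h a (Finset.mem_insert_self a s)
    refine ⟨n * m, ?_⟩
    rw [Finset.prod_insert ha]
    have e : f a * ∏ i ∈ s, f i - ((n * m : ℤ) : R) =
        (f a - n) * ∏ i ∈ s, f i + n * (∏ i ∈ s, f i - m) := by
      push_cast
      ring
    rw [e]
    exact dvd_add (hn.mul_right _) (hm.mul_left _)

theorem stick_elem (p : ℕ) [Fact p.Prime] (hp2 : p ≠ 2) (M : Type*) [Field M]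
    [NumberField M] [IsCyclotomicExtension {p} ℚ M] {ζ : 𝓞 M} (hζ : IsPrimitiveRoot ζ p)
    (b : ℕ) (hb : 1 ≤ b) (hb' : b + 2 ≤ p)
    (A : 𝓞 M) (hA0 : ∀ P : Ideal (𝓞 M), P.IsPrime → (p : 𝓞 M) ∈ P → A ∉ P)
    (hAs : ∃ n : ℤ, (ζ - 1) ^ 2 ∣ A - n) (𝔞 : Ideal (𝓞 M)) (h𝔞 : 𝔞 ^ p = Ideal.span {A}) :
    ∃ (s : ℤˣ) (J : 𝓞 M), ∏ σ ∈ TS p M b, σ⁻¹ • A = ((s : ℤ) : 𝓞 M) * J ^ p := by
  classical
  have hpp : p.Prime := Fact.out
  have hp3 : 3 ≤ p := by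
    have := hpp.two_le
    omega
  obtain ⟨hP, hP0, hPu⟩ := prime_zeta_sub_one p M hζ
  have hass := associated_p p M hζ
  have hpd : (ζ - 1) ^ 2 ∣ (p : 𝓞 M) :=
    (pow_dvd_pow (ζ - 1) (by omega : 2 ≤ p - 1)).trans hass.symm.dvd
  have hpd1 : ζ - 1 ∣ (p : 𝓞 M) := (dvd_pow_self _ two_ne_zero).trans hpd
  have hpP : (p : 𝓞 M) ∈ Ideal.span {ζ - 1} := Ideal.mem_span_singleton.2 hpd1
  have hl0 : ζ - 1 ≠ 0 := by
    intro h
    apply hP0
    rw [h]
    exact Ideal.span_singleton_eq_bot.2 rfl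
  have hA : A ≠ 0 := by
    intro h
    apply hA0 _ hP hpP
    rw [h]
    exact Ideal.zero_mem _
  have hspanA : Ideal.span {A} ≠ ⊥ := by
    rw [Ne, Ideal.span_singleton_eq_bot]; exact hA
  have h𝔞0 : 𝔞 ≠ ⊥ := by
    rintro rfl
    apply hspanA
    rw [← h𝔞, ← Ideal.zero_eq_bot, zero_pow hpp.ne_zero]
  have h𝔞P : ∀ P : Ideal (𝓞 M), P.IsPrime → (p : 𝓞 M) ∈ P → ¬ 𝔞 ≤ P := by
    intro P hP' hpP' hle
    apply hA0 P hP' hpP'
    have h1 : A ∈ 𝔞 ^ p := by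
      rw [h𝔞]
      exact Ideal.mem_span_singleton_self A
    exact hle (Ideal.pow_le_self hpp.ne_zero h1)
  obtain ⟨J, hJ1, hJ2, n', hJ3⟩ := exists_stick p hp2 M hζ b hb hb' 𝔞 h𝔞0 h𝔞P
  set B : 𝓞 M := ∏ σ ∈ TS p M b, σ⁻¹ • A with hB
  -- the ideal of `B`
  have hBJ : Ideal.span {J ^ p} = Ideal.span {B} := by
    rw [← Ideal.span_singleton_pow, hJ1, ← Finset.prod_pow]
    rw [hB, ← Ideal.prod_span_singleton]
    refine Finset.prod_congr rfl fun σ _ => ?_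
    rw [← StickEl_smul_span, ← h𝔞, smul_pow']
  obtain ⟨u, hu⟩ := Ideal.span_singleton_eq_span_singleton.1 hBJ
  -- the norm
  have hN := StickEl_prod p M b hb hb' A
  rw [← hB] at hN
  set n : ℤ := Algebra.norm ℤ A with hn
  have hn0 : n ≠ 0 := by
    rw [hn]
    exact Algebra.norm_ne_zero_iff.2 hA
  have hnpos : 0 ≤ n := by
    obtain ⟨φ⟩ : Nonempty (M →+* ℂ) := inferInstance
    have h1 := congrArg (fun x : 𝓞 M => φ (algebraMap (𝓞 M) M x)) hN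
    simp only [map_mul, map_intCast] at h1
    have h2 : algebraMap (𝓞 M) M (cj p M • B) = cj p M (algebraMap (𝓞 M) M B) := rfl
    rw [h2, map_cj_eq_conj, Complex.mul_conj] at h1
    have h3 : Complex.normSq (φ (algebraMap (𝓞 M) M B)) = (n : ℝ) := by
      exact_mod_cast h1
    have h4 : (0 : ℝ) ≤ (n : ℝ) := by
      rw [← h3]
      exact Complex.normSq_nonneg _
    exact_mod_cast h4
  have hJp : J ^ p * (cj p M • J ^ p) = (n : 𝓞 M) := by
    rw [smul_pow', ← mul_pow, hJ2, ← Nat.cast_pow, ← map_pow, h𝔞, Ideal.absNorm_span_singleton,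
      ← hn]
    have h1 : ((n.natAbs : ℕ) : ℤ) = n := Int.natAbs_of_nonneg hnpos
    calc ((n.natAbs : ℕ) : 𝓞 M) = (((n.natAbs : ℕ) : ℤ) : 𝓞 M) := (Int.cast_natCast _).symm
      _ = _ := by rw [h1]
  have hucj : (u : 𝓞 M) * (cj p M • (u : 𝓞 M)) = 1 := by
    have h1 : (n : 𝓞 M) ≠ 0 := Int.cast_ne_zero.2 hn0
    have h2 : (n : 𝓞 M) * ((u : 𝓞 M) * (cj p M • (u : 𝓞 M))) = (n : 𝓞 M) * 1 := by
      calc (n : 𝓞 M) * ((u : 𝓞 M) * (cj p M • (u : 𝓞 M)))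
          = J ^ p * (cj p M • J ^ p) * ((u : 𝓞 M) * (cj p M • (u : 𝓞 M))) := by rw [hJp]
        _ = (J ^ p * u) * ((cj p M • J ^ p) * (cj p M • (u : 𝓞 M))) := by ring
        _ = (J ^ p * u) * (cj p M • (J ^ p * u)) := by rw [smul_mul']
        _ = (n : 𝓞 M) * 1 := by rw [hu, hN, mul_one]
    exact mul_left_cancel₀ h1 h2
  obtain ⟨s, k, hsk⟩ := unit_of_mul_cj_eq_one p hp2 M hζ u hucj
  -- congruences modulo `(ζ - 1) ^ 2`
  have hσl : ∀ σ : M ≃ₐ[ℚ] M, ζ - 1 ∣ σ • (ζ - 1) := by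
    intro σ
    rw [smul_sub, smul_one,
      IsCyclotomicExtension.Rat.galEquivZMod_smul_of_pow_eq p M σ hζ.pow_eq_one]
    have := sub_dvd_pow_sub_pow ζ 1 (IsCyclotomicExtension.Rat.galEquivZMod p M σ).val.val
    rwa [one_pow] at this
  have hσA : ∀ σ ∈ TS p M b, ∃ n : ℤ, (ζ - 1) ^ 2 ∣ σ⁻¹ • A - n := by
    intro σ _
    obtain ⟨m, y, hy⟩ := hAs
    refine ⟨m, ?_⟩
    have h1 : σ⁻¹ • A - (m : 𝓞 M) = σ⁻¹ • (A - m) := by
      rw [smul_sub, StickEl_smul_intCast]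
    rw [h1, hy, smul_mul', smul_pow']
    exact (pow_dvd_pow_of_dvd (hσl σ⁻¹) 2).mul_right _
  obtain ⟨n₁, hn₁⟩ := StickEl_semi ((ζ - 1) ^ 2) (TS p M b) (fun σ => σ⁻¹ • A) hσA
  rw [← hB] at hn₁
  have hJn : (ζ - 1) ^ 2 ∣ J ^ p - ((n' ^ p : ℤ) : 𝓞 M) := by
    push_cast
    exact hJ3.trans (sub_dvd_pow_sub_pow _ _ p)
  -- `B` is prime to `p`
  have hBP : B ∉ Ideal.span {ζ - 1} := by
    intro h
    rw [hB, Ideal.IsPrime.prod_mem_iff] at h
    obtain ⟨σ, _, h1⟩ := h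
    have h2 : A ∈ σ • Ideal.span {ζ - 1} := by
      rw [Ideal.mem_pointwise_smul_iff_inv_smul_mem]
      exact h1
    exact hA0 _ ((Ideal.IsPrime.smul_iff σ).2 hP) ((StickEl_natCast_mem σ _ p).2 hpP) h2
  set n₂ : ℤ := (s : ℤ) * n' ^ p with hn₂
  have hn₂p : ¬ (p : ℤ) ∣ n₂ := by
    intro h
    have h1 : (p : ℤ) ∣ n' ^ p := by
      have h2 : (p : ℤ) ∣ (s : ℤ) * n₂ := h.mul_left _
      have h3 : (s : ℤ) * n₂ = n' ^ p := by
        rw [hn₂, ← mul_assoc, ← Units.val_mul, Int.units_mul_self, Units.val_one, one_mul]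
      rwa [h3] at h2
    have h2 : ζ - 1 ∣ ((n' ^ p : ℤ) : 𝓞 M) := by
      obtain ⟨c, hc⟩ := h1
      rw [hc]
      push_cast
      exact hpd1.mul_right _
    have h3 : ζ - 1 ∣ J ^ p := by
      have h4 := dvd_add ((dvd_pow_self _ two_ne_zero).trans hJn) h2
      rwa [sub_add_cancel] at h4
    apply hBP
    rw [← hu]
    exact Ideal.mem_span_singleton.2 (h3.mul_right _)
  have hmain : (ζ - 1) ^ 2 ∣ ((n₁ - n₂ : ℤ) : 𝓞 M) - n₂ * k * (ζ - 1) := by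
    have e : ((n₁ - n₂ : ℤ) : 𝓞 M) - n₂ * k * (ζ - 1) =
        -(B - n₁) + (((s : ℤ) : 𝓞 M) * ζ ^ k * (J ^ p - ((n' ^ p : ℤ) : 𝓞 M)) +
          n₂ * (ζ ^ k - (1 + k * (ζ - 1)))) := by
      rw [← hu, hsk, hn₂]
      push_cast
      ring
    rw [e]
    exact dvd_add (hn₁.neg_right) (dvd_add (hJn.mul_left _) ((StickEl_pow ζ k).mul_left _))
  have h1 : ζ - 1 ∣ ((n₁ - n₂ : ℤ) : 𝓞 M) := by
    have h2 := dvd_add ((dvd_pow_self _ two_ne_zero).trans hmain)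
      (dvd_mul_left (ζ - 1) ((n₂ : 𝓞 M) * k))
    rwa [sub_add_cancel] at h2
  obtain ⟨c, hc⟩ := int_dvd p M hζ _ h1
  have h2 : (ζ - 1) ^ 2 ∣ ((n₁ - n₂ : ℤ) : 𝓞 M) := by
    rw [hc]
    push_cast
    exact hpd.mul_right _
  have h3 : (ζ - 1) ^ 2 ∣ (n₂ : 𝓞 M) * k * (ζ - 1) := by
    have h4 := dvd_sub h2 hmain
    rwa [sub_sub_cancel] at h4
  have h4 : ζ - 1 ∣ ((n₂ * k : ℤ) : 𝓞 M) := by
    rw [pow_two] at h3
    push_cast
    exact (mul_dvd_mul_iff_right hl0).1 h3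
  have h5 := int_dvd p M hζ _ h4
  have hpZ : Prime (p : ℤ) := Nat.prime_iff_prime_int.1 hpp
  have h6 : (p : ℤ) ∣ (k : ℤ) := (hpZ.dvd_or_dvd h5).resolve_left hn₂p
  have h7 : p ∣ k := Int.natCast_dvd_natCast.1 h6
  refine ⟨s, J, ?_⟩
  have h8 : ζ ^ k = 1 := by
    obtain ⟨j, rfl⟩ := h7
    rw [pow_mul, hζ.pow_eq_one, one_pow]
  rw [← hu, hsk, h8, mul_one, mul_comm]

end H9FC
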