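import Pool.Agent.H9.FC.Defs

/-!
# Project FC9, module DigSum

Digit sums of the multiples of `(l^f - 1)/p`.

PROOF. Let `Q = l^f`, `0 ≤ a < Q - 1` with base `l` digits `a_0, ..., a_{f-1}`. Modulo `Q - 1`
multiplication by `l` permutes the digits cyclically: `l^i a mod (Q-1) = ∑_j a_j l^((i+j) mod f)`
(this number is `< Q - 1`, since the digits are not all `l-1`, and it is congruent to `l^i a`).
Summing over `i < f`: `∑_i (l^i a mod (Q-1)) = (∑ a_j)(1 + l + ... + l^(f-1))`, and multiplying by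
`l - 1`: `(l-1) ∑_i (l^i a mod (Q-1)) = s(a) (Q-1)`.
(Alternative proof: `s(a) = a - (l-1) ∑_{i≥1} ⌊a/l^i⌋` (Mathlib `Nat.sub_one_mul_sum_div_pow_eq_sub_sum_digits`)
and `l^i a mod (Q-1) = l^i a - (Q-1) ⌊a / l^(f-i)⌋` for `0 ≤ i < f`, since
`l^i a = l^f ⌊a/l^(f-i)⌋ + l^i (a mod l^(f-i))`.)
For `a = m t`, `Q - 1 = p m`, `0 < t < p` we have `l^i m t mod (p m) = m (l^i t mod p)`.
-/

namespace H9FC

private theorem DigSum_digits (l f a : ℕ) (hl : 2 ≤ l) (ha : a < l ^ f) (hf : 0 < f) :
    (Nat.digits l a).sum + (l - 1) * ∑ i ∈ Finset.range f, a / l ^ (i + 1) = a := by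
  have h1 := Nat.sub_one_mul_sum_log_div_pow_eq_sub_sum_digits (p := l) a
  have h2 := Nat.digit_sum_le l a
  have h3 : ∑ i ∈ Finset.range (Nat.log l a).succ, a / l ^ i.succ =
      ∑ i ∈ Finset.range f, a / l ^ (i + 1) := by
    refine Finset.sum_subset ?_ fun i _ hi => ?_
    · intro i hi
      rw [Finset.mem_range] at hi ⊢
      have : Nat.log l a < f := by
        rcases Nat.eq_zero_or_pos a with h0 | h0
        · rw [h0, Nat.log_zero_right]
          exact hf
        · exact Nat.log_lt_of_lt_pow h0.ne' ha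
      omega
    · rw [Finset.mem_range, not_lt] at hi
      refine Nat.div_eq_of_lt ?_
      calc a < l ^ (Nat.log l a).succ := Nat.lt_pow_succ_log_self (by omega) a
        _ ≤ l ^ (i + 1) := Nat.pow_le_pow_right (by omega) (by omega)
  rw [h3] at h1
  omega

private theorem DigSum_mod (l f a i : ℕ) (hl : 2 ≤ l) (ha : a < l ^ f - 1) (hi : i < f) :
    (l ^ i * a) % (l ^ f - 1) + (l ^ f - 1) * (a / l ^ (f - i)) = l ^ i * a := by
  set b := l ^ (f - i) with hb
  set c := l ^ i with hc
  have hbc : c * b = l ^ f := by rw [hc, hb, ← pow_add]; congr 1; omega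
  have hb0 : 0 < b := by positivity
  have hc0 : 0 < c := by positivity
  have hQ : 1 ≤ l ^ f := Nat.one_le_pow _ _ (by omega)
  have h1 := Nat.div_add_mod a b
  have h2 := Nat.mod_lt a hb0
  set q := a / b with hq
  set r := a % b with hr
  have hqc : q < c := by
    rw [hq, Nat.div_lt_iff_lt_mul hb0, hbc]
    omega
  obtain ⟨Q', hQ'⟩ : ∃ Q', l ^ f = Q' + 1 := ⟨l ^ f - 1, by omega⟩
  rw [hQ'] at hbc ha ⊢
  simp only [Nat.add_sub_cancel] at ha ⊢
  have h3 : c * a = Q' * q + (q + c * r) := by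
    calc c * a = c * (b * q + r) := by rw [h1]
      _ = (c * b) * q + c * r := by ring
      _ = Q' * q + (q + c * r) := by rw [hbc]; ring
  have h4 : q + c * r < Q' := by
    by_contra hcon
    push Not at hcon
    have h5 : q + 1 ≤ c := hqc
    have h6 : r + 1 ≤ b := h2
    have h7 : c * (r + 1) ≤ c * b := Nat.mul_le_mul_left c h6
    have h8 : c * (r + 1) = c * b := by
      rw [mul_add, mul_one] at h7 ⊢
      omega
    have h9 : r + 1 = b := Nat.eq_of_mul_eq_mul_left hc0 h8
    have h10 : q + 1 = c := by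
      rw [mul_add, mul_one] at h8
      omega
    have h11 : a = Q' := by
      have : b * c = Q' + 1 := by rw [mul_comm]; exact hbc
      rw [← h1]
      have h12 : b * q + b = b * c := by rw [← h10]; ring
      omega
    omega
  rw [h3, Nat.mul_add_mod, Nat.mod_eq_of_lt h4]
  ring

theorem digsum (l f p m t : ℕ) [Fact l.Prime] (hm : l ^ f - 1 = p * m) (hm0 : 0 < m)
    (ht : 0 < t) (htp : t < p) :
    p * (Nat.digits l (m * t)).sum = (l - 1) * ∑ i ∈ Finset.range f, (l ^ i * t) % p := by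
  have hl : 2 ≤ l := (Fact.out : l.Prime).two_le
  have hf : 0 < f := by
    rcases Nat.eq_zero_or_pos f with h | h
    · rw [h, pow_zero] at hm
      have : 0 < p * m := Nat.mul_pos (by omega) hm0
      omega
    · exact h
  set a := m * t with ha
  have ha1 : a < l ^ f - 1 := by
    rw [hm, ha, mul_comm p m]
    exact Nat.mul_lt_mul_of_pos_left htp hm0
  have h1 := DigSum_digits l f a hl (by omega) hf
  have h2 : ∑ i ∈ Finset.range f, ((l ^ i * a) % (l ^ f - 1) +
      (l ^ f - 1) * (a / l ^ (f - i))) = ∑ i ∈ Finset.range f, l ^ i * a :=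
    Finset.sum_congr rfl fun i hi => DigSum_mod l f a i hl ha1 (Finset.mem_range.1 hi)
  rw [Finset.sum_add_distrib, ← Finset.mul_sum, ← Finset.sum_mul] at h2
  have h3 : ∑ i ∈ Finset.range f, a / l ^ (f - i) = ∑ i ∈ Finset.range f, a / l ^ (i + 1) := by
    rw [← Finset.sum_range_reflect]
    refine Finset.sum_congr rfl fun i hi => ?_
    have := Finset.mem_range.1 hi
    congr 2
    omega
  rw [h3] at h2
  have h4 : ∑ i ∈ Finset.range f, (l ^ i * a) % (l ^ f - 1) =
      m * ∑ i ∈ Finset.range f, (l ^ i * t) % p := by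
    rw [Finset.mul_sum]
    refine Finset.sum_congr rfl fun i _ => ?_
    rw [hm, ha, mul_comm p m, show l ^ i * (m * t) = m * (l ^ i * t) by ring,
      Nat.mul_mod_mul_left]
  have h5 : (l - 1) * ∑ i ∈ Finset.range f, l ^ i = l ^ f - 1 := by
    rw [mul_comm]
    exact Nat.geomSum_eq hl f ▸ Nat.div_mul_cancel (by
      simpa using Nat.sub_dvd_pow_sub_pow l 1 f)
  set s := (Nat.digits l a).sum
  set S := ∑ i ∈ Finset.range f, a / l ^ (i + 1)
  set T := ∑ i ∈ Finset.range f, (l ^ i * t) % p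
  set Gs := ∑ i ∈ Finset.range f, l ^ i
  rw [h4, hm] at h2
  rw [hm] at h5
  have h6 : m * ((l - 1) * T) = m * (p * s) := by
    have e1 : (l - 1) * (m * T + p * m * S) = (l - 1) * (Gs * a) := by rw [h2]
    have e2 : (l - 1) * (Gs * a) = p * m * a := by rw [← h5]; ring
    rw [e2, ← h1] at e1
    have e3 : m * ((l - 1) * T) + p * m * ((l - 1) * S) = m * (p * s) + p * m * ((l - 1) * S) := by
      calc _ = (l - 1) * (m * T + p * m * S) := by ring
        _ = _ := by rw [e1]; ring
    exact Nat.add_right_cancel e3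
  exact (Nat.eq_of_mul_eq_mul_left hm0 h6).symm

end H9FC
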