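import Pool.Agent.H9.FC.Defs

/-!
# Project FC9, module JMod

Jacobi sums of powers of the Teichmüller character modulo the prime `L`, and binomial coefficients.

PROOF of `jac_mod`. Let `Q = |k|`.  Modulo `L`, `ω⁻¹ x ^ a ≡ ι(x)^(-a) = ι(x)^(Q-1-a)` for `x ≠ 0`, and
both sides are `0` for `x = 0` because `0 < a < Q - 1`.  So the Jacobi sum is congruent to
`∑_x ι(x)^(Q-1-a) ι(1-x)^(Q-1-b) = ι (∑_j (-1)^j C(Q-1-b, j) ∑_x x^(Q-1-a+j))`, `0 ≤ j ≤ Q-1-b`. By
`FiniteField.sum_pow_lt_card_sub_one`, `FiniteField.sum_pow_units` the inner sum is `0` unless `Q-1`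
divides `Q-1-a+j`; as `0 < Q-1-a+j < 2 (Q-1)` this happens only for `j = a` (if `a ≤ Q-1-b`; else
`C(Q-1-b,a) = 0`), and then it is `-1`.
PROOF of `choose_not_dvd` (Lucas, Mathlib `Choose.choose_modEq_prod_range_choose` or
`Choose.choose_modEq_choose_mod_mul_choose_div`): the base `l` digits of `l^f - 1 - l^i` are all
`l - 1`, except for the `i`-th, which is `l - 2`; so
`C(l^f-1-l^i, a) ≡ ∏_{j ≠ i} C(l-1, a_j) C(l-2, a_i)`, and no factor is divisible by `l` since
`a_j ≤ l - 1`, `a_i ≤ l - 2`.  (Induction on `f` peeling off the lowest digit.)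
-/

namespace H9FC

private theorem JMod_sum_pow {k : Type*} [Field k] [Fintype k] (i : ℕ) (hi : 0 < i) :
    ∑ x : k, x ^ i = if Fintype.card k - 1 ∣ i then -1 else 0 := by
  classical
  let φ : kˣ ↪ k := ⟨fun x ↦ x, Units.val_injective⟩
  have h1 : Finset.univ.map φ = Finset.univ \ {0} := by
    ext x
    simp only [Finset.mem_map, Finset.mem_univ, true_and, Finset.mem_sdiff,
      Finset.mem_singleton]
    constructor
    · rintro ⟨u, rfl⟩
      exact u.ne_zero
    · intro hx
      exact ⟨Units.mk0 x hx, rfl⟩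
  calc
    ∑ x : k, x ^ i = ∑ x ∈ Finset.univ \ {(0 : k)}, x ^ i := by
      rw [← Finset.sum_sdiff ({0} : Finset k).subset_univ, Finset.sum_singleton,
        zero_pow hi.ne', add_zero]
    _ = ∑ x : kˣ, (x ^ i : k) := by rw [← h1, Finset.sum_map]; rfl
    _ = _ := FiniteField.sum_pow_units k i

private theorem JMod_inv_pow {k : Type*} [Field k] [Fintype k] {a : ℕ} (ha : 0 < a)
    (ha' : a < Fintype.card k - 1) (x : k) :
    (x⁻¹) ^ a = x ^ (Fintype.card k - 1 - a) := by
  by_cases hx : x = 0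
  · rw [hx, inv_zero, zero_pow ha.ne', zero_pow (by omega)]
  · rw [inv_pow]
    refine inv_eq_of_mul_eq_one_right ?_
    rw [← pow_add, show a + (Fintype.card k - 1 - a) = Fintype.card k - 1 by omega]
    exact FiniteField.pow_card_sub_one_eq_one x hx

private theorem JMod_char {R : Type*} [CommRing R] {k : Type*} [Field k] [Fintype k]
    (L : Ideal R) (ι : k →+* (R ⧸ L)) (ω : MulChar k R)
    (hω : ∀ x : k, Ideal.Quotient.mk L (ω x) = ι x) {a : ℕ} (ha : 0 < a)
    (ha' : a < Fintype.card k - 1) (x : k) :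
    Ideal.Quotient.mk L ((ω⁻¹ ^ a) x) = ι (x ^ (Fintype.card k - 1 - a)) := by
  rw [MulChar.pow_apply' _ ha.ne', MulChar.inv_apply', map_pow, hω, ← map_pow, JMod_inv_pow ha ha']

private theorem JMod_sum {k : Type*} [Field k] [Fintype k] {a b : ℕ} (ha : 0 < a) (hb : 0 < b)
    (ha' : a < Fintype.card k - 1) (hb' : b < Fintype.card k - 1) :
    ∑ x : k, x ^ (Fintype.card k - 1 - a) * (1 - x) ^ (Fintype.card k - 1 - b) =
      -((-1) ^ a * ((Nat.choose (Fintype.card k - 1 - b) a : ℕ) : k)) := by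
  classical
  set Q := Fintype.card k with hQ
  set n := Q - 1 - b with hn
  have h1 : ∀ x : k, x ^ (Q - 1 - a) * (1 - x) ^ n =
      ∑ j ∈ Finset.range (n + 1), ((-1) ^ j * (Nat.choose n j : k)) * x ^ (Q - 1 - a + j) := by
    intro x
    have h2 : (1 - x) ^ n = ((-x) + 1) ^ n := by ring
    rw [h2, add_pow, Finset.mul_sum]
    refine Finset.sum_congr rfl fun j _ => ?_
    rw [one_pow, mul_one, neg_pow, pow_add]
    ring
  rw [Finset.sum_congr rfl fun x _ => h1 x, Finset.sum_comm]
  have h3 : ∀ j ∈ Finset.range (n + 1),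
      ∑ x : k, ((-1) ^ j * (Nat.choose n j : k)) * x ^ (Q - 1 - a + j) =
        if j = a then -((-1) ^ a * (Nat.choose n a : k)) else 0 := by
    intro j hj
    rw [Finset.mem_range] at hj
    rw [← Finset.mul_sum, JMod_sum_pow _ (by omega), ← hQ]
    by_cases hja : j = a
    · rw [if_pos hja, hja, if_pos (by rw [show Q - 1 - a + a = Q - 1 by omega])]
      ring
    · rw [if_neg hja, if_neg, mul_zero]
      rintro ⟨c, hc⟩
      have hc1 : c = 1 := by
        have h5 : 0 < c := by
          rcases Nat.eq_zero_or_pos c with h | h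
          · rw [h, mul_zero] at hc
            omega
          · exact h
        have h6 : c < 2 := by
          by_contra h7
          push Not at h7
          have h8 : (Q - 1) * 2 ≤ (Q - 1) * c := Nat.mul_le_mul_left _ h7
          omega
        omega
      rw [hc1, mul_one] at hc
      omega
  rw [Finset.sum_congr rfl h3, Finset.sum_ite_eq']
  split_ifs with h4
  · rfl
  · rw [Finset.mem_range] at h4
    rw [Nat.choose_eq_zero_of_lt (by omega)]
    simp

theorem jac_mod {R : Type*} [CommRing R] [IsDomain R] {k : Type*} [Field k] [Fintype k]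
    (L : Ideal R) (hL : L.IsPrime) (ι : k →+* (R ⧸ L)) (ω : MulChar k R)
    (hω : ∀ x : k, Ideal.Quotient.mk L (ω x) = ι x) (a b : ℕ) (ha : 0 < a) (hb : 0 < b)
    (ha' : a < Fintype.card k - 1) (hb' : b < Fintype.card k - 1) :
    Ideal.Quotient.mk L (jacobiSum (ω⁻¹ ^ a) (ω⁻¹ ^ b))
      = -((-1) ^ a * ((Nat.choose (Fintype.card k - 1 - b) a : ℕ) : R ⧸ L)) := by
  rw [jacobiSum, map_sum]
  have h1 : ∀ x : k, Ideal.Quotient.mk L ((ω⁻¹ ^ a) x * (ω⁻¹ ^ b) (1 - x)) =
      ι (x ^ (Fintype.card k - 1 - a) * (1 - x) ^ (Fintype.card k - 1 - b)) := by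
    intro x
    rw [map_mul, JMod_char L ι ω hω ha ha', JMod_char L ι ω hω hb hb', map_mul]
  rw [Finset.sum_congr rfl fun x _ => h1 x, ← map_sum, JMod_sum ha hb ha' hb', map_neg, map_mul,
    map_pow, map_neg, map_one, map_natCast]

private theorem JMod_small {l m k : ℕ} (hl : l.Prime) (hm : m < l) (hk : k ≤ m) :
    ¬ l ∣ Nat.choose m k := by
  intro h
  have h1 := Nat.choose_mul_factorial_mul_factorial hk
  have h2 : l ∣ m.factorial := by
    rw [← h1, mul_assoc]
    exact h.mul_right _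
  rw [hl.dvd_factorial] at h2
  omega

private theorem JMod_step {l : ℕ} [Fact l.Prime] {n k m c : ℕ} (hc : c < l) (hn : n = l * m + c)
    (hk : k % l ≤ c) (h : ¬ l ∣ Nat.choose m (k / l)) : ¬ l ∣ Nat.choose n k := by
  have hl : l.Prime := Fact.out
  have h1 := Choose.choose_modEq_choose_mod_mul_choose_div_nat (n := n) (k := k) (p := l)
  have h2 : n % l = c := by rw [hn, Nat.mul_add_mod, Nat.mod_eq_of_lt hc]
  have h3 : n / l = m := by
    rw [hn, Nat.mul_add_div hl.pos, Nat.div_eq_of_lt hc, add_zero]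
  rw [h2, h3] at h1
  intro h4
  have h5 := (Nat.modEq_zero_iff_dvd.1 (h1.symm.trans (Nat.modEq_zero_iff_dvd.2 h4)))
  rcases hl.dvd_mul.1 h5 with h6 | h6
  · exact JMod_small hl hc hk h6
  · exact h h6

private theorem JMod_full (l : ℕ) [Fact l.Prime] (f a : ℕ) (ha : a < l ^ f) :
    ¬ l ∣ Nat.choose (l ^ f - 1) a := by
  have hl : l.Prime := Fact.out
  have hl2 := hl.two_le
  induction f generalizing a with
  | zero =>
    have : a = 0 := by simpa using ha
    rw [this]
    simp only [pow_zero, Nat.sub_self, Nat.choose_self, Nat.dvd_one]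
    exact hl.one_lt.ne'
  | succ f ih =>
    have hpos : 0 < l ^ f := pow_pos hl.pos f
    have h1 : l ^ (f + 1) = l * l ^ f := by rw [pow_succ, mul_comm]
    refine JMod_step (m := l ^ f - 1) (c := l - 1) (by omega) ?_ ?_
      (ih (a / l) ((Nat.div_lt_iff_lt_mul hl.pos).2 (by rw [mul_comm, ← h1]; exact ha)))
    · rw [h1, Nat.mul_sub, mul_one]
      have : l ≤ l * l ^ f := Nat.le_mul_of_pos_right _ hpos
      omega
    · have := Nat.mod_lt a hl.pos
      omega

theorem choose_not_dvd (l : ℕ) [Fact l.Prime] (f i a : ℕ) (hi : i < f) (ha : a < l ^ f)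
    (hdig : (a / l ^ i) % l + 1 < l) : ¬ l ∣ Nat.choose (l ^ f - 1 - l ^ i) a := by
  have hl : l.Prime := Fact.out
  have hl2 := hl.two_le
  induction f generalizing i a with
  | zero => omega
  | succ f ih =>
    have hpos : 0 < l ^ f := pow_pos hl.pos f
    have h1 : l ^ (f + 1) = l * l ^ f := by rw [pow_succ, mul_comm]
    have hle : l ≤ l * l ^ f := Nat.le_mul_of_pos_right _ hpos
    have hal : a / l < l ^ f :=
      (Nat.div_lt_iff_lt_mul hl.pos).2 (by rw [mul_comm, ← h1]; exact ha)
    rcases i with _ | i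
    · rw [pow_zero, Nat.div_one] at hdig
      refine JMod_step (m := l ^ f - 1) (c := l - 2) (by omega) ?_ (by omega)
        (JMod_full l f (a / l) hal)
      rw [h1, Nat.mul_sub, mul_one, pow_zero]
      omega
    · have hi' : i < f := by omega
      have hpi : l ^ (i + 1) = l * l ^ i := by rw [pow_succ, mul_comm]
      have hii : l ^ i + 1 ≤ l ^ f := by
        have : l ^ i < l ^ f := Nat.pow_lt_pow_right hl.one_lt hi'
        omega
      refine JMod_step (m := l ^ f - 1 - l ^ i) (c := l - 1) (by omega) ?_ ?_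
        (ih i (a / l) hi' hal ?_)
      · rw [h1, hpi, Nat.mul_sub, Nat.mul_sub, mul_one]
        have h2 : l * (l ^ i + 1) ≤ l * l ^ f := Nat.mul_le_mul_left l hii
        rw [mul_add, mul_one] at h2
        omega
      · have := Nat.mod_lt a hl.pos
        omega
      · rw [Nat.div_div_eq_div_mul, ← hpi]
        exact hdig

end H9FC
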