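import Pool.Agent.H9.FC.Defs

/-!
# Project FC9, module Teich

Teichmüller characters with values in a number field `E ⊇ M`, and additive characters.

PROOF of `exists_teich`. Let `Q = |k|`, `l = ringChar k`, and `E = CyclotomicField ((Q-1) * l) M` (or
the splitting field of `X^((Q-1)l) - 1` over `M`); it is a number field and contains a primitive
`(Q-1)`-th root of unity `ξ` and a primitive `l`-th root of unity `z` (powers of a primitive root of
order `(Q-1) l`).  Let `𝔩 = ker π`; it is a prime ideal, not `⊥` (since `𝓞 M` is infinite and `k` is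
finite, or since `l ∈ 𝔩`), and there is a prime `L` of `𝓞 E` over `𝔩` (integrality,
`Ideal.exists_ideal_over_prime_of_isIntegral`). `ι` is the composition
`k ≃ 𝓞 M / 𝔩 → 𝓞 E / L`; it is injective. The powers `ξ^j`, `0 ≤ j < Q-1`, have different reductions
modulo `L` (for `0 < j < Q - 1` the product `∏_{0<i<Q-1} (1 - ξ^i) = Q - 1` is not in `L`, since
`Q ∈ L`), and these reductions are the `Q - 1` zeros of `X^(Q-1) - 1` in the field (or domain)
`𝓞 E / L`; the elements `ι x`, `x ≠ 0`, are such zeros. So for `x ≠ 0` there is a unique `j < Q-1`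
with `ι x = ξ^j mod L`; put `ω x = ξ^j`, `ω 0 = 0`.  Uniqueness gives multiplicativity.
PROOF of `exists_addChar`: `ψ x = z^(Tr x)`, `Tr` the trace from `k` to the prime field `ZMod l`;
compare `AddChar.FiniteField.primitiveChar` in Mathlib (there the target is a cyclotomic field, here
it is `R`; use `AddChar.zmodChar`, `AddChar.zmodChar_primitive_of_primitive_root`,
`compAddMonoidHom`, `IsPrimitive.of_ne_one`, `FiniteField.trace_to_zmod_nondegenerate`);
`Tr (x^l) = Tr x` because `x ↦ x^l` is an automorphism over the prime field.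
`gaussSum_frob_inv`: `x ↦ x^l` is a bijection of `k`.
-/

namespace H9FC

open NumberField

universe u w

/-- The multiplicative lift of a homomorphism of the units of a finite field into a quotient in
which a primitive root of unity of order `|k| - 1` stays primitive. -/
private theorem Teich_char {R : Type*} [CommRing R] [IsDomain R] {k : Type*} [Field k] [Fintype k]
    (L : Ideal R) [L.IsPrime] (ι : k →+* (R ⧸ L)) {ξ : R}
    (hξ : IsPrimitiveRoot ξ (Fintype.card k - 1))
    (hξ' : IsPrimitiveRoot (Ideal.Quotient.mk L ξ) (Fintype.card k - 1)) :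
    ∃ ω : MulChar k R, ∀ x : k, Ideal.Quotient.mk L (ω x) = ι x := by
  classical
  have hQ : 1 < Fintype.card k := Fintype.one_lt_card
  have : NeZero (Fintype.card k - 1) := ⟨by omega⟩
  have hj : ∀ x : kˣ, ∃ j < Fintype.card k - 1, (Ideal.Quotient.mk L ξ) ^ j = ι x := by
    intro x
    refine hξ'.eq_pow_of_pow_eq_one ?_
    rw [← map_pow, FiniteField.pow_card_sub_one_eq_one (x : k) x.ne_zero, map_one]
  choose j hj1 hj2 using hj
  have hu : IsUnit ξ := hξ.isUnit (by omega)
  have key : ∀ a b : ℕ, (Ideal.Quotient.mk L ξ) ^ a = (Ideal.Quotient.mk L ξ) ^ b →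
      hu.unit ^ a = hu.unit ^ b := by
    intro a b hab
    have h1 : IsPrimitiveRoot hu.unit (Fintype.card k - 1) :=
      IsPrimitiveRoot.of_map_of_injective (f := Units.coeHom R) (by simpa using hξ)
        Units.val_injective
    have hu' : IsUnit (Ideal.Quotient.mk L ξ) := hξ'.isUnit (by omega)
    have h2 : IsPrimitiveRoot hu'.unit (Fintype.card k - 1) :=
      IsPrimitiveRoot.of_map_of_injective (f := Units.coeHom (R ⧸ L)) (by simpa using hξ')
        Units.val_injective
    have h3 : hu'.unit ^ a = hu'.unit ^ b := by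
      apply Units.ext
      simpa using hab
    rw [pow_eq_pow_iff_modEq, ← h2.eq_orderOf] at h3
    rw [pow_eq_pow_iff_modEq, ← h1.eq_orderOf]
    exact h3
  let f : kˣ →* Rˣ :=
    { toFun := fun x => hu.unit ^ j x
      map_one' := by
        have h1 := key (j 1) 0 (by rw [hj2, pow_zero, Units.val_one, map_one])
        rw [h1, pow_zero]
      map_mul' := by
        intro x y
        rw [← pow_add]
        apply key
        rw [hj2, pow_add, hj2, hj2, Units.val_mul, map_mul] }
  refine ⟨MulChar.ofUnitHom f, fun x => ?_⟩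
  by_cases hx : x = 0
  · rw [hx, MulChar.map_zero, map_zero, map_zero]
  · have h1 := MulChar.ofUnitHom_coe f (Units.mk0 x hx)
    rw [Units.val_mk0] at h1
    rw [h1]
    change Ideal.Quotient.mk L ((hu.unit ^ j (Units.mk0 x hx) : Rˣ) : R) = ι x
    rw [Units.val_pow_eq_pow_val, IsUnit.unit_spec, map_pow, hj2, Units.val_mk0]

/-- Roots of unity of order `n` stay primitive modulo a prime which does not contain `n`. -/
private theorem Teich_red {R : Type*} [CommRing R] [IsDomain R] (L : Ideal R) [L.IsPrime] {n : ℕ}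
    (hn : 0 < n) (hnL : (n : R) ∉ L) {ξ : R} (hξ : IsPrimitiveRoot ξ n) :
    IsPrimitiveRoot (Ideal.Quotient.mk L ξ) n := by
  obtain ⟨m, rfl⟩ : ∃ m, n = m + 1 := ⟨n - 1, by omega⟩
  refine IsPrimitiveRoot.mk_of_lt _ hn ?_ ?_
  · rw [← map_pow, hξ.pow_eq_one, map_one]
  · intro i hi0 hi hi1
    apply hnL
    have h1 := IsPrimitiveRoot.prod_one_sub_pow_eq_order hξ
    have h2 : (1 - ξ ^ (i - 1 + 1)) ∈ L := by
      rw [show i - 1 + 1 = i by omega, ← Ideal.Quotient.eq_zero_iff_mem, map_sub, map_one, map_pow,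
        hi1, sub_self]
    have h3 : (1 - ξ ^ (i - 1 + 1)) ∣ ∏ k ∈ Finset.range m, (1 - ξ ^ (k + 1)) :=
      Finset.dvd_prod_of_mem (fun k => 1 - ξ ^ (k + 1)) (Finset.mem_range.2 (by omega))
    rw [h1] at h3
    have h4 := Ideal.mem_of_dvd _ h3 h2
    push_cast
    exact h4

theorem exists_teich (M : Type u) [Field M] [NumberField M] {k : Type w} [Field k] [Fintype k]
    (π : 𝓞 M →+* k) (hπ : Function.Surjective π) :
    ∃ (E : Type u) (_ : Field E) (_ : NumberField E) (_ : Algebra M E) (L : Ideal (𝓞 E))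
      (ι : k →+* (𝓞 E ⧸ L)) (ω : MulChar k (𝓞 E)) (z : 𝓞 E),
      L.IsPrime ∧ L ≠ ⊥ ∧
      (∀ x : 𝓞 M, ι (π x) = Ideal.Quotient.mk L (algebraMap (𝓞 M) (𝓞 E) x)) ∧
      (∀ x : k, Ideal.Quotient.mk L (ω x) = ι x) ∧ IsPrimitiveRoot z (ringChar k) := by
  classical
  have hQ : 1 < Fintype.card k := Fintype.one_lt_card
  have hl : (ringChar k).Prime := CharP.char_is_prime k _
  have : Fact (ringChar k).Prime := ⟨hl⟩
  let n : ℕ := (Fintype.card k - 1) * ringChar k
  have hn : 0 < n := Nat.mul_pos (by omega) hl.pos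
  have : NeZero n := ⟨hn.ne'⟩
  let E := CyclotomicField n M
  have hζ : IsPrimitiveRoot (IsCyclotomicExtension.zeta n M E) n :=
    IsCyclotomicExtension.zeta_spec n M E
  have hρ := hζ.toInteger_isPrimitiveRoot
  set ρ := hζ.toInteger with hρd
  have hξ : IsPrimitiveRoot (ρ ^ ringChar k) (Fintype.card k - 1) :=
    hρ.pow hn (by rw [mul_comm])
  have hz : IsPrimitiveRoot (ρ ^ (Fintype.card k - 1)) (ringChar k) := hρ.pow hn rfl
  have hmax : (RingHom.ker π).IsMaximal := RingHom.ker_isMaximal_of_surjective π hπ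
  obtain ⟨L, hLmax, hL⟩ := Ideal.exists_ideal_over_maximal_of_isIntegral (S := 𝓞 E)
    (RingHom.ker π) (by
      rw [(RingHom.injective_iff_ker_eq_bot _).1 (FaithfulSMul.algebraMap_injective (𝓞 M) (𝓞 E))]
      exact bot_le)
  have : L.IsPrime := hLmax.isPrime
  have hmem : ∀ x : 𝓞 M, algebraMap (𝓞 M) (𝓞 E) x ∈ L ↔ π x = 0 := by
    intro x
    rw [← Ideal.mem_comap, hL, RingHom.mem_ker]
  have hlL : ((ringChar k : ℕ) : 𝓞 E) ∈ L := by
    have h1 := (hmem ((ringChar k : ℕ) : 𝓞 M)).2 (by rw [map_natCast, CharP.cast_eq_zero])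
    rwa [map_natCast] at h1
  have hQL : ((Fintype.card k : ℕ) : 𝓞 E) ∈ L := by
    have h1 := (hmem ((Fintype.card k : ℕ) : 𝓞 M)).2 (by rw [map_natCast, FiniteField.cast_card_eq_zero])
    rwa [map_natCast] at h1
  have hLbot : L ≠ ⊥ := by
    intro h0
    rw [h0, Ideal.mem_bot] at hlL
    exact hl.ne_zero (by exact_mod_cast hlL)
  have hnL : ((Fintype.card k - 1 : ℕ) : 𝓞 E) ∉ L := by
    intro h1
    have h2 : ((Fintype.card k : ℕ) : 𝓞 E) = ((Fintype.card k - 1 : ℕ) : 𝓞 E) + 1 := by
      rw [← Nat.cast_succ]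
      congr 1
      omega
    rw [h2] at hQL
    have h3 := L.sub_mem hQL h1
    rw [add_sub_cancel_left] at h3
    exact hLmax.ne_top ((Ideal.eq_top_iff_one L).2 h3)
  have hξ' := Teich_red L (by omega) hnL hξ
  let g : 𝓞 M →+* (𝓞 E ⧸ L) := (Ideal.Quotient.mk L).comp (algebraMap (𝓞 M) (𝓞 E))
  have hg : RingHom.ker π ≤ RingHom.ker g := by
    intro x hx
    rw [RingHom.mem_ker] at hx ⊢
    change Ideal.Quotient.mk L (algebraMap (𝓞 M) (𝓞 E) x) = 0
    rw [Ideal.Quotient.eq_zero_iff_mem]
    exact (hmem x).2 hx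
  let ι : k →+* (𝓞 E ⧸ L) := RingHom.liftOfSurjective π hπ ⟨g, hg⟩
  obtain ⟨ω, hω⟩ := Teich_char L ι hξ hξ'
  refine ⟨E, inferInstance, inferInstance, inferInstance, L, ι, ω, ρ ^ (Fintype.card k - 1),
    inferInstance, hLbot, fun x => ?_, hω, hz⟩
  exact RingHom.liftOfSurjective_comp_apply π hπ ⟨g, hg⟩ x

theorem exists_addChar {k : Type*} [Field k] [Fintype k] {R : Type*} [CommRing R] [IsDomain R]
    {z : R} (hz : IsPrimitiveRoot z (ringChar k)) :
    ∃ ψ : AddChar k R, ψ.IsPrimitive ∧ ∀ x, ψ (x ^ ringChar k) = ψ x := by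
  classical
  have hl : (ringChar k).Prime := CharP.char_is_prime k _
  have : Fact (ringChar k).Prime := ⟨hl⟩
  let : Algebra (ZMod (ringChar k)) k := ZMod.algebra _ _
  let χ := AddChar.zmodChar (ringChar k) ((IsPrimitiveRoot.iff_def z (ringChar k)).mp hz).left
  have hχ : χ.IsPrimitive := AddChar.zmodChar_primitive_of_primitive_root (ringChar k) hz
  let ψ := χ.compAddMonoidHom (Algebra.trace (ZMod (ringChar k)) k).toAddMonoidHom
  have hψ : ψ ≠ 1 := by
    obtain ⟨a, ha⟩ := FiniteField.trace_to_zmod_nondegenerate k one_ne_zero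
    rw [one_mul] at ha
    exact AddChar.ne_one_iff.2
      ⟨a, fun hf => ha <| (hχ.zmod_char_eq_one_iff (ringChar k)
        (Algebra.trace (ZMod (ringChar k)) k a)).mp hf⟩
  refine ⟨ψ, AddChar.IsPrimitive.of_ne_one hψ, fun x => ?_⟩
  change χ (Algebra.trace (ZMod (ringChar k)) k (x ^ ringChar k)) =
    χ (Algebra.trace (ZMod (ringChar k)) k x)
  congr 1
  have h1 := Algebra.trace_eq_of_algEquiv
    (FiniteField.frobeniusAlgEquivOfAlgebraic (ZMod (ringChar k)) k) x
  rw [FiniteField.coe_frobeniusAlgEquivOfAlgebraic] at h1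
  simp only [ZMod.card] at h1
  exact h1

theorem gaussSum_frob_inv {k : Type*} [Field k] [Fintype k] {R : Type*} [CommRing R] [IsDomain R]
    (χ : MulChar k R) (ψ : AddChar k R) (hψ : ∀ x, ψ (x ^ ringChar k) = ψ x) :
    gaussSum (χ ^ ringChar k) ψ = gaussSum χ ψ := by
  have hl : (ringChar k).Prime := CharP.char_is_prime k _
  have : Fact (ringChar k).Prime := ⟨hl⟩
  rw [gaussSum, gaussSum]
  have hbij : Function.Bijective (fun x : k => x ^ ringChar k) := by
    refine Finite.injective_iff_bijective.1 ?_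
    exact frobenius_inj k (ringChar k)
  refine Fintype.sum_bijective _ hbij _ _ fun x => ?_
  rw [hψ, MulChar.pow_apply' _ hl.ne_zero, map_pow]

end H9FC
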