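import Pool.Agent.H9.FC.OrdA
import Pool.Agent.H9.FC.Teich
import Pool.Agent.H9.FC.JMod

/-!
# Project FC9, module GVal

Stickelberger's theorem on the valuation of Gauss sums.

PROOF. Let `Q = |k| = l^f`, `w(a) = ordI L (G_a)`, `G_a = gaussSum (ω⁻¹ ^ a) ψ`, `0 ≤ a < Q - 1`.
The character `ω` has order `Q - 1` (its values on `kˣ` have different reductions since `ι` is
injective), so `ω⁻¹ ^ a ≠ 1` for `0 < a < Q - 1`; all `G_a ≠ 0` (`G_a G'_a = Q ≠ 0` for `a > 0`,
`gaussSum_mul_gaussSum_eq_card`, and `G_0 = -1`, `gaussSum_one_left`).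
(1) `w(0) = 0`.
(2) `w(a) + w(Q-1-a) = ordI L (Q) = f ordI L (l)` for `0 < a < Q-1`:
`gaussSum_mul_gaussSum_eq_card`, and the Gauss sum for `ψ⁻¹ = mulShift ψ (-1)` differs from the one
for `ψ` by a factor `χ(-1) = ± 1` (`gaussSum_mulShift`).
(3) `w(l a) = w(a)`, in particular `w(l^i) = w(1)` for `i < f` (`gaussSum_frob_inv`).
(4) `w(a + l^i) = w(a) + w(l^i)` if `0 < a`, `a + l^i < Q - 1`, `i < f` and the `i`-th digit of `a` is
`≤ l - 2`: `G_{a + l^i} J = G_a G_{l^i}` with `J = jacobiSum (ω⁻¹^a) (ω⁻¹^(l^i))`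
(`jacobiSum_mul_nontrivial`), and `J ∉ L` by `jac_mod`, `choose_not_dvd` (`l` generates the kernel of
`ℤ → R/L`; `ι` shows that `R / L` has characteristic `l`).
(5) By induction on the digit sum: `w(a) = s(a) w(1)` for `0 ≤ a < Q - 1`, `s` = digit sum in base
`l` (`(Nat.digits l a).sum`): take away one unit from a nonzero digit.
(6) `s(Q - 2) = f (l - 1) - 1` (all digits `l-1` except the lowest, `l-2`), if `Q > 2`; with (2) for
`a = 1`: `w(1) (1 + f(l-1) - 1) = f ordI L (l)`, so `(l-1) w(1) = ordI L (l)`.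
-/

namespace H9FC

private theorem GVal_span_mul {R : Type*} [CommRing R] [IsDedekindDomain R] (L : Ideal R) (x y : R)
    (hx : x ≠ 0) (hy : y ≠ 0) : ordI L (Ideal.span {x * y}) =
      ordI L (Ideal.span {x}) + ordI L (Ideal.span {y}) := by
  rw [← Ideal.span_singleton_mul_span_singleton]
  refine ordI_mul L _ _ ?_ ?_
  · rw [Ne, Ideal.span_singleton_eq_bot]; exact hx
  · rw [Ne, Ideal.span_singleton_eq_bot]; exact hy

private theorem GVal_digits_dvd (l b : ℕ) (hl : 1 < l) (hb : 0 < b) :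
    (Nat.digits l (l * b)).sum = (Nat.digits l b).sum := by
  rw [Nat.digits_base_mul hl hb]
  simp

private theorem GVal_digits_succ (l a : ℕ) (hl : 1 < l) (ha : a % l + 1 < l) :
    (Nat.digits l (a + 1)).sum = (Nat.digits l a).sum + 1 := by
  have h1 : a + 1 = (a % l + 1) + l * (a / l) := by
    have := Nat.mod_add_div a l
    omega
  rw [h1]
  rw [Nat.digits_add l hl (a % l + 1) (a / l) ha (Or.inl (by omega))]
  rcases Nat.eq_zero_or_pos a with h0 | h0
  · subst h0
    simp
  · rw [Nat.digits_of_two_le_of_pos hl h0]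
    simp only [List.sum_cons]
    ring

private theorem GVal_digits_top (l : ℕ) (hl : 1 < l) (f : ℕ) :
    (Nat.digits l (l ^ f - 1)).sum = f * (l - 1) := by
  induction f with
  | zero => simp
  | succ f ih =>
    have hpos : 0 < l ^ f := by positivity
    have h1 : l ^ (f + 1) - 1 = (l - 1) + l * (l ^ f - 1) := by
      rw [pow_succ, Nat.mul_sub, mul_one, mul_comm (l ^ f) l]
      have : l ≤ l * l ^ f := Nat.le_mul_of_pos_right l hpos
      omega
    rw [h1, Nat.digits_add l hl (l - 1) (l ^ f - 1) (by omega) (Or.inl (by omega))]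
    rw [List.sum_cons, ih]
    ring

private theorem GVal_digits_top' (l : ℕ) (hl : 1 < l) (f : ℕ) (hf : 0 < f) :
    (Nat.digits l (l ^ f - 2)).sum + 1 = f * (l - 1) := by
  obtain ⟨e, rfl⟩ := Nat.exists_eq_succ_of_ne_zero hf.ne'
  rw [← GVal_digits_top l hl e.succ]
  have hpos : 0 < l ^ e := by positivity
  have h2 : l ^ (e + 1) = l * l ^ e := by rw [pow_succ, mul_comm]
  have hge : l ≤ l ^ (e + 1) := by rw [h2]; exact Nat.le_mul_of_pos_right l hpos
  have h1 : l ^ (e + 1) - 1 = (l ^ (e + 1) - 2) + 1 := by omega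
  show (Nat.digits l (l ^ (e + 1) - 2)).sum + 1 = (Nat.digits l (l ^ (e + 1) - 1)).sum
  rw [h1, GVal_digits_succ l (l ^ (e + 1) - 2) hl]
  have h3 : l ^ (e + 1) - 2 = (l - 2) + l * (l ^ e - 1) := by
    rw [h2, Nat.mul_sub, mul_one]
    have : l ≤ l * l ^ e := Nat.le_mul_of_pos_right l hpos
    omega
  rw [h3, Nat.add_mul_mod_self_left, Nat.mod_eq_of_lt (by omega)]
  omega

theorem gauss_val {R : Type*} [CommRing R] [IsDedekindDomain R] [CharZero R] {k : Type*} [Field k]
    [Fintype k] (L : Ideal R) (hL : L.IsPrime) (hL0 : L ≠ ⊥) (ι : k →+* (R ⧸ L))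
    (ω : MulChar k R) (hω : ∀ x : k, Ideal.Quotient.mk L (ω x) = ι x) (ψ : AddChar k R)
    (hψ : ψ.IsPrimitive) (hψ' : ∀ x, ψ (x ^ ringChar k) = ψ x) (l f : ℕ) (hl : ringChar k = l)
    (hcard : Fintype.card k = l ^ f) (a : ℕ) (ha : a < Fintype.card k - 1) :
    (l - 1) * ordI L (Ideal.span {gaussSum (ω⁻¹ ^ a) ψ})
      = (Nat.digits l a).sum * ordI L (Ideal.span {(l : R)}) := by
  classical
  haveI hdom : IsDomain (R ⧸ L) := Ideal.Quotient.isDomain L
  haveI hlp : Fact l.Prime := by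
    rw [← hl]
    exact ⟨CharP.char_is_prime k (ringChar k)⟩
  haveI hchk : CharP k l := by rw [← hl]; exact ringChar.charP k
  have hιi : Function.Injective ι := ι.injective
  haveI hchR : CharP (R ⧸ L) l := charP_of_injective_ringHom hιi l
  have hl1 : 1 < l := hlp.out.one_lt
  have hf : 0 < f := by
    rcases Nat.eq_zero_or_pos f with h | h
    · rw [h, pow_zero] at hcard
      have := Fintype.one_lt_card (α := k)
      omega
    · exact h
  set Q : ℕ := Fintype.card k with hQ
  have hQu : Fintype.card kˣ = Q - 1 := Fintype.card_units k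
  have hQl : (Q : R) = (l : R) ^ f := by rw [hcard]; push_cast; ring
  have hlR : (l : R) ≠ 0 := Nat.cast_ne_zero.2 (by omega)
  have hQR : (Q : R) ≠ 0 := by rw [hQl]; exact pow_ne_zero _ hlR
  -- the additive character is nontrivial
  have hψ1 : ψ ≠ 1 := by
    have h := hψ (one_ne_zero : (1 : k) ≠ 0)
    rwa [AddChar.mulShift_one] at h
  -- `ω⁻¹ ^ a ≠ 1`
  have hne : ∀ b : ℕ, 0 < b → b < Q - 1 → ω⁻¹ ^ b ≠ 1 := by
    intro b hb hb' h
    obtain ⟨g, hg⟩ := IsCyclic.exists_generator (α := kˣ)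
    have hog : orderOf g = Q - 1 := by
      rw [orderOf_eq_card_of_forall_mem_zpowers hg, Nat.card_eq_fintype_card, hQu]
    have h1 : (ω⁻¹ ^ b) (g⁻¹ : kˣ) = 1 := by
      rw [h, MulChar.one_apply_coe]
    rw [MulChar.pow_apply_coe, MulChar.inv_apply', Units.val_inv_eq_inv_val, inv_inv] at h1
    have h2 : ι ((g : k) ^ b) = ι 1 := by
      rw [map_pow, ← hω, ← map_pow, h1, map_one, map_one]
    have h3 : (g : k) ^ b = 1 := hιi h2
    have h4 : g ^ b = 1 := Units.ext (by simpa using h3)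
    have h5 := orderOf_dvd_of_pow_eq_one h4
    rw [hog] at h5
    exact absurd (Nat.le_of_dvd hb h5) (by omega)
  have hG0 : gaussSum (ω⁻¹ ^ 0) ψ = -1 := by
    rw [pow_zero, gaussSum_one_left hψ1]
  -- Gauss sums are nonzero
  have hGne : ∀ b : ℕ, b < Q - 1 → gaussSum (ω⁻¹ ^ b) ψ ≠ 0 := by
    intro b hb
    rcases Nat.eq_zero_or_pos b with h | h
    · rw [h, hG0]
      exact neg_ne_zero.2 one_ne_zero
    · intro h0
      have h1 := gaussSum_mul_gaussSum_eq_card (hne b h hb) hψ
      rw [h0, zero_mul] at h1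
      exact hQR h1.symm
  let w : ℕ → ℕ := fun b => ordI L (Ideal.span {gaussSum (ω⁻¹ ^ b) ψ})
  have hw0 : w 0 = 0 := by
    show ordI L (Ideal.span {gaussSum (ω⁻¹ ^ 0) ψ}) = 0
    rw [hG0, ordI_span_eq_zero_iff L hL hL0 _ (neg_ne_zero.2 one_ne_zero)]
    intro h
    exact hL.ne_top ((Ideal.eq_top_iff_one L).2 (by simpa using L.neg_mem h))
  -- Frobenius
  have hwl : ∀ b : ℕ, w (l * b) = w b := by
    intro b
    show ordI L (Ideal.span {gaussSum (ω⁻¹ ^ (l * b)) ψ}) =
      ordI L (Ideal.span {gaussSum (ω⁻¹ ^ b) ψ})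
    have h := gaussSum_frob_inv (ω⁻¹ ^ b) ψ hψ'
    rw [hl, ← pow_mul, mul_comm b l] at h
    rw [h]
  -- one more
  have hws : ∀ b : ℕ, 0 < b → b + 1 < Q - 1 → b % l + 1 < l → w (b + 1) = w b + w 1 := by
    intro b hb hb' hd
    have h1 : ω⁻¹ ^ b * ω⁻¹ ^ 1 ≠ 1 := by
      rw [← pow_add]
      exact hne (b + 1) (by omega) hb'
    have h2 := jacobiSum_mul_nontrivial h1 ψ
    rw [← pow_add] at h2
    have hJL : jacobiSum (ω⁻¹ ^ b) (ω⁻¹ ^ 1) ∉ L := by
      intro hJ
      have h3 := jac_mod L hL ι ω hω b 1 hb one_pos (by omega) (by omega)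
      rw [Ideal.Quotient.eq_zero_iff_mem.2 hJ] at h3
      have h4 : ((Nat.choose (Q - 1 - 1) b : ℕ) : R ⧸ L) = 0 := by
        have h5 := neg_eq_zero.1 h3.symm
        rcases mul_eq_zero.1 h5 with h6 | h6
        · exact absurd h6 (pow_ne_zero _ (neg_ne_zero.2 one_ne_zero))
        · exact h6
      rw [CharP.cast_eq_zero_iff (R ⧸ L) l] at h4
      have h7 := choose_not_dvd l f 0 b hf (by omega) (by simpa using hd)
      rw [pow_zero, ← hcard] at h7
      exact h7 h4
    have hJ0 : jacobiSum (ω⁻¹ ^ b) (ω⁻¹ ^ 1) ≠ 0 := by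
      intro h
      rw [h] at hJL
      exact hJL L.zero_mem
    have h3 : ordI L (Ideal.span {jacobiSum (ω⁻¹ ^ b) (ω⁻¹ ^ 1)}) = 0 :=
      (ordI_span_eq_zero_iff L hL hL0 _ hJ0).2 hJL
    have h4 := GVal_span_mul L _ _ (hGne (b + 1) hb') hJ0
    have h5 := GVal_span_mul L _ _ (hGne b (by omega)) (hGne 1 (by omega))
    rw [h2, h3, h5, add_zero] at h4
    exact h4.symm
  -- by induction
  have hwa : ∀ b : ℕ, b < Q - 1 → w b = (Nat.digits l b).sum * w 1 := by
    intro b
    induction b using Nat.strong_induction_on with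
    | _ b ih =>
      intro hb
      rcases Nat.eq_zero_or_pos b with h0 | h0
      · subst h0
        rw [hw0]
        simp
      · by_cases hd : l ∣ b
        · obtain ⟨c, rfl⟩ := hd
          have hc0 : 0 < c := Nat.pos_of_mul_pos_left h0
          have hc1 : c < l * c := by nlinarith
          rw [hwl, GVal_digits_dvd l c hl1 hc0]
          exact ih c hc1 (by omega)
        · have hm : 0 < b % l := Nat.pos_of_ne_zero fun h => hd (Nat.dvd_of_mod_eq_zero h)
          have hm' : b % l < l := Nat.mod_lt _ (by omega)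
          obtain ⟨c, rfl⟩ : ∃ c, b = c + 1 := ⟨b - 1, by omega⟩
          have hcl : c % l + 1 < l := by
            have h1 : c = ((c + 1) % l - 1) + l * ((c + 1) / l) := by
              have := Nat.mod_add_div (c + 1) l
              omega
            have h2 : c % l = (c + 1) % l - 1 := by
              conv_lhs => rw [h1]
              rw [Nat.add_mul_mod_self_left, Nat.mod_eq_of_lt (by omega)]
            omega
          rw [GVal_digits_succ l c hl1 hcl]
          rcases Nat.eq_zero_or_pos c with h1 | h1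
          · subst h1
            simp
          · rw [hws c h1 hb hcl, ih c (by omega) (by omega)]
            ring
  rcases Nat.eq_zero_or_pos a with h0 | h0
  · subst h0
    have h1 : ordI L (Ideal.span {gaussSum (ω⁻¹ ^ 0) ψ}) = 0 := hw0
    rw [h1]
    simp
  · have hQ2 : 1 < Q - 1 := by omega
    -- the relation for `1` and `Q - 2`
    have hrel : w 1 + w (Q - 2) = f * ordI L (Ideal.span {(l : R)}) := by
      have h1 := gaussSum_mul_gaussSum_eq_card (hne 1 one_pos hQ2) hψ
      have h2 : (ω⁻¹ ^ 1)⁻¹ = ω⁻¹ ^ (Q - 2) := by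
        have h3 : ω⁻¹ ^ (Q - 1) = 1 := by
          rw [← hQu]
          exact MulChar.pow_card_eq_one _
        have h4 : ω⁻¹ ^ 1 * ω⁻¹ ^ (Q - 2) = 1 := by
          rw [← pow_add, ← h3]
          congr 1
          omega
        exact inv_eq_of_mul_eq_one_right h4
      rw [h2] at h1
      have h3 := mul_gaussSum_inv_eq_gaussSum (ω⁻¹ ^ (Q - 2)) ψ
      have hu : IsUnit ((ω⁻¹ ^ (Q - 2)) (-1)) := by
        refine IsUnit.map _ ?_
        exact isUnit_one.neg
      have h4 : w (Q - 2) = ordI L (Ideal.span {gaussSum (ω⁻¹ ^ (Q - 2)) ψ⁻¹}) := by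
        show ordI L (Ideal.span {gaussSum (ω⁻¹ ^ (Q - 2)) ψ}) = _
        rw [← h3, Ideal.span_singleton_mul_left_unit hu]
      have h5 : gaussSum (ω⁻¹ ^ (Q - 2)) ψ⁻¹ ≠ 0 := by
        intro h
        rw [h, mul_zero] at h1
        exact hQR h1.symm
      have h6 := GVal_span_mul L _ _ (hGne 1 hQ2) h5
      rw [h1, hQl, ← Ideal.span_singleton_pow, ordI_pow] at h6
      rw [h4]
      exact h6.symm
    have h2 := hwa (Q - 2) (by omega)
    have h3 : (Nat.digits l (Q - 2)).sum + 1 = f * (l - 1) := by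
      rw [hcard]
      exact GVal_digits_top' l hl1 f hf
    have h4 : (f * (l - 1)) * w 1 = f * ordI L (Ideal.span {(l : R)}) := by
      rw [← h3, ← hrel, h2]
      ring
    have h5 : (l - 1) * w 1 = ordI L (Ideal.span {(l : R)}) := by
      rw [mul_assoc] at h4
      exact Nat.eq_of_mul_eq_mul_left hf h4
    have h6 := hwa a ha
    show (l - 1) * w a = _
    rw [h6, ← h5]
    ring

end H9FC
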