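import Mathlib

/-!
# Project FC9, module Defs

Common definitions for the Fermat equation `a^p + b^p + c^p = 0` over number fields (methods of
Eichler, Wieferich, Mirimanoff and Furtwängler).

* `nf K a b` : the polynomial `N_{K/ℚ}(a + b X) ∈ ℤ[X]` (`a, b ∈ 𝓞 K`), as the determinant of the
  multiplication matrix.
* `IsRedFam ψ` : the family of ring homomorphisms `ψ i : 𝓞 K → Ω` (`i < [K : ℚ]`) factors all the
  polynomials `nf K a b`; such a family is the reduction of the family of all embeddings of `K`.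
* `mm K q x` : the sum of the local degrees `e f` of the primes of `K` above `q` which contain `x`.
* `ZZ ψ a b c` : the set of the `i` with `ψ i a, ψ i b, ψ i c ≠ 0`.
* `ordI P I` : the exponent of the prime ideal `P` in the factorisation of the ideal `I`.
* `TS p M b` : the set of those `σ ∈ Gal(M/ℚ)`, `M = ℚ(ζ_p)`, `σ ζ = ζ ^ t`, `0 < t < p`, with
  `p < t + (b t mod p)`.
* `cj p M` : complex conjugation on `M = ℚ(ζ_p)`, as an element of `Gal(M/ℚ)`.
* `FSol K p a b c` : `a, b, c ∈ 𝓞 K` are different from `0` and `a^p + b^p + c^p = 0`.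
* `CopAt K q a b c` : no prime ideal containing `q` contains all of `a, b, c`.
-/

namespace H9FC

open Polynomial NumberField

/-- the polynomial `N_{K/ℚ}(a + b X)` -/
noncomputable def nf (K : Type*) [Field K] [NumberField K] (a b : 𝓞 K) : ℤ[X] :=
  Matrix.det ((Algebra.leftMulMatrix (RingOfIntegers.basis K) a).map (C : ℤ →+* ℤ[X])
    + (X : ℤ[X]) • (Algebra.leftMulMatrix (RingOfIntegers.basis K) b).map (C : ℤ →+* ℤ[X]))

/-- `ψ` is a reduction of the family of all embeddings of `K`: it factors all norm forms -/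
def IsRedFam {K : Type*} [Field K] [NumberField K] {Ω : Type*} [Field Ω]
    (ψ : Fin (Module.finrank ℚ K) → (𝓞 K →+* Ω)) : Prop :=
  ∀ a b : 𝓞 K, (nf K a b).map (Int.castRingHom Ω) = ∏ i, (C (ψ i a) + X * C (ψ i b))

/-- the sum of the local degrees `e f` of the primes `P ∣ q` of `K` with `x ∈ P` -/
noncomputable def mm (K : Type*) [Field K] [NumberField K] (q : ℕ) (x : 𝓞 K) : ℕ :=
  ∑ᶠ P ∈ {P : Ideal (𝓞 K) | P ∈ Ideal.primesOver (Ideal.span {(q : ℤ)}) (𝓞 K) ∧ x ∈ P},
    P.ramificationIdx ℤ * P.inertiaDeg ℤ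

/-- the indices of a family `ψ` at which none of `a, b, c` vanishes -/
noncomputable def ZZ {K : Type*} [Field K] [NumberField K] {Ω : Type*} [Field Ω]
    (ψ : Fin (Module.finrank ℚ K) → (𝓞 K →+* Ω)) (a b c : 𝓞 K) :
    Finset (Fin (Module.finrank ℚ K)) := by
  classical
  exact Finset.univ.filter (fun i => ψ i a ≠ 0 ∧ ψ i b ≠ 0 ∧ ψ i c ≠ 0)

theorem mem_ZZ {K : Type*} [Field K] [NumberField K] {Ω : Type*} [Field Ω]
    (ψ : Fin (Module.finrank ℚ K) → (𝓞 K →+* Ω)) (a b c : 𝓞 K) (i : Fin (Module.finrank ℚ K)) :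
    i ∈ ZZ ψ a b c ↔ ψ i a ≠ 0 ∧ ψ i b ≠ 0 ∧ ψ i c ≠ 0 := by
  simp [ZZ]

/-- exponent of the prime ideal `P` in the factorisation of the ideal `I` (`0` if `I = ⊥`) -/
noncomputable def ordI {R : Type*} [CommRing R] [IsDedekindDomain R] (P I : Ideal R) : ℕ := by
  classical exact Multiset.count P (UniqueFactorizationMonoid.normalizedFactors I)

/-- the automorphisms `σ_t` of `ℚ(ζ_p)`, `σ_t ζ = ζ ^ t`, `0 < t < p`, with `p < t + (b t mod p)` -/
noncomputable def TS (p : ℕ) [Fact p.Prime] (M : Type*) [Field M] [NumberField M]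
    [IsCyclotomicExtension {p} ℚ M] (b : ℕ) : Finset (M ≃ₐ[ℚ] M) := by
  classical
  exact Finset.univ.filter
    (fun σ => p < (IsCyclotomicExtension.Rat.galEquivZMod p M σ).val.val
      + (b * (IsCyclotomicExtension.Rat.galEquivZMod p M σ).val.val) % p)

/-- complex conjugation of `ℚ(ζ_p)` -/
noncomputable def cj (p : ℕ) [Fact p.Prime] (M : Type*) [Field M] [NumberField M]
    [IsCyclotomicExtension {p} ℚ M] : M ≃ₐ[ℚ] M :=
  (IsCyclotomicExtension.Rat.galEquivZMod p M).symm (-1)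

/-- nontrivial solutions of the Fermat equation of exponent `p` in algebraic integers of `K` -/
def FSol (K : Type*) [Field K] [NumberField K] (p : ℕ) (a b c : 𝓞 K) : Prop :=
  a ≠ 0 ∧ b ≠ 0 ∧ c ≠ 0 ∧ a ^ p + b ^ p + c ^ p = 0

/-- `a, b, c` have no common prime factor above `q` -/
def CopAt (K : Type*) [Field K] [NumberField K] (q : ℕ) (a b c : 𝓞 K) : Prop :=
  ∀ P : Ideal (𝓞 K), P.IsPrime → (q : 𝓞 K) ∈ P → ¬ (a ∈ P ∧ b ∈ P ∧ c ∈ P)

end H9FC
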