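import Pool.Agent.H9.FC.Pig
import Pool.Agent.H9.FC.Conj
import Pool.Agent.H9.FC.CycMod
import Pool.Agent.H9.FC.APart

/-!
# Project FC9, module EichCong

The congruence at the heart of Eichler's method.

PROOF. Let `ζ ∈ 𝓞 M` be a primitive `p`-th root of unity; for `0 ≤ i ≤ r` (`r + 1 < p`) let
`η_i = ζ^(i+1)`, a primitive root, `f_i` the `A`-part of `F(η_i)`, `g_i` that of `F(η_i⁻¹)`
(`exists_apart`, for `η_i` and `η_i^(p-1)`).
All of these lie in no prime above `p`, in particular they are not `0`.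
By `apart_pow_ideal` there are ideals `I_i` with `I_i^p = (x_i)`, `x_i = f_i g_i^(p-1)`.
`pig_ideal` gives `e_i`, a unit `u` and `γ` with `∏ x_i^(e_i) = u γ^p`; `γ` lies in no prime above
`p`.  Let `c = cj p M`; `c f_i = g_i`, `c g_i = f_i` (`IsAPart.smul`, `IsAPart.unique`). So
`∏ (g_i f_i^(p-1))^(e_i) = c(u) c(γ)^p`, and with `u = ± ζ^k c(u)` (`unit_eq_cj`)
`∏ (f_i g_i^(p-1))^(e_i) c(γ)^p = ± ζ^k ∏ (g_i f_i^(p-1))^(e_i) γ^p`
(multiply by the unit `c(u)` and cancel it).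
Multiply by `∏ (f_i g_i)^(e_i)`:
`∏ f_i^(2 e_i) δ^p = ± ζ^k ∏ g_i^(2 e_i) ε^p`, `δ = ∏ g_i^(e_i) c(γ)`, `ε = ∏ f_i^(e_i) γ`, and `δ, ε`
lie in no prime above `p`. By `pow_p_mod` there are integers `n, m` prime to `p` with `δ^p ≡ n`,
`ε^p ≡ m` modulo `p`.  So `n ∏ f_i^(2 e_i) ≡ ± m ζ^k ∏ g_i^(2 e_i)` modulo `p`, hence modulo
`(ζ-1)^(p-1-μ)`; and modulo `(ζ-1)^(p-1-μ)` (which is a unit times `(η_i-1)^(p-1-μ)`) we have
`f_i ≡ P(ζ^(i+1))`, `g_i ≡ P(ζ^{-(i+1)})`.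
Let `P* = P.reflect D`; `P*(y) = y^D P(y⁻¹)` for units `y`, so
`P(ζ^{-(i+1)}) = ζ^{-D(i+1)} P*(ζ^(i+1))`.  So with `s ≡ k - 2 D ∑ (i+1) e_i` modulo `p`, `s ≥ 0`:
`(ζ-1)^(p-1-μ)` divides `A(ζ)` for
`A = n ∏ P(X^(i+1))^(2 e_i) ∓ m X^s ∏ P*(X^(i+1))^(2 e_i)`.  By `pow_dvd_aeval` the polynomial `A`
modulo `p` is divisible by `(X - 1)^(p-1-μ)`; divide by `n`.
-/

namespace H9FC

open Polynomial NumberField

/-- algebra: the relation between the two products -/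
private lemma EichCong_alg {R ι : Type*} [CommRing R] (s : Finset ι) (f g : ι → R) (e : ι → ℕ)
    (p : ℕ) (hp : 1 ≤ p) (U V γ γ' : R)
    (h1 : ∏ i ∈ s, (f i * g i ^ (p - 1)) ^ e i = V * U * γ ^ p)
    (h2 : ∏ i ∈ s, (g i * f i ^ (p - 1)) ^ e i = U * γ' ^ p) :
    (∏ i ∈ s, f i ^ (2 * e i)) * ((∏ i ∈ s, g i ^ e i) * γ') ^ p
      = V * (∏ i ∈ s, g i ^ (2 * e i)) * ((∏ i ∈ s, f i ^ e i) * γ) ^ p := by
  have e1 : (∏ i ∈ s, f i ^ (2 * e i)) * (∏ i ∈ s, g i ^ e i) ^ p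
      = (∏ i ∈ s, (f i * g i ^ (p - 1)) ^ e i) * ∏ i ∈ s, (f i * g i) ^ e i := by
    rw [← Finset.prod_pow, ← Finset.prod_mul_distrib, ← Finset.prod_mul_distrib]
    refine Finset.prod_congr rfl fun i _ => ?_
    obtain ⟨q, rfl⟩ : ∃ q, p = q + 1 := ⟨p - 1, by omega⟩
    simp only [Nat.add_sub_cancel]
    have h3 : f i * g i ^ q * (f i * g i) = f i ^ 2 * g i ^ (q + 1) := by ring
    rw [← mul_pow, h3, mul_pow, ← pow_mul, ← pow_mul, ← pow_mul, mul_comm (e i) (q + 1)]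
  have e2 : (∏ i ∈ s, g i ^ (2 * e i)) * (∏ i ∈ s, f i ^ e i) ^ p
      = (∏ i ∈ s, (g i * f i ^ (p - 1)) ^ e i) * ∏ i ∈ s, (f i * g i) ^ e i := by
    rw [← Finset.prod_pow, ← Finset.prod_mul_distrib, ← Finset.prod_mul_distrib]
    refine Finset.prod_congr rfl fun i _ => ?_
    obtain ⟨q, rfl⟩ : ∃ q, p = q + 1 := ⟨p - 1, by omega⟩
    simp only [Nat.add_sub_cancel]
    have h3 : g i * f i ^ q * (f i * g i) = g i ^ 2 * f i ^ (q + 1) := by ring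
    rw [← mul_pow, h3, mul_pow, ← pow_mul, ← pow_mul, ← pow_mul, mul_comm (e i) (q + 1)]
  calc (∏ i ∈ s, f i ^ (2 * e i)) * ((∏ i ∈ s, g i ^ e i) * γ') ^ p
      = ((∏ i ∈ s, f i ^ (2 * e i)) * (∏ i ∈ s, g i ^ e i) ^ p) * γ' ^ p := by ring
    _ = (V * U * γ ^ p) * (∏ i ∈ s, (f i * g i) ^ e i) * γ' ^ p := by rw [e1, h1]
    _ = V * ((U * γ' ^ p) * (∏ i ∈ s, (f i * g i) ^ e i)) * γ ^ p := by ring
    _ = V * ((∏ i ∈ s, g i ^ (2 * e i)) * (∏ i ∈ s, f i ^ e i) ^ p) * γ ^ p := by rw [e2, h2]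
    _ = V * (∏ i ∈ s, g i ^ (2 * e i)) * ((∏ i ∈ s, f i ^ e i) * γ) ^ p := by ring

/-- value of a polynomial at the inverse of a root of unity -/
private lemma EichCong_reflect {R : Type*} [CommRing R] (p : ℕ) (hp : 1 ≤ p) (P : ℤ[X]) (D : ℕ)
    (hD : P.natDegree ≤ D) (η : R) (hη : η ^ p = 1) :
    aeval (η ^ (p - 1)) P = aeval η (P.reflect D) * (η ^ (p - 1)) ^ D := by
  have hm : η * η ^ (p - 1) = 1 := by
    rw [← pow_succ', Nat.sub_add_cancel hp, hη]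
  let _ : Invertible (η ^ (p - 1)) := ⟨η, hm, by rw [mul_comm]; exact hm⟩
  have := eval₂_reflect_mul_pow (algebraMap ℤ R) (η ^ (p - 1)) D P hD
  exact this.symm

theorem eich_cong (p : ℕ) [Fact p.Prime] (hp : p ≠ 2) (M : Type*) [Field M] [NumberField M]
    [IsCyclotomicExtension {p} ℚ M] (r : ℕ) (hr : r + 1 < p)
    (hcl : Nat.card {x : ClassGroup (𝓞 M) // x ^ p = 1} ≤ p ^ r) (F P : ℤ[X]) (μ : ℕ)
    (hμ : μ + 1 < p) (hF : F.map (Int.castRingHom (ZMod p))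
      = (X - 1) ^ μ * P.map (Int.castRingHom (ZMod p)))
    (hP1 : ¬ (p : ℤ) ∣ P.eval 1) (D : ℕ) (hD : P.natDegree ≤ D)
    (hI : ∀ ζ : 𝓞 M, IsPrimitiveRoot ζ p → ∃ I : Ideal (𝓞 M),
      I ^ p = Ideal.span {aeval ζ F * (aeval (ζ ^ (p - 1)) F) ^ (p - 1)}) :
    ∃ (e : Fin (r + 1) → ℕ) (c : ZMod p) (s : ℕ), (∀ i, e i < p) ∧ (∃ i, e i ≠ 0) ∧
      (X - 1) ^ (p - 1 - μ) ∣
        ∏ i, ((P.map (Int.castRingHom (ZMod p))).comp (X ^ (i.val + 1))) ^ (2 * e i)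
        - C c * (X ^ s *
          ∏ i, (((P.reflect D).map (Int.castRingHom (ZMod p))).comp (X ^ (i.val + 1))) ^ (2 * e i)) := by
  have hpp : p.Prime := Fact.out
  have hp1 : 1 ≤ p := hpp.one_lt.le
  obtain ⟨ζ, hζ⟩ : ∃ ζ : 𝓞 M, IsPrimitiveRoot ζ p :=
    ⟨(IsCyclotomicExtension.zeta_spec p ℚ M).toInteger,
      (IsCyclotomicExtension.zeta_spec p ℚ M).toInteger_isPrimitiveRoot⟩
  have hη : ∀ i : Fin (r + 1), IsPrimitiveRoot (ζ ^ (i.val + 1)) p := by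
    intro i
    refine hζ.pow_of_coprime _ ?_
    refine Nat.Coprime.symm ((Nat.Prime.coprime_iff_not_dvd hpp).2 fun hd => ?_)
    have := Nat.le_of_dvd (Nat.succ_pos _) hd
    have := i.2
    omega
  have hcop : Nat.Coprime (p - 1) p := by
    refine Nat.Coprime.symm ((Nat.Prime.coprime_iff_not_dvd hpp).2 fun hd => ?_)
    have := Nat.le_of_dvd (Nat.sub_pos_of_lt hpp.one_lt) hd
    omega
  have hη' : ∀ i : Fin (r + 1), IsPrimitiveRoot ((ζ ^ (i.val + 1)) ^ (p - 1)) p :=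
    fun i => (hη i).pow_of_coprime _ hcop
  -- the A-parts
  have Hf := fun i : Fin (r + 1) => exists_apart p M (hη i) F P μ hμ hF
  choose f hf hfc hfQ _ using Hf
  replace hfQ := fun i => hfQ i hP1
  have hcz : ∀ i : Fin (r + 1), cj p M • (ζ ^ (i.val + 1)) = (ζ ^ (i.val + 1)) ^ (p - 1) :=
    fun i => cj_smul_zeta p M (hη i).pow_eq_one
  have hg : ∀ i, IsAPart F μ ((ζ ^ (i.val + 1)) ^ (p - 1)) (cj p M • f i) := by
    intro i
    have := IsAPart.smul (p := p) (hf i) (cj p M)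
    rwa [hcz i] at this
  have Hg := fun i : Fin (r + 1) => exists_apart p M (hη' i) F P μ hμ hF
  have hgc : ∀ i : Fin (r + 1), ((ζ ^ (i.val + 1)) ^ (p - 1) - 1) ^ (p - 1 - μ) ∣
      cj p M • f i - aeval ((ζ ^ (i.val + 1)) ^ (p - 1)) P := by
    intro i
    obtain ⟨A, h1, h2, _, _⟩ := Hg i
    have := IsAPart.unique (hη' i) h1 (hg i)
    rwa [this] at h2
  have hgQ : ∀ i, ∀ Q : Ideal (𝓞 M), Q.IsPrime → (p : 𝓞 M) ∈ Q → cj p M • f i ∉ Q := by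
    intro i
    obtain ⟨A, h1, _, h3, _⟩ := Hg i
    have := IsAPart.unique (hη' i) h1 (hg i)
    rw [this] at h3
    exact h3 hP1
  obtain ⟨hJ1, hJ2, _⟩ := prime_zeta_sub_one p M hζ
  have hpJ : (p : 𝓞 M) ∈ Ideal.span {ζ - 1} := by
    rw [Ideal.mem_span_singleton]
    refine dvd_trans (dvd_pow_self _ ?_) (associated_p p M hζ).symm.dvd
    have := hpp.two_le
    omega
  have hf0 : ∀ i, f i ≠ 0 := fun i h => hfQ i _ hJ1 hpJ (by rw [h]; exact Ideal.zero_mem _)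
  have hg0 : ∀ i, cj p M • f i ≠ 0 :=
    fun i h => hgQ i _ hJ1 hpJ (by rw [h]; exact Ideal.zero_mem _)
  have Hx : ∀ i : Fin (r + 1), ∃ I : Ideal (𝓞 M),
      I ^ p = Ideal.span {f i * (cj p M • f i) ^ (p - 1)} := fun i =>
    apart_pow_ideal p hp M (hη i) F μ (f i) (cj p M • f i) (hf i) (hg i) (hI _ (hη i)) (hf0 i)
      (hg0 i)
  choose I hIx using Hx
  obtain ⟨e, he1, he2, u, γ, hγ⟩ := pig_ideal p r hcl I
    (fun i => f i * (cj p M • f i) ^ (p - 1))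
    (fun i => mul_ne_zero (hf0 i) (pow_ne_zero _ (hg0 i))) hIx
  -- γ is prime to p
  have hγQ : ∀ Q : Ideal (𝓞 M), Q.IsPrime → (p : 𝓞 M) ∈ Q → γ ∉ Q := by
    intro Q hQ hpQ hγQ
    have h1 : ∏ i, (f i * (cj p M • f i) ^ (p - 1)) ^ e i ∈ Q := by
      rw [hγ]
      exact Ideal.mul_mem_left _ _ (Ideal.pow_mem_of_mem _ hγQ _ (by omega))
    rw [hQ.prod_mem_iff] at h1
    obtain ⟨i, _, hi⟩ := h1
    have h2 := hQ.mem_of_pow_mem _ hi
    rcases hQ.mem_or_mem h2 with h3 | h3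
    · exact hfQ i Q hQ hpQ h3
    · exact hgQ i Q hQ hpQ (hQ.mem_of_pow_mem _ h3)
  obtain ⟨sg, k, hu⟩ := unit_eq_cj p hp M hζ u
  -- apply conjugation
  have hc2 : ∏ i, ((cj p M • f i) * (f i) ^ (p - 1)) ^ e i
      = (cj p M • (u : 𝓞 M)) * (cj p M • γ) ^ p := by
    have h1 := congrArg (MulSemiringAction.toRingHom (M ≃ₐ[ℚ] M) (𝓞 M) (cj p M)) hγ
    rw [map_prod, map_mul, map_pow] at h1
    simp only [map_pow, map_mul, MulSemiringAction.toRingHom_apply] at h1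
    simp only [cj_smul_cj_smul] at h1
    exact h1
  have hE := EichCong_alg Finset.univ f (fun i => cj p M • f i) e p hp1 (cj p M • (u : 𝓞 M))
    (((sg : ℤ) : 𝓞 M) * ζ ^ k) γ (cj p M • γ) (by rw [hγ, ← hu]) hc2
  set δ : 𝓞 M := (∏ i, (cj p M • f i) ^ e i) * (cj p M • γ) with hδ
  set ε : 𝓞 M := (∏ i, f i ^ e i) * γ with hε
  obtain ⟨n, hn1, hn2⟩ := pow_p_mod p M δ
  obtain ⟨m, hm1, _⟩ := pow_p_mod p M ε
  -- conjugate of γ is prime to p : use the equation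
  have hcγQ : ∀ Q : Ideal (𝓞 M), Q.IsPrime → (p : 𝓞 M) ∈ Q → cj p M • γ ∉ Q := by
    intro Q hQ hpQ hγQ'
    have h1 : ∏ i, ((cj p M • f i) * (f i) ^ (p - 1)) ^ e i ∈ Q := by
      rw [hc2]
      exact Ideal.mul_mem_left _ _ (Ideal.pow_mem_of_mem _ hγQ' _ (by omega))
    rw [hQ.prod_mem_iff] at h1
    obtain ⟨i, _, hi⟩ := h1
    have h2 := hQ.mem_of_pow_mem _ hi
    rcases hQ.mem_or_mem h2 with h3 | h3
    · exact hgQ i Q hQ hpQ h3
    · exact hfQ i Q hQ hpQ (hQ.mem_of_pow_mem _ h3)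
  have hn : ¬ (p : ℤ) ∣ n := by
    apply hn2
    intro Q hQ hpQ hmem
    rcases hQ.mem_or_mem hmem with h3 | h3
    · rw [hQ.prod_mem_iff] at h3
      obtain ⟨i, _, hi⟩ := h3
      exact hgQ i Q hQ hpQ (hQ.mem_of_pow_mem _ hi)
    · exact hcγQ Q hQ hpQ h3
  -- the congruence modulo p
  have hdp : (p : 𝓞 M) ∣ (n : 𝓞 M) * (∏ i, f i ^ (2 * e i))
      - (m : 𝓞 M) * (((sg : ℤ) : 𝓞 M) * ζ ^ k * ∏ i, (cj p M • f i) ^ (2 * e i)) := by
    have h1 : (n : 𝓞 M) * (∏ i, f i ^ (2 * e i))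
      - (m : 𝓞 M) * (((sg : ℤ) : 𝓞 M) * ζ ^ k * ∏ i, (cj p M • f i) ^ (2 * e i))
      = (ε ^ p - m) * (((sg : ℤ) : 𝓞 M) * ζ ^ k * ∏ i, (cj p M • f i) ^ (2 * e i))
        - (δ ^ p - n) * (∏ i, f i ^ (2 * e i)) := by
      linear_combination hE
    rw [h1]
    exact dvd_sub (hm1.mul_right _) (hn1.mul_right _)
  set j : ℕ := p - 1 - μ with hj
  have hjp : (ζ - 1) ^ j ∣ (p : 𝓞 M) :=
    dvd_trans (pow_dvd_pow _ (by omega)) (associated_p p M hζ).symm.dvd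
  have hzd : ∀ l : ℕ, (ζ - 1) ^ j ∣ (ζ ^ l - 1) ^ j := by
    intro l
    refine pow_dvd_pow_of_dvd ?_ _
    have := sub_dvd_pow_sub_pow ζ 1 l
    rwa [one_pow] at this
  -- work in the quotient
  set J : Ideal (𝓞 M) := Ideal.span {(ζ - 1) ^ j} with hJ
  set φ := Ideal.Quotient.mk J with hφ
  have hker : ∀ x : 𝓞 M, (ζ - 1) ^ j ∣ x → φ x = 0 := by
    intro x hx
    rw [hφ, Ideal.Quotient.eq_zero_iff_mem, hJ, Ideal.mem_span_singleton]
    exact hx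
  have hq1 : ∀ i, φ (f i) = φ (aeval (ζ ^ (i.val + 1)) P) := by
    intro i
    have := hker _ (dvd_trans (hzd (i.val + 1)) (hfc i))
    rwa [map_sub, sub_eq_zero] at this
  have hq2 : ∀ i, φ (cj p M • f i) = φ (aeval ((ζ ^ (i.val + 1)) ^ (p - 1)) P) := by
    intro i
    have h1 : (ζ - 1) ^ j ∣ ((ζ ^ (i.val + 1)) ^ (p - 1) - 1) ^ j := by
      rw [← pow_mul]
      exact hzd _
    have := hker _ (dvd_trans h1 (hgc i))
    rwa [map_sub, sub_eq_zero] at this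
  have hq3 : ∀ i : Fin (r + 1), aeval ((ζ ^ (i.val + 1)) ^ (p - 1)) P
      = aeval (ζ ^ (i.val + 1)) (P.reflect D) * ((ζ ^ (i.val + 1)) ^ (p - 1)) ^ D :=
    fun i => EichCong_reflect p hp1 P D hD _ (hη i).pow_eq_one
  set S : ℕ := k + ∑ i : Fin (r + 1), (i.val + 1) * (p - 1) * D * (2 * e i) with hS
  set A : ℤ[X] := C n * (∏ i : Fin (r + 1), (P.comp (X ^ (i.val + 1))) ^ (2 * e i))
    - C (m * (sg : ℤ)) * (X ^ S * ∏ i : Fin (r + 1), ((P.reflect D).comp (X ^ (i.val + 1))) ^ (2 * e i))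
    with hA
  have hAz : (ζ - 1) ^ j ∣ aeval ζ A := by
    have h0 : φ (aeval ζ A) = 0 := by
      have h1 := hker _ (dvd_trans hjp hdp)
      rw [map_sub, sub_eq_zero] at h1
      rw [hA, map_sub, map_sub, sub_eq_zero]
      have hcomp : ∀ (Q : ℤ[X]) (l : ℕ), aeval ζ (Q.comp (X ^ l)) = aeval (ζ ^ l) Q := by
        intro Q l
        rw [aeval_comp, map_pow, aeval_X]
      have h2 : aeval ζ (C n * (∏ i : Fin (r + 1), (P.comp (X ^ (i.val + 1))) ^ (2 * e i)))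
          = (n : 𝓞 M) * ∏ i : Fin (r + 1), (aeval (ζ ^ (i.val + 1)) P) ^ (2 * e i) := by
        rw [map_mul, aeval_C, map_prod]
        simp only [map_pow, hcomp, algebraMap_int_eq, eq_intCast]
      have h3 : aeval ζ (C (m * (sg : ℤ)) * (X ^ S *
            ∏ i : Fin (r + 1), ((P.reflect D).comp (X ^ (i.val + 1))) ^ (2 * e i)))
          = (m : 𝓞 M) * (((sg : ℤ) : 𝓞 M) * ζ ^ k *
            ∏ i : Fin (r + 1), (aeval ((ζ ^ (i.val + 1)) ^ (p - 1)) P) ^ (2 * e i)) := by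
        rw [map_mul (aeval ζ) (C _), aeval_C, map_mul (aeval ζ) (X ^ S), map_pow (aeval ζ) X,
          aeval_X, map_prod]
        simp only [map_pow, hcomp, algebraMap_int_eq, eq_intCast, hq3, mul_pow,
          Finset.prod_mul_distrib]
        have h4 : ∏ i : Fin (r + 1), (((ζ ^ (i.val + 1)) ^ (p - 1)) ^ D) ^ (2 * e i)
            = ζ ^ (∑ i : Fin (r + 1), (i.val + 1) * (p - 1) * D * (2 * e i)) := by
          rw [← Finset.prod_pow_eq_pow_sum]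
          refine Finset.prod_congr rfl fun i _ => ?_
          rw [← pow_mul, ← pow_mul, ← pow_mul]
          congr 1
          ring
        rw [h4, hS, pow_add]
        push_cast
        ring
      rw [h2, h3]
      have h5 : φ ((n : 𝓞 M) * ∏ i : Fin (r + 1), (aeval (ζ ^ (i.val + 1)) P) ^ (2 * e i))
          = φ ((n : 𝓞 M) * ∏ i : Fin (r + 1), f i ^ (2 * e i)) := by
        simp only [map_mul, map_prod, map_pow, hq1]
      have h6 : φ ((m : 𝓞 M) * (((sg : ℤ) : 𝓞 M) * ζ ^ k *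
            ∏ i : Fin (r + 1), (aeval ((ζ ^ (i.val + 1)) ^ (p - 1)) P) ^ (2 * e i)))
          = φ ((m : 𝓞 M) * (((sg : ℤ) : 𝓞 M) * ζ ^ k *
            ∏ i : Fin (r + 1), (cj p M • f i) ^ (2 * e i))) := by
        have h61 : φ (∏ i : Fin (r + 1), (aeval ((ζ ^ (i.val + 1)) ^ (p - 1)) P) ^ (2 * e i))
            = φ (∏ i : Fin (r + 1), (cj p M • f i) ^ (2 * e i)) := by
          rw [map_prod, map_prod]
          refine Finset.prod_congr rfl fun i _ => ?_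
          rw [map_pow, map_pow, hq2 i]
        rw [map_mul, map_mul, h61, ← map_mul, ← map_mul]
      rw [h5, h6]
      exact h1
    rw [hφ, Ideal.Quotient.eq_zero_iff_mem, hJ, Ideal.mem_span_singleton] at h0
    exact h0
  have hfin := pow_dvd_aeval p M hζ A j (by omega) hAz
  have hn0 : ((n : ℤ) : ZMod p) ≠ 0 := by
    intro h
    exact hn ((ZMod.intCast_zmod_eq_zero_iff_dvd n p).1 h)
  refine ⟨e, ((m * (sg : ℤ) : ℤ) : ZMod p) * ((n : ℤ) : ZMod p)⁻¹, S, he1, he2, ?_⟩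
  have h7 := hfin.mul_left (C (((n : ℤ) : ZMod p)⁻¹))
  refine h7.trans (dvd_of_eq ?_)
  rw [hA, Polynomial.map_sub, Polynomial.map_mul, Polynomial.map_mul, Polynomial.map_mul,
    Polynomial.map_prod, Polynomial.map_prod, Polynomial.map_C, Polynomial.map_C,
    Polynomial.map_pow, Polynomial.map_X]
  simp only [Polynomial.map_pow, Polynomial.map_comp, Polynomial.map_X, eq_intCast]
  have h8 : (C (((n : ℤ) : ZMod p)⁻¹) : (ZMod p)[X]) * C ((n : ℤ) : ZMod p) = 1 := by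
    rw [← C_mul, inv_mul_cancel₀ hn0, C_1]
  rw [mul_sub, ← mul_assoc, h8, one_mul, ← mul_assoc (C (((n : ℤ) : ZMod p)⁻¹)), ← C_mul,
    mul_comm (((n : ℤ) : ZMod p)⁻¹)]

end H9FC
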