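import Pool.Agent.H9.FC.PartI
import Pool.Agent.H9.FC.Eich
import Pool.Agent.H9.FC.Red

/-!
# Project FC9, module EichFC

Eichler's method for a nontrivial solution: the part of the norm form belonging to the places not
dividing `a b c` is symmetric in `a`, `b` modulo `p`.

PROOF. Put `F = nf K a b`, `d = [K:ℚ] > 0`, `M = CyclotomicField p ℚ`; from `hdr`, `d < p`.
`hI` is `exists_pow_ideal`.  Let `a_i = ψ_i a` etc.; `a_i + b_i + c_i = 0`, not two of them are `0`
(`fsol_hom`, `cop_hom`). In `Ω[X]` the image of `F` is `∏ (a_i + X b_i) ≠ 0`, so `F` modulo `p` is not `0`,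
and `eich` applies (with degree bound `d`).  Let `n_a, n_b, n_c` be the numbers of `i` with `a_i = 0`, ...,
and `G(X) = ∏' (a_i + X b_i)`, `G*(X) = ∏' (b_i + X a_i)`, the products over the `i` with
`a_i b_i c_i ≠ 0`. Then
`F = ∏_{a_i=0} (X b_i) ∏_{b_i=0} a_i ∏_{c_i=0} (a_i (1 - X)) G` and
`F* = F.reflect d = nf K b a = ∏_{a_i=0} b_i ∏_{b_i=0} (X a_i) ∏_{c_i=0} (a_i (X - 1)) G*` (`nf_swap`).
So the multiplicity of `0` is `n_a` in `F`, `n_b` in `F*`, that of `1` in `F` is `n_c`
(multiplicities do not change from `ZMod p` to `Ω`); `X^(n_b) F = (-1)^(n_c) X^(n_a) F*`, and cancelling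
`u X^(n_a+n_b) (1-X)^(n_c)` we get `G = G*`.  Evaluate and homogenise: for `x ≠ 0`
`∏' (x a_i + y b_i) = x^k G(y/x)`, `k` the number of factors, and similarly for `G*`; for `x = 0` both
sides are polynomials in `x` which agree for all `x ≠ 0` (`Ω` is infinite).
(`ZZ ψ a b c` is the set of the `i` with `a_i b_i c_i ≠ 0`, `mem_ZZ`.)
-/

namespace H9FC

open Polynomial NumberField

private theorem EichFC_split {Ω ι : Type*} [Field Ω] [Fintype ι] [DecidableEq ι]
    (a b c : ι → Ω) (h : ∀ i, a i + b i + c i = 0)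
    (h2 : ∀ i, ¬ (a i = 0 ∧ b i = 0) ∧ ¬ (b i = 0 ∧ c i = 0) ∧ ¬ (c i = 0 ∧ a i = 0))
    (Z : Finset ι) (hZ : ∀ i, i ∈ Z ↔ a i ≠ 0 ∧ b i ≠ 0 ∧ c i ≠ 0) :
    ∃ (u : Ω) (n m k : ℕ), u ≠ 0 ∧
      ∏ i, (C (a i) + X * C (b i)) = C u * X ^ n * (X - C 1) ^ k * ∏ i ∈ Z, (C (a i) + X * C (b i)) ∧
      ∏ i, (C (b i) + X * C (a i))
        = C ((-1) ^ k * u) * X ^ m * (X - C 1) ^ k * ∏ i ∈ Z, (C (b i) + X * C (a i)) := by
  classical
  have key : ∀ S : Finset ι, (∀ i ∈ S, i ∉ Z) → ∃ (u : Ω) (n m k : ℕ), u ≠ 0 ∧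
      ∏ i ∈ S, (C (a i) + X * C (b i)) = C u * X ^ n * (X - C 1) ^ k ∧
      ∏ i ∈ S, (C (b i) + X * C (a i)) = C ((-1) ^ k * u) * X ^ m * (X - C 1) ^ k := by
    intro S
    induction S using Finset.induction_on with
    | empty => exact fun _ => ⟨1, 0, 0, 0, one_ne_zero, by simp, by simp⟩
    | insert i S hi ih =>
      intro hS
      obtain ⟨u, n, m, k, hu, h1, h2'⟩ := ih fun j hj => hS j (Finset.mem_insert_of_mem hj)
      have hiZ := hS i (Finset.mem_insert_self _ _)
      rw [hZ] at hiZ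
      rw [Finset.prod_insert hi, Finset.prod_insert hi, h1, h2']
      by_cases ha : a i = 0
      · have hb : b i ≠ 0 := fun hb => (h2 i).1 ⟨ha, hb⟩
        refine ⟨b i * u, n + 1, m, k, mul_ne_zero hb hu, ?_, ?_⟩
        · rw [ha]
          simp only [map_mul, map_zero]
          ring
        · rw [ha]
          simp only [map_mul, map_zero, map_pow, map_neg, map_one]
          ring
      · by_cases hb : b i = 0
        · refine ⟨a i * u, n, m + 1, k, mul_ne_zero ha hu, ?_, ?_⟩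
          · rw [hb]
            simp only [map_mul, map_zero]
            ring
          · rw [hb]
            simp only [map_mul, map_zero, map_pow, map_neg, map_one]
            ring
        · have hc : c i = 0 := by
            by_contra hc
            exact hiZ ⟨ha, hb, hc⟩
          have hba : b i = - a i := by
            have := h i
            rw [hc] at this
            linear_combination this
          refine ⟨- a i * u, n, m, k + 1, mul_ne_zero (neg_ne_zero.mpr ha) hu, ?_, ?_⟩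
          · rw [hba]
            simp only [map_mul, map_neg, map_one]
            ring
          · rw [hba]
            simp only [map_mul, map_neg, map_one, map_pow]
            ring
  obtain ⟨u, n, m, k, hu, h1, h3⟩ := key (Finset.univ \ Z) (fun i hi => (Finset.mem_sdiff.mp hi).2)
  refine ⟨u, n, m, k, hu, ?_, ?_⟩
  · rw [← Finset.prod_sdiff (Finset.subset_univ Z), h1]
  · rw [← Finset.prod_sdiff (Finset.subset_univ Z), h3]

private theorem EichFC_mult {Ω : Type*} [Field Ω] (u : Ω) (hu : u ≠ 0) (n k : ℕ)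
    (G : Polynomial Ω) (hG0 : G.eval 0 ≠ 0) (hG1 : G.eval 1 ≠ 0) :
    (C u * X ^ n * (X - C 1) ^ k * G).rootMultiplicity 0 = n ∧
    (C u * X ^ n * (X - C 1) ^ k * G).rootMultiplicity 1 = k := by
  have hG : G ≠ 0 := by
    rintro rfl
    simp at hG0
  have hC : C u ≠ 0 := C_ne_zero.mpr hu
  have hX : (X : Polynomial Ω) ^ n ≠ 0 := pow_ne_zero _ X_ne_zero
  have hX1 : (X - C 1 : Polynomial Ω) ^ k ≠ 0 := pow_ne_zero _ (X_sub_C_ne_zero 1)
  have e1 : ∀ z : Ω, (C u * X ^ n * (X - C 1) ^ k * G).rootMultiplicity z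
      = (X ^ n : Polynomial Ω).rootMultiplicity z + ((X - C 1) ^ k : Polynomial Ω).rootMultiplicity z
        + G.rootMultiplicity z := by
    intro z
    rw [rootMultiplicity_mul (mul_ne_zero (mul_ne_zero (mul_ne_zero hC hX) hX1) hG),
      rootMultiplicity_mul (mul_ne_zero (mul_ne_zero hC hX) hX1),
      rootMultiplicity_mul (mul_ne_zero hC hX), rootMultiplicity_C, zero_add]
  constructor
  · rw [e1]
    have h1 : (X ^ n : Polynomial Ω).rootMultiplicity 0 = n := by
      have := rootMultiplicity_X_sub_C_pow (0 : Ω) n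
      simpa using this
    have h2 : ((X - C 1) ^ k : Polynomial Ω).rootMultiplicity 0 = 0 := by
      apply rootMultiplicity_eq_zero
      simp [IsRoot.def]
    have h3 : G.rootMultiplicity 0 = 0 := rootMultiplicity_eq_zero hG0
    rw [h1, h2, h3]
    ring
  · rw [e1]
    have h1 : (X ^ n : Polynomial Ω).rootMultiplicity 1 = 0 := by
      apply rootMultiplicity_eq_zero
      simp [IsRoot.def]
    have h2 : ((X - C 1) ^ k : Polynomial Ω).rootMultiplicity 1 = k :=
      rootMultiplicity_X_sub_C_pow (1 : Ω) k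
    have h3 : G.rootMultiplicity 1 = 0 := rootMultiplicity_eq_zero hG1
    rw [h1, h2, h3]
    ring

theorem eich_fc (K : Type*) [Field K] [NumberField K] (p : ℕ) [Fact p.Prime] (hp : 5 ≤ p) (r : ℕ)
    (hcl : Nat.card {x : ClassGroup (𝓞 (CyclotomicField p ℚ)) // x ^ p = 1} ≤ p ^ r)
    (hdr : Module.finrank ℚ K * (r + 1) * (r + 2) < p - 2) (a b c : 𝓞 K) (h : FSol K p a b c)
    (hcp : CopAt K p a b c) {Ω : Type*} [Field Ω] [IsAlgClosed Ω] [CharP Ω p]
    {ψ : Fin (Module.finrank ℚ K) → (𝓞 K →+* Ω)} (hψ : IsRedFam ψ) (x y : Ω) :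
    ∏ i ∈ ZZ ψ a b c, (x * ψ i b + y * ψ i a) = ∏ i ∈ ZZ ψ a b c, (x * ψ i a + y * ψ i b) := by
  classical
  haveI : IsCyclotomicExtension {p} ℚ (CyclotomicField p ℚ) :=
    CyclotomicField.isCyclotomicExtension p ℚ
  have hd0 : 0 < Module.finrank ℚ K := Module.finrank_pos
  have hdp : Module.finrank ℚ K < p := by
    have h1 : Module.finrank ℚ K * 1 * 1 ≤ Module.finrank ℚ K * (r + 1) * (r + 2) :=
      Nat.mul_le_mul (Nat.mul_le_mul le_rfl (by omega)) (by omega)
    omega
  have hsum : ∀ i, ψ i a + ψ i b + ψ i c = 0 := fun i => fsol_hom h (ψ i)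
  have hcop : ∀ i, ¬ (ψ i a = 0 ∧ ψ i b = 0) ∧ ¬ (ψ i b = 0 ∧ ψ i c = 0) ∧
      ¬ (ψ i c = 0 ∧ ψ i a = 0) := fun i => cop_hom h hcp (ψ i)
  obtain ⟨u, n, m, k, hu, e1, e2⟩ := EichFC_split (fun i => ψ i a) (fun i => ψ i b)
    (fun i => ψ i c) hsum hcop (ZZ ψ a b c) (fun i => mem_ZZ ψ a b c i)
  set G : Polynomial Ω := ∏ i ∈ ZZ ψ a b c, (C (ψ i a) + X * C (ψ i b)) with hG
  set G' : Polynomial Ω := ∏ i ∈ ZZ ψ a b c, (C (ψ i b) + X * C (ψ i a)) with hG'
  have hF := hψ a b
  have hF' := hψ b a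
  rw [e1] at hF
  rw [e2] at hF'
  have hZa : ∀ i ∈ ZZ ψ a b c, ψ i a ≠ 0 := fun i hi => ((mem_ZZ ψ a b c i).mp hi).1
  have hZb : ∀ i ∈ ZZ ψ a b c, ψ i b ≠ 0 := fun i hi => ((mem_ZZ ψ a b c i).mp hi).2.1
  have hZc : ∀ i ∈ ZZ ψ a b c, ψ i c ≠ 0 := fun i hi => ((mem_ZZ ψ a b c i).mp hi).2.2
  have hG0 : G.eval 0 ≠ 0 := by
    rw [hG, eval_prod]
    refine Finset.prod_ne_zero_iff.mpr fun i hi => ?_
    simpa using hZa i hi
  have hG0' : G'.eval 0 ≠ 0 := by
    rw [hG', eval_prod]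
    refine Finset.prod_ne_zero_iff.mpr fun i hi => ?_
    simpa using hZb i hi
  have hab : ∀ i ∈ ZZ ψ a b c, ψ i a + ψ i b ≠ 0 := by
    intro i hi h0
    apply hZc i hi
    have := hsum i
    rw [h0, zero_add] at this
    exact this
  have hG1 : G.eval 1 ≠ 0 := by
    rw [hG, eval_prod]
    refine Finset.prod_ne_zero_iff.mpr fun i hi => ?_
    simpa using hab i hi
  have hG1' : G'.eval 1 ≠ 0 := by
    rw [hG', eval_prod]
    refine Finset.prod_ne_zero_iff.mpr fun i hi => ?_
    simpa [add_comm] using hab i hi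
  have hu' : (-1) ^ k * u ≠ 0 := mul_ne_zero (pow_ne_zero _ (by simp)) hu
  have hGne : G ≠ 0 := by
    intro h0
    rw [h0] at hG0
    simp at hG0
  have hFne : (nf K a b).map (Int.castRingHom Ω) ≠ 0 := by
    rw [hF]
    exact mul_ne_zero (mul_ne_zero (mul_ne_zero (C_ne_zero.mpr hu) (pow_ne_zero _ X_ne_zero))
      (pow_ne_zero _ (X_sub_C_ne_zero 1))) hGne
  let g : ZMod p →+* Ω := ZMod.castHom dvd_rfl Ω
  have hg : Function.Injective g := g.injective
  have hgg : g.comp (Int.castRingHom (ZMod p)) = Int.castRingHom Ω := RingHom.ext_int _ _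
  have hFp : (nf K a b).map (Int.castRingHom (ZMod p)) ≠ 0 := by
    intro h0
    apply hFne
    rw [← hgg, ← Polynomial.map_map, h0, Polynomial.map_zero]
  have key := eich p hp (CyclotomicField p ℚ) r hcl (nf K a b) (Module.finrank ℚ K)
    (nf_natDegree_le K a b) hdr hFp
    (fun ζ hζ => (exists_pow_ideal K p (by omega) hdp a b c h (CyclotomicField p ℚ) hζ).2)
  rw [← nf_swap] at key
  have hm0 : ((nf K b a).map (Int.castRingHom (ZMod p))).rootMultiplicity 0 = m := by
    rw [eq_rootMultiplicity_map hg, map_zero, Polynomial.map_map, hgg, hF']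
    exact (EichFC_mult _ hu' m k G' hG0' hG1').1
  have hn0 : ((nf K a b).map (Int.castRingHom (ZMod p))).rootMultiplicity 0 = n := by
    rw [eq_rootMultiplicity_map hg, map_zero, Polynomial.map_map, hgg, hF]
    exact (EichFC_mult _ hu n k G hG0 hG1).1
  have hk0 : ((nf K a b).map (Int.castRingHom (ZMod p))).rootMultiplicity 1 = k := by
    rw [eq_rootMultiplicity_map hg, map_one, Polynomial.map_map, hgg, hF]
    exact (EichFC_mult _ hu n k G hG0 hG1).2
  rw [hm0, hn0, hk0] at key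
  have key2 := congrArg (Polynomial.map g) key
  simp only [Polynomial.map_mul, Polynomial.map_pow, Polynomial.map_X, Polynomial.map_C,
    Polynomial.map_map, hgg, hF, hF'] at key2
  have hGG : G = G' := by
    have hne : C u * X ^ n * X ^ m * (X - C 1) ^ k ≠ (0 : Polynomial Ω) :=
      mul_ne_zero (mul_ne_zero (mul_ne_zero (C_ne_zero.mpr hu) (pow_ne_zero _ X_ne_zero))
        (pow_ne_zero _ X_ne_zero)) (pow_ne_zero _ (X_sub_C_ne_zero 1))
    apply mul_left_cancel₀ hne
    have h3 : (C (g ((-1) ^ k)) * C ((-1) ^ k * u) : Polynomial Ω) = C u := by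
      rw [← C_mul]
      congr 1
      rw [map_pow, map_neg, map_one, ← mul_assoc, ← mul_pow]
      simp
    calc C u * X ^ n * X ^ m * (X - C 1) ^ k * G
        = X ^ m * (C u * X ^ n * (X - C 1) ^ k * G) := by ring
      _ = C (g ((-1) ^ k)) * X ^ n * (C ((-1) ^ k * u) * X ^ m * (X - C 1) ^ k * G') := key2
      _ = (C (g ((-1) ^ k)) * C ((-1) ^ k * u)) * X ^ n * X ^ m * (X - C 1) ^ k * G' := by ring
      _ = C u * X ^ n * X ^ m * (X - C 1) ^ k * G' := by rw [h3]
  rcases eq_or_ne x 0 with rfl | hx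
  · have h0 := congrArg (eval 0) hGG
    rw [hG, hG', eval_prod, eval_prod] at h0
    simp only [eval_add, eval_C, eval_mul, eval_X, zero_mul, add_zero] at h0
    simp only [zero_mul, zero_add, Finset.prod_mul_distrib, h0]
  · have h0 := congrArg (eval (y / x)) hGG
    rw [hG, hG', eval_prod, eval_prod] at h0
    simp only [eval_add, eval_C, eval_mul, eval_X] at h0
    have f1 : ∀ i ∈ ZZ ψ a b c, x * ψ i b + y * ψ i a = x * (ψ i b + y / x * ψ i a) := by
      intro i _
      field_simp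
    have f2 : ∀ i ∈ ZZ ψ a b c, x * ψ i a + y * ψ i b = x * (ψ i a + y / x * ψ i b) := by
      intro i _
      field_simp
    rw [Finset.prod_congr rfl f1, Finset.prod_congr rfl f2, Finset.prod_mul_distrib,
      Finset.prod_mul_distrib, h0]

end H9FC
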