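import Pool.Agent.H9.FC.Defs

/-!
# Project FC9, module FQ

For some `b`, `1 ≤ b ≤ p - 2`, the sum of `1/t` over the `t` with `p < t + (b t mod p)` is not `0`
modulo `p`.

PROOF. For `0 < t < p` write `⟨x⟩ = x mod p ∈ [0, p)`. For `1 ≤ b ≤ p - 2` put
`ε_b(t) = (t + ⟨b t⟩ - ⟨(b+1) t⟩)/p ∈ {0, 1}`; it is `1` iff `p < t + ⟨b t⟩` (the sum `t + ⟨b t⟩` is
congruent to `⟨(b+1)t⟩ ≠ 0`, so not equal to `p`). Telescoping,
`∑_{b=1}^{p-2} ε_b(t) = ((p-2) t + t - ⟨(p-1) t⟩)/p = ((p-1) t - (p - t))/p = t - 1`.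
So `∑_b ∑_{t : ε_b(t) = 1} 1/t = ∑_t (t - 1)/t = (p - 1) - ∑_t 1/t = -1 - ∑_t 1/t` in `ZMod p`, and
`∑_{t} 1/t = 0` for `p > 2` (`t ↦ -t`).  So the sum over `b` is `-1 ≠ 0`, hence one of the terms is not
`0`.
-/

namespace H9FC

private theorem FQ_step {p v n : ℕ} (hp : p.Prime) (hv0 : 0 < v) (hvp : v < p) (hn : n + 3 ≤ p) :
    p * (if p < v + ((n + 1) * v) % p then 1 else 0) + ((n + 1 + 1) * v) % p =
      v + ((n + 1) * v) % p := by
  have h1 : (n + 1 + 1) * v = (n + 1) * v + v := by ring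
  have h2 : ((n + 1 + 1) * v) % p = (((n + 1) * v) % p + v) % p := by
    rw [h1, Nat.add_mod, Nat.mod_eq_of_lt hvp]
  have hr : ((n + 1) * v) % p < p := Nat.mod_lt _ hp.pos
  have hne : ((n + 1) * v) % p + v ≠ p := by
    intro h
    rw [h, Nat.mod_self] at h2
    have h3 : p ∣ (n + 1 + 1) * v := Nat.dvd_of_mod_eq_zero h2
    rcases hp.dvd_mul.1 h3 with h4 | h4
    · have := Nat.le_of_dvd (by omega) h4
      omega
    · have := Nat.le_of_dvd hv0 h4
      omega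
  rw [h2]
  generalize ((n + 1) * v) % p = r at hr hne ⊢
  split_ifs with h
  · have h3 : (r + v) % p = r + v - p := by
      rw [Nat.mod_eq_sub_mod (by omega), Nat.mod_eq_of_lt (by omega)]
    rw [h3, mul_one]
    omega
  · rw [Nat.mod_eq_of_lt (by omega), mul_zero, zero_add, add_comm]

private theorem FQ_sum {p v : ℕ} (hp : p.Prime) (hv0 : 0 < v) (hvp : v < p) (n : ℕ)
    (hn : n + 2 ≤ p) :
    p * (∑ b ∈ Finset.Icc 1 n, if p < v + (b * v) % p then 1 else 0) + ((n + 1) * v) % p =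
      (n + 1) * v := by
  induction n with
  | zero =>
    rw [zero_add, one_mul, Nat.mod_eq_of_lt hvp]
    simp
  | succ n ih =>
    have ih' := ih (by omega)
    have h1 := FQ_step hp hv0 hvp (n := n) (by omega)
    rw [Finset.sum_Icc_succ_top (by omega), mul_add, add_assoc, h1]
    have h2 : (n + 1 + 1) * v = (n + 1) * v + v := by ring
    rw [h2]
    omega

private theorem FQ_count {p v : ℕ} (hp : p.Prime) (hv0 : 0 < v) (hvp : v < p) :
    (∑ b ∈ Finset.Icc 1 (p - 2), if p < v + (b * v) % p then 1 else 0) = v - 1 := by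
  have h1 := FQ_sum hp hv0 hvp (p - 2) (by have := hp.two_le; omega)
  have h2 : p - 2 + 1 = p - 1 := by have := hp.two_le; omega
  have h3 : (p - 1) * v = (v - 1) * p + (p - v) := by
    obtain ⟨w, rfl⟩ : ∃ w, v = w + 1 := ⟨v - 1, by omega⟩
    obtain ⟨m, rfl⟩ : ∃ m, p = m + (w + 1) := ⟨p - (w + 1), by omega⟩
    have e1 : m + (w + 1) - 1 = m + w := by omega
    have e2 : m + (w + 1) - (w + 1) = m := by omega
    rw [e1, e2, Nat.add_sub_cancel]
    ring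
  rw [h2, h3, Nat.mul_add_mod_self_right, Nat.mod_eq_of_lt (by omega : p - v < p)] at h1
  have h4 : p * (∑ b ∈ Finset.Icc 1 (p - 2), if p < v + (b * v) % p then 1 else 0) =
      p * (v - 1) := by
    rw [mul_comm p (v - 1)]
    exact Nat.add_right_cancel h1
  exact Nat.eq_of_mul_eq_mul_left hp.pos h4

theorem exists_kappa (p : ℕ) [Fact p.Prime] (hp2 : p ≠ 2) :
    ∃ b : ℕ, 1 ≤ b ∧ b + 2 ≤ p ∧
      ∑ t ∈ (Finset.univ : Finset (ZMod p)ˣ).filter
          (fun t => p < t.val.val + (b * t.val.val) % p),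
        ((t⁻¹ : (ZMod p)ˣ) : ZMod p) ≠ 0 := by
  have hp : p.Prime := Fact.out
  have hp3 : 3 ≤ p := by
    have := hp.two_le
    omega
  by_contra hcon
  push Not at hcon
  have hall : ∀ b ∈ Finset.Icc 1 (p - 2), ∑ t : (ZMod p)ˣ,
      (if p < t.val.val + (b * t.val.val) % p then ((t⁻¹ : (ZMod p)ˣ) : ZMod p) else 0) = 0 := by
    intro b hb
    rw [Finset.mem_Icc] at hb
    rw [← Finset.sum_filter]
    exact hcon b hb.1 (by omega)
  have h1 : ∑ b ∈ Finset.Icc 1 (p - 2), ∑ t : (ZMod p)ˣ,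
      (if p < t.val.val + (b * t.val.val) % p then ((t⁻¹ : (ZMod p)ˣ) : ZMod p) else 0) = 0 :=
    Finset.sum_eq_zero hall
  rw [Finset.sum_comm] at h1
  have h2 : ∀ t : (ZMod p)ˣ, ∑ b ∈ Finset.Icc 1 (p - 2),
      (if p < t.val.val + (b * t.val.val) % p then ((t⁻¹ : (ZMod p)ˣ) : ZMod p) else 0) =
      1 - ((t⁻¹ : (ZMod p)ˣ) : ZMod p) := by
    intro t
    have hv0 : 0 < t.val.val := by
      rw [Nat.pos_iff_ne_zero, Ne, ZMod.val_eq_zero]
      exact t.ne_zero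
    have hvp : t.val.val < p := ZMod.val_lt _
    have e1 : ∑ b ∈ Finset.Icc 1 (p - 2),
        (if p < t.val.val + (b * t.val.val) % p then ((t⁻¹ : (ZMod p)ˣ) : ZMod p) else 0) =
        ((∑ b ∈ Finset.Icc 1 (p - 2),
          if p < t.val.val + (b * t.val.val) % p then 1 else 0 : ℕ) : ZMod p) *
          ((t⁻¹ : (ZMod p)ˣ) : ZMod p) := by
      rw [Nat.cast_sum, Finset.sum_mul]
      refine Finset.sum_congr rfl fun b _ => ?_
      split_ifs
      · rw [Nat.cast_one, one_mul]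
      · rw [Nat.cast_zero, zero_mul]
    rw [e1, FQ_count hp hv0 hvp, Nat.cast_sub hv0, ZMod.natCast_zmod_val, Nat.cast_one, sub_mul,
      one_mul, ← Units.val_mul, mul_inv_cancel, Units.val_one]
  rw [Finset.sum_congr rfl fun t _ => h2 t, Finset.sum_sub_distrib] at h1
  have h3 : ∑ t : (ZMod p)ˣ, ((t⁻¹ : (ZMod p)ˣ) : ZMod p) = 0 := by
    have e1 : ∑ t : (ZMod p)ˣ, ((t⁻¹ : (ZMod p)ˣ) : ZMod p) =
        ∑ t : (ZMod p)ˣ, (((-t)⁻¹ : (ZMod p)ˣ) : ZMod p) :=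
      (Equiv.sum_comp (Equiv.neg (ZMod p)ˣ) fun t => ((t⁻¹ : (ZMod p)ˣ) : ZMod p)).symm
    have e2 : ∀ t : (ZMod p)ˣ, (((-t)⁻¹ : (ZMod p)ˣ) : ZMod p) =
        -((t⁻¹ : (ZMod p)ˣ) : ZMod p) := by
      intro t
      rw [inv_neg, Units.val_neg]
    rw [Finset.sum_congr rfl fun t _ => e2 t, Finset.sum_neg_distrib] at e1
    have e3 : (2 : ZMod p) * ∑ t : (ZMod p)ˣ, ((t⁻¹ : (ZMod p)ˣ) : ZMod p) = 0 := by
      linear_combination e1
    have e4 : (2 : ZMod p) ≠ 0 := by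
      intro h
      have h5 : ((2 : ℕ) : ZMod p) = 0 := by exact_mod_cast h
      rw [ZMod.natCast_eq_zero_iff] at h5
      have := Nat.le_of_dvd (by norm_num) h5
      omega
    exact (mul_eq_zero.1 e3).resolve_left e4
  rw [h3, sub_zero, Finset.sum_const, Finset.card_univ, ZMod.card_units, nsmul_eq_mul, mul_one,
    Nat.cast_sub hp.one_le, CharP.cast_eq_zero, Nat.cast_one, zero_sub, neg_eq_zero] at h1
  exact one_ne_zero h1

end H9FC
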