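import Pool.Agent.H9.FC.Defs

/-!
# Project FC9, module ResChar

The `p`-th power residue character of a finite field `k` with a homomorphism `π : 𝓞 M → k`, and its
Jacobi sums `J(χ⁻¹, χ⁻ᵇ)`, `1 ≤ b ≤ p - 2`.

PROOFS. `exists_resChar`: let `ζ ∈ 𝓞 M` be a primitive `p`-th root of unity
(`IsCyclotomicExtension.zeta_spec`, `IsPrimitiveRoot.toInteger`).
`π ζ` is a primitive `p`-th root of unity in `k` (`∏_{0<j<p}(1 - ζ^j) = p` is not zero in `k`), so
`p` divides `|k| - 1`; put `m = (|k|-1)/p`. For `x ∈ kˣ` the element `x^m` is a `p`-th root of unity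
in `k`, so equal to `(π ζ)^j` for exactly one `j < p`; put `χ x = ζ^j`. Multiplicativity and
`χ^p = 1` are clear; `χ ≠ 1` because a generator `g` of `kˣ` has `g^m ≠ 1`.
`jac_mul_cj`: for the complex conjugation `c = cj p M`, `c • χ x = (χ x)⁻¹` for `x ≠ 0`
(a `p`-th root of unity), so `c • J(χ⁻¹, χ⁻ᵇ) = J(χ, χᵇ)`, and
`J(χ⁻¹,χ⁻ᵇ) J(χ,χᵇ) = |k|` is Mathlib's `jacobiSum_mul_jacobiSum_inv` (apply it in `M`, with
`χ.ringHomComp (algebraMap (𝓞 M) M)`; `χ, χᵇ, χ^(b+1) ≠ 1` because `χ` has order `p`; `ringChar M = 0`).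
`jac_semi`: Mathlib's `exists_jacobiSum_eq_neg_one_add`.
`smul_jac`: apply `σ` to the sum; `σ • χ x = (χ x)^t` by `galEquivZMod_smul_of_pow_eq`.
-/

namespace H9FC

open NumberField

private theorem ResChar_prim (p : ℕ) [Fact p.Prime] (M : Type*) [Field M] [NumberField M]
    [IsCyclotomicExtension {p} ℚ M] {k : Type*} [Field k] [Fintype k] (π : 𝓞 M →+* k)
    (hp : (p : k) ≠ 0) {ζ : 𝓞 M} (hζ : IsPrimitiveRoot ζ p) : IsPrimitiveRoot (π ζ) p := by
  have hpp : p.Prime := Fact.out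
  have h1 : π ζ ^ p = 1 := by rw [← map_pow, hζ.pow_eq_one, map_one]
  have h2 : π ζ ≠ 1 := by
    intro h
    have h3 : (Polynomial.cyclotomic p (𝓞 M)).eval ζ = 0 := hζ.isRoot_cyclotomic hpp.pos
    have h4 := Polynomial.cyclotomic.eval_apply ζ p π
    rw [h3, map_zero, h, Polynomial.eval_one_cyclotomic_prime] at h4
    exact hp h4
  have h3 : orderOf (π ζ) = p := orderOf_eq_prime h1 h2
  have h4 := IsPrimitiveRoot.orderOf (π ζ)
  rwa [h3] at h4

theorem exists_resChar (p : ℕ) [Fact p.Prime] (M : Type*) [Field M] [NumberField M]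
    [IsCyclotomicExtension {p} ℚ M] {k : Type*} [Field k] [Fintype k] (π : 𝓞 M →+* k)
    (hp : (p : k) ≠ 0) :
    p ∣ Fintype.card k - 1 ∧ ∃ χ : MulChar k (𝓞 M), χ ^ p = 1 ∧ χ ≠ 1 ∧
      ∀ x : k, x ≠ 0 → π (χ x) = x ^ ((Fintype.card k - 1) / p) := by
  classical
  have hpp : p.Prime := Fact.out
  obtain ⟨ζ, hζ⟩ : ∃ ζ : 𝓞 M, IsPrimitiveRoot ζ p :=
    ⟨_, (IsCyclotomicExtension.zeta_spec p ℚ M).toInteger_isPrimitiveRoot⟩
  have hπ := ResChar_prim p M π hp hζ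
  have hcard : Fintype.card kˣ = Fintype.card k - 1 := Fintype.card_units k
  have hu : IsUnit (π ζ) := hπ.isUnit hpp.ne_zero
  have hdvd : p ∣ Fintype.card k - 1 := by
    rw [← hcard]
    obtain ⟨w, hw⟩ := hu
    have h1 : orderOf w = p := by
      rw [← orderOf_units, hw]
      exact hπ.eq_orderOf.symm
    rw [← h1]
    exact orderOf_dvd_card
  refine ⟨hdvd, ?_⟩
  set m := (Fintype.card k - 1) / p with hm
  have hpm : p * m = Fintype.card k - 1 := Nat.mul_div_cancel' hdvd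
  have hcard1 : 1 < Fintype.card k := Fintype.one_lt_card
  have hm0 : 0 < m := by
    rcases Nat.eq_zero_or_pos m with h | h
    · rw [h, mul_zero] at hpm
      omega
    · exact h
  obtain ⟨g, hg⟩ := IsCyclic.exists_generator (α := kˣ)
  have hgm : ((g : k) ^ m) ^ p = 1 := by
    rw [← pow_mul, mul_comm, hpm, ← hcard]
    have h1 : g ^ Fintype.card kˣ = 1 := pow_card_eq_one
    rw [← Units.val_pow_eq_pow_val, h1, Units.val_one]
  obtain ⟨j, -, hj⟩ := hπ.eq_pow_of_pow_eq_one hgm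
  obtain ⟨z, hz⟩ := hζ.isUnit hpp.ne_zero
  have hzp : z ^ p = 1 := by
    ext
    rw [Units.val_pow_eq_pow_val, hz, hζ.pow_eq_one, Units.val_one]
  have hroot : z ^ j ∈ rootsOfUnity (Fintype.card kˣ) (𝓞 M) := by
    rw [mem_rootsOfUnity, hcard, ← hpm, ← pow_mul, show j * (p * m) = p * (j * m) by ring, pow_mul,
      hzp, one_pow]
  let χ : MulChar k (𝓞 M) := MulChar.ofRootOfUnity hroot hg
  have hχg : χ (g : k) = ζ ^ j := by
    have h1 : χ (g : k) = ((z ^ j : (𝓞 M)ˣ) : 𝓞 M) := MulChar.ofRootOfUnity_spec hroot hg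
    rw [h1, Units.val_pow_eq_pow_val, hz]
  have hχ : ∀ x : kˣ, ∃ n : ℕ, (x : k) = (g : k) ^ n ∧ χ (x : k) = ζ ^ (j * n) := by
    intro x
    obtain ⟨n, hn⟩ := (mem_powers_iff_mem_zpowers.2 (hg x))
    have hn' : g ^ n = x := hn
    refine ⟨n, by rw [← hn', Units.val_pow_eq_pow_val], ?_⟩
    rw [← hn', Units.val_pow_eq_pow_val, map_pow, hχg, ← pow_mul]
  have hπχ : ∀ x : k, x ≠ 0 → π (χ x) = x ^ m := by
    intro x hx
    obtain ⟨n, hn1, hn2⟩ := hχ (Units.mk0 x hx)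
    rw [Units.val_mk0] at hn1 hn2
    rw [hn2, hn1, map_pow, pow_mul, hj, ← pow_mul, ← pow_mul, mul_comm]
  refine ⟨χ, ?_, ?_, hπχ⟩
  · ext x
    obtain ⟨n, -, hn2⟩ := hχ x
    rw [MulChar.pow_apply_coe, hn2, MulChar.one_apply_coe, ← pow_mul, mul_comm, pow_mul,
      hζ.pow_eq_one, one_pow]
  · intro h1
    have h2 := hπχ g g.ne_zero
    rw [h1, MulChar.one_apply_coe, map_one] at h2
    have h3 : g ^ m = 1 := by
      ext
      rw [Units.val_pow_eq_pow_val, ← h2, Units.val_one]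
    have h4 : orderOf g = Fintype.card kˣ := by
      rw [orderOf_eq_card_of_forall_mem_zpowers hg, Nat.card_eq_fintype_card]
    have h5 := orderOf_dvd_of_pow_eq_one h3
    rw [h4, hcard, ← hpm] at h5
    have h6 := Nat.le_of_dvd hm0 h5
    have h7 : 2 * m ≤ p * m := Nat.mul_le_mul_right m hpp.two_le
    omega

private theorem ResChar_smul (p : ℕ) [Fact p.Prime] (M : Type*) [Field M] [NumberField M]
    [IsCyclotomicExtension {p} ℚ M] {k : Type*} [Field k] [Fintype k]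
    (ψ : MulChar k (𝓞 M)) (hψ : ψ ^ p = 1) (σ : M ≃ₐ[ℚ] M) (x : k) :
    σ • ψ x = (ψ ^ (IsCyclotomicExtension.Rat.galEquivZMod p M σ).val.val) x := by
  by_cases hx : x = 0
  · rw [hx, MulChar.map_zero, MulChar.map_zero, smul_zero]
  · have h1 : ψ x ^ p = 1 := by
      have h2 := congrArg (fun χ : MulChar k (𝓞 M) => χ ((Units.mk0 x hx : kˣ) : k)) hψ
      simp only [MulChar.pow_apply_coe, MulChar.one_apply_coe] at h2
      exact h2
    rw [IsCyclotomicExtension.Rat.galEquivZMod_smul_of_pow_eq p M σ h1]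
    have h3 := MulChar.pow_apply_coe ψ (IsCyclotomicExtension.Rat.galEquivZMod p M σ).val.val
      (Units.mk0 x hx)
    exact h3.symm

theorem smul_jac (p : ℕ) [Fact p.Prime] (M : Type*) [Field M] [NumberField M]
    [IsCyclotomicExtension {p} ℚ M] {k : Type*} [Field k] [Fintype k]
    (χ : MulChar k (𝓞 M)) (hχ : χ ^ p = 1) (b : ℕ) (σ : M ≃ₐ[ℚ] M) :
    σ • jacobiSum χ⁻¹ (χ⁻¹ ^ b)
      = jacobiSum (χ ^ (IsCyclotomicExtension.Rat.galEquivZMod p M σ).val.val)⁻¹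
          ((χ ^ (IsCyclotomicExtension.Rat.galEquivZMod p M σ).val.val)⁻¹ ^ b) := by
  have h1 : (χ⁻¹) ^ p = 1 := by rw [inv_pow, hχ, inv_one]
  have h2 : (χ⁻¹ ^ b) ^ p = 1 := by rw [← pow_mul, mul_comm, pow_mul, h1, one_pow]
  set t := (IsCyclotomicExtension.Rat.galEquivZMod p M σ).val.val with ht
  have e1 : (χ ^ t)⁻¹ = (χ⁻¹) ^ t := (inv_pow χ t).symm
  have e2 : ((χ ^ t)⁻¹) ^ b = (χ⁻¹ ^ b) ^ t := by
    rw [e1, ← pow_mul, ← pow_mul, mul_comm]
  rw [e2, e1]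
  unfold jacobiSum
  rw [Finset.smul_sum]
  refine Finset.sum_congr rfl fun x _ => ?_
  rw [smul_mul', ResChar_smul p M _ h1, ResChar_smul p M _ h2]

private theorem ResChar_cj (p : ℕ) [Fact p.Prime] (M : Type*) [Field M] [NumberField M]
    [IsCyclotomicExtension {p} ℚ M] {k : Type*} [Field k] [Fintype k]
    (χ : MulChar k (𝓞 M)) (hχ : χ ^ p = 1) :
    (χ ^ (IsCyclotomicExtension.Rat.galEquivZMod p M (cj p M)).val.val)⁻¹ = χ := by
  have h1 : IsCyclotomicExtension.Rat.galEquivZMod p M (cj p M) = -1 := by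
    unfold cj
    exact MulEquiv.apply_symm_apply _ _
  rw [h1]
  set t := ((-1 : (ZMod p)ˣ) : ZMod p).val with ht
  have h2 : ((t + 1 : ℕ) : ZMod p) = 0 := by
    push_cast
    rw [ht, ZMod.natCast_zmod_val]
    simp
  obtain ⟨s, hs⟩ := (ZMod.natCast_eq_zero_iff _ _).1 h2
  have h3 : χ ^ t * χ = 1 := by
    rw [← pow_succ, hs, pow_mul, hχ, one_pow]
  exact inv_eq_of_mul_eq_one_right h3

theorem jac_mul_cj (p : ℕ) [Fact p.Prime] (M : Type*) [Field M] [NumberField M]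
    [IsCyclotomicExtension {p} ℚ M] {k : Type*} [Field k] [Fintype k]
    (χ : MulChar k (𝓞 M)) (hχ : χ ^ p = 1) (hχ1 : χ ≠ 1) (b : ℕ) (hb : 1 ≤ b) (hb' : b + 2 ≤ p) :
    jacobiSum χ⁻¹ (χ⁻¹ ^ b) * (cj p M • jacobiSum χ⁻¹ (χ⁻¹ ^ b)) = (Fintype.card k : 𝓞 M) := by
  have hord : orderOf χ⁻¹ = p := by rw [orderOf_inv]; exact orderOf_eq_prime hχ hχ1
  have hne : ∀ n, 1 ≤ n → n < p → χ⁻¹ ^ n ≠ 1 := by
    intro n hn1 hn2 h
    have h1 := orderOf_dvd_of_pow_eq_one h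
    rw [hord] at h1
    have := Nat.le_of_dvd (by omega) h1
    omega
  rw [smul_jac p M χ hχ b, ResChar_cj p M χ hχ]
  have hinj : Function.Injective (algebraMap (𝓞 M) M) := FaithfulSMul.algebraMap_injective _ _
  apply hinj
  rw [map_mul, ← jacobiSum_ringHomComp, ← jacobiSum_ringHomComp, map_natCast]
  have hring : ringChar M ≠ ringChar k := by
    rw [ringChar.eq_zero]
    exact (CharP.ringChar_ne_zero_of_finite k).symm
  have e1 : χ.ringHomComp (algebraMap (𝓞 M) M) =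
      ((χ⁻¹).ringHomComp (algebraMap (𝓞 M) M))⁻¹ := by
    rw [← MulChar.ringHomComp_inv, inv_inv]
  have e2 : (χ ^ b).ringHomComp (algebraMap (𝓞 M) M) =
      ((χ⁻¹ ^ b).ringHomComp (algebraMap (𝓞 M) M))⁻¹ := by
    rw [MulChar.ringHomComp_inv, inv_pow, inv_inv]
  rw [e1, e2]
  refine jacobiSum_mul_jacobiSum_inv hring ?_ ?_ ?_
  · have := hne 1 le_rfl (by omega)
    rw [pow_one] at this
    exact (MulChar.ringHomComp_ne_one_iff hinj).2 this
  · exact (MulChar.ringHomComp_ne_one_iff hinj).2 (hne b hb (by omega))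
  · rw [← MulChar.ringHomComp_mul, ← pow_succ']
    exact (MulChar.ringHomComp_ne_one_iff hinj).2 (hne (b + 1) (by omega) (by omega))

theorem jac_semi (p : ℕ) [Fact p.Prime] (hp2 : p ≠ 2) (M : Type*) [Field M] [NumberField M]
    [IsCyclotomicExtension {p} ℚ M] {ζ : 𝓞 M} (hζ : IsPrimitiveRoot ζ p)
    {k : Type*} [Field k] [Fintype k] (χ : MulChar k (𝓞 M)) (hχ : χ ^ p = 1) (hχ1 : χ ≠ 1)
    (b : ℕ) : (ζ - 1) ^ 2 ∣ jacobiSum χ⁻¹ (χ⁻¹ ^ b) + 1 := by
  classical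
  have hpp : p.Prime := Fact.out
  have h1 : (χ⁻¹) ^ p = 1 := by rw [inv_pow, hχ, inv_one]
  have h2 : (χ⁻¹ ^ b) ^ p = 1 := by rw [← pow_mul, mul_comm, pow_mul, h1, one_pow]
  have h3 : p ∣ Fintype.card k - 1 := by
    rw [← Fintype.card_units, ← orderOf_eq_prime hχ hχ1]
    exact orderOf_dvd_of_pow_eq_one (MulChar.pow_card_eq_one χ)
  have hp3 : 2 < p := lt_of_le_of_ne hpp.two_le (Ne.symm hp2)
  obtain ⟨z, -, hz⟩ := exists_jacobiSum_eq_neg_one_add hp3 h1 h2 h3 hζ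
  exact ⟨z, by rw [hz]; ring⟩

end H9FC
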