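import Pool.Agent.H9.FC.OrdX
import Pool.Agent.H9.FC.Dec
import Pool.Agent.H9.FC.ResChar
import Pool.Agent.H9.FC.GVal
import Pool.Agent.H9.FC.DigSum

/-!
# Project FC9, module JVal

The exponent of `𝔩 = ker π` in the conjugates of the Jacobi sum `J = J(χ⁻¹, χ⁻ᵇ)`.

PROOF. Let `Q = |k| = l^f`, `m = (Q-1)/p`, `t = (galEquivZMod p M σ).val.val`, so `0 < t < p`. By
`smul_jac`, `σ • J = J((χ^t)⁻¹, (χ^t)⁻ᵇ)`. Take `E, L, ι, ω, z` from `exists_teich` and `ψ` from
`exists_addChar`.  In `𝓞 E` we have `χ x = ω x ^ m` for `x ≠ 0`: both sides are roots of unity of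
order dividing `Q - 1` with the same reduction `ι (π (χ x)) = ι (x^m)` modulo `L`, and reduction
modulo `L` is injective on such roots of unity (values of `ω`; or `Q - 1 ∉ L`).  So the image of
`σ • J` in `𝓞 E` is `jacobiSum (ω⁻¹^(m t)) (ω⁻¹^(m t₁))` (`jacobiSum_ringHomComp`), where
`t₁ = b t mod p`; let `t₂ = (b+1) t mod p`; `0 < t, t₁, t₂ < p`;
`(ω⁻¹)^(m t + m t₁) = (ω⁻¹)^(m t₂) ≠ 1` (`ω^(Q-1) = 1`, `Q - 1 = m p`). By `jacobiSum_mul_nontrivial`:
`G_{m t} G_{m t₁} = J G_{m t₂}`, so with `o = ordI L`: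
`o(J) = o(G_{mt}) + o(G_{m t₁}) - o(G_{mt₂})`.  By `gauss_val` and `digsum`
`p (l-1) o(G_{mt}) = p s(mt) o(l) = (l-1) o(l) ∑_i (l^i t mod p)`, so
`p o(G_{mt}) = o(l) ∑_{i<f} (l^i t mod p)`, similarly for `t₁`, `t₂`. For integers `x, y, z` in `(0, p)`
with `x + y ≡ z` modulo `p`, `x + y - z` is `p` if `x + y > p`, else `0`. Hence
`p o(J) = o(l) p #{i < f : p < (l^i t mod p) + (l^i b t mod p)}`.
By `ordI_algebraMap` (`L ∩ 𝓞 M = ker π` because `ι` is injective) and `dec_ord` (`ordI 𝔩 (l) = 1`):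
`o(J) = e ordI 𝔩 (J)`, `o(l) = e`, `e > 0`.
-/

namespace H9FC

open NumberField

private theorem JVal_inj {R : Type*} [CommRing R] [IsDomain R] (L : Ideal R) (n : ℕ) (hn : 0 < n)
    (hnL : ((n : ℕ) : R ⧸ L) ≠ 0) (x y : R) (hx : x ^ n = 1) (hy : y ^ n = 1)
    (h : Ideal.Quotient.mk L x = Ideal.Quotient.mk L y) : x = y := by
  obtain ⟨e, rfl⟩ := Nat.exists_eq_succ_of_ne_zero hn.ne'
  set c : R := x * y ^ e with hc
  have hc1 : c ^ (e + 1) = 1 := by
    rw [hc, mul_pow, hx, one_mul, ← pow_mul, mul_comm, pow_mul, hy, one_pow]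
  have hcL : Ideal.Quotient.mk L c = 1 := by
    rw [hc, map_mul, map_pow, h, ← pow_succ', ← map_pow, hy, map_one]
  have hc0 : c = 1 := by
    by_contra hne
    have h1 := mul_geom_sum c (e + 1)
    rw [hc1, sub_self] at h1
    have h2 : ∑ i ∈ Finset.range (e + 1), c ^ i = 0 := by
      rcases mul_eq_zero.1 h1 with h3 | h3
      · exact absurd (sub_eq_zero.1 h3) hne
      · exact h3
    have h3 := congrArg (Ideal.Quotient.mk L) h2
    rw [map_sum, map_zero] at h3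
    simp only [map_pow, hcL, one_pow, Finset.sum_const, Finset.card_range, nsmul_eq_mul,
      mul_one] at h3
    exact hnL h3
  have h4 : y ^ e * y = 1 := by rw [← pow_succ]; exact hy
  calc x = x * (y ^ e * y) := by rw [h4, mul_one]
    _ = c * y := by rw [hc]; ring
    _ = y := by rw [hc0, one_mul]

private theorem JVal_ne {R : Type*} [CommRing R] {k : Type*} [Field k] [Fintype k]
    (L : Ideal R) [Nontrivial (R ⧸ L)] (ι : k →+* (R ⧸ L)) (ω : MulChar k R)
    (hω : ∀ x : k, Ideal.Quotient.mk L (ω x) = ι x) (b : ℕ) (hb : 0 < b)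
    (hb' : b < Fintype.card k - 1) : ω⁻¹ ^ b ≠ 1 := by
  classical
  intro h
  have hQu : Fintype.card kˣ = Fintype.card k - 1 := Fintype.card_units k
  obtain ⟨g, hg⟩ := IsCyclic.exists_generator (α := kˣ)
  have hog : orderOf g = Fintype.card k - 1 := by
    rw [orderOf_eq_card_of_forall_mem_zpowers hg, Nat.card_eq_fintype_card, hQu]
  have h1 : (ω⁻¹ ^ b) (g⁻¹ : kˣ) = 1 := by
    rw [h, MulChar.one_apply_coe]
  rw [MulChar.pow_apply_coe, MulChar.inv_apply', Units.val_inv_eq_inv_val, inv_inv] at h1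
  have h2 : ι ((g : k) ^ b) = ι 1 := by
    rw [map_pow, ← hω, ← map_pow, h1, map_one, map_one]
  have h3 : (g : k) ^ b = 1 := ι.injective h2
  have h4 : g ^ b = 1 := Units.ext (by simpa using h3)
  have h5 := orderOf_dvd_of_pow_eq_one h4
  rw [hog] at h5
  exact absurd (Nat.le_of_dvd hb h5) (by omega)

private theorem JVal_mod (p x y z : ℕ) (hx : x < p) (hy : y < p) (hz : z ≠ 0)
    (h : (x + y) % p = z) : x + y = z + if p < x + y then p else 0 := by
  rcases lt_or_ge (x + y) p with h1 | h1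
  · rw [Nat.mod_eq_of_lt h1] at h
    rw [if_neg (by omega), h, add_zero]
  · have h2 : (x + y) % p = x + y - p := by
      rw [Nat.mod_eq_sub_mod h1, Nat.mod_eq_of_lt (by omega)]
    rw [h2] at h
    rw [if_pos (by omega)]
    omega

private theorem JVal_sum (p : ℕ) [Fact p.Prime] (l f t b : ℕ) (hlp : ¬ p ∣ l) (ht : ¬ p ∣ t)
    (hb' : b + 2 ≤ p) :
    (∑ i ∈ Finset.range f, (l ^ i * t) % p) + ∑ i ∈ Finset.range f, (l ^ i * (b * t)) % p =
      (∑ i ∈ Finset.range f, (l ^ i * ((b + 1) * t)) % p) +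
        p * ((Finset.range f).filter (fun i =>
          p < (l ^ i * t) % p + (l ^ i * (b * t)) % p)).card := by
  have hp : p.Prime := Fact.out
  rw [Finset.card_filter, Finset.mul_sum, ← Finset.sum_add_distrib, ← Finset.sum_add_distrib]
  refine Finset.sum_congr rfl fun i _ => ?_
  have h1 : (l ^ i * ((b + 1) * t)) % p ≠ 0 := by
    intro h
    have h2 := Nat.dvd_of_mod_eq_zero h
    rcases (Nat.Prime.dvd_mul hp).1 h2 with h3 | h3
    · exact hlp (hp.dvd_of_dvd_pow h3)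
    · rcases (Nat.Prime.dvd_mul hp).1 h3 with h4 | h4
      · exact absurd (Nat.le_of_dvd (by omega) h4) (by omega)
      · exact ht h4
  have h2 : ((l ^ i * t) % p + (l ^ i * (b * t)) % p) % p = (l ^ i * ((b + 1) * t)) % p := by
    rw [← Nat.add_mod]
    congr 1
    ring
  have h3 := JVal_mod p _ _ _ (Nat.mod_lt _ hp.pos) (Nat.mod_lt _ hp.pos) h1 h2
  by_cases h4 : p < l ^ i * t % p + l ^ i * (b * t) % p
  · rw [if_pos h4] at h3 ⊢
    omega
  · rw [if_neg h4] at h3 ⊢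
    omega

private theorem JVal_span_mul {R : Type*} [CommRing R] [IsDedekindDomain R] (L : Ideal R) (x y : R)
    (hx : x ≠ 0) (hy : y ≠ 0) : ordI L (Ideal.span {x * y}) =
      ordI L (Ideal.span {x}) + ordI L (Ideal.span {y}) := by
  rw [← Ideal.span_singleton_mul_span_singleton]
  refine ordI_mul L _ _ ?_ ?_
  · rw [Ne, Ideal.span_singleton_eq_bot]; exact hx
  · rw [Ne, Ideal.span_singleton_eq_bot]; exact hy

/-- the computation in a Dedekind domain containing the roots of unity -/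
private theorem JVal_core {R : Type*} [CommRing R] [IsDedekindDomain R] [CharZero R] {k : Type*}
    [Field k] [Fintype k] (L : Ideal R) (hL : L.IsPrime) (hL0 : L ≠ ⊥) (ι : k →+* (R ⧸ L))
    (ω : MulChar k R) (hω : ∀ x : k, Ideal.Quotient.mk L (ω x) = ι x) (ψ : AddChar k R)
    (hψ : ψ.IsPrimitive) (hψ' : ∀ x, ψ (x ^ ringChar k) = ψ x) (l f : ℕ) (hl : ringChar k = l)
    (hcard : Fintype.card k = l ^ f) (p : ℕ) [Fact p.Prime] (hlp : ¬ p ∣ l) (m : ℕ) (hm0 : 0 < m)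
    (hm : l ^ f - 1 = p * m) (b t : ℕ) (hb : 1 ≤ b) (hb' : b + 2 ≤ p) (ht : 0 < t) (htp : t < p) :
    ordI L (Ideal.span {jacobiSum (ω⁻¹ ^ (m * t)) (ω⁻¹ ^ (m * (b * t)))}) =
      ordI L (Ideal.span {(l : R)}) * ((Finset.range f).filter (fun i =>
          p < (l ^ i * t) % p + (l ^ i * (b * t)) % p)).card := by
  classical
  have hp : p.Prime := Fact.out
  haveI hdom : IsDomain (R ⧸ L) := Ideal.Quotient.isDomain L
  haveI hlp' : Fact l.Prime := by
    rw [← hl]
    exact ⟨CharP.char_is_prime k (ringChar k)⟩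
  have hl1 : 1 < l := hlp'.out.one_lt
  have hQm : Fintype.card k - 1 = p * m := by rw [hcard]; exact hm
  have hQ0 : 0 < Fintype.card k := Fintype.card_pos
  have hpm : 0 < p * m := Nat.mul_pos hp.pos hm0
  have hQR : ((Fintype.card k : ℕ) : R) ≠ 0 := Nat.cast_ne_zero.2 (by omega)
  have hlt : ∀ s : ℕ, s < p → m * s < Fintype.card k - 1 := by
    intro s hs
    rw [hQm, mul_comm p m]
    exact Nat.mul_lt_mul_of_pos_left hs hm0
  have hne : ∀ s : ℕ, 0 < s → s < p → ω⁻¹ ^ (m * s) ≠ 1 := fun s hs hs' =>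
    JVal_ne L ι ω hω (m * s) (Nat.mul_pos hm0 hs) (hlt s hs')
  have hGne : ∀ s : ℕ, 0 < s → s < p → gaussSum (ω⁻¹ ^ (m * s)) ψ ≠ 0 := by
    intro s hs hs' h0
    have h1 := gaussSum_mul_gaussSum_eq_card (hne s hs hs') hψ
    rw [h0, zero_mul] at h1
    exact hQR h1.symm
  -- reduction of exponents
  have hred : ∀ s : ℕ, ω⁻¹ ^ (m * s) = ω⁻¹ ^ (m * (s % p)) := by
    intro s
    have h1 : ω⁻¹ ^ (p * m) = 1 := by
      have h2 := MulChar.pow_card_eq_one (ω⁻¹)
      rw [Fintype.card_units k, hQm] at h2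
      exact h2
    have h2 : m * s = m * (s % p) + (p * m) * (s / p) := by
      conv_lhs => rw [← Nat.mod_add_div s p]
      ring
    rw [h2, pow_add, pow_mul _ (p * m), h1, one_pow, mul_one]
  have hS : ∀ s : ℕ, 0 < s → s < p → p * ordI L (Ideal.span {gaussSum (ω⁻¹ ^ (m * s)) ψ}) =
      (∑ i ∈ Finset.range f, (l ^ i * s) % p) * ordI L (Ideal.span {(l : R)}) := by
    intro s hs hs'
    have h1 := gauss_val L hL hL0 ι ω hω ψ hψ hψ' l f hl hcard (m * s) (hlt s hs')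
    have h2 := digsum l f p m s hm hm0 hs hs'
    have h3 : (l - 1) * (p * ordI L (Ideal.span {gaussSum (ω⁻¹ ^ (m * s)) ψ})) =
        (l - 1) * ((∑ i ∈ Finset.range f, (l ^ i * s) % p) * ordI L (Ideal.span {(l : R)})) := by
      calc (l - 1) * (p * ordI L (Ideal.span {gaussSum (ω⁻¹ ^ (m * s)) ψ}))
          = p * ((l - 1) * ordI L (Ideal.span {gaussSum (ω⁻¹ ^ (m * s)) ψ})) := by ring
        _ = (p * (Nat.digits l (m * s)).sum) * ordI L (Ideal.span {(l : R)}) := by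
            rw [h1]; ring
        _ = _ := by rw [h2]; ring
    exact Nat.eq_of_mul_eq_mul_left (by omega) h3
  have htn : ¬ p ∣ t := fun h => absurd (Nat.le_of_dvd ht h) (by omega)
  set t₁ : ℕ := (b * t) % p with ht₁
  set t₂ : ℕ := ((b + 1) * t) % p with ht₂
  have hpos : ∀ c : ℕ, 0 < c → c < p → 0 < (c * t) % p := by
    intro c hc hc'
    refine Nat.pos_of_ne_zero fun h => ?_
    rcases (Nat.Prime.dvd_mul hp).1 (Nat.dvd_of_mod_eq_zero h) with h3 | h3
    · exact absurd (Nat.le_of_dvd hc h3) (by omega)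
    · exact htn h3
  have h1p : 0 < t₁ := hpos b (by omega) (by omega)
  have h1l : t₁ < p := Nat.mod_lt _ hp.pos
  have h2p : 0 < t₂ := hpos (b + 1) (by omega) (by omega)
  have h2l : t₂ < p := Nat.mod_lt _ hp.pos
  have e1 : ω⁻¹ ^ (m * (b * t)) = ω⁻¹ ^ (m * t₁) := hred (b * t)
  have e2 : ω⁻¹ ^ (m * t) * ω⁻¹ ^ (m * (b * t)) = ω⁻¹ ^ (m * t₂) := by
    rw [← pow_add, ← hred ((b + 1) * t)]
    congr 1
    ring
  have h1 : ω⁻¹ ^ (m * t) * ω⁻¹ ^ (m * (b * t)) ≠ 1 := by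
    rw [e2]
    exact hne t₂ h2p h2l
  have h2 := jacobiSum_mul_nontrivial h1 ψ
  rw [e2, e1] at h2
  rw [e1]
  have hJ0 : jacobiSum (ω⁻¹ ^ (m * t)) (ω⁻¹ ^ (m * t₁)) ≠ 0 := by
    intro h
    rw [h, mul_zero] at h2
    rcases mul_eq_zero.1 h2.symm with h3 | h3
    · exact hGne t ht htp h3
    · exact hGne t₁ h1p h1l h3
  have h3 := JVal_span_mul L _ _ (hGne t₂ h2p h2l) hJ0
  have h4 := JVal_span_mul L _ _ (hGne t ht htp) (hGne t₁ h1p h1l)
  rw [h2, h4] at h3
  have s0 := hS t ht htp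
  have s1 := hS t₁ h1p h1l
  have s2 := hS t₂ h2p h2l
  have s1' : ∑ i ∈ Finset.range f, (l ^ i * t₁) % p = ∑ i ∈ Finset.range f, (l ^ i * (b * t)) % p :=
    Finset.sum_congr rfl fun i _ => by rw [ht₁, Nat.mul_mod_mod]
  have s2' : ∑ i ∈ Finset.range f, (l ^ i * t₂) % p =
      ∑ i ∈ Finset.range f, (l ^ i * ((b + 1) * t)) % p :=
    Finset.sum_congr rfl fun i _ => by rw [ht₂, Nat.mul_mod_mod]
  rw [s1'] at s1
  rw [s2'] at s2
  have hsum := JVal_sum p l f t b hlp htn hb'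
  set N : ℕ := ((Finset.range f).filter (fun i =>
          p < (l ^ i * t) % p + (l ^ i * (b * t)) % p)).card with hN
  set J : ℕ := ordI L (Ideal.span {jacobiSum (ω⁻¹ ^ (m * t)) (ω⁻¹ ^ (m * t₁))}) with hJ
  set o : ℕ := ordI L (Ideal.span {(l : R)}) with ho
  have h5 : p * J = p * (o * N) := by
    have h6 : p * ordI L (Ideal.span {gaussSum (ω⁻¹ ^ (m * t)) ψ}) +
        p * ordI L (Ideal.span {gaussSum (ω⁻¹ ^ (m * t₁)) ψ}) =
        p * ordI L (Ideal.span {gaussSum (ω⁻¹ ^ (m * t₂)) ψ}) + p * J := by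
      rw [← mul_add, h3, mul_add]
    rw [s0, s1, s2, ← add_mul, hsum, add_mul] at h6
    have h7 := Nat.add_left_cancel h6
    rw [← h7]
    ring
  exact Nat.eq_of_mul_eq_mul_left hp.pos h5

theorem jac_val (p : ℕ) [Fact p.Prime] (M : Type*) [Field M] [NumberField M]
    [IsCyclotomicExtension {p} ℚ M] {k : Type*} [Field k] [Fintype k] (π : 𝓞 M →+* k)
    (hπ : Function.Surjective π) (hp : (p : k) ≠ 0) (l f : ℕ) (hl : ringChar k = l)
    (hcard : Fintype.card k = l ^ f) (χ : MulChar k (𝓞 M)) (hχ : χ ^ p = 1) (hχ1 : χ ≠ 1)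
    (hχπ : ∀ x : k, x ≠ 0 → π (χ x) = x ^ ((Fintype.card k - 1) / p)) (b : ℕ) (hb : 1 ≤ b)
    (hb' : b + 2 ≤ p) (σ : M ≃ₐ[ℚ] M) :
    ordI (RingHom.ker π) (Ideal.span {σ • jacobiSum χ⁻¹ (χ⁻¹ ^ b)})
      = ((Finset.range f).filter (fun i =>
          p < (l ^ i * (IsCyclotomicExtension.Rat.galEquivZMod p M σ).val.val) % p
            + (l ^ i * (b * (IsCyclotomicExtension.Rat.galEquivZMod p M σ).val.val)) % p)).card := by
  classical
  have hpp : p.Prime := Fact.out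
  haveI hlf : Fact l.Prime := by
    rw [← hl]
    exact ⟨CharP.char_is_prime k (ringChar k)⟩
  haveI hchk : CharP k l := by rw [← hl]; exact ringChar.charP k
  have hl1 : 1 < l := hlf.out.one_lt
  have hlpne : l ≠ p := by
    rintro rfl
    exact hp (CharP.cast_eq_zero k l)
  have hlp : ¬ p ∣ l := fun h => hlpne ((Nat.prime_dvd_prime_iff_eq hpp hlf.out).1 h).symm
  have hQ1 : 1 < Fintype.card k := Fintype.one_lt_card
  obtain ⟨m, hm⟩ := (exists_resChar p M π hp).1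
  have hm0 : 0 < m := by
    rcases Nat.eq_zero_or_pos m with h | h
    · rw [h, mul_zero] at hm
      omega
    · exact h
  have hmdiv : (Fintype.card k - 1) / p = m := by
    rw [hm]
    exact Nat.mul_div_cancel_left m hpp.pos
  set t : ℕ := (IsCyclotomicExtension.Rat.galEquivZMod p M σ).val.val with ht
  have ht0 : 0 < t := by
    refine Nat.pos_of_ne_zero fun h => ?_
    rw [ht, ZMod.val_eq_zero] at h
    exact (Units.ne_zero _) h
  have htp : t < p := ZMod.val_lt _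
  rw [smul_jac p M χ hχ b σ, ← ht]
  obtain ⟨E, _, _, _, L, ι, ω, z, hLp, hL0, hιπ, hω, hz⟩ := exists_teich M π hπ
  obtain ⟨ψ, hψ, hψ'⟩ := exists_addChar hz
  haveI hdom : IsDomain (𝓞 E ⧸ L) := Ideal.Quotient.isDomain L
  haveI hchR : CharP (𝓞 E ⧸ L) l := charP_of_injective_ringHom ι.injective l
  set i : 𝓞 M →+* 𝓞 E := algebraMap (𝓞 M) (𝓞 E) with hi
  -- `L` lies over `ker π`
  have hcomap : L.comap i = RingHom.ker π := by
    ext x
    rw [Ideal.mem_comap, RingHom.mem_ker, ← Ideal.Quotient.eq_zero_iff_mem, hi, ← hιπ x]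
    constructor
    · intro h
      exact ι.injective (by rw [h, map_zero])
    · intro h
      rw [h, map_zero]
  have hkp : (RingHom.ker π).IsPrime := RingHom.ker_isPrime π
  -- the residue character in terms of `ω`
  have hQu : Fintype.card kˣ = Fintype.card k - 1 := Fintype.card_units k
  have hf : f ≠ 0 := by
    rintro rfl
    rw [pow_zero] at hcard
    omega
  have hχω : χ.ringHomComp i = ω ^ m := by
    refine MulChar.ext fun x => ?_
    have hQL : (((Fintype.card k - 1 : ℕ) : ℕ) : 𝓞 E ⧸ L) ≠ 0 := by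
      intro h
      rw [CharP.cast_eq_zero_iff (𝓞 E ⧸ L) l] at h
      have h2 : l ∣ Fintype.card k := by
        rw [hcard]
        exact dvd_pow_self l hf
      have h3 : l ∣ 1 := by
        have := (Nat.dvd_sub h2 h)
        rwa [Nat.sub_sub_self (by omega)] at this
      exact absurd (Nat.le_of_dvd one_pos h3) (by omega)
    refine JVal_inj L (Fintype.card k - 1) (by omega) hQL _ _ ?_ ?_ ?_
    · rw [← MulChar.pow_apply_coe, ← hQu, MulChar.pow_card_eq_one, MulChar.one_apply_coe]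
    · rw [← MulChar.pow_apply_coe, ← hQu, MulChar.pow_card_eq_one, MulChar.one_apply_coe]
    · rw [MulChar.ringHomComp_apply, MulChar.pow_apply_coe, map_pow, hω, hi, ← hιπ,
        hχπ x x.ne_zero, hmdiv, map_pow]
  -- the image of the Jacobi sum
  have hc1 : ((χ ^ t)⁻¹).ringHomComp i = ω⁻¹ ^ (m * t) := by
    rw [← MulChar.ringHomComp_inv, ← MulChar.ringHomComp_pow, hχω, ← pow_mul, inv_pow]
  have hc2 : ((χ ^ t)⁻¹ ^ b).ringHomComp i = ω⁻¹ ^ (m * (b * t)) := by
    rw [← MulChar.ringHomComp_pow, hc1, ← pow_mul]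
    congr 1
    ring
  have hJi : i (jacobiSum (χ ^ t)⁻¹ ((χ ^ t)⁻¹ ^ b)) =
      jacobiSum (ω⁻¹ ^ (m * t)) (ω⁻¹ ^ (m * (b * t))) := by
    rw [← jacobiSum_ringHomComp, hc1, hc2]
  have hm' : l ^ f - 1 = p * m := by rw [← hcard]; exact hm
  have hcore := JVal_core L hLp hL0 ι ω hω ψ hψ hψ' l f hl hcard p hlp m hm0 hm' b t hb hb' ht0 htp
  set N : ℕ := ((Finset.range f).filter (fun i =>
          p < (l ^ i * t) % p + (l ^ i * (b * t)) % p)).card with hN
  have hik : (l : 𝓞 M) ∈ RingHom.ker π := by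
    rw [RingHom.mem_ker, map_natCast]
    exact CharP.cast_eq_zero k l
  have hlM : (l : 𝓞 M) ≠ 0 := Nat.cast_ne_zero.2 (by omega)
  have hord1 := dec_ord p M l hlpne (RingHom.ker π) hkp hik
  set e : ℕ := ordI L ((L.comap i).map i) with he
  have hepos : 0 < e := ordI_comap_map_pos M E L hLp hL0
  have hspan : ∀ x : 𝓞 M, x ≠ 0 → ordI L (Ideal.span {i x}) =
      e * ordI (RingHom.ker π) (Ideal.span {x}) := by
    intro x hx
    have h1 := ordI_algebraMap M E L hLp hL0 (Ideal.span {x})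
      (by rw [Ne, Ideal.span_singleton_eq_bot]; exact hx)
    rw [Ideal.map_span, Set.image_singleton] at h1
    rw [← hcomap]
    exact h1
  have hol : ordI L (Ideal.span {((l : ℕ) : 𝓞 E)}) = e := by
    have h1 := hspan (l : 𝓞 M) hlM
    rw [hord1, mul_one, map_natCast] at h1
    exact h1
  have hJM : jacobiSum (χ ^ t)⁻¹ ((χ ^ t)⁻¹ ^ b) ≠ 0 := by
    intro h0
    rw [ht, ← smul_jac p M χ hχ b σ, smul_eq_zero_iff_eq] at h0
    have h1 := jac_mul_cj p M χ hχ hχ1 b hb hb'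
    rw [h0, zero_mul] at h1
    exact absurd h1.symm (Nat.cast_ne_zero.2 (by omega))
  have h1 := hspan _ hJM
  rw [hJi, hcore, hol] at h1
  exact (Nat.eq_of_mul_eq_mul_left hepos h1).symm

end H9FC
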