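import Pool.Agent.H9.FC.Red

/-!
# Project FC9, module ModQ

The norm form modulo a prime `q` is quasi-palindromic if all ratios `ψ_i a / ψ_i b` satisfy
`x² = 1` or `x^(q+1) = 1`.

PROOF. Let `d = [K:ℚ]`, `m_a`, `m_b` the numbers of `i` with `ψ_i a = 0`, `ψ_i b = 0`, and let `I` be the
set of the other `i`; by `hab`, `#I = d - m_a - m_b`. In `Ω[X]` the norm form is
`F = ∏ (ψ_i a + X ψ_i b) = u X^m_a R`, with a constant `u ≠ 0` and `R = ∏_{i ∈ I} (X + x_i)`,
`x_i = ψ_i a / ψ_i b`. Likewise the reflected form is `F* = ∏ (X ψ_i a + ψ_i b)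
= u X^m_b ∏_{i ∈ I} (1 + X x_i) = u v X^m_b ∏_{i ∈ I} (X + x_i⁻¹)`, `v = ∏_{i ∈ I} x_i`.
For `y ≠ 0` let `n(y)` be the number of the `i ∈ I` with `-x_i = y`, the multiplicity of the zero `y`
of `F`.  Since `F` has coefficients in `𝔽_q`, `n(y) = n(y^q)` (apply the Frobenius automorphism of
`Ω`, Mathlib `frobenius`, to the coefficients of `F`).
If `n(y) > 0` then `y² = 1` or `y^(q+1) = 1` (the sign disappears: `q + 1` is even or `q = 2`), i.e.
`y⁻¹ = y` or `y⁻¹ = y^q`, so `n(y⁻¹) = n(y)`. Hence the multisets `{-x_i}` and `{-x_i⁻¹}` are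
equal (if `n(y⁻¹) > 0` use `y⁻¹` for `y`), so `∏ (X + x_i) = ∏ (X + x_i⁻¹)` and `v = v⁻¹`, `v = ± 1`.
So `X^m_b F = u X^(m_a+m_b) R = v⁻¹ X^m_a F*`, an identity in `Ω[X]`, hence in `(ZMod q)[X]`
(`Polynomial.map_injective`), `ε = v = ± 1`.
(`F* = ∏ (X ψ_i a + ψ_i b)` is `nf_swap` and `hψ b a`.)
-/

namespace H9FC

open Polynomial NumberField

section abstractPart

variable {ι Ω : Type*} [Fintype ι] [Field Ω]

open scoped Classical in
private noncomputable def ModQ_I (α β : ι → Ω) : Finset ι :=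
  Finset.univ.filter (fun i => β i ≠ 0 ∧ α i ≠ 0)

open scoped Classical in
private noncomputable def ModQ_Z (α : ι → Ω) : Finset ι := Finset.univ.filter (fun i => α i = 0)

private theorem ModQ_I_swap (α β : ι → Ω) : ModQ_I β α = ModQ_I α β := by
  classical
  unfold ModQ_I
  ext i
  simp only [Finset.mem_filter, Finset.mem_univ, true_and]
  exact and_comm

private theorem ModQ_mem_I {α β : ι → Ω} {i : ι} : i ∈ ModQ_I α β ↔ β i ≠ 0 ∧ α i ≠ 0 := by
  unfold ModQ_I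
  simp only [Finset.mem_filter, Finset.mem_univ, true_and]

private theorem ModQ_mem_Z {α : ι → Ω} {i : ι} : i ∈ ModQ_Z α ↔ α i = 0 := by
  unfold ModQ_Z
  simp only [Finset.mem_filter, Finset.mem_univ, true_and]

private theorem ModQ_card (α : ι → Ω) : Nat.card {i // α i = 0} = (ModQ_Z α).card := by
  classical
  rw [Nat.card_eq_fintype_card, Fintype.card_subtype]
  rfl

private theorem ModQ_split (α β : ι → Ω) (h : ∀ i, ¬ (α i = 0 ∧ β i = 0)) (g : ι → Polynomial Ω) :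
    ∏ i, g i = (∏ i ∈ ModQ_Z β, g i) * ((∏ i ∈ ModQ_Z α, g i) * ∏ i ∈ ModQ_I α β, g i) := by
  classical
  have e1 : ModQ_Z β = Finset.univ.filter (fun i => β i = 0) := by
    ext i
    rw [ModQ_mem_Z, Finset.mem_filter]
    simp
  have e2 : ModQ_Z α = (Finset.univ.filter (fun i => ¬ β i = 0)).filter (fun i => α i = 0) := by
    ext i
    rw [ModQ_mem_Z, Finset.mem_filter, Finset.mem_filter]
    constructor
    · intro h1
      exact ⟨⟨Finset.mem_univ _, fun h2 => h i ⟨h1, h2⟩⟩, h1⟩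
    · intro h1
      exact h1.2
  have e3 : ModQ_I α β = (Finset.univ.filter (fun i => ¬ β i = 0)).filter (fun i => ¬ α i = 0) := by
    ext i
    rw [ModQ_mem_I, Finset.mem_filter, Finset.mem_filter]
    simp
  rw [e1, e2, e3, Finset.prod_filter_mul_prod_filter_not, Finset.prod_filter_mul_prod_filter_not]

private noncomputable def ModQ_u (α β : ι → Ω) : Ω :=
  (∏ i ∈ ModQ_Z β, α i) * ((∏ i ∈ ModQ_Z α, β i) * ∏ i ∈ ModQ_I α β, β i)

private theorem ModQ_D (α β : ι → Ω) (h : ∀ i, ¬ (α i = 0 ∧ β i = 0)) :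
    ∏ i, (C (α i) + X * C (β i)) =
      C (ModQ_u α β) * X ^ (ModQ_Z α).card * ∏ i ∈ ModQ_I α β, (X + C (α i / β i)) := by
  rw [ModQ_split α β h]
  have e1 : ∏ i ∈ ModQ_Z β, (C (α i) + X * C (β i)) = C (∏ i ∈ ModQ_Z β, α i) := by
    rw [map_prod]
    refine Finset.prod_congr rfl fun i hi => ?_
    rw [ModQ_mem_Z.1 hi, C_0, mul_zero, add_zero]
  have e2 : ∏ i ∈ ModQ_Z α, (C (α i) + X * C (β i)) = X ^ (ModQ_Z α).card * C (∏ i ∈ ModQ_Z α, β i) := by
    rw [map_prod, ← Finset.prod_const, ← Finset.prod_mul_distrib]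
    refine Finset.prod_congr rfl fun i hi => ?_
    rw [ModQ_mem_Z.1 hi, C_0, zero_add]
  have e3 : ∏ i ∈ ModQ_I α β, (C (α i) + X * C (β i)) =
      C (∏ i ∈ ModQ_I α β, β i) * ∏ i ∈ ModQ_I α β, (X + C (α i / β i)) := by
    rw [map_prod, ← Finset.prod_mul_distrib]
    refine Finset.prod_congr rfl fun i hi => ?_
    rw [mul_add, ← C_mul, mul_div_cancel₀ _ (ModQ_mem_I.1 hi).1]
    ring
  rw [e1, e2, e3]
  unfold ModQ_u
  rw [C_mul, C_mul]
  ring

private theorem ModQ_u_ne (α β : ι → Ω) (h : ∀ i, ¬ (α i = 0 ∧ β i = 0)) : ModQ_u α β ≠ 0 := by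
  unfold ModQ_u
  refine mul_ne_zero ?_ (mul_ne_zero ?_ ?_)
  · rw [Finset.prod_ne_zero_iff]
    intro i hi h1
    exact h i ⟨h1, ModQ_mem_Z.1 hi⟩
  · rw [Finset.prod_ne_zero_iff]
    intro i hi h1
    exact h i ⟨ModQ_mem_Z.1 hi, h1⟩
  · rw [Finset.prod_ne_zero_iff]
    intro i hi
    exact (ModQ_mem_I.1 hi).1

/-- the multiset of the ratios -/
private noncomputable def ModQ_M (α β : ι → Ω) : Multiset Ω := (ModQ_I α β).val.map (fun i => α i / β i)

private theorem ModQ_R (α β : ι → Ω) :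
    ∏ i ∈ ModQ_I α β, (X + C (α i / β i)) = ((ModQ_M α β).map (fun x => X + C x)).prod := by
  unfold ModQ_M
  rw [Multiset.map_map]
  rfl

private theorem ModQ_inj (M M' : Multiset Ω)
    (h : (M.map (fun x => X + C x)).prod = (M'.map (fun x => X + C x)).prod) : M = M' := by
  have key : ∀ N : Multiset Ω, (N.map (fun x => X + C x)).prod.roots = N.map (fun x => -x) := by
    intro N
    rw [← roots_multiset_prod_X_sub_C (N.map (fun x => -x)), Multiset.map_map]
    congr 3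
    funext x
    simp only [Function.comp, C_neg, sub_neg_eq_add]
  have h1 := congrArg Polynomial.roots h
  rw [key, key] at h1
  exact Multiset.map_injective neg_injective h1

private theorem ModQ_monic (M : Multiset Ω) : (M.map (fun x => X + C x)).prod.Monic := by
  apply monic_multiset_prod_of_monic
  intro x _
  exact monic_X_add_C x

private theorem ModQ_frob (q : ℕ) [Fact q.Prime] [CharP Ω q] (α β : ι → Ω)
    (h : ∀ i, ¬ (α i = 0 ∧ β i = 0))
    (hP : ∏ i, (C (α i) + X * C (β i)) = ∏ i, (C (α i ^ q) + X * C (β i ^ q))) :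
    (ModQ_M α β).map (fun x => x ^ q) = ModQ_M α β := by
  have hq0 : q ≠ 0 := (Fact.out : q.Prime).ne_zero
  have h' : ∀ i, ¬ (α i ^ q = 0 ∧ β i ^ q = 0) := by
    intro i hi
    rw [pow_eq_zero_iff hq0, pow_eq_zero_iff hq0] at hi
    exact h i hi
  rw [ModQ_D α β h, ModQ_D (fun i => α i ^ q) (fun i => β i ^ q) h', ModQ_R, ModQ_R] at hP
  have eZ : ModQ_Z (fun i => α i ^ q) = ModQ_Z α := by
    ext i
    rw [ModQ_mem_Z, ModQ_mem_Z, pow_eq_zero_iff hq0]
  have eI : ModQ_I (fun i => α i ^ q) (fun i => β i ^ q) = ModQ_I α β := by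
    ext i
    rw [ModQ_mem_I, ModQ_mem_I, Ne, Ne, pow_eq_zero_iff hq0, pow_eq_zero_iff hq0]
  have eM : ModQ_M (fun i => α i ^ q) (fun i => β i ^ q) = (ModQ_M α β).map (fun x => x ^ q) := by
    unfold ModQ_M
    rw [eI, Multiset.map_map]
    refine Multiset.map_congr rfl fun i _ => ?_
    simp only [Function.comp, div_pow]
  rw [eZ, eM] at hP
  set u := ModQ_u α β with hu
  set u' := ModQ_u (fun i => α i ^ q) (fun i => β i ^ q) with hu'
  set R := ((ModQ_M α β).map (fun x => X + C x)).prod with hR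
  set R' := (((ModQ_M α β).map (fun x => x ^ q)).map (fun x => X + C x)).prod with hR'
  have hu0 : u ≠ 0 := ModQ_u_ne α β h
  have hlead := congrArg Polynomial.leadingCoeff hP
  rw [leadingCoeff_mul, leadingCoeff_mul, leadingCoeff_C, leadingCoeff_X_pow, mul_one,
    (ModQ_monic _).leadingCoeff, leadingCoeff_mul, leadingCoeff_mul, leadingCoeff_C, leadingCoeff_X_pow, mul_one,
    (ModQ_monic _).leadingCoeff, mul_one, mul_one] at hlead
  rw [← hlead] at hP
  have h3 : C u * X ^ (ModQ_Z α).card ≠ 0 :=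
    mul_ne_zero (C_ne_zero.2 hu0) (pow_ne_zero _ X_ne_zero)
  exact (ModQ_inj _ _ (mul_left_cancel₀ h3 hP)).symm

private theorem ModQ_inv (q : ℕ) [Fact q.Prime] [CharP Ω q] (M : Multiset Ω)
    (hM : M.map (fun x => x ^ q) = M) (h0 : ∀ x ∈ M, x ≠ 0)
    (h : ∀ x ∈ M, x ^ 2 = 1 ∨ x ^ (q + 1) = 1) : M.map (fun x => x⁻¹) = M := by
  classical
  have hfrob : Function.Injective (fun x : Ω => x ^ q) := by
    have := frobenius_inj Ω q
    exact this
  have hn : ∀ y : Ω, M.count (y ^ q) = M.count y := by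
    intro y
    have h1 := Multiset.count_map_eq_count' (fun x : Ω => x ^ q) M hfrob y
    rw [hM] at h1
    exact h1
  have hinv : ∀ y : Ω, y ∈ M → M.count y⁻¹ = M.count y := by
    intro y hy
    have hy0 := h0 y hy
    rcases h y hy with h1 | h1
    · have : y⁻¹ = y := by
        rw [inv_eq_iff_eq_inv, ← mul_eq_one_iff_eq_inv₀ hy0, ← pow_two, h1]
      rw [this]
    · have : y⁻¹ = y ^ q := by
        rw [inv_eq_iff_eq_inv, ← mul_eq_one_iff_eq_inv₀ (pow_ne_zero _ hy0), ← pow_succ', h1]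
      rw [this, hn]
  ext y
  have h1 := Multiset.count_map_eq_count' (fun x : Ω => x⁻¹) M inv_injective y⁻¹
  rw [inv_inv] at h1
  rw [h1]
  by_cases hy : y ∈ M
  · exact hinv y hy
  · by_cases hy' : y⁻¹ ∈ M
    · have := hinv y⁻¹ hy'
      rw [inv_inv] at this
      exact this.symm
    · rw [Multiset.count_eq_zero_of_notMem hy, Multiset.count_eq_zero_of_notMem hy']

private theorem ModQ_main (q : ℕ) [Fact q.Prime] [CharP Ω q] (α β : ι → Ω)
    (h : ∀ i, ¬ (α i = 0 ∧ β i = 0))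
    (hH : ∀ i, α i = 0 ∨ β i = 0 ∨ α i ^ 2 = β i ^ 2 ∨ α i ^ (q + 1) = β i ^ (q + 1))
    (hP : ∏ i, (C (α i) + X * C (β i)) = ∏ i, (C (α i ^ q) + X * C (β i ^ q))) :
    ∃ ε : ℤˣ, X ^ (ModQ_Z β).card * ∏ i, (C (α i) + X * C (β i))
      = C (((ε : ℤ) : Ω)) * X ^ (ModQ_Z α).card * ∏ i, (C (β i) + X * C (α i)) := by
  have hM := ModQ_frob q α β h hP
  have hx0 : ∀ x ∈ ModQ_M α β, x ≠ 0 := by
    intro x hx
    unfold ModQ_M at hx
    obtain ⟨i, hi, rfl⟩ := Multiset.mem_map.1 hx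
    have := ModQ_mem_I.1 hi
    exact div_ne_zero this.2 this.1
  have hx1 : ∀ x ∈ ModQ_M α β, x ^ 2 = 1 ∨ x ^ (q + 1) = 1 := by
    intro x hx
    unfold ModQ_M at hx
    obtain ⟨i, hi, rfl⟩ := Multiset.mem_map.1 hx
    have hi' := ModQ_mem_I.1 hi
    rcases hH i with h1 | h1 | h1 | h1
    · exact absurd h1 hi'.2
    · exact absurd h1 hi'.1
    · left
      rw [div_pow, h1, div_self (pow_ne_zero _ hi'.1)]
    · right
      rw [div_pow, h1, div_self (pow_ne_zero _ hi'.1)]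
  have hMinv := ModQ_inv q _ hM hx0 hx1
  have h' : ∀ i, ¬ (β i = 0 ∧ α i = 0) := fun i hi => h i ⟨hi.2, hi.1⟩
  have eM : ModQ_M β α = (ModQ_M α β).map (fun x => x⁻¹) := by
    unfold ModQ_M
    rw [ModQ_I_swap, Multiset.map_map]
    refine Multiset.map_congr rfl fun i _ => ?_
    simp only [Function.comp, inv_div]
  rw [ModQ_D α β h, ModQ_D β α h', ModQ_R, ModQ_R, eM, hMinv]
  -- the constant
  obtain ⟨v, hv⟩ : ∃ v : Ω, v = (ModQ_M α β).prod := ⟨_, rfl⟩
  have hv2 : v * v = 1 := by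
    have h1 : ((ModQ_M α β).map (fun x => x⁻¹)).prod = v⁻¹ := by
      rw [hv, Multiset.prod_map_inv']
    rw [hMinv, ← hv] at h1
    have hv0 : v ≠ 0 := by
      rw [hv]
      apply Multiset.prod_ne_zero
      intro h0
      exact hx0 0 h0 rfl
    nth_rewrite 1 [h1]
    exact inv_mul_cancel₀ hv0
  have hu : ModQ_u β α = ModQ_u α β * v := by
    have h1 : v = ∏ i ∈ ModQ_I α β, (α i / β i) := by
      rw [hv]
      rfl
    unfold ModQ_u
    rw [h1, ModQ_I_swap]
    have h2 : ∏ i ∈ ModQ_I α β, α i = (∏ i ∈ ModQ_I α β, β i) * ∏ i ∈ ModQ_I α β, (α i / β i) := by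
      rw [← Finset.prod_mul_distrib]
      refine Finset.prod_congr rfl fun i hi => ?_
      rw [mul_div_cancel₀ _ (ModQ_mem_I.1 hi).1]
    rw [h2]
    ring
  have hv3 : v = 1 ∨ v = -1 := mul_self_eq_one_iff.1 hv2
  obtain ⟨ε, hε⟩ : ∃ ε : ℤˣ, (((ε : ℤ)) : Ω) = v := by
    rcases hv3 with h1 | h1
    · exact ⟨1, by rw [h1]; simp⟩
    · exact ⟨-1, by rw [h1]; simp⟩
  refine ⟨ε, ?_⟩
  rw [hε, hu, C_mul]
  have h5 : C v * C v = (1 : Polynomial Ω) := by rw [← C_mul, hv2, C_1]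
  linear_combination (-(X ^ (ModQ_Z β).card * (C (ModQ_u α β) * X ^ (ModQ_Z α).card *
    ((ModQ_M α β).map (fun x => X + C x)).prod))) * h5

end abstractPart

theorem modq_rel {K : Type*} [Field K] [NumberField K] (q : ℕ) [Fact q.Prime]
    {Ω : Type*} [Field Ω] [Algebra (ZMod q) Ω] {ψ : Fin (Module.finrank ℚ K) → (𝓞 K →+* Ω)}
    (hψ : IsRedFam ψ) (a b : 𝓞 K) (hab : ∀ i, ¬ (ψ i a = 0 ∧ ψ i b = 0))
    (hH : ∀ i, ψ i a = 0 ∨ ψ i b = 0 ∨ ψ i a ^ 2 = ψ i b ^ 2 ∨
      ψ i a ^ (q + 1) = ψ i b ^ (q + 1)) :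
    ∃ ε : ℤˣ, X ^ (Nat.card {i // ψ i b = 0}) * (nf K a b).map (Int.castRingHom (ZMod q))
      = C (((ε : ℤ) : ZMod q)) * X ^ (Nat.card {i // ψ i a = 0})
        * ((nf K a b).reflect (Module.finrank ℚ K)).map (Int.castRingHom (ZMod q)) := by
  have hchar : CharP Ω q := charP_of_injective_algebraMap (algebraMap (ZMod q) Ω).injective q
  have hP : ∏ i, (C (ψ i a) + X * C (ψ i b)) = ∏ i, (C (ψ i a ^ q) + X * C (ψ i b ^ q)) := by
    have h1 := congrArg (Polynomial.map (frobenius Ω q)) (hψ a b)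
    rw [Polynomial.map_map] at h1
    have h2 : (frobenius Ω q).comp (Int.castRingHom Ω) = Int.castRingHom Ω := RingHom.ext_int _ _
    rw [h2, hψ a b, Polynomial.map_prod] at h1
    rw [h1]
    refine Finset.prod_congr rfl fun i _ => ?_
    rw [Polynomial.map_add, Polynomial.map_mul, map_C, map_C, map_X]
    rfl
  obtain ⟨ε, hε⟩ := ModQ_main q (fun i => ψ i a) (fun i => ψ i b) hab hH hP
  refine ⟨ε, ?_⟩
  apply Polynomial.map_injective (algebraMap (ZMod q) Ω) (algebraMap (ZMod q) Ω).injective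
  have h3 : (algebraMap (ZMod q) Ω).comp (Int.castRingHom (ZMod q)) = Int.castRingHom Ω := RingHom.ext_int _ _
  rw [Polynomial.map_mul, Polynomial.map_mul, Polynomial.map_mul, Polynomial.map_map, Polynomial.map_map, h3,
    Polynomial.map_pow, Polynomial.map_pow, map_X, map_C, map_intCast, ← nf_swap, hψ a b, hψ b a]
  rw [ModQ_card (fun i => ψ i a), ModQ_card (fun i => ψ i b)]
  exact hε

end H9FC
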