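import Pool.Agent.H9.FC.Defs

/-!
# Project FC9, module NfEmb

Factorisation of the norm form `nf K a b = N_{K/ℚ}(a + bX)` over a field `E` of characteristic `0`
which contains all conjugates of `K`, and elementary consequences.

PROOF. Let `E` be a field of characteristic zero with exactly `d = [K:ℚ]` homomorphisms `σ : K → E`.
For an integer `t` the matrix `M_a + t M_b` is the matrix of multiplication by `a + t b` in the
basis `RingOfIntegers.basis K` (and in the basis `integralBasis K` of `K` over `ℚ`), hence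
`(nf K a b)(t) = N_{K/ℚ}(a + t b)`.  In an algebraic closure `Ē` of `E` this norm is the product of
`σ(a) + t σ(b)` over all `σ : K → Ē` (Mathlib: `Algebra.norm_eq_prod_embeddings`), and these `σ`
are exactly the compositions of the `d` homomorphisms `K → E` with `E ⊆ Ē` (an injective map
between finite sets with `d` elements; `AlgHom.card`).  So both sides of `nf_map_prod` agree at all
integers `t`, so they are equal (`E` is infinite).  The remaining statements are immediate:
evaluate, compare degrees, coefficients; for `nf_swap` and `nf_homog` use the product formula over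
`ℂ` (or `AlgebraicClosure ℚ`): `x ^ d * F (y / x) = ∏ (σ(a) x + σ(b) y)`, or argue with the
determinant directly.  The derivative at `1` is `∑_σ σ(b) ∏_{τ ≠ σ} (τ(a) + τ(b))`, the coefficient
of `X` in `nf K 1 x` is `∑_σ σ(x) = Tr(x)`.
-/

namespace H9FC

open Polynomial NumberField

private theorem NfEmb_form (K : Type*) [Field K] [NumberField K] (a b : 𝓞 K) :
    nf K a b = Matrix.det ((X : ℤ[X]) • (Algebra.leftMulMatrix (RingOfIntegers.basis K) b).map (C : ℤ →+* ℤ[X])
      + (Algebra.leftMulMatrix (RingOfIntegers.basis K) a).map (C : ℤ →+* ℤ[X])) := by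
  unfold nf
  rw [add_comm]

private theorem NfEmb_card (K : Type*) [Field K] [NumberField K] :
    Fintype.card (Module.Free.ChooseBasisIndex ℤ (𝓞 K)) = Module.finrank ℚ K := by
  rw [← Module.finrank_eq_card_chooseBasisIndex, RingOfIntegers.rank]

private theorem NfEmb_eval (K : Type*) [Field K] [NumberField K] (a b : 𝓞 K) (t : ℤ) :
    (nf K a b).eval t = Algebra.norm ℤ (a + (t : 𝓞 K) * b) := by
  unfold nf
  rw [← coe_evalRingHom, RingHom.map_det, Algebra.norm_eq_matrix_det (RingOfIntegers.basis K)]
  congr 1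
  rw [map_add (Algebra.leftMulMatrix (RingOfIntegers.basis K)), map_mul (Algebra.leftMulMatrix (RingOfIntegers.basis K))]
  have h1 : Algebra.leftMulMatrix (RingOfIntegers.basis K) (t : 𝓞 K) = (t : Matrix _ _ ℤ) := by
    rw [map_intCast]
  have h2 : (t : Matrix (Module.Free.ChooseBasisIndex ℤ (𝓞 K)) (Module.Free.ChooseBasisIndex ℤ (𝓞 K)) ℤ) *
      (Algebra.leftMulMatrix (RingOfIntegers.basis K) b) = t • Algebra.leftMulMatrix (RingOfIntegers.basis K) b :=
    (zsmul_eq_mul _ _).symm
  rw [h1, h2]
  ext i j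
  simp only [RingHom.mapMatrix_apply, Matrix.map_apply, Matrix.add_apply, Matrix.smul_apply, coe_evalRingHom,
    eval_add, eval_C, smul_eq_mul, eval_mul, eval_X]

private theorem NfEmb_norm (K : Type*) [Field K] [NumberField K] (E : Type*) [Field E] [Algebra ℚ E]
    (hE : Fintype.card (K →ₐ[ℚ] E) = Module.finrank ℚ K) (x : 𝓞 K) :
    ((Algebra.norm ℤ x : ℤ) : E) = ∏ σ : K →ₐ[ℚ] E, σ (x : K) := by
  let A := AlgebraicClosure E
  have hinj : Function.Injective (algebraMap E A) := (algebraMap E A).injective
  apply hinj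
  rw [map_prod, map_intCast]
  have h1 : ((Algebra.norm ℤ x : ℤ) : A) = algebraMap ℚ A (Algebra.norm ℚ (x : K)) := by
    rw [← Algebra.coe_norm_int, map_intCast]
  rw [h1, Algebra.norm_eq_prod_embeddings ℚ A (x : K)]
  let F : (K →ₐ[ℚ] E) → (K →ₐ[ℚ] A) := fun σ => (IsScalarTower.toAlgHom ℚ E A).comp σ
  have hF : Function.Injective F := by
    intro σ τ h
    ext y
    apply hinj
    exact DFunLike.congr_fun h y
  have hF2 : Function.Bijective F := by
    rw [Fintype.bijective_iff_injective_and_card]
    refine ⟨hF, ?_⟩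
    rw [hE, AlgHom.card ℚ K A]
  exact (Fintype.prod_bijective F hF2 _ _ fun σ => rfl).symm

/-- the norm form splits over a field containing all conjugates of `K` -/
theorem nf_map_prod (K : Type*) [Field K] [NumberField K] (E : Type*) [Field E] [Algebra ℚ E]
    (hE : Fintype.card (K →ₐ[ℚ] E) = Module.finrank ℚ K) (a b : 𝓞 K) :
    (nf K a b).map (Int.castRingHom E)
      = ∏ σ : K →ₐ[ℚ] E, (C (σ (a : K)) + X * C (σ (b : K))) := by
  have hchar : CharZero E := algebraRat.charZero E
  apply eq_of_infinite_eval_eq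
  refine Set.Infinite.mono ?_ (Set.infinite_range_of_injective (Int.cast_injective (α := E)))
  rintro _ ⟨t, rfl⟩
  show ((nf K a b).map (Int.castRingHom E)).eval (t : E) = eval (t : E) (∏ σ : K →ₐ[ℚ] E, (C (σ (a : K)) + X * C (σ (b : K))))
  have h1 : ((nf K a b).map (Int.castRingHom E)).eval (t : E) = (((nf K a b).eval t : ℤ) : E) := by
    exact eval_intCast_map (Int.castRingHom E) (nf K a b) t
  rw [h1, NfEmb_eval, NfEmb_norm K E hE, eval_prod]
  refine Finset.prod_congr rfl fun σ _ => ?_
  have h2 : ((a + (t : 𝓞 K) * b : 𝓞 K) : K) = (a : K) + (t : K) * (b : K) := by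
    push_cast
    rfl
  rw [h2, map_add, map_mul, map_intCast]
  simp only [eval_add, eval_mul, eval_C, eval_X]

/-- values of the norm form -/
theorem nf_eval (K : Type*) [Field K] [NumberField K] (a b : 𝓞 K) (t : ℤ) :
    (nf K a b).eval t = Algebra.norm ℤ (a + (t : 𝓞 K) * b) := NfEmb_eval K a b t

theorem nf_natDegree_le (K : Type*) [Field K] [NumberField K] (a b : 𝓞 K) :
    (nf K a b).natDegree ≤ Module.finrank ℚ K := by
  rw [NfEmb_form, ← NfEmb_card K]
  exact natDegree_det_X_add_C_le _ _

theorem nf_coeff_zero (K : Type*) [Field K] [NumberField K] (a b : 𝓞 K) :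
    (nf K a b).coeff 0 = Algebra.norm ℤ a := by
  rw [NfEmb_form, coeff_det_X_add_C_zero, Algebra.norm_eq_matrix_det (RingOfIntegers.basis K)]

theorem nf_coeff_top (K : Type*) [Field K] [NumberField K] (a b : 𝓞 K) :
    (nf K a b).coeff (Module.finrank ℚ K) = Algebra.norm ℤ b := by
  rw [NfEmb_form, ← NfEmb_card K, coeff_det_X_add_C_card, Algebra.norm_eq_matrix_det (RingOfIntegers.basis K)]

private theorem NfEmb_reflect {ι : Type*} {E : Type*} [Field E] (s : Finset ι) (u v : ι → E) :
    (∏ i ∈ s, (C (u i) + X * C (v i))).reflect s.card = ∏ i ∈ s, (C (v i) + X * C (u i)) := by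
  classical
  induction s using Finset.induction_on with
  | empty => simp
  | insert i s hi ih =>
    rw [Finset.prod_insert hi, Finset.prod_insert hi, Finset.card_insert_of_notMem hi, add_comm s.card 1,
      reflect_mul, ih]
    · congr 1
      rw [reflect_add, reflect_C, mul_comm X (C (v i)), reflect_C_mul, reflect_one_X]
      ring
    · compute_degree
    · refine (natDegree_prod_le _ _).trans ?_
      refine (Finset.sum_le_card_nsmul _ _ 1 fun j _ => ?_).trans (by simp)
      compute_degree

private theorem NfEmb_cardC (K : Type*) [Field K] [NumberField K] :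
    Fintype.card (K →ₐ[ℚ] ℂ) = Module.finrank ℚ K := AlgHom.card ℚ K ℂ

/-- exchanging `a` and `b` reflects the norm form -/
theorem nf_swap (K : Type*) [Field K] [NumberField K] (a b : 𝓞 K) :
    nf K b a = (nf K a b).reflect (Module.finrank ℚ K) := by
  apply map_injective (Int.castRingHom ℂ) Int.cast_injective
  rw [← reflect_map, nf_map_prod K ℂ (NfEmb_cardC K), nf_map_prod K ℂ (NfEmb_cardC K)]
  have h := NfEmb_reflect (Finset.univ : Finset (K →ₐ[ℚ] ℂ)) (fun σ => σ (a : K)) (fun σ => σ (b : K))
  rw [Finset.card_univ, NfEmb_cardC K] at h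
  exact h.symm

/-- the coefficient of `X` of `N(1 + x X)` is the trace of `x` -/
theorem nf_one_coeff_one (K : Type*) [Field K] [NumberField K] (x : 𝓞 K) :
    (nf K 1 x).coeff 1 = Algebra.trace ℤ (𝓞 K) x := by
  unfold nf
  rw [map_one, Algebra.trace_eq_matrix_trace (RingOfIntegers.basis K)]
  have h1 : ((1 : Matrix (Module.Free.ChooseBasisIndex ℤ (𝓞 K)) (Module.Free.ChooseBasisIndex ℤ (𝓞 K)) ℤ).map
      (C : ℤ →+* ℤ[X])) = 1 := by
    exact Matrix.map_one _ (map_zero _) (map_one _)
  rw [h1]
  exact Matrix.coeff_det_one_add_X_smul_one _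

private theorem NfEmb_homog {ι : Type*} (s : Finset ι) (u v : ι → ℂ) (x y : ℂ) :
    ∏ i ∈ s, (x * u i + y * v i) = ∑ k ∈ Finset.range (s.card + 1),
      (∏ i ∈ s, (C (u i) + X * C (v i))).coeff k * x ^ (s.card - k) * y ^ k := by
  classical
  have hdeg : (∏ i ∈ s, (C (u i) + X * C (v i))).natDegree ≤ s.card := by
    refine (natDegree_prod_le _ _).trans ?_
    refine (Finset.sum_le_card_nsmul _ _ 1 fun j _ => ?_).trans (by simp)
    compute_degree
  by_cases hx : x = 0
  · rw [hx]
    rw [Finset.sum_eq_single s.card]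
    · rw [Nat.sub_self, pow_zero, mul_one]
      have h1 : (∏ i ∈ s, (C (u i) + X * C (v i))).coeff s.card = ∏ i ∈ s, v i := by
        have h2 := coeff_prod_of_natDegree_le s (fun i => C (u i) + X * C (v i)) 1 fun j _ => by compute_degree
        rw [mul_one] at h2
        rw [h2]
        refine Finset.prod_congr rfl fun i _ => ?_
        simp [coeff_C]
      rw [h1]
      simp_rw [zero_mul, zero_add]
      rw [Finset.prod_mul_distrib, Finset.prod_const, mul_comm]
    · intro k hk hne
      rw [Finset.mem_range] at hk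
      rw [zero_pow (by omega), mul_zero, zero_mul]
    · intro h
      exact absurd (Finset.mem_range.2 (Nat.lt_succ_self _)) h
  · have h1 : ∏ i ∈ s, (x * u i + y * v i) = x ^ s.card * (∏ i ∈ s, (C (u i) + X * C (v i))).eval (y / x) := by
      rw [eval_prod, ← Finset.prod_const, ← Finset.prod_mul_distrib]
      refine Finset.prod_congr rfl fun i _ => ?_
      simp only [eval_add, eval_mul, eval_C, eval_X]
      field_simp
    rw [h1, eval_eq_sum_range' (Nat.lt_succ_of_le hdeg), Finset.mul_sum]
    refine Finset.sum_congr rfl fun k hk => ?_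
    rw [Finset.mem_range] at hk
    have h2 : x ^ s.card = x ^ (s.card - k) * x ^ k := by
      rw [← pow_add]
      congr 1
      omega
    rw [h2, div_pow]
    field_simp

/-- the norm of `x a + y b` from the coefficients of the norm form -/
theorem nf_homog (K : Type*) [Field K] [NumberField K] (a b : 𝓞 K) (x y : ℤ) :
    Algebra.norm ℤ ((x : 𝓞 K) * a + (y : 𝓞 K) * b)
      = ∑ i ∈ Finset.range (Module.finrank ℚ K + 1),
          (nf K a b).coeff i * x ^ (Module.finrank ℚ K - i) * y ^ i := by
  have hinj : Function.Injective (Int.cast : ℤ → ℂ) := Int.cast_injective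
  apply hinj
  rw [NfEmb_norm K ℂ (NfEmb_cardC K)]
  have h := NfEmb_homog (Finset.univ : Finset (K →ₐ[ℚ] ℂ)) (fun σ => σ (a : K)) (fun σ => σ (b : K)) x y
  rw [Finset.card_univ, NfEmb_cardC K, ← nf_map_prod K ℂ (NfEmb_cardC K)] at h
  have h2 : ∀ σ : K →ₐ[ℚ] ℂ, σ (((x : 𝓞 K) * a + (y : 𝓞 K) * b : 𝓞 K) : K) = x * σ (a : K) + y * σ (b : K) := by
    intro σ
    have h3 : (((x : 𝓞 K) * a + (y : 𝓞 K) * b : 𝓞 K) : K) = (x : K) * (a : K) + (y : K) * (b : K) := by
      push_cast
      rfl
    rw [h3, map_add, map_mul, map_mul, map_intCast, map_intCast]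
  rw [Finset.prod_congr rfl fun σ _ => h2 σ, h]
  push_cast
  refine Finset.sum_congr rfl fun k _ => ?_
  rw [coeff_map]
  rfl

end H9FC
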