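import Pool.Agent.H9.FC.Defs

/-!
# Project FC9, module OrdA

Elementary properties of `ordI P I`, the exponent of the prime `P` in the factorisation of `I`.

PROOFS. `ordI P I = Multiset.count P (normalizedFactors I)`; use `normalizedFactors_mul`,
`normalizedFactors_pow`, `normalizedFactors_irreducible`, `Ideal.normalizedFactors...`,
`Ideal.prime_of_isPrime`, `Associates`-free: for ideals `normalize = id`.  `le_ordI_iff` is
`Ideal.dvd_iff_le` with `UniqueFactorizationMonoid.le_emultiplicity_iff_replicate_le_normalizedFactors`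
or `count_normalizedFactors_eq`.  `ordI_ext`: the multisets of normalized factors agree
(their members are prime ideals `≠ ⊥`), `Ideal.prod_normalizedFactors_eq_self`.
`exists_pow_of_dvd_ordI`: take the product of `P^(ordI P I / n)` over the prime factors of `I`.
`ordI_map_equiv`: a ring isomorphism transports factorisations (or use `le_ordI_iff` twice).
-/

namespace H9FC

section
variable {R : Type*} [CommRing R] [IsDedekindDomain R]

open UniqueFactorizationMonoid in
private lemma OrdA_bot (P : Ideal R) : ordI P (⊥ : Ideal R) = 0 := by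
  unfold ordI
  have h : normalizedFactors (⊥ : Ideal R) = 0 := normalizedFactors_zero
  rw [h, Multiset.count_zero]

open UniqueFactorizationMonoid in
private lemma OrdA_one (P : Ideal R) : ordI P (1 : Ideal R) = 0 := by
  unfold ordI
  rw [normalizedFactors_one, Multiset.count_zero]

theorem ordI_mul (P I J : Ideal R) (hI : I ≠ ⊥) (hJ : J ≠ ⊥) :
    ordI P (I * J) = ordI P I + ordI P J := by
  classical
  unfold ordI
  rw [UniqueFactorizationMonoid.normalizedFactors_mul hI hJ, Multiset.count_add]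

theorem ordI_pow (P I : Ideal R) (n : ℕ) : ordI P (I ^ n) = n * ordI P I := by
  unfold ordI
  rw [UniqueFactorizationMonoid.normalizedFactors_pow, Multiset.count_nsmul]

theorem ordI_prod {ι : Type*} (P : Ideal R) (s : Finset ι) (f : ι → Ideal R)
    (hf : ∀ i ∈ s, f i ≠ ⊥) : ordI P (∏ i ∈ s, f i) = ∑ i ∈ s, ordI P (f i) := by
  classical
  induction s using Finset.induction_on with
  | empty => rw [Finset.prod_empty, Finset.sum_empty, OrdA_one]
  | insert i s hi ih =>
    have hf' : ∀ j ∈ s, f j ≠ ⊥ := fun j hj => hf j (Finset.mem_insert_of_mem hj)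
    have h0 : ∏ j ∈ s, f j ≠ ⊥ := by
      have : ∏ j ∈ s, f j ≠ 0 := Finset.prod_ne_zero_iff.2 hf'
      exact this
    rw [Finset.prod_insert hi, Finset.sum_insert hi,
      ordI_mul P _ _ (hf i (Finset.mem_insert_self i s)) h0, ih hf']

theorem ordI_self (P : Ideal R) (hP : P.IsPrime) (h0 : P ≠ ⊥) : ordI P P = 1 := by
  unfold ordI
  rw [UniqueFactorizationMonoid.normalizedFactors_irreducible
    (Ideal.prime_of_isPrime h0 hP).irreducible, normalize_eq, Multiset.count_singleton_self]

theorem ordI_of_ne (P Q : Ideal R) (hP : P.IsPrime) (hP0 : P ≠ ⊥) (hQ : Q.IsPrime) (hQ0 : Q ≠ ⊥)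
    (h : P ≠ Q) : ordI P Q = 0 := by
  unfold ordI
  rw [UniqueFactorizationMonoid.normalizedFactors_irreducible
    (Ideal.prime_of_isPrime hQ0 hQ).irreducible, normalize_eq, Multiset.count_singleton, if_neg h]

theorem le_ordI_iff (P I : Ideal R) (hP : P.IsPrime) (hP0 : P ≠ ⊥) (hI : I ≠ ⊥) (n : ℕ) :
    n ≤ ordI P I ↔ I ≤ P ^ n := by
  unfold ordI
  have h1 := UniqueFactorizationMonoid.le_emultiplicity_iff_replicate_le_normalizedFactors
    (n := n) (Ideal.prime_of_isPrime hP0 hP).irreducible (b := I) hI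
  rw [normalize_eq] at h1
  rw [Multiset.le_count_iff_replicate_le, ← h1, ← pow_dvd_iff_le_emultiplicity, Ideal.dvd_iff_le]

theorem ordI_span_eq_zero_iff (P : Ideal R) (hP : P.IsPrime) (hP0 : P ≠ ⊥) (x : R) (hx : x ≠ 0) :
    ordI P (Ideal.span {x}) = 0 ↔ x ∉ P := by
  have hI : Ideal.span {x} ≠ ⊥ := fun h => hx (Ideal.span_singleton_eq_bot.1 h)
  have h1 := le_ordI_iff P (Ideal.span {x}) hP hP0 hI 1
  rw [pow_one, Ideal.span_singleton_le_iff_mem] at h1
  rw [← h1]
  omega

theorem ordI_ext (I J : Ideal R) (hI : I ≠ ⊥) (hJ : J ≠ ⊥)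
    (h : ∀ P : Ideal R, P.IsPrime → P ≠ ⊥ → ordI P I = ordI P J) : I = J := by
  classical
  have h1 : UniqueFactorizationMonoid.normalizedFactors I =
      UniqueFactorizationMonoid.normalizedFactors J := by
    ext P
    by_cases hP : P.IsPrime ∧ P ≠ ⊥
    · have h2 := h P hP.1 hP.2
      unfold ordI at h2
      exact h2
    · have h2 : ∀ K : Ideal R, P ∉ UniqueFactorizationMonoid.normalizedFactors K := by
        intro K hK
        have h3 := UniqueFactorizationMonoid.prime_of_normalized_factor P hK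
        exact hP ⟨Ideal.isPrime_of_prime h3, h3.ne_zero⟩
      rw [Multiset.count_eq_zero_of_notMem (h2 I), Multiset.count_eq_zero_of_notMem (h2 J)]
  rw [← Ideal.prod_normalizedFactors_eq_self hI, h1, Ideal.prod_normalizedFactors_eq_self hJ]

theorem exists_pow_of_dvd_ordI (n : ℕ) (hn : n ≠ 0) (I : Ideal R) (hI : I ≠ ⊥)
    (h : ∀ P : Ideal R, P.IsPrime → P ≠ ⊥ → n ∣ ordI P I) : ∃ J : Ideal R, J ^ n = I := by
  classical
  refine ⟨∏ P ∈ (UniqueFactorizationMonoid.normalizedFactors I).toFinset,
    P ^ ((UniqueFactorizationMonoid.normalizedFactors I).count P / n), ?_⟩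
  have h1 := Ideal.prod_normalizedFactors_eq_self hI
  rw [Finset.prod_multiset_count] at h1
  rw [← Finset.prod_pow]
  refine Eq.trans (Finset.prod_congr rfl fun P hP => ?_) h1
  rw [Multiset.mem_toFinset] at hP
  have h3 := UniqueFactorizationMonoid.prime_of_normalized_factor P hP
  have h4 := h P (Ideal.isPrime_of_prime h3) h3.ne_zero
  have h5 : n ∣ (UniqueFactorizationMonoid.normalizedFactors I).count P := by
    unfold ordI at h4
    exact h4
  rw [← pow_mul, Nat.div_mul_cancel h5]

theorem ordI_map_equiv {S : Type*} [CommRing S] [IsDedekindDomain S] (f : R ≃+* S)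
    (P I : Ideal R) (hP : P.IsPrime) (hP0 : P ≠ ⊥) :
    ordI (P.map (f : R →+* S)) (I.map (f : R →+* S)) = ordI P I := by
  by_cases hI : I = ⊥
  · subst hI
    rw [Ideal.map_bot, OrdA_bot, OrdA_bot]
  have hinj : Function.Injective (f : R →+* S) := f.injective
  have hmb : ∀ K : Ideal R, K ≠ ⊥ → K.map (f : R →+* S) ≠ ⊥ := by
    intro K hK h1
    exact hK ((Ideal.map_eq_bot_iff_of_injective hinj).1 h1)
  have hP' : (P.map (f : R →+* S)).IsPrime := Ideal.map_isPrime_of_equiv f
  have hle : ∀ K L : Ideal R, K.map (f : R →+* S) ≤ L.map (f : R →+* S) ↔ K ≤ L := by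
    intro K L
    constructor
    · intro h1
      rw [Ideal.map_le_iff_le_comap, Ideal.comap_map_of_bijective (f : R →+* S) f.bijective] at h1
      exact h1
    · exact Ideal.map_mono
  have key : ∀ n : ℕ, n ≤ ordI (P.map (f : R →+* S)) (I.map (f : R →+* S)) ↔ n ≤ ordI P I := by
    intro n
    rw [le_ordI_iff _ _ hP' (hmb P hP0) (hmb I hI), le_ordI_iff P I hP hP0 hI, ← Ideal.map_pow, hle]
  exact le_antisymm ((key _).1 le_rfl) ((key _).2 le_rfl)

open scoped Pointwise in
theorem ordI_smul {G : Type*} [Group G] [MulSemiringAction G R] (σ : G)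
    (P I : Ideal R) (hP : P.IsPrime) (hP0 : P ≠ ⊥) :
    ordI (σ • P) (σ • I) = ordI P I := by
  have h1 : ∀ K : Ideal R,
      σ • K = K.map ((MulSemiringAction.toRingEquiv G R σ : R ≃+* R) : R →+* R) := fun K => rfl
  rw [h1, h1]
  exact ordI_map_equiv _ P I hP hP0

end

end H9FC
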