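import Pool.Agent.H9.FC.Defs

/-!
# Project FC9, module Pig

Pigeonhole principle in the `p`-torsion of the class group.

PROOF of `pig`. The map `(e_0, ..., e_r) ↦ ∏ c_i^(e_i)` sends the `p^(r+1)` vectors with `0 ≤ e_i < p`
into `{x : x^p = 1}`, which has at most `p^r` elements; so two different vectors `e', e''` have the
same image; put `e_i = (e'_i - e''_i) mod p ∈ [0, p)`; not all are `0`, and `∏ c_i^(e_i) = 1`
since `c_i^p = 1`.
PROOF of `pig_ideal`. All `I_i ≠ ⊥`. Let `c_i` be the class of `I_i` (`ClassGroup.mk0`); `c_i^p = 1`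
since `I_i^p` is principal. By `pig` some product `∏ I_i^(e_i)` is principal, equal to
`(γ)`; then `(∏ x_i^(e_i)) = ∏ I_i^(p e_i) = (γ^p)`, so the two generators differ by a unit.
-/

namespace H9FC

theorem pig {G : Type*} [CommGroup G] [Finite G] (p : ℕ) [Fact p.Prime] (r : ℕ)
    (h : Nat.card {x : G // x ^ p = 1} ≤ p ^ r) (c : Fin (r + 1) → G) (hc : ∀ i, c i ^ p = 1) :
    ∃ e : Fin (r + 1) → ℕ, (∀ i, e i < p) ∧ (∃ i, e i ≠ 0) ∧ ∏ i, c i ^ e i = 1 := by
  have hp : p.Prime := Fact.out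
  have hp0 : 0 < p := hp.pos
  let f : (Fin (r + 1) → Fin p) → {x : G // x ^ p = 1} := fun e =>
    ⟨∏ i, c i ^ (e i : ℕ), by
      rw [← Finset.prod_pow]
      refine Finset.prod_eq_one fun i _ => ?_
      rw [← pow_mul, mul_comm, pow_mul, hc, one_pow]⟩
  have hf : ¬ Function.Injective f := by
    intro hinj
    have h1 := Nat.card_le_card_of_injective f hinj
    rw [Nat.card_fun, Nat.card_fin, Nat.card_fin] at h1
    have h2 : p ^ r < p ^ (r + 1) := Nat.pow_lt_pow_right hp.one_lt (Nat.lt_succ_self r)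
    omega
  rw [Function.Injective] at hf
  push Not at hf
  obtain ⟨e', e'', he, hne⟩ := hf
  have he' : ∏ i, c i ^ (e' i : ℕ) = ∏ i, c i ^ (e'' i : ℕ) := congrArg Subtype.val he
  refine ⟨fun i => ((e' i : ℕ) + (p - (e'' i : ℕ))) % p, fun i => Nat.mod_lt _ hp0, ?_, ?_⟩
  · obtain ⟨i, hi⟩ := Function.ne_iff.1 hne
    refine ⟨i, fun h0 => hi ?_⟩
    have h1 := (e' i).isLt
    have h2 := (e'' i).isLt
    obtain ⟨t, ht⟩ := Nat.dvd_of_mod_eq_zero h0
    have ht1 : t = 1 := by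
      rcases Nat.lt_trichotomy t 1 with h3 | h3 | h3
      · have : t = 0 := by omega
        rw [this, mul_zero] at ht
        omega
      · exact h3
      · have : p * 2 ≤ p * t := Nat.mul_le_mul_left p h3
        omega
    rw [ht1, mul_one] at ht
    exact Fin.ext (by omega)
  · have h1 : (∏ i, c i ^ (((e' i : ℕ) + (p - (e'' i : ℕ))) % p)) * ∏ i, c i ^ (e'' i : ℕ) =
        ∏ i, c i ^ (e' i : ℕ) := by
      rw [← Finset.prod_mul_distrib]
      refine Finset.prod_congr rfl fun i _ => ?_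
      rw [← pow_eq_pow_mod _ (hc i), ← pow_add]
      have h2 := (e'' i).isLt
      have h3 : (e' i : ℕ) + (p - (e'' i : ℕ)) + (e'' i : ℕ) = (e' i : ℕ) + p := by omega
      rw [h3, pow_add, hc, mul_one]
    rw [he'] at h1
    exact mul_eq_right.1 h1

theorem pig_ideal {R : Type*} [CommRing R] [IsDedekindDomain R] [Finite (ClassGroup R)]
    (p : ℕ) [Fact p.Prime] (r : ℕ) (h : Nat.card {x : ClassGroup R // x ^ p = 1} ≤ p ^ r)
    (I : Fin (r + 1) → Ideal R) (x : Fin (r + 1) → R) (hx : ∀ i, x i ≠ 0)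
    (hI : ∀ i, I i ^ p = Ideal.span {x i}) :
    ∃ e : Fin (r + 1) → ℕ, (∀ i, e i < p) ∧ (∃ i, e i ≠ 0) ∧
      ∃ (u : Rˣ) (γ : R), ∏ i, x i ^ e i = u * γ ^ p := by
  have hp : p.Prime := Fact.out
  have hI0 : ∀ i, I i ≠ 0 := by
    intro i h0
    have h1 := hI i
    rw [h0, zero_pow hp.ne_zero] at h1
    exact hx i (Ideal.span_singleton_eq_bot.1 h1.symm)
  let J : Fin (r + 1) → nonZeroDivisors (Ideal R) := fun i =>
    ⟨I i, mem_nonZeroDivisors_of_ne_zero (hI0 i)⟩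
  have hc : ∀ i, (ClassGroup.mk0 (J i)) ^ p = 1 := by
    intro i
    rw [← map_pow, ClassGroup.mk0_eq_one_iff]
    refine ⟨⟨x i, ?_⟩⟩
    have : ((J i ^ p : nonZeroDivisors (Ideal R)) : Ideal R) = I i ^ p := rfl
    rw [this, hI i]
  obtain ⟨e, he1, he2, he3⟩ := pig p r h (fun i => ClassGroup.mk0 (J i)) hc
  refine ⟨e, he1, he2, ?_⟩
  have h1 : ClassGroup.mk0 (∏ i, J i ^ e i) = 1 := by
    rw [map_prod, ← he3]
    exact Finset.prod_congr rfl fun i _ => map_pow _ _ _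
  rw [ClassGroup.mk0_eq_one_iff] at h1
  obtain ⟨⟨γ, hγ⟩⟩ := h1
  have h2 : ((∏ i, J i ^ e i : nonZeroDivisors (Ideal R)) : Ideal R) = ∏ i, I i ^ e i := by
    rw [Submonoid.coe_finsetProd]
    rfl
  rw [h2] at hγ
  have h3 : Ideal.span {∏ i, x i ^ e i} = Ideal.span {γ ^ p} := by
    calc Ideal.span {∏ i, x i ^ e i} = ∏ i, Ideal.span {x i ^ e i} :=
          (Ideal.prod_span_singleton _ _).symm
      _ = ∏ i, (I i ^ e i) ^ p := by
          refine Finset.prod_congr rfl fun i _ => ?_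
          rw [← Ideal.span_singleton_pow, ← hI i, ← pow_mul, ← pow_mul, mul_comm]
      _ = (∏ i, I i ^ e i) ^ p := by rw [Finset.prod_pow]
      _ = (Ideal.span {γ}) ^ p := by
          rw [hγ]
      _ = Ideal.span {γ ^ p} := Ideal.span_singleton_pow _ _
  obtain ⟨u, hu⟩ := (Ideal.span_singleton_eq_span_singleton.1 h3).symm
  exact ⟨u, γ, by rw [← hu, mul_comm]⟩

end H9FC
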