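import Pool.Agent.H9.FC.Defs

/-!
# Project FC9, module PolE

The polynomial identity forced by the congruence of Eichler's method (characteristic `p`).

PROOF. Put `P_i = P(X^(i+1))`, `Q_i = Q(X^(i+1))` (`0 ≤ i ≤ r`), `A = ∏ P_i^(2 e_i)`,
`B = X^s ∏ Q_i^(2 e_i)`.  From `(X-1)^(N+1) ∣ A - c B` we get `(X-1)^N ∣ A' - c B'`, hence
`A' B - A B' ≡ c B' B - c B B' = 0` modulo `(X-1)^N`.
Put
`E = ∑_i 2 e_i (i+1) X^(i+1) (P'(X^(i+1)) Q_i - Q'(X^(i+1)) P_i) ∏_{j ≠ i} P_j Q_j - s ∏_j P_j Q_j`.
By the product rule `X (A' B - A B') ∏_j P_j Q_j = A B E` (note `(P_i)' = (i+1) X^i P'(X^(i+1))`).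
`A B` is prime to `X - 1` because `P(1), Q(1) ≠ 0`, so `(X-1)^N ∣ E`.  But every term of `E` has
degree `≤ ∑_j 2 d (j+1) = d (r+1) (r+2) < N` (`X^(i+1) P'(X^(i+1))` has degree `≤ d (i+1)`), so
`E = 0`, and therefore `A' B = A B'` (cancel `X ∏ P_j Q_j ≠ 0`).
-/

namespace H9FC

open Polynomial

private theorem PolE_log {k : Type*} [Field k] {ι : Type*} (s : Finset ι) (f : ι → k[X])
    (n d : ι → ℕ) (hf : ∀ i ∈ s, (f i).natDegree ≤ d i) :
    ∃ G : k[X], X * derivative (∏ i ∈ s, f i ^ n i) * ∏ i ∈ s, f i = (∏ i ∈ s, f i ^ n i) * G ∧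
      G.natDegree ≤ ∑ i ∈ s, d i := by
  classical
  induction s using Finset.induction_on with
  | empty => exact ⟨0, by simp, by simp⟩
  | insert a s ha ih =>
    obtain ⟨G, hG, hGd⟩ := ih (fun i hi => hf i (Finset.mem_insert_of_mem hi))
    have hfa : (f a).natDegree ≤ d a := hf a (Finset.mem_insert_self a s)
    have hπ : (∏ i ∈ s, f i).natDegree ≤ ∑ i ∈ s, d i :=
      (natDegree_prod_le s f).trans
        (Finset.sum_le_sum (fun i hi => hf i (Finset.mem_insert_of_mem hi)))
    refine ⟨C (n a : k) * (X * derivative (f a)) * ∏ i ∈ s, f i + f a * G, ?_, ?_⟩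
    · rw [Finset.prod_insert ha, Finset.prod_insert ha, derivative_mul, derivative_pow]
      have e1 : C (n a : k) * f a ^ (n a - 1) * derivative (f a) * f a
          = C (n a : k) * f a ^ (n a) * derivative (f a) := by
        rcases Nat.eq_zero_or_pos (n a) with h0 | h0
        · rw [h0]; simp
        · have : f a ^ (n a) = f a ^ (n a - 1) * f a := by
            rw [← pow_succ, Nat.sub_add_cancel h0]
          rw [this]; ring
      calc X * (C (n a : k) * f a ^ (n a - 1) * derivative (f a) * ∏ i ∈ s, f i ^ n i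
              + f a ^ n a * derivative (∏ i ∈ s, f i ^ n i)) * (f a * ∏ i ∈ s, f i)
          = X * (C (n a : k) * f a ^ (n a - 1) * derivative (f a) * f a)
              * (∏ i ∈ s, f i ^ n i) * (∏ i ∈ s, f i)
            + f a ^ n a * f a * (X * derivative (∏ i ∈ s, f i ^ n i) * ∏ i ∈ s, f i) := by ring
        _ = X * (C (n a : k) * f a ^ (n a) * derivative (f a))
              * (∏ i ∈ s, f i ^ n i) * (∏ i ∈ s, f i)
            + f a ^ n a * f a * ((∏ i ∈ s, f i ^ n i) * G) := by rw [e1, hG]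
        _ = f a ^ n a * (∏ i ∈ s, f i ^ n i)
              * (C (n a : k) * (X * derivative (f a)) * ∏ i ∈ s, f i + f a * G) := by ring
    · rw [Finset.sum_insert ha]
      have hXd : (X * derivative (f a)).natDegree ≤ d a := by
        by_cases h0 : (f a).natDegree = 0
        · rw [natDegree_eq_zero] at h0
          obtain ⟨c, hc⟩ := h0
          rw [← hc]
          simp
        · have h1 := natDegree_derivative_lt h0
          have h2 : (X * derivative (f a)).natDegree ≤ 1 + (derivative (f a)).natDegree :=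
            natDegree_mul_le.trans (Nat.add_le_add_right natDegree_X_le _)
          omega
      refine (natDegree_add_le _ _).trans (max_le ?_ ?_)
      · refine natDegree_mul_le.trans (Nat.add_le_add ?_ hπ)
        refine natDegree_mul_le.trans ?_
        rw [natDegree_C, zero_add]
        exact hXd
      · exact natDegree_mul_le.trans (Nat.add_le_add hfa hGd)

theorem pol_E {k : Type*} [Field k] (P Q : k[X]) (d r N : ℕ)
    (hP : P.natDegree ≤ d) (hQ : Q.natDegree ≤ d) (hP1 : P.eval 1 ≠ 0) (hQ1 : Q.eval 1 ≠ 0)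
    (hdr : d * (r + 1) * (r + 2) < N) (e : Fin (r + 1) → ℕ) (c : k) (s : ℕ)
    (hdiv : (X - 1) ^ (N + 1) ∣ ∏ i, (P.comp (X ^ (i.val + 1))) ^ (2 * e i)
      - C c * (X ^ s * ∏ i, (Q.comp (X ^ (i.val + 1))) ^ (2 * e i))) :
    derivative (∏ i, (P.comp (X ^ (i.val + 1))) ^ (2 * e i))
        * (X ^ s * ∏ i, (Q.comp (X ^ (i.val + 1))) ^ (2 * e i))
      = (∏ i, (P.comp (X ^ (i.val + 1))) ^ (2 * e i))
        * derivative (X ^ s * ∏ i, (Q.comp (X ^ (i.val + 1))) ^ (2 * e i)) := by
  classical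
  have hdeg : ∀ (R : k[X]), R.natDegree ≤ d → ∀ i ∈ (Finset.univ : Finset (Fin (r + 1))),
      (R.comp (X ^ (i.val + 1))).natDegree ≤ d * (i.val + 1) := by
    intro R hR i _
    rw [natDegree_comp, natDegree_X_pow]
    exact Nat.mul_le_mul_right _ hR
  obtain ⟨G1, hG1, hG1d⟩ := PolE_log Finset.univ (fun i : Fin (r + 1) => P.comp (X ^ (i.val + 1)))
    (fun i => 2 * e i) (fun i => d * (i.val + 1)) (hdeg P hP)
  obtain ⟨G2, hG2, hG2d⟩ := PolE_log Finset.univ (fun i : Fin (r + 1) => Q.comp (X ^ (i.val + 1)))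
    (fun i => 2 * e i) (fun i => d * (i.val + 1)) (hdeg Q hQ)
  have hD : 2 * ∑ i : Fin (r + 1), d * (i.val + 1) = d * (r + 1) * (r + 2) := by
    have h1 : ∑ i : Fin (r + 1), d * (i.val + 1) = d * ∑ i ∈ Finset.range (r + 1), (i + 1) := by
      rw [Fin.sum_univ_eq_sum_range (fun i => d * (i + 1)) (r + 1), Finset.mul_sum]
    have h2 : (∑ i ∈ Finset.range (r + 1), (i + 1)) * 2 = (r + 1) * (r + 2) := by
      have h3 := Finset.sum_range_id_mul_two (r + 2)
      rw [Finset.sum_range_succ'] at h3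
      simp only [add_zero] at h3
      rw [h3]
      have : r + 2 - 1 = r + 1 := by omega
      rw [this, mul_comm]
    rw [h1, mul_comm 2, mul_assoc, h2]
    ring
  have hπP : (∏ i : Fin (r + 1), P.comp (X ^ (i.val + 1))).natDegree
      ≤ ∑ i : Fin (r + 1), d * (i.val + 1) :=
    (natDegree_prod_le _ _).trans (Finset.sum_le_sum (hdeg P hP))
  have hπQ : (∏ i : Fin (r + 1), Q.comp (X ^ (i.val + 1))).natDegree
      ≤ ∑ i : Fin (r + 1), d * (i.val + 1) :=
    (natDegree_prod_le _ _).trans (Finset.sum_le_sum (hdeg Q hQ))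
  have hev : ∀ (R : k[X]), R.eval 1 ≠ 0 → ∀ i : Fin (r + 1),
      (R.comp (X ^ (i.val + 1))).eval 1 ≠ 0 := by
    intro R hR i
    rw [eval_comp, eval_pow, eval_X, one_pow]
    exact hR
  have hπP1 : (∏ i : Fin (r + 1), P.comp (X ^ (i.val + 1))).eval 1 ≠ 0 := by
    rw [eval_prod]
    exact Finset.prod_ne_zero_iff.2 (fun i _ => hev P hP1 i)
  have hπQ1 : (∏ i : Fin (r + 1), Q.comp (X ^ (i.val + 1))).eval 1 ≠ 0 := by
    rw [eval_prod]
    exact Finset.prod_ne_zero_iff.2 (fun i _ => hev Q hQ1 i)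
  have hA1 : (∏ i : Fin (r + 1), (P.comp (X ^ (i.val + 1))) ^ (2 * e i)).eval 1 ≠ 0 := by
    rw [eval_prod]
    refine Finset.prod_ne_zero_iff.2 (fun i _ => ?_)
    rw [eval_pow]
    exact pow_ne_zero _ (hev P hP1 i)
  have hB01 : (∏ i : Fin (r + 1), (Q.comp (X ^ (i.val + 1))) ^ (2 * e i)).eval 1 ≠ 0 := by
    rw [eval_prod]
    refine Finset.prod_ne_zero_iff.2 (fun i _ => ?_)
    rw [eval_pow]
    exact pow_ne_zero _ (hev Q hQ1 i)
  set A := ∏ i : Fin (r + 1), (P.comp (X ^ (i.val + 1))) ^ (2 * e i) with hA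
  set B0 := ∏ i : Fin (r + 1), (Q.comp (X ^ (i.val + 1))) ^ (2 * e i) with hB0
  set πP := ∏ i : Fin (r + 1), P.comp (X ^ (i.val + 1)) with hπPd
  set πQ := ∏ i : Fin (r + 1), Q.comp (X ^ (i.val + 1)) with hπQd
  set S := ∑ i : Fin (r + 1), d * (i.val + 1) with hS
  set B := X ^ s * B0 with hB
  have hB1 : B.eval 1 ≠ 0 := by
    rw [hB, eval_mul, eval_pow, eval_X, one_pow, one_mul]
    exact hB01
  -- derivative of B
  have hXB : X * derivative B * πQ = B * (C (s : k) * πQ + G2) := by
    have h1 : X * derivative ((X : k[X]) ^ s) = C (s : k) * X ^ s := by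
      rw [derivative_X_pow]
      rcases Nat.eq_zero_or_pos s with h0 | h0
      · rw [h0]; simp
      · have : (X : k[X]) ^ s = X ^ (s - 1) * X := by
          rw [← pow_succ, Nat.sub_add_cancel h0]
        rw [this]
        simp only [C_eq_natCast]
        ring
    rw [hB, derivative_mul]
    calc X * (derivative (X ^ s) * B0 + X ^ s * derivative B0) * πQ
        = (X * derivative (X ^ s)) * B0 * πQ + X ^ s * (X * derivative B0 * πQ) := by ring
      _ = (C (s : k) * X ^ s) * B0 * πQ + X ^ s * (B0 * G2) := by rw [h1, hG2]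
      _ = X ^ s * B0 * (C (s : k) * πQ + G2) := by ring
  set E := G1 * πQ - (C (s : k) * πQ + G2) * πP with hE
  have hEd : E.natDegree ≤ d * (r + 1) * (r + 2) := by
    rw [← hD]
    refine (natDegree_sub_le _ _).trans (max_le ?_ ?_)
    · refine natDegree_mul_le.trans ?_
      omega
    · refine natDegree_mul_le.trans ?_
      have : (C (s : k) * πQ + G2).natDegree ≤ S := by
        refine (natDegree_add_le _ _).trans (max_le ?_ hG2d)
        refine natDegree_mul_le.trans ?_
        rw [natDegree_C, zero_add]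
        exact hπQ
      omega
  have hmain : X * (derivative A * B - A * derivative B) * (πP * πQ) = A * B * E := by
    calc X * (derivative A * B - A * derivative B) * (πP * πQ)
        = (X * derivative A * πP) * (B * πQ) - (X * derivative B * πQ) * (A * πP) := by ring
      _ = (A * G1) * (B * πQ) - (B * (C (s : k) * πQ + G2)) * (A * πP) := by rw [hG1, hXB]
      _ = A * B * E := by rw [hE]; ring
  have hdiv2 : (X - 1) ^ N ∣ derivative A * B - A * derivative B := by
    have h1 : (X - 1) ^ N ∣ derivative (A - C c * B) := by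
      have := pow_sub_one_dvd_derivative_of_pow_dvd hdiv
      simpa using this
    have h2 : (X - 1) ^ N ∣ A - C c * B := (pow_dvd_pow _ (Nat.le_succ N)).trans hdiv
    have h3 : derivative A * B - A * derivative B
        = derivative (A - C c * B) * B - (A - C c * B) * derivative B := by
      rw [derivative_sub, derivative_C_mul]
      ring
    rw [h3]
    exact dvd_sub (h1.mul_right _) (h2.mul_right _)
  have hXC : (X - 1 : k[X]) = X - C 1 := by rw [C_1]
  have hcop : IsCoprime ((X - 1 : k[X]) ^ N) (A * B) := by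
    apply IsCoprime.pow_left
    rw [hXC, (irreducible_X_sub_C (1 : k)).coprime_iff_not_dvd, dvd_iff_isRoot, IsRoot.def,
      eval_mul]
    exact mul_ne_zero hA1 hB1
  have hdvdE : (X - 1 : k[X]) ^ N ∣ E := by
    apply hcop.dvd_of_dvd_mul_left
    rw [← hmain]
    exact (hdiv2.mul_left _).mul_right _
  have hE0 : E = 0 := by
    apply eq_zero_of_dvd_of_natDegree_lt hdvdE
    rw [hXC, natDegree_pow, natDegree_X_sub_C, mul_one]
    omega
  rw [hE0, mul_zero] at hmain
  have hπP0 : πP ≠ 0 := by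
    intro h0
    apply hπP1
    rw [h0, eval_zero]
  have hπQ0 : πQ ≠ 0 := by
    intro h0
    apply hπQ1
    rw [h0, eval_zero]
  rcases mul_eq_zero.mp hmain with h1 | h1
  · rcases mul_eq_zero.mp h1 with h2 | h2
    · exact absurd h2 X_ne_zero
    · exact sub_eq_zero.mp h2
  · exact absurd h1 (mul_ne_zero hπP0 hπQ0)

end H9FC
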