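import Pool.Agent.H9.FC.Defs

/-!
# Project FC9, module QuadB

Algebra with two conjugates.

PROOF. Everything is a polynomial identity after clearing denominators; put `c_i = -a_i - b_i`.
(1) `∑ (a_i - b_i)/c_i = -2` means, as `∑ (a_i + b_i)/c_i = -2`, that `∑ b_i/c_i = 0`, i.e.
`b₁ c₂ + b₂ c₁ = 0`, and `∑ (b_i - c_i)/a_i = 2` with `∑ (b_i + c_i)/a_i = -2` gives `∑ b_i/a_i = 0`,
`b₁ a₂ + b₂ a₁ = 0`. Adding, `b₁ (a₂ + c₂) + b₂ (a₁ + c₁) = - 2 b₁ b₂ = 0`: contradiction.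
(2) With `x_i = b_i/a_i`, the relations give `x₁ + x₂ = -1` (from `∑ (b_i - c_i)/a_i = 0`,
`b_i - c_i = 2 b_i + a_i`) and `1/x₁ + 1/x₂ = -1` (from `∑ (c_i - a_i)/b_i = 0`,
`c_i - a_i = -(2 a_i + b_i)`), so `x₁ x₂ = 1`, `(x₁ - x₂)² = 1 - 4 = -3`.
(3) Put `u_i = (a_i - b_i)/c_i`, so `a_i = (u_i - 1) c_i/2`, `b_i = -(u_i + 1) c_i/2`, `u_i ≠ ± 1`,
`(b_i - c_i)/a_i = -(u_i + 3)/(u_i - 1)`.  `u₁ + u₂ = 0` and `∑ -(u_i+3)/(u_i-1) = 1`, i.e.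
`∑ 1/(u_i - 1) = -3/4`; `(u₁ + u₂ - 2)/((u₁-1)(u₂-1)) = -2/(u₁ u₂ + 1) = -3/4`, `u₁ u₂ = 5/3`,
`(u₁-u₂)² = -20/3`, and `a₁ b₂ - a₂ b₁ = -(u₁ - u₂) c₁ c₂/2`, so
`9 (a₁ b₂ - a₂ b₁)² = -15 (c₁ c₂)²`.
-/

namespace H9FC

theorem quad_alg1 {Ω : Type*} [Field Ω] (h2 : (2 : Ω) ≠ 0) (a₁ a₂ b₁ b₂ c₁ c₂ : Ω)
    (ha₁ : a₁ ≠ 0) (ha₂ : a₂ ≠ 0) (hb₁ : b₁ ≠ 0) (hb₂ : b₂ ≠ 0) (hc₁ : c₁ ≠ 0) (hc₂ : c₂ ≠ 0)
    (h₁ : a₁ + b₁ + c₁ = 0) (h₂ : a₂ + b₂ + c₂ = 0)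
    (hab : (a₁ - b₁) / c₁ + (a₂ - b₂) / c₂ = -2) (hbc : (b₁ - c₁) / a₁ + (b₂ - c₂) / a₂ = 2) :
    False := by
  have e1 : (a₁ - b₁) * c₂ + (a₂ - b₂) * c₁ = -2 * (c₁ * c₂) := by
    rw [div_add_div _ _ hc₁ hc₂, div_eq_iff (mul_ne_zero hc₁ hc₂)] at hab
    linear_combination hab
  have e2 : (b₁ - c₁) * a₂ + (b₂ - c₂) * a₁ = 2 * (a₁ * a₂) := by
    rw [div_add_div _ _ ha₁ ha₂, div_eq_iff (mul_ne_zero ha₁ ha₂)] at hbc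
    linear_combination hbc
  have hc1 : c₁ = -a₁ - b₁ := by linear_combination h₁
  have hc2 : c₂ = -a₂ - b₂ := by linear_combination h₂
  subst hc1 hc2
  have e3 : 2 * (2 * (b₁ * b₂)) = 0 := by linear_combination e1 - e2
  rcases mul_eq_zero.1 e3 with h | h
  · exact h2 h
  · rcases mul_eq_zero.1 h with h | h
    · exact h2 h
    · exact mul_ne_zero hb₁ hb₂ h

theorem quad_alg2 {Ω : Type*} [Field Ω] (h2 : (2 : Ω) ≠ 0) (a₁ a₂ b₁ b₂ c₁ c₂ : Ω)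
    (ha₁ : a₁ ≠ 0) (ha₂ : a₂ ≠ 0) (hb₁ : b₁ ≠ 0) (hb₂ : b₂ ≠ 0) (hc₁ : c₁ ≠ 0) (hc₂ : c₂ ≠ 0)
    (h₁ : a₁ + b₁ + c₁ = 0) (h₂ : a₂ + b₂ + c₂ = 0)
    (hbc : (b₁ - c₁) / a₁ + (b₂ - c₂) / a₂ = 0) (hca : (c₁ - a₁) / b₁ + (c₂ - a₂) / b₂ = 0) :
    (a₁ * b₂ - a₂ * b₁) ^ 2 = -3 * (a₁ * a₂) ^ 2 := by
  have e1 : (b₁ - c₁) * a₂ + (b₂ - c₂) * a₁ = 0 := by
    rw [div_add_div _ _ ha₁ ha₂, div_eq_iff (mul_ne_zero ha₁ ha₂)] at hbc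
    linear_combination hbc
  have e2 : (c₁ - a₁) * b₂ + (c₂ - a₂) * b₁ = 0 := by
    rw [div_add_div _ _ hb₁ hb₂, div_eq_iff (mul_ne_zero hb₁ hb₂)] at hca
    linear_combination hca
  have hc1 : c₁ = -a₁ - b₁ := by linear_combination h₁
  have hc2 : c₂ = -a₂ - b₂ := by linear_combination h₂
  subst hc1 hc2
  have e3 : b₁ * a₂ + b₂ * a₁ + a₁ * a₂ = 0 := by
    have : 2 * (b₁ * a₂ + b₂ * a₁ + a₁ * a₂) = 0 := by linear_combination e1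
    rcases mul_eq_zero.1 this with h | h
    · exact absurd h h2
    · exact h
  have e4 : b₁ * a₂ + b₂ * a₁ + b₁ * b₂ = 0 := by
    have : 2 * (b₁ * a₂ + b₂ * a₁ + b₁ * b₂) = 0 := by linear_combination -e2
    rcases mul_eq_zero.1 this with h | h
    · exact absurd h h2
    · exact h
  linear_combination (b₁ * a₂ + b₂ * a₁ - a₁ * a₂) * e3 + 4 * a₁ * a₂ * (e3 - e4)

theorem quad_alg3 {Ω : Type*} [Field Ω] (h2 : (2 : Ω) ≠ 0) (h3 : (3 : Ω) ≠ 0)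
    (a₁ a₂ b₁ b₂ c₁ c₂ : Ω)
    (ha₁ : a₁ ≠ 0) (ha₂ : a₂ ≠ 0) (hb₁ : b₁ ≠ 0) (hb₂ : b₂ ≠ 0) (hc₁ : c₁ ≠ 0) (hc₂ : c₂ ≠ 0)
    (h₁ : a₁ + b₁ + c₁ = 0) (h₂ : a₂ + b₂ + c₂ = 0)
    (hab : (a₁ - b₁) / c₁ + (a₂ - b₂) / c₂ = 0) (hbc : (b₁ - c₁) / a₁ + (b₂ - c₂) / a₂ = 1) :
    9 * (a₁ * b₂ - a₂ * b₁) ^ 2 = -15 * (c₁ * c₂) ^ 2 := by
  have e1 : (a₁ - b₁) * c₂ + (a₂ - b₂) * c₁ = 0 := by
    rw [div_add_div _ _ hc₁ hc₂, div_eq_iff (mul_ne_zero hc₁ hc₂)] at hab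
    linear_combination hab
  have e2 : (b₁ - c₁) * a₂ + (b₂ - c₂) * a₁ = a₁ * a₂ := by
    rw [div_add_div _ _ ha₁ ha₂, div_eq_iff (mul_ne_zero ha₁ ha₂)] at hbc
    linear_combination hbc
  have hc1 : c₁ = -a₁ - b₁ := by linear_combination h₁
  have hc2 : c₂ = -a₂ - b₂ := by linear_combination h₂
  subst hc1 hc2
  have e3 : a₁ * a₂ = b₁ * b₂ := by
    have : 2 * (a₁ * a₂ - b₁ * b₂) = 0 := by linear_combination -e1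
    rcases mul_eq_zero.1 this with h | h
    · exact absurd h h2
    · linear_combination h
  have e4 : 2 * (b₁ * a₂ + b₂ * a₁) + a₁ * a₂ = 0 := by linear_combination e2
  have e5 : 2 * ((-a₁ - b₁) * (-a₂ - b₂)) = 3 * (a₁ * a₂) := by
    linear_combination e4 - 2 * e3
  have e6 : 2 * (2 * (9 * (a₁ * b₂ - a₂ * b₁) ^ 2 +
      15 * ((-a₁ - b₁) * (-a₂ - b₂)) ^ 2)) = 0 := by
    have e7 : 4 * (15 * ((-a₁ - b₁) * (-a₂ - b₂)) ^ 2) = 15 * (3 * (a₁ * a₂)) ^ 2 := by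
      rw [← e5]; ring
    have e8 : 4 * (9 * (a₁ * b₂ - a₂ * b₁) ^ 2) =
        9 * (2 * (b₁ * a₂ + b₂ * a₁)) ^ 2 - 144 * (a₁ * a₂) * (b₁ * b₂) := by ring
    have e9 : 2 * (b₁ * a₂ + b₂ * a₁) = -(a₁ * a₂) := by linear_combination e4
    rw [e9, ← e3] at e8
    linear_combination e7 + e8
  rcases mul_eq_zero.1 e6 with h | h
  · exact absurd h h2
  · rcases mul_eq_zero.1 h with h | h
    · exact absurd h h2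
    · linear_combination h

end H9FC
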