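import Pool.Agent.H9.FC.StickEl
import Pool.Agent.H9.FC.FQ
import Pool.Agent.H9.FC.APart

/-!
# Project FC9, module Wief

The general Wieferich congruence for a polynomial `F` and a prime `q` (`F ≡ (X-1)^μ P` modulo `p`).

PROOF. `N₀ = P(1)`, prime to `p`, `N₁ = P'(1)`. Choose `j₀ ∈ ℕ` with `N₀ j₀ ≡ -2 N₁` modulo `p`. Let
`A₁`, `A₁'` be the `A`-parts of `F(ζ)`, `F(ζ⁻¹)` (`exists_apart` for `ζ`, `ζ^(p-1)`), so
`A₁' = cj • A₁`, and put `A = ζ^j₀ A₁ A₁'^(p-1)`.  With `λ = ζ - 1`, modulo `λ²` (which divides `p`):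
`ζ^j ≡ 1 + j λ`, `A₁ ≡ N₀ + N₁ λ`, `A₁' ≡ N₀ - N₁ λ`, so
`A₁ A₁'^(p-1) ≡ N₀^p + N₀^(p-1) N₁ λ (1 - (p-1)) ≡ N₀^p + 2 N₀^(p-1) N₁ λ` and
`A ≡ N₀^p + N₀^(p-1) (2 N₁ + j₀ N₀) λ ≡ N₀^p`.  `A` is in no prime above
`p`, and `(A) = I^p` (`apart_pow_ideal`). So `stick_elem` applies for the `b` of `exists_kappa`:
`B = ∏_{σ ∈ TS p M b} σ⁻¹ • A = s J^p`.
Let `𝔮` be a prime of `𝓞 M` with `q ∈ 𝔮`, `k = 𝓞 M ⧸ 𝔮`, a finite field with `q^f` elements,
`f = orderOf (q : ZMod p)` (`dec_card`), which divides `p - 1`. For `σ ∈ TS`, `σ⁻¹ ζ = ζ^u =: y`,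
`u ≡ t_σ⁻¹` modulo `p`, so `σ⁻¹ • A = y^j₀ A(y) A(y⁻¹)^(p-1)`, `(y-1)^μ A(y) = F(y)`,
`(y⁻¹-1)^μ A(y⁻¹) = F(y⁻¹)`. In `k` the relation
`hrel`, evaluated at `y`, says `y^i F(y) = ε y^j y^D F(y⁻¹)` (`(F.reflect D)(y) = y^D F(y⁻¹)`), so
`F(y) = ε y^m F(y⁻¹)`, `m = j + D - i ∈ ℤ`; and `(y - 1) = - y (y⁻¹ - 1)`, `y ≠ 1` in `k`, so
`A(y) = ± y^(m-μ) A(y⁻¹)` and `σ⁻¹ • A ≡ ± y^(j₀+m-μ) A(y⁻¹)^p`.
`F(y⁻¹) ≠ 0` in `k` by `hne` (embed `k` into the algebraic closure of `𝔽_q`; `y⁻¹` is a primitive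
`p`-th root of unity there as `q ≠ p`).  So in `k`: `± ζ^((j₀+m-μ) κ) R^p = s J^p`,
`κ ≡ ∑_{σ∈TS} t_σ⁻¹` not `0` modulo `p`,
`R ≠ 0`; as `(±1) = (±1)^p`, `ζ^((j₀+m-μ) κ)` is a `p`-th power in `kˣ`. Raising to the power
`(q^f - 1)/p` (an integer, `ζ` has order `p` in `kˣ`) gives `p ∣ (j₀ + m - μ) κ (q^f - 1)/p`.
`q^f - 1` divides `q^(p-1) - 1`, so `p²` does not divide it and `p ∤ (q^f-1)/p`. So
`p ∣ j₀ + m - μ`, and `2 N₁ ≡ - j₀ N₀ ≡ (m - μ) N₀` modulo `p`.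
-/

namespace H9FC

open Polynomial NumberField

private theorem Wief_hom (p : ℕ) [Fact p.Prime] (M : Type*) [Field M]
    [NumberField M] [IsCyclotomicExtension {p} ℚ M] (q : ℕ) [Fact q.Prime]
    (hqp : q ≠ p) : ∃ θ : 𝓞 M →+* AlgebraicClosure (ZMod q),
      ∀ x : 𝓞 M, θ x ≠ 0 → θ x ^ (q ^ (p - 1) - 1) = 1 := by
  have hq1 : ¬ IsUnit (q : 𝓞 M) := by
    intro h
    have h2 : IsUnit (Algebra.norm ℤ (q : 𝓞 M)) := h.map _
    have h3 : Algebra.norm ℤ (q : 𝓞 M) = (q : ℤ) ^ Module.finrank ℤ (𝓞 M) := by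
      have := Algebra.norm_algebraMap (R := ℤ) (S := 𝓞 M) (q : ℤ)
      simpa using this
    rw [h3, Int.isUnit_iff_natAbs_eq, Int.natAbs_pow, Int.natAbs_natCast] at h2
    have hpos : 0 < Module.finrank ℤ (𝓞 M) := Module.finrank_pos
    have := Nat.one_lt_pow hpos.ne' (Fact.out : q.Prime).one_lt
    omega
  obtain ⟨Q, hQ, hqQ⟩ := exists_max_ideal_of_mem_nonunits hq1
  have hQ0 : Q ≠ ⊥ := by
    rintro rfl
    rw [Ideal.mem_bot] at hqQ
    exact (Fact.out : q.Prime).ne_zero (by exact_mod_cast hqQ)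
  letI : Field (𝓞 M ⧸ Q) := Ideal.Quotient.field Q
  haveI : Finite (𝓞 M ⧸ Q) := Ring.HasFiniteQuotients.finiteQuotient hQ0
  haveI : CharP (𝓞 M ⧸ Q) q := by
    apply (CharP.charP_iff_prime_eq_zero (Fact.out : q.Prime)).mpr
    rw [← map_natCast (Ideal.Quotient.mk Q)]
    exact Ideal.Quotient.eq_zero_iff_mem.mpr hqQ
  letI : Algebra (ZMod q) (𝓞 M ⧸ Q) := ZMod.algebra _ q
  haveI : Algebra.IsAlgebraic (ZMod q) (𝓞 M ⧸ Q) := Algebra.IsAlgebraic.of_finite _ _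
  let φ : (𝓞 M ⧸ Q) →ₐ[ZMod q] AlgebraicClosure (ZMod q) := IsAlgClosed.lift
  refine ⟨(φ : (𝓞 M ⧸ Q) →+* _).comp (Ideal.Quotient.mk Q), fun x hx => ?_⟩
  have hcard := dec_card p M q hqp Q hQ.isPrime hqQ
  have hqp' : (q : ZMod p) ≠ 0 := by
    intro h
    rw [ZMod.natCast_eq_zero_iff] at h
    exact hqp ((Nat.prime_dvd_prime_iff_eq (Fact.out) (Fact.out)).mp h).symm
  have hord : orderOf (q : ZMod p) ∣ p - 1 := orderOf_dvd_of_pow_eq_one (ZMod.pow_card_sub_one_eq_one hqp')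
  have hx' : Ideal.Quotient.mk Q x ≠ 0 := by
    intro h
    apply hx
    simp [h]
  have key : (Ideal.Quotient.mk Q x) ^ (q ^ (p - 1) - 1) = 1 := by
    haveI := Fintype.ofFinite (𝓞 M ⧸ Q)
    have h1 : (Ideal.Quotient.mk Q x) ^ (Fintype.card (𝓞 M ⧸ Q) - 1) = 1 :=
      FiniteField.pow_card_sub_one_eq_one _ hx'
    rw [Fintype.card_eq_nat_card, hcard] at h1
    obtain ⟨k, hk⟩ := hord
    have h2 : q ^ orderOf (q : ZMod p) - 1 ∣ q ^ (p - 1) - 1 := by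
      rw [hk, pow_mul]
      simpa using Nat.sub_dvd_pow_sub_pow (q ^ orderOf (q : ZMod p)) 1 k
    obtain ⟨c, hc⟩ := h2
    rw [hc, pow_mul, h1, one_pow]
  rw [← map_pow, RingHom.comp_apply]
  rw [← map_pow] at key
  rw [key]
  simp

private theorem Wief_eval {R Ω : Type*} [CommRing R] [Field Ω] (θ : R →+* Ω) (η : R) (F : ℤ[X]) :
    θ (aeval η F) = (F.map (Int.castRingHom Ω)).eval (θ η) := by
  rw [aeval_def, hom_eval₂, eval_map]
  congr 1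
  exact RingHom.ext_int _ _

private theorem Wief_refl {Ω : Type*} [Field Ω] {p : ℕ} (hp : p ≠ 0) {y : Ω} (hy : y ^ p = 1)
    (D : ℕ) (F : Polynomial Ω) (hD : F.natDegree ≤ D) :
    (F.reflect D).eval y = y ^ D * F.eval (y ^ (p - 1)) := by
  have hy0 : y ≠ 0 := by
    rintro rfl
    rw [zero_pow hp] at hy
    exact zero_ne_one hy
  have hinv : y ^ (p - 1) = y⁻¹ := by
    apply eq_inv_of_mul_eq_one_left
    rw [← pow_succ, Nat.sub_add_cancel (Nat.pos_of_ne_zero hp), hy]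
  rw [hinv]
  letI : Invertible (y⁻¹) := invertibleOfNonzero (inv_ne_zero hy0)
  have h := eval₂_reflect_mul_pow (RingHom.id Ω) (y⁻¹) D F hD
  have h2 : ⅟(y⁻¹) = y := by rw [invOf_eq_inv, inv_inv]
  rw [h2, eval₂_id, eval₂_id] at h
  rw [← h, inv_pow]
  field_simp

/-- the key relation in `Ω`: `a = ± y^(...) a'` -/
private theorem Wief_key {Ω : Type*} [Field Ω] {p : ℕ} (hp : p ≠ 0) {y : Ω} (hy : y ^ p = 1)
    (hy1 : y ≠ 1) (D i j μ : ℕ) (F : Polynomial Ω) (hD : F.natDegree ≤ D) (e : Ω)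
    (hrel : X ^ i * F = C e * X ^ j * F.reflect D) (a a' : Ω)
    (ha : F.eval y = (y - 1) ^ μ * a) (ha' : F.eval (y ^ (p - 1)) = (y ^ (p - 1) - 1) ^ μ * a') :
    a = e * (-1) ^ μ * y ^ (j + D + (p - 1) * (i + μ)) * a' := by
  have hy0 : y ≠ 0 := by
    rintro rfl
    rw [zero_pow hp] at hy
    exact zero_ne_one hy
  have hinv : y ^ (p - 1) = y⁻¹ := by
    apply eq_inv_of_mul_eq_one_left
    rw [← pow_succ, Nat.sub_add_cancel (Nat.pos_of_ne_zero hp), hy]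
  have h1 := congrArg (eval y) hrel
  simp only [eval_mul, eval_pow, eval_X, eval_C] at h1
  rw [Wief_refl hp hy D F hD] at h1
  have h0 : y ^ (j + D + (p - 1) * (i + μ)) = y ^ j * y ^ D * ((y⁻¹) ^ i * (y⁻¹) ^ μ) := by
    rw [pow_add, pow_add, pow_mul, hinv, pow_add]
  rw [h0]
  rw [hinv] at h1 ha'
  rw [ha, ha'] at h1
  have h2 : (y⁻¹ - 1) = -(y⁻¹ * (y - 1)) := by
    field_simp
    ring
  have hy2 : (y - 1) ^ μ ≠ 0 := pow_ne_zero _ (sub_ne_zero.mpr hy1)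
  rw [h2, neg_pow, mul_pow] at h1
  have h3 : y ^ i * a = e * y ^ j * (y ^ D * ((-1) ^ μ * (y⁻¹) ^ μ * a')) := by
    apply mul_left_cancel₀ hy2
    linear_combination h1
  have h4 : a = (y⁻¹) ^ i * (y ^ i * a) := by
    rw [← mul_assoc, ← mul_pow, inv_mul_cancel₀ hy0, one_pow, one_mul]
  rw [h4, h3]
  ring

private theorem Wief_sq {R : Type*} [CommRing R] (x y : R) (hy : y ^ 2 = 0) (n : ℕ) :
    (x + y) ^ (n + 1) = x ^ (n + 1) + ((n : R) + 1) * x ^ n * y := by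
  induction n with
  | zero => simp
  | succ n ih =>
    rw [pow_succ, ih]
    push_cast
    linear_combination ((n : R) + 1) * x ^ n * hy

private theorem Wief_semi {R : Type*} [CommRing R] (l : R) (hl : l ^ 2 = 0) (p : ℕ) (hp : 3 ≤ p)
    (hpR : (p : R) = 0) (N0 N1 : ℤ) (j0 : ℕ) (hj : (p : ℤ) ∣ N0 * j0 + 2 * N1) (z a a' : R)
    (hz : z = 1 + l) (ha : a = N0 + N1 * l) (ha' : a' = N0 - N1 * l) :
    z ^ j0 * (a * a' ^ (p - 1)) = (N0 : R) ^ p := by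
  obtain ⟨n, rfl⟩ : ∃ n, p = n + 3 := ⟨p - 3, by omega⟩
  have hzz : z ^ j0 = 1 + (j0 : R) * l := by
    rcases j0 with _ | m
    · simp
    · rw [hz, Wief_sq _ _ hl]
      push_cast
      ring
  have hl2 : (-((N1 : R) * l)) ^ 2 = 0 := by
    linear_combination (N1 : R) ^ 2 * hl
  have haa : a' ^ (n + 3 - 1) = (N0 : R) ^ (n + 2) - ((n : R) + 2) * N0 ^ (n + 1) * N1 * l := by
    have h1 : n + 3 - 1 = (n + 1) + 1 := by omega
    rw [h1, ha', sub_eq_add_neg, Wief_sq _ _ hl2]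
    push_cast
    ring
  obtain ⟨c, hc⟩ := hj
  have hc' : (N0 : R) * j0 + 2 * N1 = 0 := by
    have := congrArg (Int.cast : ℤ → R) hc
    push_cast at this
    rw [this]
    have h3 : ((n : R) + 3) = 0 := by
      have := hpR
      push_cast at this
      exact this
    rw [h3, zero_mul]
  have h3 : ((n : R) + 3) = 0 := by
    have := hpR
    push_cast at this
    exact this
  rw [hzz, haa, ha]
  linear_combination ((N0 : R) ^ (n + 2)) * l * hc' - (N0 : R) ^ (n + 2) * N1 * l * h3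
    + (- ((n : R) + 2) * N0 ^ (n + 1) * N1 * N1 + j0 * N0 ^ (n + 2) * N1 - (j0 : R) * N0 * (((n : R) + 2) * N0 ^ (n + 1) * N1) - (j0 : R) * N1 * (((n : R) + 2) * N0 ^ (n + 1) * N1) * l) * hl

theorem wief (p : ℕ) [Fact p.Prime] (hp2 : p ≠ 2) (M : Type*) [Field M]
    [NumberField M] [IsCyclotomicExtension {p} ℚ M] {ζ : 𝓞 M} (hζ : IsPrimitiveRoot ζ p)
    (F P : ℤ[X]) (μ : ℕ) (hμ : μ + 2 < p)
    (hF : F.map (Int.castRingHom (ZMod p)) = (X - 1) ^ μ * P.map (Int.castRingHom (ZMod p)))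
    (hP1 : ¬ (p : ℤ) ∣ P.eval 1)
    (hI : ∃ I : Ideal (𝓞 M),
      I ^ p = Ideal.span {aeval ζ F * (aeval (ζ ^ (p - 1)) F) ^ (p - 1)})
    (q : ℕ) [Fact q.Prime]
    (hqp : q ≠ p) (hWq : ¬ p ^ 2 ∣ q ^ (p - 1) - 1) (D : ℕ) (hD : F.natDegree ≤ D) (i j : ℕ)
    (ε : ℤˣ) (hrel : X ^ i * F.map (Int.castRingHom (ZMod q))
      = C (((ε : ℤ) : ZMod q)) * X ^ j * (F.reflect D).map (Int.castRingHom (ZMod q)))
    (hne : ∀ z : AlgebraicClosure (ZMod q), IsPrimitiveRoot z p →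
      (F.map (Int.castRingHom (AlgebraicClosure (ZMod q)))).eval z ≠ 0) :
    (p : ℤ) ∣ 2 * (derivative P).eval 1 - ((j : ℤ) + D - i - μ) * P.eval 1 := by
  have hpp : p.Prime := Fact.out
  have hqq : q.Prime := Fact.out
  have hp3 : 3 ≤ p := by
    have := hpp.two_le
    omega
  have hcop : (p - 1).Coprime p :=
    (Nat.coprime_of_lt_prime (by omega) (by omega) hpp).symm
  have hζ' : IsPrimitiveRoot (ζ ^ (p - 1)) p := hζ.pow_of_coprime (p - 1) hcop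
  obtain ⟨b, hb, hb', hκ⟩ := exists_kappa p hp2
  obtain ⟨A1, hA1, -, hA1n, hA1s⟩ := exists_apart p M hζ F P μ (by omega) hF
  obtain ⟨A2, hA2, -, hA2n, hA2s⟩ := exists_apart p M hζ' F P μ (by omega) hF
  replace hA1n := hA1n hP1
  replace hA2n := hA2n hP1
  replace hA1s := hA1s (by omega)
  replace hA2s := hA2s (by omega)
  obtain ⟨hπ, hπ0, hπu⟩ := prime_zeta_sub_one p M hζ
  have hpπ : (p : 𝓞 M) ∈ Ideal.span {ζ - 1} := by
    rw [Ideal.mem_span_singleton]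
    exact (dvd_pow_self _ (by omega)).trans (associated_p p M hζ).symm.dvd
  have hA10 : A1 ≠ 0 := fun h => hA1n _ hπ hpπ (by simp [h])
  have hA20 : A2 ≠ 0 := fun h => hA2n _ hπ hpπ (by simp [h])
  -- the exponent j0
  have hN0 : ((P.eval 1 : ℤ) : ZMod p) ≠ 0 := by
    intro h
    exact hP1 ((ZMod.intCast_zmod_eq_zero_iff_dvd _ p).mp h)
  obtain ⟨j0, hj0⟩ : ∃ j0 : ℕ, (p : ℤ) ∣ P.eval 1 * j0 + 2 * (derivative P).eval 1 := by
    refine ⟨(-(2 * (((derivative P).eval 1 : ℤ) : ZMod p)) / ((P.eval 1 : ℤ) : ZMod p)).val, ?_⟩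
    rw [← ZMod.intCast_zmod_eq_zero_iff_dvd]
    push_cast
    rw [ZMod.natCast_zmod_val]
    field_simp
    ring
  -- A
  obtain ⟨I, hI'⟩ := apart_pow_ideal p hp2 M hζ F μ A1 A2 hA1 hA2 hI hA10 hA20
  have hζu : IsUnit ζ := hζ.isUnit (by omega)
  have hAI : I ^ p = Ideal.span {ζ ^ j0 * (A1 * A2 ^ (p - 1))} := by
    rw [hI', ← Ideal.span_singleton_mul_span_singleton (ζ ^ j0),
      Ideal.span_singleton_eq_top.mpr (hζu.pow j0), Ideal.top_mul]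
  have hA0 : ∀ Q : Ideal (𝓞 M), Q.IsPrime → (p : 𝓞 M) ∈ Q →
      ζ ^ j0 * (A1 * A2 ^ (p - 1)) ∉ Q := by
    intro Q hQ hpQ h
    rcases hQ.mem_or_mem h with h1 | h1
    · exact hQ.ne_top (Ideal.eq_top_of_isUnit_mem _ h1 (hζu.pow j0))
    · rcases hQ.mem_or_mem h1 with h2 | h2
      · exact hA1n Q hQ hpQ h2
      · exact hA2n Q hQ hpQ (hQ.mem_of_pow_mem _ h2)
  have hAs : ∃ n : ℤ, (ζ - 1) ^ 2 ∣ ζ ^ j0 * (A1 * A2 ^ (p - 1)) - n := by
    refine ⟨(P.eval 1) ^ p, ?_⟩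
    rw [← Ideal.mem_span_singleton, ← Ideal.Quotient.eq_zero_iff_mem]
    set mk := Ideal.Quotient.mk (Ideal.span {(ζ - 1) ^ 2}) with hmk
    have hl : mk (ζ - 1) ^ 2 = 0 := by
      rw [← map_pow, Ideal.Quotient.eq_zero_iff_mem]
      exact Ideal.mem_span_singleton_self _
    have hpR : ((p : ℕ) : 𝓞 M ⧸ (Ideal.span {(ζ - 1) ^ 2})) = 0 := by
      have : mk (p : 𝓞 M) = 0 := by
        rw [Ideal.Quotient.eq_zero_iff_mem, Ideal.mem_span_singleton]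
        exact (pow_dvd_pow _ (by omega)).trans (associated_p p M hζ).symm.dvd
      simpa using this
    have hz : mk ζ = 1 + mk (ζ - 1) := by
      rw [map_sub, map_one]
      ring
    have ha : mk A1 = ((P.eval 1 : ℤ) : 𝓞 M ⧸ (Ideal.span {(ζ - 1) ^ 2}))
        + (((derivative P).eval 1 : ℤ) : 𝓞 M ⧸ (Ideal.span {(ζ - 1) ^ 2})) * mk (ζ - 1) := by
      have h1 : mk (A1 - ((P.eval 1 : ℤ) : 𝓞 M)
        - (((derivative P).eval 1 : ℤ) : 𝓞 M) * (ζ - 1)) = 0 := by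
        rw [Ideal.Quotient.eq_zero_iff_mem, Ideal.mem_span_singleton]
        exact hA1s
      rw [map_sub, map_sub, map_mul, map_intCast, map_intCast] at h1
      linear_combination h1
    have hz' : mk (ζ ^ (p - 1) - 1) = - mk (ζ - 1) := by
      obtain ⟨n, hn⟩ : ∃ n, p - 1 = n + 1 := ⟨p - 2, by omega⟩
      rw [map_sub, map_pow, hz, hn, Wief_sq _ _ hl]
      have h3 : ((n : 𝓞 M ⧸ (Ideal.span {(ζ - 1) ^ 2})) + 1 + 1) = 0 := by
        have h4 : p = n + 1 + 1 := by omega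
        rw [h4] at hpR
        push_cast at hpR
        exact hpR
      simp only [one_pow, mul_one, map_one]
      linear_combination mk (ζ - 1) * h3
    have ha' : mk A2 = ((P.eval 1 : ℤ) : 𝓞 M ⧸ (Ideal.span {(ζ - 1) ^ 2}))
        - (((derivative P).eval 1 : ℤ) : 𝓞 M ⧸ (Ideal.span {(ζ - 1) ^ 2})) * mk (ζ - 1) := by
      have h1 : mk (A2 - ((P.eval 1 : ℤ) : 𝓞 M)
        - (((derivative P).eval 1 : ℤ) : 𝓞 M) * (ζ ^ (p - 1) - 1)) = 0 := by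
        obtain ⟨c, hc⟩ := hA2s
        rw [hc, map_mul, map_pow, hz', neg_sq, hl, zero_mul]
      rw [map_sub, map_sub, map_mul, hz', map_intCast, map_intCast] at h1
      linear_combination h1
    have key := Wief_semi (mk (ζ - 1)) hl p hp3 hpR (P.eval 1) ((derivative P).eval 1) j0 hj0
      (mk ζ) (mk A1) (mk A2) hz ha ha'
    rw [map_sub, map_mul, map_mul, map_pow, map_pow, key, map_intCast]
    push_cast
    ring
  obtain ⟨s, J, hB⟩ := stick_elem p hp2 M hζ b hb hb' _ hA0 hAs I hAI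
  -- reduction modulo q
  obtain ⟨θ, hθ⟩ := Wief_hom p M q hqp
  set Ω := AlgebraicClosure (ZMod q) with hΩ
  set z : Ω := θ ζ with hzdef
  have hzp : z ^ p = 1 := by rw [hzdef, ← map_pow, hζ.pow_eq_one, map_one]
  have hz1 : z ≠ 1 := by
    intro h
    have h1 : aeval ζ (cyclotomic p ℤ) = 0 := by
      have := hζ.isRoot_cyclotomic hpp.pos
      rw [IsRoot.def] at this
      rw [aeval_def, ← eval_map, map_cyclotomic]
      exact this
    have h2 := congrArg θ h1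
    rw [Wief_eval, map_cyclotomic, ← hzdef, h, eval_one_cyclotomic_prime, map_zero] at h2
    have h4 : (q : ℕ) ∣ p := (CharP.cast_eq_zero_iff Ω q p).mp h2
    exact hqp ((Nat.prime_dvd_prime_iff_eq hqq hpp).mp h4)
  have hz : IsPrimitiveRoot z p := by
    have h1 : orderOf z = p := orderOf_eq_prime hzp hz1
    rw [← h1]
    exact IsPrimitiveRoot.orderOf z
  have hθ0 : ∀ x : 𝓞 M, θ x ≠ 0 → θ x ^ (q ^ (p - 1) - 1) = 1 := hθ
  -- exponents
  set u : (M ≃ₐ[ℚ] M) → ℕ := fun σ => (IsCyclotomicExtension.Rat.galEquivZMod p M σ⁻¹).val.val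
    with hu
  have hσζ : ∀ σ : M ≃ₐ[ℚ] M, σ⁻¹ • ζ = ζ ^ (u σ) := fun σ =>
    IsCyclotomicExtension.Rat.galEquivZMod_smul_of_pow_eq p M σ⁻¹ hζ.pow_eq_one
  have hpu : ∀ σ : M ≃ₐ[ℚ] M, (u σ).Coprime p := fun σ =>
    ZMod.val_coe_unit_coprime _
  have hy : ∀ σ : M ≃ₐ[ℚ] M, IsPrimitiveRoot (z ^ (u σ)) p := fun σ => hz.pow_of_coprime _ (hpu σ)
  have hDmap : (F.map (Int.castRingHom Ω)).natDegree ≤ D := natDegree_map_le.trans hD
  have hmm : (Int.castRingHom Ω) = (algebraMap (ZMod q) Ω).comp (Int.castRingHom (ZMod q)) :=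
    RingHom.ext_int _ _
  have hrelΩ : X ^ i * F.map (Int.castRingHom Ω)
      = C (((ε : ℤ) : Ω)) * X ^ j * (F.map (Int.castRingHom Ω)).reflect D := by
    have h1 := congrArg (Polynomial.map (algebraMap (ZMod q) Ω)) hrel
    simp only [Polynomial.map_mul, Polynomial.map_pow, map_X, Polynomial.map_C,
      Polynomial.map_map, ← hmm] at h1
    rw [map_intCast (algebraMap (ZMod q) Ω)] at h1
    rw [h1, reflect_map]
  set e0 : ℕ := j0 + (j + D + (p - 1) * (i + μ)) with he0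
  have hstep : ∀ σ : M ≃ₐ[ℚ] M, θ (σ⁻¹ • (ζ ^ j0 * (A1 * A2 ^ (p - 1))))
      = ((ε : ℤ) : Ω) * (-1) ^ μ * (z ^ (u σ)) ^ e0 * (θ (σ⁻¹ • A2)) ^ p := by
    intro σ
    have hyp : (z ^ (u σ)) ^ p = 1 := (hy σ).pow_eq_one
    have hy1 : z ^ (u σ) ≠ 1 := (hy σ).ne_one (by omega)
    have h1 : aeval (σ⁻¹ • ζ) F = (σ⁻¹ • ζ - 1) ^ μ * (σ⁻¹ • A1) := IsAPart.smul (p := p) hA1 σ⁻¹
    have h2 : aeval (σ⁻¹ • (ζ ^ (p - 1))) F = (σ⁻¹ • (ζ ^ (p - 1)) - 1) ^ μ * (σ⁻¹ • A2) :=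
      IsAPart.smul (p := p) hA2 σ⁻¹
    rw [smul_pow', hσζ] at h2
    rw [hσζ] at h1
    have h3 := congrArg θ h1
    have h4 := congrArg θ h2
    rw [Wief_eval] at h3 h4
    simp only [map_mul, map_pow, map_sub, map_one, ← hzdef] at h3 h4
    have h5 := Wief_key (by omega : p ≠ 0) hyp hy1 D i j μ (F.map (Int.castRingHom Ω)) hDmap
      ((ε : ℤ) : Ω) hrelΩ (θ (σ⁻¹ • A1)) (θ (σ⁻¹ • A2)) h3 h4
    rw [smul_mul', smul_mul', smul_pow', smul_pow', hσζ]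
    simp only [map_mul, map_pow, ← hzdef]
    rw [h5, he0, pow_add]
    obtain ⟨n, hn⟩ : ∃ n, p = n + 1 := ⟨p - 1, by omega⟩
    have h6 : (θ (σ⁻¹ • A2)) ^ p = (θ (σ⁻¹ • A2)) ^ (p - 1) * θ (σ⁻¹ • A2) := by
      rw [← pow_succ, Nat.sub_add_cancel (by omega)]
    rw [h6]
    ring
  have hA2ne : ∀ σ : M ≃ₐ[ℚ] M, θ (σ⁻¹ • A2) ≠ 0 := by
    intro σ h0
    have h2 : aeval (σ⁻¹ • (ζ ^ (p - 1))) F = (σ⁻¹ • (ζ ^ (p - 1)) - 1) ^ μ * (σ⁻¹ • A2) :=
      IsAPart.smul (p := p) hA2 σ⁻¹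
    rw [smul_pow', hσζ] at h2
    have h4 := congrArg θ h2
    rw [Wief_eval, map_mul, h0, mul_zero] at h4
    simp only [map_pow, ← hzdef] at h4
    exact hne _ ((hy σ).pow_of_coprime _ hcop) h4
  -- the equation in Ω
  have hBΩ := congrArg θ hB
  rw [map_prod, Finset.prod_congr rfl (fun σ _ => hstep σ)] at hBΩ
  rw [Finset.prod_mul_distrib, Finset.prod_mul_distrib, Finset.prod_const, Finset.prod_pow,
    Finset.prod_pow, Finset.prod_pow_eq_pow_sum] at hBΩ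
  set κ : ℕ := ∑ σ ∈ TS p M b, u σ with hκdef
  have hε : ((ε : ℤ) : Ω) ^ 2 = 1 := by
    have : ((ε : ℤ) : Ω) ^ 2 = (((ε ^ 2 : ℤˣ) : ℤ) : Ω) := by push_cast; ring
    rw [this, Int.units_sq]
    simp
  have hs : ((s : ℤ) : Ω) ^ 2 = 1 := by
    have : ((s : ℤ) : Ω) ^ 2 = (((s ^ 2 : ℤˣ) : ℤ) : Ω) := by push_cast; ring
    rw [this, Int.units_sq]
    simp
  have hm1 : ((-1 : Ω) ^ μ) ^ 2 = 1 := by
    rw [← pow_mul, mul_comm, pow_mul]
    simp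
  set R : Ω := ∏ σ ∈ TS p M b, θ (σ⁻¹ • A2) with hR
  have hRθ : R = θ (∏ σ ∈ TS p M b, σ⁻¹ • A2) := by rw [map_prod]
  have hR0 : R ≠ 0 := Finset.prod_ne_zero_iff.mpr fun σ _ => hA2ne σ
  have hRN : R ^ (q ^ (p - 1) - 1) = 1 := by
    rw [hRθ]
    exact hθ _ (by rw [← hRθ]; exact hR0)
  -- q ^ (p-1) - 1 = p * N'
  have hqp' : (q : ZMod p) ≠ 0 := by
    intro h
    rw [ZMod.natCast_eq_zero_iff] at h
    exact hqp ((Nat.prime_dvd_prime_iff_eq hpp hqq).mp h).symm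
  obtain ⟨N', hN'⟩ : p ∣ q ^ (p - 1) - 1 := by
    have h1 : ((q ^ (p - 1) : ℕ) : ZMod p) = ((1 : ℕ) : ZMod p) := by
      push_cast
      exact ZMod.pow_card_sub_one_eq_one hqp'
    rw [ZMod.natCast_eq_natCast_iff] at h1
    exact (Nat.modEq_iff_dvd' (Nat.one_le_pow _ _ hqq.pos)).mp h1.symm
  have hpN' : ¬ p ∣ N' := by
    rintro ⟨c, hc⟩
    apply hWq
    rw [hN', hc]
    exact ⟨c, by ring⟩
  have hBΩ' : ((ε : ℤ) : Ω) ^ (TS p M b).card * ((-1) ^ μ) ^ (TS p M b).card * (z ^ κ) ^ e0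
      * R ^ p = ((s : ℤ) : Ω) * θ J ^ p := by
    simp only [map_mul, map_pow, map_intCast, mul_pow] at hBΩ
    exact hBΩ
  have hJ0 : θ J ≠ 0 := by
    intro h
    rw [h, zero_pow (by omega), mul_zero] at hBΩ'
    have hz0 : z ≠ 0 := hz.ne_zero (by omega)
    have hε0 : ((ε : ℤ) : Ω) ≠ 0 := by
      intro h0
      rw [h0] at hε
      simp at hε
    have hm10 : (-1 : Ω) ≠ 0 := by simp
    exact (mul_ne_zero (mul_ne_zero (mul_ne_zero (pow_ne_zero _ hε0)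
      (pow_ne_zero _ (pow_ne_zero _ hm10))) (pow_ne_zero _ (pow_ne_zero _ hz0)))
      (pow_ne_zero _ hR0)) hBΩ'
  have hJN : θ J ^ (q ^ (p - 1) - 1) = 1 := hθ _ hJ0
  have hfin : z ^ (κ * e0 * (2 * N')) = 1 := by
    have h1 := congrArg (fun w => w ^ (2 * N')) hBΩ'
    simp only [mul_pow] at h1
    have e1 : (((ε : ℤ) : Ω) ^ (TS p M b).card) ^ (2 * N') = 1 := by
      rw [← pow_mul, mul_left_comm, pow_mul, hε, one_pow]
    have e2 : (((-1 : Ω) ^ μ) ^ (TS p M b).card) ^ (2 * N') = 1 := by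
      rw [← pow_mul, mul_left_comm, pow_mul, hm1, one_pow]
    have e3 : (R ^ p) ^ (2 * N') = 1 := by
      rw [← pow_mul, mul_left_comm, ← hN', mul_comm, pow_mul, hRN, one_pow]
    have e4 : (((s : ℤ) : Ω)) ^ (2 * N') = 1 := by
      rw [pow_mul, hs, one_pow]
    have e5 : (θ J ^ p) ^ (2 * N') = 1 := by
      rw [← pow_mul, mul_left_comm, ← hN', mul_comm, pow_mul, hJN, one_pow]
    rw [e1, e2, e3, e4, e5] at h1
    simp only [one_mul, mul_one] at h1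
    rw [← pow_mul, ← pow_mul] at h1
    rw [mul_assoc]
    exact h1
  have hdvd : p ∣ κ * e0 * (2 * N') := hz.dvd_of_pow_eq_one _ hfin
  have hκp : ¬ p ∣ κ := by
    intro h
    apply hκ
    have h1 : ((κ : ℕ) : ZMod p) = 0 := (ZMod.natCast_eq_zero_iff _ _).mpr h
    rw [← h1, hκdef]
    push_cast
    symm
    refine Finset.sum_bij (fun σ _ => IsCyclotomicExtension.Rat.galEquivZMod p M σ) ?_ ?_ ?_ ?_
    · intro σ hσ
      simpa [TS] using hσ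
    · intro σ _ τ _ h
      exact (IsCyclotomicExtension.Rat.galEquivZMod p M).injective h
    · intro t ht
      refine ⟨(IsCyclotomicExtension.Rat.galEquivZMod p M).symm t, ?_,
        MulEquiv.apply_symm_apply _ t⟩
      simp only [TS, Finset.mem_filter, Finset.mem_univ, true_and]
      rw [MulEquiv.apply_symm_apply]
      exact (Finset.mem_filter.mp ht).2
    · intro σ _
      rw [hu]
      simp only [map_inv, ZMod.natCast_val, ZMod.cast_id', id_eq]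
      exact Units.val_inv_eq_inv_val _
  have he0p : p ∣ e0 := by
    rcases (hpp.dvd_mul).mp hdvd with h1 | h1
    · rcases (hpp.dvd_mul).mp h1 with h2 | h2
      · exact absurd h2 hκp
      · exact h2
    · rcases (hpp.dvd_mul).mp h1 with h2 | h2
      · exfalso
        have := Nat.le_of_dvd (by norm_num) h2
        omega
      · exact absurd h2 hpN'
  -- conclusion
  have h1 : ((e0 : ℕ) : ZMod p) = 0 := (ZMod.natCast_eq_zero_iff _ _).mpr he0p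
  have h2 : (((P.eval 1 * j0 + 2 * (derivative P).eval 1 : ℤ)) : ZMod p) = 0 :=
    (ZMod.intCast_zmod_eq_zero_iff_dvd _ p).mpr hj0
  rw [← ZMod.intCast_zmod_eq_zero_iff_dvd]
  rw [he0] at h1
  have h3 : ((p - 1 : ℕ) : ZMod p) = -1 := by
    rw [Nat.cast_sub (by omega)]
    simp
  push_cast at h1 h2 ⊢
  rw [h3] at h1
  linear_combination h2 - ((P.eval 1 : ℤ) : ZMod p) * h1

end H9FC
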