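import Pool.Agent.H9.FC.PartI
import Pool.Agent.H9.FC.Wief
import Pool.Agent.H9.FC.LocDeg
import Pool.Agent.H9.FC.ModQ

/-!
# Project FC9, module WiefFC

The trace relation `∑ (ψ_i a - ψ_i b)/ψ_i c = m_a - m_b` in characteristic `p` (division by `0` gives
`0`, so the sum is over the `i` with `ψ_i c ≠ 0`).

PROOF. `F = nf K a b`, `d = [K:ℚ]`, `M = CyclotomicField p ℚ`, `ζ` a primitive `p`-th root of unity of
`𝓞 M`. `exists_pow_ideal` gives `hI`. Let `φ` be a reduced family at `q` with values in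
`AlgebraicClosure (ZMod q)` (`exists_redFam`), and apply `modq_rel`: the hypotheses say for every
`i`, with `P = ker φ_i` (a prime containing `q`): not both `a, b ∈ P` (`cop_hom`), and `a ∈ P` or `b ∈ P`
or `a² - b² ∈ P` or `a^(q+1) - b^(q+1) ∈ P`. `Nat.card {i // φ_i a = 0} = mm K q a` by
`card_zero_eq_mm`. `hne`: `F(z) = ∏ (φ_i a + z φ_i b)` (`redFam_eval`) is not `0` for a primitive
`p`-th root of unity `z`: `φ_i a = - z φ_i b` is impossible if one of `φ_i a`, `φ_i b` is `0` (the other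
is not), and otherwise `x = φ_i a/φ_i b = -z` satisfies `x^(2(q+1)) = 1`, so `z^(2(q+1)) = 1`,
`p ∣ 2 (q+1)`, excluded by `hH` in this case.
Modulo `p`: let `μ` be the number of `i` with `ψ_i c = 0`; there `ψ_i b = - ψ_i a ≠ 0` and the factor
`ψ_i a + X ψ_i b` is `- ψ_i a (X - 1)`; the others do not vanish at `1`. So `F ≡ (X-1)^μ P` modulo `p`,
`P(1) ≠ 0`, for some `P ∈ ℤ[X]` (`(X-1)^μ` divides `F` in `Ω[X]`, so in `(ZMod p)[X]`, lift the quotient),
and in `Ω[X]`, `P = u ∏' (ψ_i a + X ψ_i b)`, the product over the `i` with `ψ_i c ≠ 0`, `u ≠ 0`.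
`μ + 2 ≤ d + 2 < p`. Now `wief` with `D = d`, `i = mm K q b`, `j = mm K q a` gives
`2 P'(1) = (m_a + d - m_b - μ) P(1)` in `Ω`, and by the product rule
`P'(1) = P(1) ∑' ψ_i b/(ψ_i a + ψ_i b) = - P(1) ∑' ψ_i b/ψ_i c`. So
`- 2 ∑' ψ_i b/ψ_i c = m_a - m_b + d - μ`, and `d - μ = - ∑' (ψ_i a + ψ_i b)/ψ_i c`; subtract.
-/

namespace H9FC

open Polynomial NumberField

private theorem WiefFC_split {Ω ι : Type*} [Field Ω]
    (a b c : ι → Ω) (h : ∀ i, a i + b i + c i = 0)
    (h2 : ∀ i, ¬ (c i = 0 ∧ a i = 0)) (S : Finset ι) :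
    (∀ i ∈ S, c i = 0) → ∃ u : Ω, u ≠ 0 ∧
      ∏ i ∈ S, (C (a i) + X * C (b i)) = C u * (X - C 1) ^ S.card := by
  classical
  induction S using Finset.induction_on with
  | empty => exact fun _ => ⟨1, one_ne_zero, by simp⟩
  | insert i S hi ih =>
    intro hS
    obtain ⟨u, hu, h1⟩ := ih fun j hj => hS j (Finset.mem_insert_of_mem hj)
    have hc : c i = 0 := hS i (Finset.mem_insert_self _ _)
    have ha : a i ≠ 0 := fun ha => h2 i ⟨hc, ha⟩
    have hba : b i = - a i := by
      have := h i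
      rw [hc] at this
      linear_combination this
    refine ⟨- a i * u, mul_ne_zero (neg_ne_zero.mpr ha) hu, ?_⟩
    rw [Finset.prod_insert hi, h1, hba, Finset.card_insert_of_notMem hi]
    simp only [map_mul, map_neg, map_one]
    ring

private theorem WiefFC_deriv {Ω ι : Type*} [Field Ω] (a b : ι → Ω) (S : Finset ι)
    (hS : ∀ i ∈ S, a i + b i ≠ 0) :
    (derivative (∏ i ∈ S, (C (a i) + X * C (b i)))).eval 1
      = (∏ i ∈ S, (a i + b i)) * ∑ i ∈ S, b i / (a i + b i) := by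
  classical
  induction S using Finset.induction_on with
  | empty => simp
  | insert i S hi ih =>
    have h1 := ih fun j hj => hS j (Finset.mem_insert_of_mem hj)
    have h0 : a i + b i ≠ 0 := hS i (Finset.mem_insert_self _ _)
    rw [Finset.prod_insert hi, Finset.prod_insert hi, Finset.sum_insert hi, derivative_mul,
      eval_add, eval_mul, eval_mul, h1, eval_prod]
    simp only [eval_add, eval_C, eval_mul, eval_X, derivative_add, derivative_C, derivative_mul,
      derivative_X, one_mul, mul_zero, add_zero, zero_add]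
    field_simp

theorem wief_fc (K : Type*) [Field K] [NumberField K] (p : ℕ) [Fact p.Prime] (hp2 : p ≠ 2)
    (hd : Module.finrank ℚ K + 2 < p) (q : ℕ) [Fact q.Prime]
    (hqp : q ≠ p) (hWq : ¬ p ^ 2 ∣ q ^ (p - 1) - 1) (a b c : 𝓞 K) (h : FSol K p a b c)
    (hcp : CopAt K p a b c) (hcq : CopAt K q a b c)
    (hH : ∀ P : Ideal (𝓞 K), P.IsPrime → (q : 𝓞 K) ∈ P →
      a ∈ P ∨ b ∈ P ∨ (¬ p ∣ 2 * (q + 1) ∧ (a ^ 2 - b ^ 2 ∈ P ∨ a ^ (q + 1) - b ^ (q + 1) ∈ P)))
    {Ω : Type*} [Field Ω] [CharP Ω p] {ψ : Fin (Module.finrank ℚ K) → (𝓞 K →+* Ω)}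
    (hψ : IsRedFam ψ) :
    ∑ i, (ψ i a - ψ i b) / ψ i c = (mm K q a : Ω) - (mm K q b : Ω) := by
  classical
  have hpp : p.Prime := Fact.out
  have hqq : q.Prime := Fact.out
  haveI : IsCyclotomicExtension {p} ℚ (CyclotomicField p ℚ) :=
    CyclotomicField.isCyclotomicExtension p ℚ
  -- the family at p
  have hsum : ∀ i, ψ i a + ψ i b + ψ i c = 0 := fun i => fsol_hom h (ψ i)
  have hcop : ∀ i, ¬ (ψ i a = 0 ∧ ψ i b = 0) ∧ ¬ (ψ i b = 0 ∧ ψ i c = 0) ∧
      ¬ (ψ i c = 0 ∧ ψ i a = 0) := fun i => cop_hom h hcp (ψ i)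
  set S0 : Finset (Fin (Module.finrank ℚ K)) := Finset.univ.filter (fun i => ψ i c = 0) with hS0
  set S1 : Finset (Fin (Module.finrank ℚ K)) := Finset.univ.filter (fun i => ¬ ψ i c = 0) with hS1
  obtain ⟨u, hu, e1⟩ := WiefFC_split (fun i => ψ i a) (fun i => ψ i b) (fun i => ψ i c) hsum
    (fun i => (hcop i).2.2) S0 (fun i hi => (Finset.mem_filter.mp hi).2)
  have hS1c : ∀ i ∈ S1, ψ i c ≠ 0 := fun i hi => (Finset.mem_filter.mp hi).2
  have hS1ab : ∀ i ∈ S1, ψ i a + ψ i b ≠ 0 := by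
    intro i hi h0
    apply hS1c i hi
    have := hsum i
    rw [h0, zero_add] at this
    exact this
  set G : Polynomial Ω := ∏ i ∈ S1, (C (ψ i a) + X * C (ψ i b)) with hG
  have hFΩ : (nf K a b).map (Int.castRingHom Ω) = C u * (X - C 1) ^ S0.card * G := by
    rw [hψ a b, ← Finset.prod_filter_mul_prod_filter_not Finset.univ (fun i => ψ i c = 0), ← hS0,
      ← hS1, e1]
  have hG1 : G.eval 1 = ∏ i ∈ S1, (ψ i a + ψ i b) := by
    rw [hG, eval_prod]
    refine Finset.prod_congr rfl fun i _ => ?_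
    simp
  have hG10 : G.eval 1 ≠ 0 := by
    rw [hG1]
    exact Finset.prod_ne_zero_iff.mpr hS1ab
  have hGne : G ≠ 0 := by
    intro h0
    rw [h0] at hG10
    simp at hG10
  let g : ZMod p →+* Ω := ZMod.castHom dvd_rfl Ω
  have hg : Function.Injective g := g.injective
  have hgg : g.comp (Int.castRingHom (ZMod p)) = Int.castRingHom Ω := RingHom.ext_int _ _
  have hFne : (nf K a b).map (Int.castRingHom Ω) ≠ 0 := by
    rw [hFΩ]
    exact mul_ne_zero (mul_ne_zero (C_ne_zero.mpr hu) (pow_ne_zero _ (X_sub_C_ne_zero 1))) hGne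
  have hFp : (nf K a b).map (Int.castRingHom (ZMod p)) ≠ 0 := by
    intro h0
    apply hFne
    rw [← hgg, ← Polynomial.map_map, h0, Polynomial.map_zero]
  have hmult : ((nf K a b).map (Int.castRingHom (ZMod p))).rootMultiplicity 1 = S0.card := by
    rw [eq_rootMultiplicity_map hg, map_one, Polynomial.map_map, hgg, hFΩ,
      rootMultiplicity_mul (hFΩ ▸ hFne), rootMultiplicity_mul
        (mul_ne_zero (C_ne_zero.mpr hu) (pow_ne_zero _ (X_sub_C_ne_zero 1))), rootMultiplicity_C,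
      rootMultiplicity_X_sub_C_pow, rootMultiplicity_eq_zero hG10]
    ring
  obtain ⟨P0, hP0, hP0'⟩ := exists_eq_pow_rootMultiplicity_mul_and_not_dvd _ hFp 1
  rw [hmult] at hP0
  obtain ⟨P, hP⟩ := Polynomial.map_surjective (Int.castRingHom (ZMod p))
    (ZMod.intCast_surjective) P0
  have hF : (nf K a b).map (Int.castRingHom (ZMod p))
      = (X - 1) ^ S0.card * P.map (Int.castRingHom (ZMod p)) := by
    rw [hP, hP0, C_1]
  have hP1 : ¬ (p : ℤ) ∣ P.eval 1 := by
    intro h0
    apply hP0'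
    rw [dvd_iff_isRoot, IsRoot.def, ← hP]
    have h1 := (ZMod.intCast_zmod_eq_zero_iff_dvd (P.eval 1) p).mpr h0
    rw [eval_map, ← h1]
    have := eval₂_at_one (p := P) (Int.castRingHom (ZMod p))
    simpa using this
  have hPΩ : P.map (Int.castRingHom Ω) = C u * G := by
    have h1 := congrArg (Polynomial.map g) hF
    simp only [Polynomial.map_mul, Polynomial.map_pow, Polynomial.map_sub, Polynomial.map_X,
      Polynomial.map_one, Polynomial.map_map, hgg, hFΩ] at h1
    have hne : (X - 1 : Polynomial Ω) ^ S0.card ≠ 0 := by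
      rw [← C_1]
      exact pow_ne_zero _ (X_sub_C_ne_zero 1)
    apply mul_left_cancel₀ hne
    rw [← h1, C_1]
    ring
  -- the family at q
  obtain ⟨φ, hφ⟩ := exists_redFam K q (AlgebraicClosure (ZMod q))
  have hker : ∀ i, (RingHom.ker (φ i)).IsPrime := fun i => RingHom.ker_isPrime _
  have hqker : ∀ i, (q : 𝓞 K) ∈ RingHom.ker (φ i) := by
    intro i
    rw [RingHom.mem_ker, map_natCast]
    exact CharP.cast_eq_zero _ q
  have hcopq : ∀ i, ¬ (φ i a = 0 ∧ φ i b = 0) := fun i => (cop_hom h hcq (φ i)).1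
  have hHq : ∀ i, φ i a = 0 ∨ φ i b = 0 ∨ (¬ p ∣ 2 * (q + 1) ∧
      (φ i a ^ 2 = φ i b ^ 2 ∨ φ i a ^ (q + 1) = φ i b ^ (q + 1))) := by
    intro i
    have := hH _ (hker i) (hqker i)
    simpa only [RingHom.mem_ker, map_sub, map_pow, sub_eq_zero] using this
  obtain ⟨ε, hε⟩ := modq_rel q hφ a b hcopq (fun i => by
    rcases hHq i with h1 | h1 | h1
    · exact Or.inl h1
    · exact Or.inr (Or.inl h1)
    · exact Or.inr (Or.inr h1.2))
  rw [card_zero_eq_mm q hφ, card_zero_eq_mm q hφ] at hε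
  have hne : ∀ z : AlgebraicClosure (ZMod q), IsPrimitiveRoot z p →
      ((nf K a b).map (Int.castRingHom (AlgebraicClosure (ZMod q)))).eval z ≠ 0 := by
    intro z hz
    rw [redFam_eval hφ]
    refine Finset.prod_ne_zero_iff.mpr fun i _ h0 => ?_
    have hz0 : z ≠ 0 := hz.ne_zero hpp.ne_zero
    rcases hHq i with h1 | h1 | ⟨h1, h2⟩
    · rw [h1, zero_add] at h0
      rcases mul_eq_zero.mp h0 with h3 | h3
      · exact hz0 h3
      · exact hcopq i ⟨h1, h3⟩
    · rw [h1, mul_zero, add_zero] at h0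
      exact hcopq i ⟨h0, h1⟩
    · have ha : φ i a = - (z * φ i b) := by linear_combination h0
      have hb0 : φ i b ≠ 0 := by
        intro hb0
        rw [hb0, mul_zero, neg_zero] at ha
        exact hcopq i ⟨ha, hb0⟩
      apply h1
      rw [← hz.pow_eq_one_iff_dvd]
      rcases h2 with h2 | h2
      · rw [ha, neg_sq, mul_pow] at h2
        have h3 : z ^ 2 = 1 := by
          have := mul_right_cancel₀ (pow_ne_zero 2 hb0) (h2.trans (one_mul _).symm)
          exact this
        rw [pow_mul, h3, one_pow]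
      · have h3 : ((-1) ^ (q + 1) * z ^ (q + 1)) = (1 : AlgebraicClosure (ZMod q)) := by
          have h4 : (-1) ^ (q + 1) * z ^ (q + 1) * φ i b ^ (q + 1) = 1 * φ i b ^ (q + 1) := by
            have h2' := h2
            rw [ha, neg_pow (z * φ i b), mul_pow z] at h2'
            rw [one_mul, mul_assoc]
            exact h2'
          exact mul_right_cancel₀ (pow_ne_zero _ hb0) h4
        have h5 := congrArg (fun w => w ^ 2) h3
        simp only [mul_pow, one_pow, ← pow_mul] at h5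
        rw [mul_comm (q + 1) 2, pow_mul (-1 : AlgebraicClosure (ZMod q)) 2] at h5
        simpa using h5
  -- Wieferich
  have hdim : S0.card ≤ Module.finrank ℚ K := by
    have := Finset.card_le_univ S0
    simpa using this
  obtain ⟨ζ, hζ⟩ : ∃ ζ : 𝓞 (CyclotomicField p ℚ), IsPrimitiveRoot ζ p :=
    ⟨(IsCyclotomicExtension.zeta_spec p ℚ (CyclotomicField p ℚ)).toInteger,
      (IsCyclotomicExtension.zeta_spec p ℚ (CyclotomicField p ℚ)).toInteger_isPrimitiveRoot⟩
  have hI := (exists_pow_ideal K p hp2 (by omega) a b c h (CyclotomicField p ℚ) hζ).2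
  have key := wief p hp2 (CyclotomicField p ℚ) hζ (nf K a b) P S0.card (by omega) hF hP1 hI q hqp
    hWq (Module.finrank ℚ K) (nf_natDegree_le K a b) (mm K q b) (mm K q a) ε hε hne
  have key2 : ((2 * (derivative P).eval 1
      - ((mm K q a : ℤ) + Module.finrank ℚ K - mm K q b - S0.card) * P.eval 1 : ℤ) : Ω) = 0 :=
    (CharP.intCast_eq_zero_iff Ω p _).mpr key
  have hP1Ω : ((P.eval 1 : ℤ) : Ω) = u * ∏ i ∈ S1, (ψ i a + ψ i b) := by
    have h1 := congrArg (eval 1) hPΩ
    rw [eval_mul, eval_C, hG1, eval_map] at h1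
    rw [← h1]
    have := eval₂_at_one (p := P) (Int.castRingHom Ω)
    simpa using this.symm
  have hP2Ω : (((derivative P).eval 1 : ℤ) : Ω)
      = u * ((∏ i ∈ S1, (ψ i a + ψ i b)) * ∑ i ∈ S1, ψ i b / (ψ i a + ψ i b)) := by
    have h1 := congrArg (fun w => (derivative w).eval 1) hPΩ
    simp only [derivative_map, derivative_mul, derivative_C, zero_mul, zero_add, eval_mul,
      eval_C] at h1
    rw [hG, WiefFC_deriv (fun i => ψ i a) (fun i => ψ i b) S1 hS1ab, eval_map] at h1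
    rw [← h1]
    have := eval₂_at_one (p := derivative P) (Int.castRingHom Ω)
    simpa using this.symm
  have hprod : ∏ i ∈ S1, (ψ i a + ψ i b) ≠ 0 := by
    rw [← hG1]
    exact hG10
  have hcard : (S0.card : Ω) + (S1.card : Ω) = (Module.finrank ℚ K : Ω) := by
    have h1 : S0.card + S1.card = Module.finrank ℚ K := by
      have := Finset.card_filter_add_card_filter_not (s := (Finset.univ : Finset (Fin (Module.finrank ℚ K)))) (fun i => ψ i c = 0)
      simpa using this
    have h2 := congrArg (Nat.cast : ℕ → Ω) h1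
    rw [Nat.cast_add] at h2
    exact h2
  have hmain : 2 * ∑ i ∈ S1, ψ i b / (ψ i a + ψ i b)
      = (mm K q a : Ω) + Module.finrank ℚ K - mm K q b - S0.card := by
    push_cast at key2
    rw [hP1Ω, hP2Ω] at key2
    have h1 : (u * ∏ i ∈ S1, (ψ i a + ψ i b)) ≠ 0 := mul_ne_zero hu hprod
    apply mul_left_cancel₀ h1
    linear_combination key2
  have e3 : ∑ i, (ψ i a - ψ i b) / ψ i c = ∑ i ∈ S1, (ψ i a - ψ i b) / ψ i c := by
    rw [← Finset.sum_filter_add_sum_filter_not Finset.univ (fun i => ψ i c = 0), ← hS0, ← hS1]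
    have : ∑ i ∈ S0, (ψ i a - ψ i b) / ψ i c = 0 := by
      refine Finset.sum_eq_zero fun i hi => ?_
      rw [(Finset.mem_filter.mp hi).2, div_zero]
    rw [this, zero_add]
  have e4 : ∑ i ∈ S1, (ψ i a - ψ i b) / ψ i c
      = 2 * (∑ i ∈ S1, ψ i b / (ψ i a + ψ i b)) - S1.card := by
    rw [Finset.mul_sum, Finset.cast_card, ← Finset.sum_sub_distrib]
    refine Finset.sum_congr rfl fun i hi => ?_
    have h1 := hS1ab i hi
    have h2 : ψ i c = - (ψ i a + ψ i b) := by linear_combination hsum i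
    rw [h2]
    field_simp
    ring
  rw [e3, e4, hmain]
  linear_combination -hcard

end H9FC
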